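import Mathlib
import Pool.Agent.Lib.MP_6d896a_gt.FP.Tail

/-!
Rotation invariant measures on spaces of matrices: definitions and first properties.
-/

set_option autoImplicit false
set_option linter.unusedSectionVars false

namespace Pool.Agent.Lib.MP_6d896a_gt.OM

open MeasureTheory ProbabilityTheory Matrix Set Filter
open scoped ENNReal Topology

section defs

variable {r ι : Type*} [Fintype r] [Fintype ι]

/-- the matrix attached to a vector of the Euclidean space of matrices -/
def mt : EuclideanSpace ℝ (r × ι) →ₗ[ℝ] Matrix r ι ℝ where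
  toFun x := Matrix.of fun i j => x (i, j)
  map_add' x y := by ext i j; simp
  map_smul' c x := by ext i j; simp

/-- the vector attached to a matrix -/
def me : Matrix r ι ℝ →ₗ[ℝ] EuclideanSpace ℝ (r × ι) where
  toFun A := WithLp.toLp 2 fun p => A p.1 p.2
  map_add' A B := by ext p; simp
  map_smul' c A := by ext p; simp

@[simp] lemma mt_apply (x : EuclideanSpace ℝ (r × ι)) (i : r) (j : ι) : mt x i j = x (i, j) := rfl

@[simp] lemma me_apply (A : Matrix r ι ℝ) (p : r × ι) : me A p = A p.1 p.2 := rfl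

@[simp] lemma me_mt (x : EuclideanSpace ℝ (r × ι)) : me (mt x) = x := by ext p; simp

@[simp] lemma mt_me (A : Matrix r ι ℝ) : mt (me A) = A := by ext i j; simp

/-- left multiplication by a matrix -/
def act (U : Matrix r r ℝ) : EuclideanSpace ℝ (r × ι) →ₗ[ℝ] EuclideanSpace ℝ (r × ι) where
  toFun x := me (U * mt x)
  map_add' x y := by rw [map_add, Matrix.mul_add, map_add]
  map_smul' c x := by rw [map_smul, Matrix.mul_smul, map_smul]; rfl

lemma act_def (U : Matrix r r ℝ) (x : EuclideanSpace ℝ (r × ι)) : act U x = me (U * mt x) := rfl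

lemma act_apply (U : Matrix r r ℝ) (x : EuclideanSpace ℝ (r × ι)) (i : r) (j : ι) :
    act U x (i, j) = ∑ k, U i k * x (k, j) := by
  simp [act_def, Matrix.mul_apply]

@[simp] lemma mt_act (U : Matrix r r ℝ) (x : EuclideanSpace ℝ (r × ι)) :
    mt (act U x) = U * mt x := by simp [act_def]

lemma act_mul (U V : Matrix r r ℝ) (x : EuclideanSpace ℝ (r × ι)) :
    act (U * V) x = act U (act V x) := by
  simp [act_def, Matrix.mul_assoc]

@[simp] lemma act_one [DecidableEq r] (x : EuclideanSpace ℝ (r × ι)) :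
    act (1 : Matrix r r ℝ) x = x := by
  simp [act_def]

lemma inner_eq_sum (x y : EuclideanSpace ℝ (r × ι)) :
    inner ℝ x y = ∑ i, ∑ j, x (i, j) * y (i, j) := by
  rw [PiLp.inner_apply, Fintype.sum_prod_type]
  refine Finset.sum_congr rfl fun i _ => Finset.sum_congr rfl fun j _ => ?_
  simp [mul_comm]

lemma inner_eq_trace (x y : EuclideanSpace ℝ (r × ι)) :
    inner ℝ x y = ((mt x)ᵀ * mt y).trace := by
  rw [inner_eq_sum, Finset.sum_comm]
  simp [Matrix.trace, Matrix.mul_apply]

lemma norm_sq_eq_sum (x : EuclideanSpace ℝ (r × ι)) :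
    ‖x‖ ^ 2 = ∑ i, ∑ j, x (i, j) ^ 2 := by
  rw [← real_inner_self_eq_norm_sq, inner_eq_sum]
  simp [sq]

lemma inner_act (U : Matrix r r ℝ) (x y : EuclideanSpace ℝ (r × ι)) :
    inner ℝ (act U x) y = inner ℝ x (act Uᵀ y) := by
  rw [inner_eq_trace, inner_eq_trace, mt_act, mt_act, Matrix.transpose_mul, Matrix.mul_assoc]

lemma continuous_act : Continuous fun p : Matrix r r ℝ × EuclideanSpace ℝ (r × ι) =>
    act p.1 p.2 := by
  have h : (fun p : Matrix r r ℝ × EuclideanSpace ℝ (r × ι) => act p.1 p.2) =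
      fun p : Matrix r r ℝ × EuclideanSpace ℝ (r × ι) =>
        WithLp.toLp 2 (fun q : r × ι => ∑ k, p.1 q.1 k * p.2 (k, q.2)) := by
    funext p
    ext q
    exact act_apply _ _ _ _
  rw [h]
  refine (PiLp.continuous_toLp 2 _).comp (continuous_pi fun q => ?_)
  fun_prop

end defs

section group

variable (r : Type*) [Fintype r] [DecidableEq r]

/-- the exponentials of skew symmetric matrices -/
def genSet : Set (Matrix.orthogonalGroup r ℝ) :=
  {u | ∃ Z : Matrix r r ℝ, Zᵀ = -Z ∧ (u : Matrix r r ℝ) = NormedSpace.exp Z}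

/-- the closed group generated by the exponentials of skew symmetric matrices -/
noncomputable def RotG : Subgroup (Matrix.orthogonalGroup r ℝ) :=
  (Subgroup.closure (genSet r)).topologicalClosure

variable {r}

lemma orth_left (u : Matrix.orthogonalGroup r ℝ) :
    (u : Matrix r r ℝ)ᵀ * (u : Matrix r r ℝ) = 1 := by
  have := (Matrix.mem_orthogonalGroup_iff' r ℝ).mp u.2
  simpa [Matrix.star_eq_conjTranspose] using this

lemma orth_right (u : Matrix.orthogonalGroup r ℝ) :
    (u : Matrix r r ℝ) * (u : Matrix r r ℝ)ᵀ = 1 := by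
  have := (Matrix.mem_orthogonalGroup_iff r ℝ).mp u.2
  simpa [Matrix.star_eq_conjTranspose] using this

lemma coe_inv_orth (u : Matrix.orthogonalGroup r ℝ) :
    ((u⁻¹ : Matrix.orthogonalGroup r ℝ) : Matrix r r ℝ) = (u : Matrix r r ℝ)ᵀ := by
  have h : ((u⁻¹ : Matrix.orthogonalGroup r ℝ) : Matrix r r ℝ) = star (u : Matrix r r ℝ) := rfl
  rw [h, Matrix.star_eq_conjTranspose]
  simp

lemma exp_skew_mul_transpose {Z : Matrix r r ℝ} (hZ : Zᵀ = -Z) :
    NormedSpace.exp Z * (NormedSpace.exp Z)ᵀ = 1 := by
  rw [← Matrix.exp_transpose, hZ, ← Matrix.exp_add_of_commute Z (-Z) (Commute.neg_right (Commute.refl Z))]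
  simp

lemma exp_skew_mem {Z : Matrix r r ℝ} (hZ : Zᵀ = -Z) :
    NormedSpace.exp Z ∈ Matrix.orthogonalGroup r ℝ := by
  rw [Matrix.mem_orthogonalGroup_iff]
  exact exp_skew_mul_transpose hZ

/-- the rotation `exp Z` -/
noncomputable def expG (Z : Matrix r r ℝ) (hZ : Zᵀ = -Z) : Matrix.orthogonalGroup r ℝ :=
  ⟨NormedSpace.exp Z, exp_skew_mem hZ⟩

lemma expG_mem (Z : Matrix r r ℝ) (hZ : Zᵀ = -Z) : expG Z hZ ∈ RotG r :=
  Subgroup.le_topologicalClosure _ (Subgroup.subset_closure ⟨Z, hZ, rfl⟩)

lemma det_exp_skew {Z : Matrix r r ℝ} (hZ : Zᵀ = -Z) : (NormedSpace.exp Z).det = 1 := by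
  have h1 : (NormedSpace.exp Z).det * (NormedSpace.exp Z).det = 1 := by
    have := congrArg Matrix.det (exp_skew_mul_transpose hZ)
    rwa [Matrix.det_mul, Matrix.det_transpose, Matrix.det_one] at this
  have h2 : NormedSpace.exp Z = NormedSpace.exp ((1 / 2 : ℝ) • Z) * NormedSpace.exp ((1 / 2 : ℝ) • Z) := by
    rw [← Matrix.exp_add_of_commute _ _ (Commute.refl _), ← add_smul]
    norm_num
  have h3 : 0 ≤ (NormedSpace.exp Z).det := by
    rw [h2, Matrix.det_mul]; exact mul_self_nonneg _
  nlinarith

lemma det_rot {u : Matrix.orthogonalGroup r ℝ} (hu : u ∈ RotG r) :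
    (u : Matrix r r ℝ).det = 1 := by
  let K : Subgroup (Matrix.orthogonalGroup r ℝ) :=
    { carrier := {u | (u : Matrix r r ℝ).det = 1}
      mul_mem' := by
        intro a b ha hb
        simp only [mem_ofPred_eq] at ha hb ⊢
        rw [Submonoid.coe_mul, Matrix.det_mul, ha, hb, one_mul]
      one_mem' := by simp
      inv_mem' := by
        intro a ha
        simp only [mem_ofPred_eq] at ha ⊢
        rw [coe_inv_orth, Matrix.det_transpose, ha] }
  have hcl : IsClosed (K : Set (Matrix.orthogonalGroup r ℝ)) := by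
    have : Continuous fun u : Matrix.orthogonalGroup r ℝ => (u : Matrix r r ℝ).det :=
      Continuous.matrix_det continuous_subtype_val
    exact isClosed_eq this continuous_const
  have hle : RotG r ≤ K := by
    refine Subgroup.topologicalClosure_minimal _ ?_ hcl
    rw [Subgroup.closure_le]
    rintro u ⟨Z, hZ, hu⟩
    change (u : Matrix r r ℝ).det = 1
    rw [hu]
    exact det_exp_skew hZ
  exact hle hu

/-- an invariance property of all exponentials passes to the group -/
lemma rot_induction {P : Matrix.orthogonalGroup r ℝ → Prop} (hcl : IsClosed {u | P u})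
    (hexp : ∀ (Z : Matrix r r ℝ) (hZ : Zᵀ = -Z), P (expG Z hZ)) (hone : P 1)
    (hmul : ∀ u v, P u → P v → P (u * v)) (hinv : ∀ u, P u → P u⁻¹)
    {u : Matrix.orthogonalGroup r ℝ} (hu : u ∈ RotG r) : P u := by
  let K : Subgroup (Matrix.orthogonalGroup r ℝ) :=
    { carrier := {u | P u}
      mul_mem' := fun {a b} ha hb => hmul a b ha hb
      one_mem' := hone
      inv_mem' := fun {a} ha => hinv a ha }
  have hle : RotG r ≤ K := by
    refine Subgroup.topologicalClosure_minimal _ ?_ hcl
    rw [Subgroup.closure_le]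
    rintro u ⟨Z, hZ, hu⟩
    have : u = expG Z hZ := Subtype.ext hu
    rw [this]
    exact hexp Z hZ
  exact hle hu

instance instCompactOrth : CompactSpace (Matrix.orthogonalGroup r ℝ) := by
  suffices hc : IsCompact ((Matrix.orthogonalGroup r ℝ : Submonoid (Matrix r r ℝ)) :
      Set (Matrix r r ℝ)) from isCompact_iff_compactSpace.mp hc
  have hcl : IsClosed ((Matrix.orthogonalGroup r ℝ : Submonoid (Matrix r r ℝ)) :
      Set (Matrix r r ℝ)) := by
    have h : ((Matrix.orthogonalGroup r ℝ : Submonoid (Matrix r r ℝ)) : Set (Matrix r r ℝ)) =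
        {A | A * Aᵀ = 1} := by
      ext A
      simp only [SetLike.mem_coe, Matrix.mem_orthogonalGroup_iff, mem_ofPred_eq]
    rw [h]
    exact isClosed_eq (by fun_prop) continuous_const
  refine IsCompact.of_isClosed_subset (s := (Set.pi Set.univ fun _ : r => Set.pi Set.univ
    fun _ : r => Set.Icc (-1 : ℝ) 1)) ?_ hcl ?_
  · exact isCompact_univ_pi fun _ => isCompact_univ_pi fun _ => isCompact_Icc
  · intro (A : Matrix r r ℝ) hA
    intro i _ j _
    have h1 : A * Aᵀ = 1 := (Matrix.mem_orthogonalGroup_iff r ℝ).mp hA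
    have h2 : ∑ k, A i k * A i k = 1 := by
      have := congrFun (congrFun h1 i) i
      simpa [Matrix.mul_apply] using this
    have h3 : A i j * A i j ≤ 1 := by
      rw [← h2]
      exact Finset.single_le_sum (f := fun k => A i k * A i k)
        (fun k _ => mul_self_nonneg _) (Finset.mem_univ j)
    constructor <;> nlinarith

lemma isClosed_RotG : IsClosed (RotG r : Set (Matrix.orthogonalGroup r ℝ)) :=
  Subgroup.isClosed_topologicalClosure _

instance instCompactRot : CompactSpace (RotG r) :=
  isCompact_iff_compactSpace.mp (isClosed_RotG (r := r)).isCompact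

instance instSecondCountableOrth : SecondCountableTopology (Matrix.orthogonalGroup r ℝ) :=
  haveI : SecondCountableTopology (Matrix r r ℝ) :=
    inferInstanceAs (SecondCountableTopology (r → r → ℝ))
  inferInstanceAs (SecondCountableTopology
    ((Matrix.orthogonalGroup r ℝ : Submonoid (Matrix r r ℝ)) : Set (Matrix r r ℝ)))

instance instSecondCountableRot : SecondCountableTopology (RotG r) :=
  inferInstanceAs (SecondCountableTopology (RotG r : Set (Matrix.orthogonalGroup r ℝ)))

instance instMeasurableSpaceRot : MeasurableSpace (RotG r) := borel _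

instance instBorelSpaceRot : BorelSpace (RotG r) := ⟨rfl⟩

variable (r) in
/-- the invariant probability measure on the group of rotations -/
noncomputable def haarG : Measure (RotG r) := Measure.haarMeasure ⊤

instance instHaarG : (haarG r).IsHaarMeasure := by unfold haarG; infer_instance

instance instProbG : IsProbabilityMeasure (haarG r) := by
  refine ⟨?_⟩
  have := Measure.haarMeasure_self (K₀ := (⊤ : TopologicalSpace.PositiveCompacts (RotG r)))
  simpa [haarG] using this

variable {ι : Type*} [Fintype ι]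

/-- the action of a rotation, as an isometry -/
noncomputable def actE (u : Matrix.orthogonalGroup r ℝ) :
    EuclideanSpace ℝ (r × ι) ≃ₗᵢ[ℝ] EuclideanSpace ℝ (r × ι) where
  toFun := act (u : Matrix r r ℝ)
  invFun := act (u : Matrix r r ℝ)ᵀ
  map_add' := map_add _
  map_smul' c x := by simp
  left_inv x := by rw [← act_mul, orth_left, act_one]
  right_inv x := by rw [← act_mul, orth_right, act_one]
  norm_map' x := by
    change ‖act (u : Matrix r r ℝ) x‖ = ‖x‖
    have h : ‖act (u : Matrix r r ℝ) x‖ ^ 2 = ‖x‖ ^ 2 := by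
      rw [← real_inner_self_eq_norm_sq, ← real_inner_self_eq_norm_sq, inner_act, ← act_mul,
        orth_left, act_one]
    exact (pow_left_inj₀ (norm_nonneg _) (norm_nonneg _) (by norm_num)).mp h

@[simp] lemma actE_apply (u : Matrix.orthogonalGroup r ℝ) (x : EuclideanSpace ℝ (r × ι)) :
    actE u x = act (u : Matrix r r ℝ) x := rfl

lemma norm_act (u : Matrix.orthogonalGroup r ℝ) (x : EuclideanSpace ℝ (r × ι)) :
    ‖act (u : Matrix r r ℝ) x‖ = ‖x‖ := (actE u).norm_map x

lemma continuous_actG : Continuous fun p : RotG r × EuclideanSpace ℝ (r × ι) =>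
    act ((p.1 : Matrix.orthogonalGroup r ℝ) : Matrix r r ℝ) p.2 := by
  have : Continuous fun p : RotG r × EuclideanSpace ℝ (r × ι) =>
      ((((p.1 : Matrix.orthogonalGroup r ℝ) : Matrix r r ℝ), p.2) :
        Matrix r r ℝ × EuclideanSpace ℝ (r × ι)) := by fun_prop
  exact continuous_act.comp this

lemma map_act_volume (u : Matrix.orthogonalGroup r ℝ) :
    (volume : Measure (EuclideanSpace ℝ (r × ι))).map (act (u : Matrix r r ℝ)) = volume := by
  have h := LinearIsometryEquiv.measurePreserving (actE (ι := ι) u)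
  exact h.map_eq

/-- functions invariant under all rotations -/
def RInv {α : Type*} (h : EuclideanSpace ℝ (r × ι) → α) : Prop :=
  ∀ u ∈ RotG r, ∀ x, h (act (u : Matrix r r ℝ) x) = h x

/-- measures invariant under all rotations -/
def MInv (μ : Measure (EuclideanSpace ℝ (r × ι))) : Prop :=
  ∀ u ∈ RotG r, μ.map (act (u : Matrix r r ℝ)) = μ

/-- operator norm at most `R` -/
def OpLe (R : ℝ) (x : EuclideanSpace ℝ (r × ι)) : Prop :=
  ∀ w : ι → ℝ, ∑ i, (∑ j, x (i, j) * w j) ^ 2 ≤ R ^ 2 * ∑ j, w j ^ 2

end group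

end Pool.Agent.Lib.MP_6d896a_gt.OM
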