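import Mathlib

/-!
Derivations of the polynomial ring attached to matrices, an invariant inner product and the
decomposition of polynomials into an invariant part and a part in the range of the Casimir operator.
-/

set_option autoImplicit false
set_option linter.unusedSectionVars false

namespace Pool.Agent.Lib.MP_6d896a_gt.OM

open Finset MvPolynomial
open scoped Matrix

section fischer

variable {σ : Type} [Fintype σ] [DecidableEq σ]

/-- the product of the factorials of the exponents -/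
def facM (m : σ →₀ ℕ) : ℝ := ∏ a, ((m a).factorial : ℝ)

lemma facM_pos (m : σ →₀ ℕ) : 0 < facM m :=
  Finset.prod_pos fun a _ => by exact_mod_cast Nat.factorial_pos _

lemma facM_add_single (m : σ →₀ ℕ) (a : σ) :
    facM (m + Finsupp.single a 1) = ((m a : ℝ) + 1) * facM m := by
  unfold facM
  have e1 := Finset.mul_prod_erase (Finset.univ : Finset σ)
    (fun b => ((((m + Finsupp.single a 1 : σ →₀ ℕ) b).factorial : ℕ) : ℝ)) (Finset.mem_univ a)
  have e2 := Finset.mul_prod_erase (Finset.univ : Finset σ)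
    (fun b => (((m b).factorial : ℕ) : ℝ)) (Finset.mem_univ a)
  rw [← e1, ← e2]
  have h1 : ((m + Finsupp.single a 1 : σ →₀ ℕ) a) = m a + 1 := by simp
  rw [h1, Nat.factorial_succ]
  have h2 : ∏ x ∈ Finset.univ.erase a, (((m + Finsupp.single a 1 : σ →₀ ℕ) x).factorial : ℝ) =
      ∏ x ∈ Finset.univ.erase a, ((m x).factorial : ℝ) := by
    refine Finset.prod_congr rfl fun x hx => ?_
    have : x ≠ a := Finset.ne_of_mem_erase hx
    have h3 : (m + Finsupp.single a 1 : σ →₀ ℕ) x = m x := by simp [Finsupp.single_apply, this.symm]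
    rw [h3]
  rw [h2]
  push_cast
  ring

/-- the Fischer inner product -/
noncomputable def Gf : MvPolynomial σ ℝ →ₗ[ℝ] MvPolynomial σ ℝ →ₗ[ℝ] ℝ :=
  (MvPolynomial.basisMonomials σ ℝ).constr ℝ fun m => facM m • MvPolynomial.lcoeff ℝ m

lemma Gf_monomial (m : σ →₀ ℕ) (q : MvPolynomial σ ℝ) :
    Gf (monomial m 1) q = facM m * coeff m q := by
  have h : (monomial m (1 : ℝ)) = MvPolynomial.basisMonomials σ ℝ m := by simp
  rw [h, Gf, Module.Basis.constr_basis]
  simp [MvPolynomial.lcoeff]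

/-- linear maps agreeing on monomials -/
lemma lin_ext {N : Type} [AddCommMonoid N] [Module ℝ N] {f g : MvPolynomial σ ℝ →ₗ[ℝ] N}
    (h : ∀ m, f (monomial m 1) = g (monomial m 1)) : f = g := by
  refine (MvPolynomial.basisMonomials σ ℝ).ext fun m => ?_
  simpa using h m

lemma Gf_comm (p q : MvPolynomial σ ℝ) : Gf p q = Gf q p := by
  have h : (Gf : MvPolynomial σ ℝ →ₗ[ℝ] MvPolynomial σ ℝ →ₗ[ℝ] ℝ) = Gf.flip := by
    refine lin_ext fun m => lin_ext fun n => ?_
    rw [LinearMap.flip_apply, Gf_monomial, Gf_monomial, coeff_monomial, coeff_monomial]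
    by_cases hmn : m = n
    · subst hmn; simp
    · rw [if_neg hmn, if_neg (fun h => hmn h.symm)]; simp
  rw [← LinearMap.flip_apply, ← h]

lemma Gf_X_mul (a : σ) (p q : MvPolynomial σ ℝ) :
    Gf (X a * p) q = Gf p (pderiv a q) := by
  have h : (Gf : MvPolynomial σ ℝ →ₗ[ℝ] MvPolynomial σ ℝ →ₗ[ℝ] ℝ) ∘ₗ
      (LinearMap.mulLeft ℝ (X a : MvPolynomial σ ℝ)) =
      (Gf.compl₂ (pderiv a : Derivation ℝ (MvPolynomial σ ℝ) (MvPolynomial σ ℝ)).toLinearMap) := by
    refine lin_ext fun m => LinearMap.ext fun q => ?_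
    rw [LinearMap.comp_apply, LinearMap.mulLeft_apply, LinearMap.compl₂_apply]
    have h1 : (X a : MvPolynomial σ ℝ) * monomial m 1 = monomial (m + Finsupp.single a 1) 1 := by
      rw [X, monomial_mul]; simp [add_comm]
    rw [h1, Gf_monomial, Gf_monomial, facM_add_single]
    change _ = facM m * coeff m (pderiv a q)
    rw [coeff_pderiv]
    ring
  have h2 := congrArg (fun L => L p q) h
  simpa using h2

lemma Gf_self (p : MvPolynomial σ ℝ) :
    Gf p p = ∑ m ∈ p.support, facM m * coeff m p ^ 2 := by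
  have h0 : ∀ q : MvPolynomial σ ℝ, Gf p q = ∑ m ∈ p.support, facM m * coeff m p * coeff m q := by
    intro q
    conv_lhs => rw [← MvPolynomial.support_sum_monomial_coeff p]
    rw [map_sum, LinearMap.sum_apply]
    refine Finset.sum_congr rfl fun m _ => ?_
    have h : monomial m (coeff m p) = (coeff m p) • monomial m (1 : ℝ) := by
      rw [smul_monomial]; simp
    rw [h, map_smul, LinearMap.smul_apply, Gf_monomial, smul_eq_mul]
    ring
  rw [h0]
  refine Finset.sum_congr rfl fun m _ => ?_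
  ring

lemma Gf_self_eq_zero {p : MvPolynomial σ ℝ} (h : Gf p p = 0) : p = 0 := by
  rw [Gf_self, Finset.sum_eq_zero_iff_of_nonneg
    (fun m _ => mul_nonneg (facM_pos m).le (sq_nonneg _))] at h
  ext m
  by_cases hm : m ∈ p.support
  · have := h m hm
    have h2 := (mul_eq_zero.mp this).resolve_left (facM_pos m).ne'
    simpa using h2
  · simpa using hm

lemma Gf_self_nonneg (p : MvPolynomial σ ℝ) : 0 ≤ Gf p p := by
  rw [Gf_self]
  exact Finset.sum_nonneg fun m _ => mul_nonneg (facM_pos m).le (sq_nonneg _)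

end fischer

section deriv

variable {r ι : Type} [Fintype r] [DecidableEq r] [Fintype ι]

lemma dsum_apply {σ α : Type} (s : Finset α)
    (D : α → Derivation ℝ (MvPolynomial σ ℝ) (MvPolynomial σ ℝ)) (p : MvPolynomial σ ℝ) :
    (∑ a ∈ s, D a) p = ∑ a ∈ s, D a p := by
  classical
  induction s using Finset.induction_on with
  | empty => simp
  | insert a s ha ih => rw [Finset.sum_insert ha, Finset.sum_insert ha, Derivation.add_apply, ih]

/-- the derivation attached to a matrix -/
noncomputable def DZ (Z : Matrix r r ℝ) :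
    Derivation ℝ (MvPolynomial (r × ι) ℝ) (MvPolynomial (r × ι) ℝ) :=
  MvPolynomial.mkDerivation ℝ fun p : r × ι => ∑ k, C (Z p.1 k) * X (k, p.2)

lemma DZ_X (Z : Matrix r r ℝ) (p : r × ι) :
    DZ Z (X p : MvPolynomial (r × ι) ℝ) = ∑ k, C (Z p.1 k) * X (k, p.2) :=
  mkDerivation_X _ _ _

lemma DZ_add (Z W : Matrix r r ℝ) : (DZ (Z + W) : Derivation ℝ (MvPolynomial (r × ι) ℝ) _) =
    DZ Z + DZ W := by
  refine derivation_ext fun p => ?_
  rw [Derivation.add_apply, DZ_X, DZ_X, DZ_X, ← Finset.sum_add_distrib]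
  refine Finset.sum_congr rfl fun k _ => ?_
  rw [Matrix.add_apply, C_add, add_mul]

lemma DZ_smul (c : ℝ) (Z : Matrix r r ℝ) :
    (DZ (c • Z) : Derivation ℝ (MvPolynomial (r × ι) ℝ) _) = c • DZ Z := by
  refine derivation_ext fun p => ?_
  rw [Derivation.smul_apply, DZ_X, DZ_X, Finset.smul_sum]
  refine Finset.sum_congr rfl fun k _ => ?_
  rw [Matrix.smul_apply, smul_eq_mul, C_mul, mul_assoc, C_mul', C_mul']

lemma DZ_zero : (DZ (0 : Matrix r r ℝ) : Derivation ℝ (MvPolynomial (r × ι) ℝ) _) = 0 := by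
  have := DZ_smul (ι := ι) 0 (0 : Matrix r r ℝ)
  simpa using this

lemma DZ_sum {α : Type} (s : Finset α) (Z : α → Matrix r r ℝ) :
    (DZ (∑ a ∈ s, Z a) : Derivation ℝ (MvPolynomial (r × ι) ℝ) _) = ∑ a ∈ s, DZ (Z a) := by
  classical
  induction s using Finset.induction_on with
  | empty => simpa using DZ_zero
  | insert a s ha ih => rw [Finset.sum_insert ha, Finset.sum_insert ha, DZ_add, ih]

variable [DecidableEq ι]

lemma DZ_eq (Z : Matrix r r ℝ) (p : MvPolynomial (r × ι) ℝ) :
    DZ Z p = ∑ a, ∑ b, ∑ k, Z a k • (X (k, b) * pderiv (a, b) p) := by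
  have h : (DZ Z : Derivation ℝ (MvPolynomial (r × ι) ℝ) (MvPolynomial (r × ι) ℝ)) =
      ∑ a, ∑ b, ∑ k, Z a k • ((X (k, b) : MvPolynomial (r × ι) ℝ) • pderiv (a, b)) := by
    refine derivation_ext fun p => ?_
    rw [DZ_X]
    simp only [dsum_apply, Derivation.smul_apply, pderiv_X, smul_eq_mul]
    symm
    refine (Finset.sum_eq_single p.1 ?_ ?_).trans ((Finset.sum_eq_single p.2 ?_ ?_).trans ?_)
    · intro a _ ha
      refine Finset.sum_eq_zero fun b _ => Finset.sum_eq_zero fun k _ => ?_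
      rw [Pi.single_eq_of_ne (fun h => ha (congrArg Prod.fst h).symm)]
      simp
    · intro h; exact absurd (Finset.mem_univ _) h
    · intro b _ hb
      refine Finset.sum_eq_zero fun k _ => ?_
      rw [Pi.single_eq_of_ne (fun h => hb (congrArg Prod.snd h).symm)]
      simp
    · intro h; exact absurd (Finset.mem_univ _) h
    · refine Finset.sum_congr rfl fun k _ => ?_
      rw [Pi.single_eq_same, mul_one, C_mul']
  rw [h]
  simp only [dsum_apply, Derivation.smul_apply, smul_eq_mul]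

lemma Gf_DZ {Z : Matrix r r ℝ} (hZ : Zᵀ = -Z) (p q : MvPolynomial (r × ι) ℝ) :
    Gf (DZ Z p) q = - Gf p (DZ Z q) := by
  rw [Gf_comm p, DZ_eq, DZ_eq]
  simp only [map_sum, LinearMap.sum_apply, map_smul, LinearMap.smul_apply, Gf_X_mul, smul_eq_mul]
  rw [← Finset.sum_neg_distrib]
  have h1 : ∀ a b k, Z a k * Gf (pderiv (a, b) p) (pderiv (k, b) q) =
      - (Z k a * Gf (pderiv (k, b) q) (pderiv (a, b) p)) := by
    intro a b k
    have : Z k a = - Z a k := by
      have := congrFun (congrFun hZ a) k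
      simpa using this
    rw [this, Gf_comm (pderiv (k, b) q)]
    ring
  calc ∑ a, ∑ b, ∑ k, Z a k * Gf (pderiv (a, b) p) (pderiv (k, b) q)
      = ∑ a, ∑ b, ∑ k, - (Z k a * Gf (pderiv (k, b) q) (pderiv (a, b) p)) := by
        simp only [← h1]
    _ = ∑ a, ∑ k, ∑ b, - (Z k a * Gf (pderiv (k, b) q) (pderiv (a, b) p)) :=
        Finset.sum_congr rfl fun a _ => Finset.sum_comm
    _ = ∑ k, ∑ a, ∑ b, - (Z k a * Gf (pderiv (k, b) q) (pderiv (a, b) p)) := Finset.sum_comm
    _ = ∑ k, ∑ b, ∑ a, - (Z k a * Gf (pderiv (k, b) q) (pderiv (a, b) p)) :=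
        Finset.sum_congr rfl fun a _ => Finset.sum_comm
    _ = ∑ k, -∑ b, ∑ a, (Z k a * Gf (pderiv (k, b) q) (pderiv (a, b) p)) := by
        refine Finset.sum_congr rfl fun k _ => ?_
        simp only [Finset.sum_neg_distrib]

/-- derivations of this kind do not raise the degree -/
lemma DZ_totalDegree (Z : Matrix r r ℝ) (p : MvPolynomial (r × ι) ℝ) :
    (DZ Z p).totalDegree ≤ p.totalDegree := by
  classical
  -- monomials
  have hX : ∀ a : r × ι, (DZ Z (X a : MvPolynomial (r × ι) ℝ)).totalDegree ≤ 1 := by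
    intro a
    rw [DZ_X]
    refine (totalDegree_finsetSum _ _).trans (Finset.sup_le fun k _ => ?_)
    refine (totalDegree_mul _ _).trans ?_
    rw [totalDegree_C, totalDegree_X]
  have hmon : ∀ m : (r × ι) →₀ ℕ,
      (DZ Z (monomial m 1 : MvPolynomial (r × ι) ℝ)).totalDegree ≤ m.degree := by
    intro m
    induction m using Finsupp.induction_linear with
    | zero =>
      have : (monomial (0 : (r × ι) →₀ ℕ) (1 : ℝ)) = C 1 := rfl
      rw [this, derivation_C]; simp
    | add f g hf hg =>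
      have h : (monomial (f + g) (1 : ℝ)) = monomial f 1 * monomial g 1 := by
        rw [monomial_mul, mul_one]
      rw [h, Derivation.leibniz, smul_eq_mul, smul_eq_mul, map_add]
      refine (totalDegree_add _ _).trans (max_le ?_ ?_)
      · refine (totalDegree_mul _ _).trans ?_
        have := totalDegree_monomial_le f (1 : ℝ)
        exact add_le_add this hg
      · refine (totalDegree_mul _ _).trans ?_
        rw [add_comm]
        have := totalDegree_monomial_le g (1 : ℝ)
        exact add_le_add hf this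
    | single a b =>
      have h : (monomial (Finsupp.single a b) (1 : ℝ)) = X a ^ b := by
        rw [X_pow_eq_monomial]
      rw [h, Derivation.leibniz_pow, Finsupp.degree_single]
      rcases Nat.eq_zero_or_pos b with hb | hb
      · subst hb; simp
      · refine (totalDegree_smul_le _ _).trans ?_
        rw [smul_eq_mul]
        refine (totalDegree_mul _ _).trans ?_
        refine (add_le_add (totalDegree_pow _ _) (hX a)).trans ?_
        rw [totalDegree_X]
        omega
  conv_lhs => rw [← MvPolynomial.support_sum_monomial_coeff p]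
  rw [map_sum]
  refine (totalDegree_finsetSum _ _).trans (Finset.sup_le fun m hm => ?_)
  have h : monomial m (coeff m p) = (coeff m p) • monomial m (1 : ℝ) := by
    rw [smul_monomial]; simp
  rw [h, Derivation.map_smul]
  refine (totalDegree_smul_le _ _).trans ((hmon m).trans ?_)
  exact le_totalDegree hm

/-- the rotation generator of the rows `i, j` -/
def rz (i j : r) : Matrix r r ℝ := Matrix.single i j 1 - Matrix.single j i 1

lemma rz_skew (i j : r) : (rz i j : Matrix r r ℝ)ᵀ = - rz i j := by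
  unfold rz
  rw [Matrix.transpose_sub, Matrix.transpose_single, Matrix.transpose_single, neg_sub]

/-- a skew matrix is a combination of the rotation generators -/
lemma skew_eq_sum {Z : Matrix r r ℝ} (hZ : Zᵀ = -Z) :
    Z = ∑ i, ∑ j, (Z i j / 2) • rz i j := by
  have h0 : ∀ a b, Z b a = - Z a b := by
    intro a b
    have := congrFun (congrFun hZ a) b
    simpa using this
  ext a b
  simp only [Matrix.sum_apply, Matrix.smul_apply, rz, Matrix.sub_apply, Matrix.single_apply,
    smul_eq_mul, mul_sub, Finset.sum_sub_distrib, mul_ite, mul_one, mul_zero]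
  have e1 : ∑ i, ∑ j, (if i = a ∧ j = b then Z i j / 2 else 0) = Z a b / 2 := by
    rw [Finset.sum_eq_single a, Finset.sum_eq_single b]
    · simp
    · intro j _ hj; simp [hj]
    · simp
    · intro i _ hi; simp [hi]
    · simp
  have e2 : ∑ i, ∑ j, (if j = a ∧ i = b then Z i j / 2 else 0) = Z b a / 2 := by
    rw [Finset.sum_eq_single b, Finset.sum_eq_single a]
    · simp
    · intro j _ hj; simp [hj]
    · simp
    · intro i _ hi; simp [hi]
    · simp
  rw [e1, e2, h0 a b]
  ring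

/-- the Casimir operator -/
noncomputable def CasM : MvPolynomial (r × ι) ℝ →ₗ[ℝ] MvPolynomial (r × ι) ℝ :=
  ∑ i, ∑ j, (DZ (rz i j)).toLinearMap ∘ₗ (DZ (rz i j)).toLinearMap

lemma CasM_apply (p : MvPolynomial (r × ι) ℝ) :
    CasM p = ∑ i, ∑ j, DZ (rz i j) (DZ (rz i j) p) := by
  simp [CasM, LinearMap.sum_apply]

lemma CasM_totalDegree (p : MvPolynomial (r × ι) ℝ) :
    (CasM p).totalDegree ≤ p.totalDegree := by
  rw [CasM_apply]
  refine (totalDegree_finsetSum _ _).trans (Finset.sup_le fun i _ => ?_)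
  refine (totalDegree_finsetSum _ _).trans (Finset.sup_le fun j _ => ?_)
  exact (DZ_totalDegree _ _).trans (DZ_totalDegree _ _)

lemma form_Cas {B : MvPolynomial (r × ι) ℝ →ₗ[ℝ] MvPolynomial (r × ι) ℝ →ₗ[ℝ] ℝ}
    (hanti : ∀ (i j : r) p q, B (DZ (rz i j) p) q = - B p (DZ (rz i j) q))
    (p q : MvPolynomial (r × ι) ℝ) :
    B (CasM p) q = - ∑ i, ∑ j, B (DZ (rz i j) p) (DZ (rz i j) q) := by
  rw [CasM_apply]
  simp only [map_sum, LinearMap.sum_apply, hanti _ _ (DZ _ p), Finset.sum_neg_distrib]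

lemma form_Cas' {B : MvPolynomial (r × ι) ℝ →ₗ[ℝ] MvPolynomial (r × ι) ℝ →ₗ[ℝ] ℝ}
    (hanti : ∀ (i j : r) p q, B (DZ (rz i j) p) q = - B p (DZ (rz i j) q))
    (p q : MvPolynomial (r × ι) ℝ) :
    B p (CasM q) = - ∑ i, ∑ j, B (DZ (rz i j) p) (DZ (rz i j) q) := by
  rw [CasM_apply]
  simp only [map_sum]
  rw [← Finset.sum_neg_distrib]
  refine Finset.sum_congr rfl fun i _ => ?_
  rw [← Finset.sum_neg_distrib]
  refine Finset.sum_congr rfl fun j _ => ?_
  rw [hanti i j p, neg_neg]

/-- every polynomial is the sum of an invariant one and one in the range of the Casimir operator -/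
lemma casimir_decomp (h : MvPolynomial (r × ι) ℝ) :
    ∃ h0 k : MvPolynomial (r × ι) ℝ, h = h0 + CasM k ∧ ∀ i j, DZ (rz i j) h0 = 0 := by
  set V := MvPolynomial.restrictTotalDegree (r × ι) ℝ h.totalDegree with hV
  have hanti : ∀ (i j : r) (p q : MvPolynomial (r × ι) ℝ),
      Gf (DZ (rz i j) p) q = - Gf p (DZ (rz i j) q) := fun i j p q => Gf_DZ (rz_skew i j) p q
  have hstab : ∀ p ∈ V, CasM p ∈ V := by
    intro p hp
    rw [hV, mem_restrictTotalDegree] at hp ⊢
    exact (CasM_totalDegree p).trans hp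
  let T : V →ₗ[ℝ] V := (CasM (r := r) (ι := ι)).restrict hstab
  have hT : ∀ v : V, ((T v : V) : MvPolynomial (r × ι) ℝ) = CasM (v : MvPolynomial (r × ι) ℝ) :=
    fun v => rfl
  have hdis : Disjoint (LinearMap.ker T) (LinearMap.range T) := by
    rw [Submodule.disjoint_def]
    rintro x hx ⟨y, hy⟩
    have h1 : CasM (x : MvPolynomial (r × ι) ℝ) = 0 := by
      rw [← hT, LinearMap.mem_ker.mp hx]; rfl
    have h2 : (x : MvPolynomial (r × ι) ℝ) = CasM (y : MvPolynomial (r × ι) ℝ) := by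
      rw [← hT, hy]
    have h3 : Gf (x : MvPolynomial (r × ι) ℝ) (x : MvPolynomial (r × ι) ℝ) = 0 := by
      conv_lhs => rw [h2]
      rw [form_Cas hanti, ← form_Cas' hanti, ← h2, h1, map_zero]
    exact Subtype.ext (Gf_self_eq_zero h3)
  have htop := Submodule.eq_top_of_disjoint (LinearMap.ker T) (LinearMap.range T)
    (by rw [add_comm, LinearMap.finrank_range_add_finrank_ker]) hdis
  have hmem : (⟨h, by rw [hV, mem_restrictTotalDegree]⟩ : V) ∈
      LinearMap.ker T ⊔ LinearMap.range T := by rw [htop]; trivial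
  obtain ⟨a, ha, b, ⟨k, hk⟩, hab⟩ := Submodule.mem_sup.mp hmem
  refine ⟨a, k, ?_, ?_⟩
  · rw [← hT, hk]
    have := congrArg Subtype.val hab
    exact this.symm
  · have h1 : CasM (a : MvPolynomial (r × ι) ℝ) = 0 := by
      rw [← hT, LinearMap.mem_ker.mp ha]; rfl
    have h2 := form_Cas hanti (a : MvPolynomial (r × ι) ℝ) (a : MvPolynomial (r × ι) ℝ)
    rw [h1, map_zero, LinearMap.zero_apply] at h2
    have h3 : ∑ i, ∑ j, Gf (DZ (rz i j) (a : MvPolynomial (r × ι) ℝ))
        (DZ (rz i j) (a : MvPolynomial (r × ι) ℝ)) = 0 := by linarith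
    intro i j
    rw [Finset.sum_eq_zero_iff_of_nonneg
      (fun i _ => Finset.sum_nonneg fun j _ => Gf_self_nonneg _)] at h3
    have h4 := h3 i (Finset.mem_univ i)
    rw [Finset.sum_eq_zero_iff_of_nonneg (fun j _ => Gf_self_nonneg _)] at h4
    exact Gf_self_eq_zero (h4 j (Finset.mem_univ j))

/-- the duality argument -/
lemma duality {B : MvPolynomial (r × ι) ℝ →ₗ[ℝ] MvPolynomial (r × ι) ℝ →ₗ[ℝ] ℝ}
    (hpos : ∀ p, 0 ≤ B p p) (hsymm : ∀ p q, B p q = B q p)
    (hanti : ∀ (i j : r) p q, B (DZ (rz i j) p) q = - B p (DZ (rz i j) q))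
    (F : MvPolynomial (r × ι) ℝ →ₗ[ℝ] ℝ)
    (hF0 : ∀ p : MvPolynomial (r × ι) ℝ, (∀ i j, DZ (rz i j) p = 0) → F p = 0)
    {M γ : ℝ}
    (hgap : ∀ p, γ * ∑ i, ∑ j, B (DZ (rz i j) p) (DZ (rz i j) p) ≤ B (CasM p) (CasM p))
    (hF : ∀ p, (F (CasM p)) ^ 2 ≤ M ^ 2 * ∑ i, ∑ j, B (DZ (rz i j) p) (DZ (rz i j) p))
    (h : MvPolynomial (r × ι) ℝ) : γ * (F h) ^ 2 ≤ M ^ 2 * B h h := by
  obtain ⟨h0, k, hk, hinv⟩ := casimir_decomp h
  have hFh : F h = F (CasM k) := by rw [hk, map_add, hF0 h0 hinv, zero_add]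
  have hcross : B h0 (CasM k) = 0 := by
    rw [form_Cas' hanti]
    simp [hinv]
  have hcross' : B (CasM k) h0 = 0 := by rw [hsymm, hcross]
  have hB : B h h = B h0 h0 + B (CasM k) (CasM k) := by
    rw [hk]
    simp only [map_add, LinearMap.add_apply, hcross, hcross']
    ring
  have hS : 0 ≤ ∑ i, ∑ j, B (DZ (rz i j) k) (DZ (rz i j) k) :=
    Finset.sum_nonneg fun i _ => Finset.sum_nonneg fun j _ => hpos _
  rcases le_or_gt γ 0 with hγ | hγ
  · have h1 : γ * (F h) ^ 2 ≤ 0 := mul_nonpos_of_nonpos_of_nonneg hγ (sq_nonneg _)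
    exact h1.trans (mul_nonneg (sq_nonneg _) (hpos _))
  · calc γ * (F h) ^ 2 = γ * (F (CasM k)) ^ 2 := by rw [hFh]
      _ ≤ γ * (M ^ 2 * ∑ i, ∑ j, B (DZ (rz i j) k) (DZ (rz i j) k)) :=
          mul_le_mul_of_nonneg_left (hF k) hγ.le
      _ = M ^ 2 * (γ * ∑ i, ∑ j, B (DZ (rz i j) k) (DZ (rz i j) k)) := by ring
      _ ≤ M ^ 2 * B (CasM k) (CasM k) := mul_le_mul_of_nonneg_left (hgap k) (sq_nonneg _)
      _ ≤ M ^ 2 * B h h := by
          refine mul_le_mul_of_nonneg_left ?_ (sq_nonneg _)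
          rw [hB]
          linarith [hpos h0]

end deriv

end Pool.Agent.Lib.MP_6d896a_gt.OM
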