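import Mathlib
import Pool.Agent.Lib.MP_6d896a_gt.OM.Defs
import Pool.Agent.Lib.MP_6d896a_gt.OM.OrbitAlg

/-!
Calculus along the one parameter groups of rotations.
-/

set_option autoImplicit false
set_option linter.unusedSectionVars false

namespace Pool.Agent.Lib.MP_6d896a_gt.OM

open MeasureTheory ProbabilityTheory Matrix Set Filter
open scoped ENNReal Topology

variable {r ι : Type} [Fintype r] [Fintype ι] [DecidableEq r] [DecidableEq ι]

/-- value of a polynomial -/
noncomputable def pe (p : MvPolynomial (r × ι) ℝ) (x : EuclideanSpace ℝ (r × ι)) : ℝ :=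
  MvPolynomial.eval (fun a => x a) p

lemma continuous_pe (p : MvPolynomial (r × ι) ℝ) : Continuous (pe p) := by
  unfold pe
  have h : Continuous fun x : EuclideanSpace ℝ (r × ι) => (fun a => x a) := by fun_prop
  exact (MvPolynomial.continuous_eval p).comp h

/-- the flow of a matrix -/
noncomputable def fl (Z : Matrix r r ℝ) (t : ℝ) (x : EuclideanSpace ℝ (r × ι)) :
    EuclideanSpace ℝ (r × ι) := act (NormedSpace.exp (t • Z)) x

lemma fl_zero (Z : Matrix r r ℝ) (x : EuclideanSpace ℝ (r × ι)) : fl Z 0 x = x := by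
  simp [fl]

lemma hasDerivAt_entry (Z : Matrix r r ℝ) (t : ℝ) (i k : r) :
    HasDerivAt (fun s : ℝ => (NormedSpace.exp (s • Z) : Matrix r r ℝ) i k)
      ((Z * NormedSpace.exp (t • Z)) i k) t := by
  let _ : NormedRing (Matrix r r ℝ) := Matrix.linftyOpNormedRing
  let _ : NormedAlgebra ℝ (Matrix r r ℝ) := Matrix.linftyOpNormedAlgebra
  have h := hasDerivAt_exp_smul_const' (𝕂 := ℝ) Z t
  let L : Matrix r r ℝ →L[ℝ] ℝ := LinearMap.toContinuousLinearMap (Matrix.entryLinearMap ℝ ℝ i k)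
  have h2 := L.hasFDerivAt.comp_hasDerivAt t h
  exact h2

lemma hasDerivAt_fl (Z : Matrix r r ℝ) (x : EuclideanSpace ℝ (r × ι)) (t : ℝ) :
    HasDerivAt (fun s => fl Z s x) (act Z (fl Z t x)) t := by
  have h : HasDerivAt (fun s => (fl Z s x).ofLp) (act Z (fl Z t x)).ofLp t := by
    rw [hasDerivAt_pi]
    rintro ⟨i, j⟩
    have e1 : (fun s => (fl Z s x).ofLp (i, j)) = fun s =>
        ∑ k, (NormedSpace.exp (s • Z) : Matrix r r ℝ) i k * x (k, j) := by
      funext s
      exact act_apply _ _ _ _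
    have e2 : (act Z (fl Z t x)).ofLp (i, j) =
        ∑ k, (Z * NormedSpace.exp (t • Z)) i k * x (k, j) := by
      have : act Z (fl Z t x) = act (Z * NormedSpace.exp (t • Z)) x := by
        rw [act_mul]; rfl
      rw [this]
      exact act_apply _ _ _ _
    rw [e1, e2]
    refine HasDerivAt.fun_sum fun k _ => ?_
    exact (hasDerivAt_entry Z t i k).mul_const _
  have h2 := (PiLp.continuousLinearEquiv 2 ℝ (fun _ : r × ι => ℝ)).symm.toContinuousLinearMap.hasFDerivAt.comp_hasDerivAt t h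
  exact h2

lemma hasDerivAt_pe (Z : Matrix r r ℝ) (p : MvPolynomial (r × ι) ℝ)
    (x : EuclideanSpace ℝ (r × ι)) (t : ℝ) :
    HasDerivAt (fun s => pe p (fl Z s x)) (pe (DZ Z p) (fl Z t x)) t := by
  have hX : ∀ a : r × ι, HasDerivAt (fun s => (fl Z s x) a)
      (pe (DZ Z (MvPolynomial.X a)) (fl Z t x)) t := by
    rintro ⟨i, j⟩
    have h := hasDerivAt_fl Z x t
    have h2 := (EuclideanSpace.proj (𝕜 := ℝ) (i, j) :
      EuclideanSpace ℝ (r × ι) →L[ℝ] ℝ).hasFDerivAt.comp_hasDerivAt t h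
    have e : pe (DZ Z (MvPolynomial.X (i, j))) (fl Z t x) = act Z (fl Z t x) (i, j) := by
      rw [act_apply, DZ_X]
      simp [pe]
    rw [e]
    exact h2
  induction p using MvPolynomial.induction_on with
  | C a =>
    simp only [pe, MvPolynomial.eval_C, MvPolynomial.derivation_C, map_zero]
    exact hasDerivAt_const _ _
  | add p q hp hq =>
    have := hp.add hq
    simp only [pe, map_add] at this ⊢
    exact this
  | mul_X p a hp =>
    have h := hp.mul (hX a)
    have e : pe (DZ Z (p * MvPolynomial.X a)) (fl Z t x) =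
        pe (DZ Z p) (fl Z t x) * (fl Z t x) a + pe p (fl Z t x) *
          pe (DZ Z (MvPolynomial.X a)) (fl Z t x) := by
      rw [Derivation.leibniz]
      simp only [pe, smul_eq_mul, map_add, map_mul, MvPolynomial.eval_X]
      ring
    rw [e]
    simp only [pe, map_mul, MvPolynomial.eval_X] at h ⊢
    exact h

lemma hasDerivAt_smooth (Z : Matrix r r ℝ) {f : EuclideanSpace ℝ (r × ι) → ℝ}
    (hf : ContDiff ℝ 1 f) (x : EuclideanSpace ℝ (r × ι)) (t : ℝ) :
    HasDerivAt (fun s => f (fl Z s x)) (fderiv ℝ f (fl Z t x) (act Z (fl Z t x))) t := by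
  have h := (hf.differentiable (by norm_num) (fl Z t x)).hasFDerivAt
  exact h.comp_hasDerivAt t (hasDerivAt_fl Z x t)

lemma continuous_act_fix (U : Matrix r r ℝ) :
    Continuous (act U : EuclideanSpace ℝ (r × ι) → EuclideanSpace ℝ (r × ι)) :=
  (act U : EuclideanSpace ℝ (r × ι) →ₗ[ℝ] EuclideanSpace ℝ (r × ι)).continuous_of_finiteDimensional

lemma fl_smul_skew {Z : Matrix r r ℝ} (hZ : Zᵀ = -Z) (t : ℝ) : (t • Z)ᵀ = -(t • Z) := by
  rw [Matrix.transpose_smul, hZ, smul_neg]

lemma fl_eq (Z : Matrix r r ℝ) (hZ : Zᵀ = -Z) (t : ℝ) (x : EuclideanSpace ℝ (r × ι)) :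
    fl Z t x = act ((expG (t • Z) (fl_smul_skew hZ t) : Matrix.orthogonalGroup r ℝ) :
      Matrix r r ℝ) x := rfl

lemma norm_fl (Z : Matrix r r ℝ) (hZ : Zᵀ = -Z) (t : ℝ) (x : EuclideanSpace ℝ (r × ι)) :
    ‖fl Z t x‖ = ‖x‖ := by rw [fl_eq Z hZ, norm_act]

lemma continuous_fl (Z : Matrix r r ℝ) (t : ℝ) :
    Continuous (fl Z t : EuclideanSpace ℝ (r × ι) → EuclideanSpace ℝ (r × ι)) :=
  continuous_act_fix _

/-- continuous functions are integrable for measures of bounded support -/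
lemma integrable_cont {μ : Measure (EuclideanSpace ℝ (r × ι))} [IsProbabilityMeasure μ] {ρ : ℝ}
    (hρ : ∀ᵐ x ∂μ, ‖x‖ ≤ ρ) {h : EuclideanSpace ℝ (r × ι) → ℝ} (hh : Continuous h) :
    Integrable h μ := by
  obtain ⟨C, hC⟩ := (isCompact_closedBall (0 : EuclideanSpace ℝ (r × ι)) ρ).exists_bound_of_continuousOn
    hh.continuousOn
  refine Integrable.of_bound hh.aestronglyMeasurable C ?_
  filter_upwards [hρ] with x hx
  exact hC x (by simpa using hx)

/-- integration by parts along a rotation -/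
lemma flow_ibp {μ : Measure (EuclideanSpace ℝ (r × ι))} [IsProbabilityMeasure μ]
    (hinv : MInv μ) {ρ : ℝ} (hρ : ∀ᵐ x ∂μ, ‖x‖ ≤ ρ) {Z : Matrix r r ℝ} (hZ : Zᵀ = -Z)
    {φ φ' ψ ψ' g : EuclideanSpace ℝ (r × ι) → ℝ} (cφ : Continuous φ) (cφ' : Continuous φ')
    (cψ : Continuous ψ) (cψ' : Continuous ψ') (cg : Continuous g) (hg : RInv g)
    (hφ : ∀ x t, HasDerivAt (fun s => φ (fl Z s x)) (φ' (fl Z t x)) t)
    (hψ : ∀ x t, HasDerivAt (fun s => ψ (fl Z s x)) (ψ' (fl Z t x)) t) :
    ∫ x, (φ' x * ψ x + (φ x - g x) * ψ' x) ∂μ = 0 := by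
  have hK := isCompact_closedBall (0 : EuclideanSpace ℝ (r × ι)) ρ
  obtain ⟨C1, hC1⟩ := hK.exists_bound_of_continuousOn (f := fun x =>
    |φ' x * ψ x| + |φ x * ψ' x|) (by fun_prop)
  obtain ⟨C2, hC2⟩ := hK.exists_bound_of_continuousOn (f := g) cg.continuousOn
  obtain ⟨C3, hC3⟩ := hK.exists_bound_of_continuousOn (f := ψ') cψ'.continuousOn
  have hmain := hasDerivAt_integral_of_dominated_loc_of_deriv_le (μ := μ) (𝕜 := ℝ) (x₀ := 0)
    (s := univ) (F := fun t x => (φ (fl Z t x) - g x) * ψ (fl Z t x))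
    (F' := fun t x => φ' (fl Z t x) * ψ (fl Z t x) + (φ (fl Z t x) - g x) * ψ' (fl Z t x))
    (bound := fun _ => C1 + C2 * C3) univ_mem
    (Filter.Eventually.of_forall fun t => by
      have := continuous_fl (ι := ι) Z t
      have hc : Continuous fun x => (φ (fl Z t x) - g x) * ψ (fl Z t x) := by fun_prop
      exact hc.aestronglyMeasurable)
    (by
      simp only [fl_zero]
      exact integrable_cont hρ (by fun_prop))
    (by
      have := continuous_fl (ι := ι) Z 0
      have hc : Continuous fun x => φ' (fl Z 0 x) * ψ (fl Z 0 x) +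
        (φ (fl Z 0 x) - g x) * ψ' (fl Z 0 x) := by fun_prop
      exact hc.aestronglyMeasurable)
    (by
      filter_upwards [hρ] with x hx t _
      have hy : fl Z t x ∈ Metric.closedBall (0 : EuclideanSpace ℝ (r × ι)) ρ := by
        simpa [norm_fl Z hZ] using hx
      have hx' : x ∈ Metric.closedBall (0 : EuclideanSpace ℝ (r × ι)) ρ := by simpa using hx
      have h1 := hC1 _ hy
      have h2 := hC2 _ hx'
      have h3 := hC3 _ hy
      simp only [Real.norm_eq_abs] at h1 h2 h3 ⊢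
      have h1' := (le_abs_self _).trans h1
      have h4 : |g x * ψ' (fl Z t x)| ≤ C2 * C3 := by
        rw [abs_mul]
        exact mul_le_mul h2 h3 (abs_nonneg _) ((abs_nonneg _).trans h2)
      calc |φ' (fl Z t x) * ψ (fl Z t x) + (φ (fl Z t x) - g x) * ψ' (fl Z t x)|
          = |φ' (fl Z t x) * ψ (fl Z t x) + (φ (fl Z t x) * ψ' (fl Z t x) -
              g x * ψ' (fl Z t x))| := by ring_nf
        _ ≤ |φ' (fl Z t x) * ψ (fl Z t x)| + |φ (fl Z t x) * ψ' (fl Z t x) -
              g x * ψ' (fl Z t x)| := abs_add_le _ _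
        _ ≤ |φ' (fl Z t x) * ψ (fl Z t x)| + (|φ (fl Z t x) * ψ' (fl Z t x)| +
              |g x * ψ' (fl Z t x)|) := by gcongr; exact abs_sub _ _
        _ ≤ C1 + C2 * C3 := by linarith)
    (integrable_const _)
    (by
      refine Filter.Eventually.of_forall fun x t _ => ?_
      exact ((hφ x t).sub_const (g x)).mul (hψ x t))
  have hder := hmain.2
  have hconst : (fun t => ∫ x, (φ (fl Z t x) - g x) * ψ (fl Z t x) ∂μ) =
      fun _ => ∫ x, (φ x - g x) * ψ x ∂μ := by
    funext t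
    have hmem := expG_mem (t • Z) (fl_smul_skew hZ t)
    have h1 : ∀ x, (φ (fl Z t x) - g x) * ψ (fl Z t x) =
        (φ (fl Z t x) - g (fl Z t x)) * ψ (fl Z t x) := by
      intro x
      rw [fl_eq Z hZ, hg _ hmem]
    simp only [h1]
    have h2 := hinv _ hmem
    conv_rhs => rw [← h2]
    rw [integral_map (continuous_act_fix _).aemeasurable
      (by
        have hc : Continuous fun x => (φ x - g x) * ψ x := by fun_prop
        exact hc.aestronglyMeasurable)]
    rfl
  rw [hconst] at hder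
  have huniq := hder.unique (hasDerivAt_const (0 : ℝ) (∫ x, (φ x - g x) * ψ x ∂μ))
  simpa [fl_zero] using huniq


lemma DZ_of_rz {p : MvPolynomial (r × ι) ℝ} (hp : ∀ i j, DZ (rz i j) p = 0)
    {Z : Matrix r r ℝ} (hZ : Zᵀ = -Z) : DZ Z p = 0 := by
  have h : DZ Z p = ∑ i, ∑ j, (Z i j / 2) • DZ (rz i j) p := by
    have e : (DZ Z : Derivation ℝ (MvPolynomial (r × ι) ℝ) (MvPolynomial (r × ι) ℝ)) =
        ∑ i, ∑ j, (Z i j / 2) • DZ (rz i j) := by
      conv_lhs => rw [skew_eq_sum hZ]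
      simp only [DZ_sum, DZ_smul]
    rw [e]
    simp only [dsum_apply, Derivation.smul_apply]
  rw [h]
  simp only [hp, smul_zero, Finset.sum_const_zero]

lemma pe_exp {p : MvPolynomial (r × ι) ℝ} {Z : Matrix r r ℝ} (hp : DZ Z p = 0)
    (x : EuclideanSpace ℝ (r × ι)) : pe p (act (NormedSpace.exp Z) x) = pe p x := by
  have hd : ∀ t, HasDerivAt (fun s => pe p (fl Z s x)) 0 t := by
    intro t
    have h := hasDerivAt_pe Z p x t
    rw [hp] at h
    have e : pe (0 : MvPolynomial (r × ι) ℝ) (fl Z t x) = 0 := by simp [pe]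
    rwa [e] at h
  have hc := is_const_of_deriv_eq_zero (f := fun s => pe p (fl Z s x))
    (fun t => (hd t).differentiableAt) (fun t => (hd t).deriv) 1 0
  simp only [fl_zero] at hc
  rw [← hc]
  simp only [fl, one_smul]

lemma isClosed_inv {p : MvPolynomial (r × ι) ℝ} :
    IsClosed {u : Matrix.orthogonalGroup r ℝ | ∀ x : EuclideanSpace ℝ (r × ι),
      pe p (act (u : Matrix r r ℝ) x) = pe p x} := by
  rw [Set.ofPred_forall]
  refine isClosed_iInter fun x => isClosed_eq ?_ continuous_const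
  have h1 : Continuous fun u : Matrix.orthogonalGroup r ℝ =>
      (((u : Matrix r r ℝ), x) : Matrix r r ℝ × EuclideanSpace ℝ (r × ι)) :=
    continuous_subtype_val.prodMk continuous_const
  exact (continuous_pe p).comp (continuous_act.comp h1)

/-- polynomials killed by all the generators are invariant -/
lemma pe_inv {p : MvPolynomial (r × ι) ℝ} (hp : ∀ i j, DZ (rz i j) p = 0) : RInv (pe p) := by
  have hexp : ∀ (Z : Matrix r r ℝ) (hZ : Zᵀ = -Z), ∀ x : EuclideanSpace ℝ (r × ι),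
      pe p (act ((expG Z hZ : Matrix.orthogonalGroup r ℝ) : Matrix r r ℝ) x) = pe p x :=
    fun Z hZ x => pe_exp (DZ_of_rz hp hZ) x
  have hone : ∀ x : EuclideanSpace ℝ (r × ι),
      pe p (act ((1 : Matrix.orthogonalGroup r ℝ) : Matrix r r ℝ) x) = pe p x := by
    intro x
    rw [Matrix.UnitaryGroup.one_val, act_one]
  have hmul : ∀ u v : Matrix.orthogonalGroup r ℝ,
      (∀ x : EuclideanSpace ℝ (r × ι), pe p (act (u : Matrix r r ℝ) x) = pe p x) →
      (∀ x : EuclideanSpace ℝ (r × ι), pe p (act (v : Matrix r r ℝ) x) = pe p x) →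
      ∀ x : EuclideanSpace ℝ (r × ι),
        pe p (act ((u * v : Matrix.orthogonalGroup r ℝ) : Matrix r r ℝ) x) = pe p x := by
    intro u v hu hv x
    rw [Submonoid.coe_mul, act_mul, hu, hv]
  have hinv : ∀ u : Matrix.orthogonalGroup r ℝ,
      (∀ x : EuclideanSpace ℝ (r × ι), pe p (act (u : Matrix r r ℝ) x) = pe p x) →
      ∀ x : EuclideanSpace ℝ (r × ι),
        pe p (act ((u⁻¹ : Matrix.orthogonalGroup r ℝ) : Matrix r r ℝ) x) = pe p x := by
    intro u hu x
    have h := hu (act ((u⁻¹ : Matrix.orthogonalGroup r ℝ) : Matrix r r ℝ) x)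
    rw [← h, ← act_mul, coe_inv_orth, orth_right, act_one]
  intro u hu
  exact rot_induction (P := fun u : Matrix.orthogonalGroup r ℝ =>
    ∀ x : EuclideanSpace ℝ (r × ι), pe p (act (u : Matrix r r ℝ) x) = pe p x)
    isClosed_inv hexp hone hmul hinv hu

end Pool.Agent.Lib.MP_6d896a_gt.OM
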