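import Mathlib

/-!
Casimir inequality for polynomials (piece R-A of the KLS theorem for rotation invariant random
matrices).
-/

set_option autoImplicit false

namespace Pool.Agent.Lib.MP_6d896a_gt.OM

open Finset

/-- the derivation of the polynomial ring attached to the rotation of the rows `i, j`:
as a vector field it is `∑ l, (x (j,l) ∂/∂x (i,l) - x (i,l) ∂/∂x (j,l))` -/
noncomputable def Dr {r ι : Type} [DecidableEq r] (i j : r) :
    Derivation ℝ (MvPolynomial (r × ι) ℝ) (MvPolynomial (r × ι) ℝ) :=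
  MvPolynomial.mkDerivation ℝ fun p : r × ι =>
    (if p.1 = i then MvPolynomial.X (j, p.2) else 0) -
      (if p.1 = j then MvPolynomial.X (i, p.2) else 0)

section

variable {r ι : Type} [DecidableEq r]

/-- Kronecker delta -/
noncomputable def dl (i j : r) : ℝ := if i = j then 1 else 0

theorem dl_sq (i j : r) : dl i j * dl i j = dl i j := by
  unfold dl
  split_ifs <;> simp

theorem Dr_swap (i j : r) : (Dr j i : Derivation ℝ (MvPolynomial (r × ι) ℝ) _) = - Dr i j := by
  apply MvPolynomial.derivation_ext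
  rintro ⟨a, b⟩
  simp [Dr, MvPolynomial.mkDerivation_X]

theorem Dr_swap_apply (i j : r) (p : MvPolynomial (r × ι) ℝ) : Dr j i p = - Dr i j p := by
  rw [Dr_swap]
  rfl

theorem Dr_self (i : r) (p : MvPolynomial (r × ι) ℝ) : Dr i i p = 0 := by
  have h := Dr_swap_apply i i p
  exact self_eq_neg.1 h

theorem Dr_comm (i j k l : r) :
    (⁅(Dr i j : Derivation ℝ (MvPolynomial (r × ι) ℝ) (MvPolynomial (r × ι) ℝ)),
      (Dr k l : Derivation ℝ (MvPolynomial (r × ι) ℝ) (MvPolynomial (r × ι) ℝ))⁆) =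
    dl i l • Dr k j - dl j l • Dr k i - dl i k • Dr l j + dl j k • Dr l i := by
  apply MvPolynomial.derivation_ext
  rintro ⟨a, b⟩
  have hX : ∀ i j : r, (Dr i j (MvPolynomial.X (a, b)) : MvPolynomial (r × ι) ℝ) =
      dl a i • MvPolynomial.X (j, b) - dl a j • MvPolynomial.X (i, b) := by
    intro i j
    simp only [Dr, MvPolynomial.mkDerivation_X, dl]
    split_ifs <;> simp
  have hX' : ∀ i j a : r, (Dr i j (MvPolynomial.X (a, b)) : MvPolynomial (r × ι) ℝ) =
      dl a i • MvPolynomial.X (j, b) - dl a j • MvPolynomial.X (i, b) := by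
    intro i j a
    simp only [Dr, MvPolynomial.mkDerivation_X, dl]
    split_ifs <;> simp
  rw [Derivation.commutator_apply]
  simp only [hX, map_sub, Derivation.map_smul, hX', Derivation.add_apply, Derivation.sub_apply,
    Derivation.smul_apply, smul_sub, smul_smul]
  have hs : ∀ i j : r, dl i j = dl j i := by
    intro i j
    simp [dl, eq_comm]
  rw [hs l i, hs l j, hs k i, hs k j]
  simp only [mul_comm (dl a _) (dl _ _)]
  abel

theorem Dr_comm_apply (i j k l : r) (p : MvPolynomial (r × ι) ℝ) :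
    Dr i j (Dr k l p) - Dr k l (Dr i j p) =
    dl i l • Dr k j p - dl j l • Dr k i p - dl i k • Dr l j p + dl j k • Dr l i p := by
  have h := congrArg (fun D : Derivation ℝ (MvPolynomial (r × ι) ℝ) (MvPolynomial (r × ι) ℝ) =>
    D p) (Dr_comm (ι := ι) i j k l)
  simpa [Derivation.commutator_apply] using h

variable [Fintype r]

theorem sum_dl (i : r) (f : r → MvPolynomial (r × ι) ℝ) : ∑ j, dl i j • f j = f i := by
  simp [dl]

theorem sum_dl' (i : r) (f : r → MvPolynomial (r × ι) ℝ) : ∑ j, dl j i • f j = f i := by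
  simp [dl]

/-- the Casimir element -/
noncomputable def Cas (p : MvPolynomial (r × ι) ℝ) : MvPolynomial (r × ι) ℝ :=
  ∑ i, ∑ j, Dr i j (Dr i j p)

theorem Cas_comm (k l : r) (p : MvPolynomial (r × ι) ℝ) :
    Cas (Dr k l p) = Dr k l (Cas p) := by
  have key : ∀ i j : r, Dr i j (Dr i j (Dr k l p)) - Dr k l (Dr i j (Dr i j p)) =
      (dl i l • Dr i j (Dr k j p) - dl j l • Dr i j (Dr k i p) - dl i k • Dr i j (Dr l j p) +
        dl j k • Dr i j (Dr l i p)) +
      (dl i l • Dr k j (Dr i j p) - dl j l • Dr k i (Dr i j p) - dl i k • Dr l j (Dr i j p) +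
        dl j k • Dr l i (Dr i j p)) := by
    intro i j
    rw [← Dr_comm_apply i j k l (Dr i j p)]
    have h := congrArg (Dr i j) (Dr_comm_apply i j k l p)
    simp only [map_sub, map_add, Derivation.map_smul] at h
    rw [← h]
    abel
  rw [← sub_eq_zero, Cas, Cas, map_sum]
  simp only [map_sum]
  rw [← sum_sub_distrib]
  simp only [← sum_sub_distrib, key]
  simp only [sum_add_distrib, sum_sub_distrib]
  have e1 : ∑ i, ∑ j, dl i l • Dr i j (Dr k j p) = ∑ j, Dr l j (Dr k j p) := by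
    rw [sum_comm]
    exact sum_congr rfl fun j _ => sum_dl' l (fun i => Dr i j (Dr k j p))
  have e2 : ∑ i, ∑ j, dl j l • Dr i j (Dr k i p) = - ∑ j, Dr l j (Dr k j p) := by
    rw [← sum_neg_distrib]
    refine sum_congr rfl fun i _ => ?_
    rw [sum_dl' l (fun j => Dr i j (Dr k i p)), Dr_swap_apply]
  have e3 : ∑ i, ∑ j, dl i k • Dr i j (Dr l j p) = ∑ j, Dr k j (Dr l j p) := by
    rw [sum_comm]
    exact sum_congr rfl fun j _ => sum_dl' k (fun i => Dr i j (Dr l j p))
  have e4 : ∑ i, ∑ j, dl j k • Dr i j (Dr l i p) = - ∑ j, Dr k j (Dr l j p) := by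
    rw [← sum_neg_distrib]
    refine sum_congr rfl fun i _ => ?_
    rw [sum_dl' k (fun j => Dr i j (Dr l i p)), Dr_swap_apply]
  have e5 : ∑ i, ∑ j, dl i l • Dr k j (Dr i j p) = ∑ j, Dr k j (Dr l j p) := by
    rw [sum_comm]
    exact sum_congr rfl fun j _ => sum_dl' l (fun i => Dr k j (Dr i j p))
  have e6 : ∑ i, ∑ j, dl j l • Dr k i (Dr i j p) = - ∑ j, Dr k j (Dr l j p) := by
    rw [← sum_neg_distrib]
    refine sum_congr rfl fun i _ => ?_
    rw [sum_dl' l (fun j => Dr k i (Dr i j p)), Dr_swap_apply l i, map_neg]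
  have e7 : ∑ i, ∑ j, dl i k • Dr l j (Dr i j p) = ∑ j, Dr l j (Dr k j p) := by
    rw [sum_comm]
    exact sum_congr rfl fun j _ => sum_dl' k (fun i => Dr l j (Dr i j p))
  have e8 : ∑ i, ∑ j, dl j k • Dr l i (Dr i j p) = - ∑ j, Dr l j (Dr k j p) := by
    rw [← sum_neg_distrib]
    refine sum_congr rfl fun i _ => ?_
    rw [sum_dl' k (fun j => Dr l i (Dr i j p)), Dr_swap_apply k i, map_neg]
  rw [e1, e2, e3, e4, e5, e6, e7, e8]
  abel

theorem sum_w (B : LinearMap.BilinForm ℝ (MvPolynomial (r × ι) ℝ))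
    (hsymm : ∀ p q, B p q = B q p) (v : r → r → MvPolynomial (r × ι) ℝ)
    (hv0 : ∀ i, v i i = 0) :
    ∑ i, ∑ j, ∑ k, ∑ l,
      B (dl i l • v k j - dl j l • v k i - dl i k • v l j + dl j k • v l i)
        (dl i l • v k j - dl j l • v k i - dl i k • v l j + dl j k • v l i) =
    4 * ((Fintype.card r : ℝ) - 2) * ∑ i, ∑ j, B (v i j) (v i j) := by
  have key : ∀ i j k l : r,
      B (dl i l • v k j - dl j l • v k i - dl i k • v l j + dl j k • v l i)
        (dl i l • v k j - dl j l • v k i - dl i k • v l j + dl j k • v l i) =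
      dl i l * B (v k j) (v k j) + dl j l * B (v k i) (v k i) + dl i k * B (v l j) (v l j) +
        dl j k * B (v l i) (v l i) - 2 * (dl i l * (dl j l * B (v k j) (v k i))) -
        2 * (dl i l * (dl i k * B (v k j) (v l j))) + 2 * (dl i l * (dl j k * B (v k j) (v l i))) +
        2 * (dl j l * (dl i k * B (v k i) (v l j))) - 2 * (dl j l * (dl j k * B (v k i) (v l i))) -
        2 * (dl i k * (dl j k * B (v l j) (v l i))) := by
    intro i j k l
    simp only [map_add, map_sub, map_smul, LinearMap.add_apply, LinearMap.sub_apply,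
      LinearMap.smul_apply, smul_eq_mul]
    rw [hsymm (v k i) (v k j), hsymm (v l j) (v k j), hsymm (v l i) (v k j),
      hsymm (v l j) (v k i), hsymm (v l i) (v k i), hsymm (v l i) (v l j)]
    linear_combination (B (v k j) (v k j)) * dl_sq i l + (B (v k i) (v k i)) * dl_sq j l +
      (B (v l j) (v l j)) * dl_sq i k + (B (v l i) (v l i)) * dl_sq j k
  simp only [key, sum_add_distrib, sum_sub_distrib]
  set T := ∑ i, ∑ j, B (v i j) (v i j) with hT
  have hT' : ∑ i, ∑ j, B (v j i) (v j i) = T := sum_comm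
  have hc : ∀ c : ℝ, ∑ _i : r, c = Fintype.card r * c := by
    intro c
    rw [sum_const, card_univ, nsmul_eq_mul]
  have t1 : ∑ i : r, ∑ j : r, ∑ k : r, ∑ l : r, dl i l * B (v k j) (v k j) =
      Fintype.card r * T := by
    rw [← hT', ← hc]
    simp [dl]
  have t2 : ∑ i : r, ∑ j : r, ∑ k : r, ∑ l : r, dl j l * B (v k i) (v k i) =
      Fintype.card r * T := by
    rw [← hT', mul_sum]
    refine sum_congr rfl fun i _ => ?_
    rw [← hc]
    simp [dl]
  have t3 : ∑ i : r, ∑ j : r, ∑ k : r, ∑ l : r, dl i k * B (v l j) (v l j) =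
      Fintype.card r * T := by
    rw [← hT', ← hc]
    refine sum_congr rfl fun i _ => sum_congr rfl fun j _ => ?_
    rw [sum_comm]
    simp [dl]
  have t4 : ∑ i : r, ∑ j : r, ∑ k : r, ∑ l : r, dl j k * B (v l i) (v l i) =
      Fintype.card r * T := by
    rw [← hT', mul_sum]
    refine sum_congr rfl fun i _ => ?_
    rw [← hc]
    refine sum_congr rfl fun j _ => ?_
    rw [sum_comm]
    simp [dl]
  have t5 : ∑ i : r, ∑ j : r, ∑ k : r, ∑ l : r, dl i l * (dl j l * B (v k j) (v k i)) = T := by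
    rw [← hT']
    refine sum_congr rfl fun i _ => ?_
    rw [sum_comm]
    simp [dl]
  have t6 : ∑ i : r, ∑ j : r, ∑ k : r, ∑ l : r, dl i l * (dl i k * B (v k j) (v l j)) = T := by
    simp [dl, hT]
  have t7 : ∑ i : r, ∑ j : r, ∑ k : r, ∑ l : r, dl i l * (dl j k * B (v k j) (v l i)) = 0 := by
    simp [dl, hv0]
  have t8 : ∑ i : r, ∑ j : r, ∑ k : r, ∑ l : r, dl j l * (dl i k * B (v k i) (v l j)) = 0 := by
    simp [dl, hv0]
  have t9 : ∑ i : r, ∑ j : r, ∑ k : r, ∑ l : r, dl j l * (dl j k * B (v k i) (v l i)) = T := by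
    rw [← hT']
    simp [dl]
  have t10 : ∑ i : r, ∑ j : r, ∑ k : r, ∑ l : r, dl i k * (dl j k * B (v l j) (v l i)) = T := by
    rw [← hT']
    refine sum_congr rfl fun i _ => ?_
    have : ∀ j : r, ∑ k : r, ∑ l : r, dl i k * (dl j k * B (v l j) (v l i)) =
        ∑ l : r, dl j i * B (v l j) (v l i) := by
      intro j
      rw [sum_comm]
      by_cases h : i = j
      · subst h
        simp [dl]
      · simp [dl, h, Ne.symm h]
    simp only [this]
    rw [sum_comm]
    simp [dl]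
  have m2 : ∀ (F : r → r → r → r → ℝ) (c : ℝ), ∑ i, ∑ j, ∑ k, ∑ l, F i j k l = c →
      ∑ i, ∑ j, ∑ k, ∑ l, 2 * F i j k l = 2 * c := by
    intro F c h
    rw [← h]
    simp only [mul_sum]
  rw [t1, t2, t3, t4, m2 _ _ t5, m2 _ _ t6, m2 _ _ t7, m2 _ _ t8, m2 _ _ t9, m2 _ _ t10]
  ring

omit [DecidableEq r] in
theorem swap4 {M : Type*} [AddCommMonoid M] (f : r → r → r → r → M) :
    ∑ i, ∑ j, ∑ k, ∑ l, f i j k l = ∑ k, ∑ l, ∑ i, ∑ j, f i j k l := by
  have h1 : ∀ i, ∑ j, ∑ k, ∑ l, f i j k l = ∑ k, ∑ l, ∑ j, f i j k l := by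
    intro i
    rw [sum_comm]
    exact sum_congr rfl fun k _ => sum_comm
  simp only [h1]
  rw [sum_comm]
  exact sum_congr rfl fun k _ => sum_comm

end

/-- R-A: Casimir inequality for polynomials -/
theorem poly_gap {r ι : Type} [Fintype r] [DecidableEq r] [Fintype ι]
    (B : LinearMap.BilinForm ℝ (MvPolynomial (r × ι) ℝ))
    (hsymm : ∀ p q, B p q = B q p) (hpos : ∀ p, 0 ≤ B p p)
    (hanti : ∀ (i j : r) p q, B (Dr i j p) q = - B p (Dr i j q)) (p : MvPolynomial (r × ι) ℝ) :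
    ((Fintype.card r : ℝ) - 2) * ∑ i, ∑ j, B (Dr i j p) (Dr i j p) ≤
      B (∑ i, ∑ j, Dr i j (Dr i j p)) (∑ i, ∑ j, Dr i j (Dr i j p)) := by
  have h1 : ∑ i, ∑ j, ∑ k, ∑ l, B (Dr i j (Dr k l p)) (Dr i j (Dr k l p)) =
      B (Cas p) (Cas p) := by
    have e : ∀ k l : r, ∑ i, ∑ j, B (Dr i j (Dr k l p)) (Dr i j (Dr k l p)) =
        B (Cas p) (Dr k l (Dr k l p)) := by
      intro k l
      have e1 : ∀ i j : r, B (Dr i j (Dr k l p)) (Dr i j (Dr k l p)) =
          - B (Dr i j (Dr i j (Dr k l p))) (Dr k l p) := by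
        intro i j
        rw [hanti i j (Dr i j (Dr k l p)) (Dr k l p), neg_neg]
      simp only [e1, sum_neg_distrib]
      have e2 : ∑ i, ∑ j, B (Dr i j (Dr i j (Dr k l p))) (Dr k l p) =
          B (Cas (Dr k l p)) (Dr k l p) := by
        rw [Cas]
        simp only [map_sum, LinearMap.sum_apply]
      rw [e2, Cas_comm, hanti, neg_neg]
    rw [swap4]
    simp only [e]
    conv_rhs =>
      enter [2]
      rw [show Cas p = ∑ k, ∑ l, Dr k l (Dr k l p) from rfl]
    simp only [map_sum]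
  have hv : ∀ i : r, Dr i i p = 0 := fun i => Dr_self i p
  have h2 := sum_w B hsymm (fun i j => Dr i j p) hv
  have h3 : ∀ i j k l : r,
      B (dl i l • Dr k j p - dl j l • Dr k i p - dl i k • Dr l j p + dl j k • Dr l i p)
        (dl i l • Dr k j p - dl j l • Dr k i p - dl i k • Dr l j p + dl j k • Dr l i p) ≤
      2 * B (Dr i j (Dr k l p)) (Dr i j (Dr k l p)) +
        2 * B (Dr k l (Dr i j p)) (Dr k l (Dr i j p)) := by
    intro i j k l
    rw [← Dr_comm_apply]
    have := hpos (Dr i j (Dr k l p) + Dr k l (Dr i j p))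
    simp only [map_add, map_sub, LinearMap.add_apply, LinearMap.sub_apply] at this ⊢
    linarith
  have h4 : 4 * ((Fintype.card r : ℝ) - 2) * ∑ i, ∑ j, B (Dr i j p) (Dr i j p) ≤
      4 * B (Cas p) (Cas p) := by
    rw [← h2]
    have h5 : ∑ i, ∑ j, ∑ k, ∑ l, B (Dr k l (Dr i j p)) (Dr k l (Dr i j p)) =
        B (Cas p) (Cas p) := by
      rw [← h1, swap4]
    calc _ ≤ ∑ i, ∑ j, ∑ k, ∑ l, (2 * B (Dr i j (Dr k l p)) (Dr i j (Dr k l p)) +
        2 * B (Dr k l (Dr i j p)) (Dr k l (Dr i j p))) :=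
          sum_le_sum fun i _ => sum_le_sum fun j _ => sum_le_sum fun k _ =>
            sum_le_sum fun l _ => h3 i j k l
      _ = 4 * B (Cas p) (Cas p) := by
          simp only [sum_add_distrib, ← mul_sum]
          rw [h1, h5]
          ring
  have h6 : (∑ i, ∑ j, Dr i j (Dr i j p)) = Cas p := rfl
  rw [h6]
  linarith

end Pool.Agent.Lib.MP_6d896a_gt.OM
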