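import Mathlib
import Pool.Agent.Lib.MP_6d896a_gt.OM.Defs
import Pool.Agent.Lib.MP_6d896a_gt.OM.OrbitAlg
import Pool.Agent.Lib.MP_6d896a_gt.OM.OrbitFlow
import Pool.Agent.Lib.MP_6d896a_gt.OM.PolyGap

/-!
Concentration on the orbits of the rotations acting on matrices.
-/

set_option autoImplicit false
set_option linter.unusedSectionVars false

namespace Pool.Agent.Lib.MP_6d896a_gt.OM

open MeasureTheory ProbabilityTheory Matrix Set Filter
open scoped ENNReal Topology

variable {r ι : Type} [Fintype r] [Fintype ι] [DecidableEq r] [DecidableEq ι]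

/-- the bilinear form of a measure -/
noncomputable def Bf (μ : Measure (EuclideanSpace ℝ (r × ι))) [IsProbabilityMeasure μ] {ρ : ℝ}
    (hρ : ∀ᵐ x ∂μ, ‖x‖ ≤ ρ) :
    MvPolynomial (r × ι) ℝ →ₗ[ℝ] MvPolynomial (r × ι) ℝ →ₗ[ℝ] ℝ :=
  LinearMap.mk₂ ℝ (fun p q => ∫ x, pe p x * pe q x ∂μ)
    (by
      intro p p' q
      have h1 := continuous_pe p
      have h2 := continuous_pe p'
      have h3 := continuous_pe q
      rw [← integral_add (integrable_cont hρ (by fun_prop)) (integrable_cont hρ (by fun_prop))]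
      refine integral_congr_ae (Eventually.of_forall fun x => ?_)
      simp only [pe, map_add]
      ring)
    (by
      intro c p q
      rw [smul_eq_mul, ← integral_const_mul]
      refine integral_congr_ae (Eventually.of_forall fun x => ?_)
      simp only [pe, MvPolynomial.smul_eval]
      ring)
    (by
      intro p q q'
      have h1 := continuous_pe p
      have h2 := continuous_pe q
      have h3 := continuous_pe q'
      rw [← integral_add (integrable_cont hρ (by fun_prop)) (integrable_cont hρ (by fun_prop))]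
      refine integral_congr_ae (Eventually.of_forall fun x => ?_)
      simp only [pe, map_add]
      ring)
    (by
      intro c p q
      rw [smul_eq_mul, ← integral_const_mul]
      refine integral_congr_ae (Eventually.of_forall fun x => ?_)
      simp only [pe, MvPolynomial.smul_eval]
      ring)

lemma Bf_apply (μ : Measure (EuclideanSpace ℝ (r × ι))) [IsProbabilityMeasure μ] {ρ : ℝ}
    (hρ : ∀ᵐ x ∂μ, ‖x‖ ≤ ρ) (p q : MvPolynomial (r × ι) ℝ) :
    Bf μ hρ p q = ∫ x, pe p x * pe q x ∂μ := rfl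

/-- integration against a continuous function -/
noncomputable def Ff (μ : Measure (EuclideanSpace ℝ (r × ι))) [IsProbabilityMeasure μ] {ρ : ℝ}
    (hρ : ∀ᵐ x ∂μ, ‖x‖ ≤ ρ) {u : EuclideanSpace ℝ (r × ι) → ℝ} (hu : Continuous u) :
    MvPolynomial (r × ι) ℝ →ₗ[ℝ] ℝ where
  toFun p := ∫ x, u x * pe p x ∂μ
  map_add' := by
    intro p q
    have h1 := continuous_pe p
    have h2 := continuous_pe q
    rw [← integral_add (integrable_cont hρ (by fun_prop)) (integrable_cont hρ (by fun_prop))]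
    refine integral_congr_ae (Eventually.of_forall fun x => ?_)
    simp only [pe, map_add]
    ring
  map_smul' := by
    intro c p
    rw [RingHom.id_apply, smul_eq_mul, ← integral_const_mul]
    refine integral_congr_ae (Eventually.of_forall fun x => ?_)
    simp only [pe, MvPolynomial.smul_eval]
    ring

lemma Ff_apply (μ : Measure (EuclideanSpace ℝ (r × ι))) [IsProbabilityMeasure μ] {ρ : ℝ}
    (hρ : ∀ᵐ x ∂μ, ‖x‖ ≤ ρ) {u : EuclideanSpace ℝ (r × ι) → ℝ} (hu : Continuous u)
    (p : MvPolynomial (r × ι) ℝ) : Ff μ hρ hu p = ∫ x, u x * pe p x ∂μ := rfl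

/-- the form is antisymmetric for the generators -/
lemma Bf_anti {μ : Measure (EuclideanSpace ℝ (r × ι))} [IsProbabilityMeasure μ]
    (hinv : MInv μ) {ρ : ℝ} (hρ : ∀ᵐ x ∂μ, ‖x‖ ≤ ρ) {Z : Matrix r r ℝ} (hZ : Zᵀ = -Z)
    (p q : MvPolynomial (r × ι) ℝ) :
    Bf μ hρ (DZ Z p) q = - Bf μ hρ p (DZ Z q) := by
  have h := flow_ibp hinv hρ hZ (continuous_pe p) (continuous_pe (DZ Z p)) (continuous_pe q)
    (continuous_pe (DZ Z q)) (g := fun _ => 0) continuous_const (fun _ _ _ => rfl)
    (fun x t => hasDerivAt_pe Z p x t) (fun x t => hasDerivAt_pe Z q x t)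
  have h1 := continuous_pe p
  have h2 := continuous_pe q
  have h3 := continuous_pe (DZ Z p)
  have h4 := continuous_pe (DZ Z q)
  rw [integral_add (integrable_cont hρ (by fun_prop)) (integrable_cont hρ (by fun_prop))] at h
  simp only [sub_zero] at h
  rw [Bf_apply, Bf_apply]
  linarith

/-- pointwise bound of the rotational derivatives -/
lemma rot_grad_bound {R : ℝ} {x : EuclideanSpace ℝ (r × ι)} (hx : OpLe R x)
    (L : EuclideanSpace ℝ (r × ι) →L[ℝ] ℝ) (hL : ‖L‖ ≤ 1) :
    ∑ i, ∑ j, (L (act (rz i j) x)) ^ 2 ≤ 4 * R ^ 2 := by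
  -- the gradient
  set G : EuclideanSpace ℝ (r × ι) := (InnerProductSpace.toDual ℝ _).symm L with hG
  have hLG : ∀ y, L y = inner ℝ G y := by
    intro y
    rw [hG, InnerProductSpace.toDual_symm_apply]
  have hGn : ‖G‖ ≤ 1 := by
    rw [hG, LinearIsometryEquiv.norm_map]; exact hL
  set W : r → r → ℝ := fun i j => ∑ l, x (j, l) * G (i, l) with hW
  have hform : ∀ i j, L (act (rz i j) x) = W i j - W j i := by
    intro i j
    rw [hLG, inner_eq_sum]
    have h1 : ∀ a l, act (rz i j) x (a, l) = (if a = i then x (j, l) else 0) -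
        (if a = j then x (i, l) else 0) := by
      intro a l
      rw [act_apply]
      simp only [rz, Matrix.sub_apply, Matrix.single_apply, sub_mul, Finset.sum_sub_distrib]
      congr 1
      · rw [Finset.sum_eq_single j]
        · by_cases h : a = i
          · subst h; simp
          · simp [h, Ne.symm h]
        · intro k _ hk
          simp [Ne.symm hk]
        · simp
      · rw [Finset.sum_eq_single i]
        · by_cases h : a = j
          · subst h; simp
          · simp [h, Ne.symm h]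
        · intro k _ hk
          simp [Ne.symm hk]
        · simp
    simp only [h1, mul_sub, Finset.sum_sub_distrib, mul_ite, mul_zero]
    congr 1
    · rw [Finset.sum_eq_single i]
      · simp only [hW]
        refine Finset.sum_congr rfl fun l _ => ?_
        simp; ring
      · intro a _ ha
        refine Finset.sum_eq_zero fun l _ => ?_
        simp [ha]
      · simp
    · rw [Finset.sum_eq_single j]
      · simp only [hW]
        refine Finset.sum_congr rfl fun l _ => ?_
        simp; ring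
      · intro a _ ha
        refine Finset.sum_eq_zero fun l _ => ?_
        simp [ha]
      · simp
  have hWs : ∑ i, ∑ j, W i j ^ 2 ≤ R ^ 2 := by
    have h1 : ∀ i, ∑ j, W i j ^ 2 ≤ R ^ 2 * ∑ l, G (i, l) ^ 2 := fun i => hx fun l => G (i, l)
    calc ∑ i, ∑ j, W i j ^ 2 ≤ ∑ i, R ^ 2 * ∑ l, G (i, l) ^ 2 :=
          Finset.sum_le_sum fun i _ => h1 i
      _ = R ^ 2 * ‖G‖ ^ 2 := by rw [← Finset.mul_sum, norm_sq_eq_sum]
      _ ≤ R ^ 2 * 1 := by
          refine mul_le_mul_of_nonneg_left ?_ (sq_nonneg _)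
          nlinarith [norm_nonneg G]
      _ = R ^ 2 := mul_one _
  have hsym : ∑ i, ∑ j, W j i ^ 2 = ∑ i, ∑ j, W i j ^ 2 := Finset.sum_comm
  calc ∑ i, ∑ j, (L (act (rz i j) x)) ^ 2 = ∑ i, ∑ j, (W i j - W j i) ^ 2 := by
        simp only [hform]
    _ ≤ ∑ i, ∑ j, (2 * W i j ^ 2 + 2 * W j i ^ 2) := by
        refine Finset.sum_le_sum fun i _ => Finset.sum_le_sum fun j _ => ?_
        nlinarith [sq_nonneg (W i j + W j i)]
    _ = 2 * ∑ i, ∑ j, W i j ^ 2 + 2 * ∑ i, ∑ j, W j i ^ 2 := by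
        simp only [Finset.sum_add_distrib, Finset.mul_sum]
    _ ≤ 4 * R ^ 2 := by rw [hsym]; linarith

/-- bounded operator norm gives bounded support -/
lemma norm_of_OpLe {R : ℝ} {x : EuclideanSpace ℝ (r × ι)} (hx : OpLe R x) :
    ‖x‖ ≤ √(R ^ 2 * Fintype.card ι) := by
  refine Real.le_sqrt_of_sq_le ?_
  rw [norm_sq_eq_sum, Finset.sum_comm]
  have h1 : ∀ j : ι, ∑ i, x (i, j) ^ 2 ≤ R ^ 2 := by
    intro j
    have h := hx (Pi.single j 1)
    have e1 : ∀ i, ∑ k, x (i, k) * (Pi.single j (1 : ℝ) : ι → ℝ) k = x (i, j) := by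
      intro i
      rw [Finset.sum_eq_single j]
      · simp
      · intro k _ hk; simp [hk]
      · simp
    have e2 : ∑ k, (Pi.single j (1 : ℝ) : ι → ℝ) k ^ 2 = 1 := by
      rw [Finset.sum_eq_single j]
      · simp
      · intro k _ hk; simp [hk]
      · simp
    simpa only [e1, e2, mul_one] using h
  calc ∑ j : ι, ∑ i, x (i, j) ^ 2 ≤ ∑ _j : ι, R ^ 2 := Finset.sum_le_sum fun j _ => h1 j
    _ = R ^ 2 * Fintype.card ι := by rw [Finset.sum_const, Finset.card_univ, nsmul_eq_mul]; ring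

/-- Jensen for the square -/
lemma sq_integral_le {μ : Measure (EuclideanSpace ℝ (r × ι))} [IsProbabilityMeasure μ] {ρ : ℝ}
    (hρ : ∀ᵐ x ∂μ, ‖x‖ ≤ ρ) {s : EuclideanSpace ℝ (r × ι) → ℝ} (hs : Continuous s) :
    (∫ x, s x ∂μ) ^ 2 ≤ ∫ x, s x ^ 2 ∂μ := by
  set c := ∫ x, s x ∂μ with hc
  have h0 : 0 ≤ ∫ x, (s x - c) ^ 2 ∂μ := integral_nonneg fun x => sq_nonneg _
  have h1 : ∫ x, (s x - c) ^ 2 ∂μ = ∫ x, s x ^ 2 ∂μ - 2 * c * c + c ^ 2 := by
    have e : (fun x => (s x - c) ^ 2) = fun x => (s x ^ 2 - 2 * c * s x) + c ^ 2 := by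
      funext x; ring
    rw [e, integral_add (integrable_cont hρ (by fun_prop)) (integrable_const _),
      integral_sub (integrable_cont hρ (by fun_prop)) (integrable_cont hρ (by fun_prop)),
      integral_const_mul, ← hc, integral_const]
    simp
  nlinarith

/-- polynomials approximate continuous functions on balls -/
lemma pe_dense {u : EuclideanSpace ℝ (r × ι) → ℝ} (hu : Continuous u) (ρ : ℝ) {ε : ℝ}
    (hε : 0 < ε) : ∃ p : MvPolynomial (r × ι) ℝ, ∀ x : EuclideanSpace ℝ (r × ι), ‖x‖ ≤ ρ →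
      |pe p x - u x| < ε := by
  let co : r × ι → C(EuclideanSpace ℝ (r × ι), ℝ) := fun a => ⟨fun x => x a, by fun_prop⟩
  let Φ : MvPolynomial (r × ι) ℝ →ₐ[ℝ] C(EuclideanSpace ℝ (r × ι), ℝ) := MvPolynomial.aeval co
  have hΦ : ∀ p x, Φ p x = pe p x := by
    intro p x
    induction p using MvPolynomial.induction_on with
    | C a => simp [Φ, pe, Algebra.algebraMap_eq_smul_one]
    | add p q hp hq =>
      rw [map_add, ContinuousMap.add_apply, hp, hq]
      simp [pe]
    | mul_X p a hp =>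
      rw [map_mul, ContinuousMap.mul_apply, hp]
      simp [pe, Φ, co]
  have hsep : (Φ.range).SeparatesPoints := by
    intro x y hxy
    have : ∃ a, x a ≠ y a := by
      by_contra hcon
      push Not at hcon
      exact hxy (by ext a; exact hcon a)
    obtain ⟨a, ha⟩ := this
    refine ⟨co a, ⟨co a, ⟨MvPolynomial.X a, by simp [Φ]⟩, rfl⟩, ha⟩
  obtain ⟨g, ⟨p, hp⟩, hg⟩ :=
    ContinuousMap.exists_mem_subalgebra_near_continuous_of_isCompact_of_separatesPoints hsep
      ⟨u, hu⟩ (isCompact_closedBall (0 : EuclideanSpace ℝ (r × ι)) ρ) hε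
  refine ⟨p, fun x hx => ?_⟩
  have h := hg x (by simpa using hx)
  rw [← hΦ p x]
  have : Φ p = g := hp
  rw [this]
  simpa using h

/-- Cauchy-Schwarz for double sums -/
lemma cs_double (a b : r → r → ℝ) :
    (∑ i, ∑ j, a i j * b i j) ^ 2 ≤ (∑ i, ∑ j, a i j ^ 2) * ∑ i, ∑ j, b i j ^ 2 := by
  have h := Finset.sum_mul_sq_le_sq_mul_sq (Finset.univ : Finset (r × r))
    (fun q => a q.1 q.2) (fun q => b q.1 q.2)
  simpa only [Fintype.sum_prod_type] using h

/-- concentration on the orbits, for a given spectral gap of the Casimir operator -/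
theorem orbit_bound_of {γ : ℝ} (hγ : 0 < γ)
    {μ : Measure (EuclideanSpace ℝ (r × ι))} [IsProbabilityMeasure μ]
    (hinv : MInv μ) {R : ℝ} (hR : 0 < R) (hμ : ∀ᵐ x ∂μ, OpLe R x)
    {f g : EuclideanSpace ℝ (r × ι) → ℝ} (hf : ContDiff ℝ 1 f) (hf1 : ∀ x, ‖fderiv ℝ f x‖ ≤ 1)
    (hg : Continuous g) (hginv : RInv g)
    (hfg : ∀ h : EuclideanSpace ℝ (r × ι) → ℝ, Continuous h → RInv h →
      ∫ x, (f x - g x) * h x ∂μ = 0)
    (hgap : ∀ B : MvPolynomial (r × ι) ℝ →ₗ[ℝ] MvPolynomial (r × ι) ℝ →ₗ[ℝ] ℝ,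
      (∀ p q, B p q = B q p) → (∀ p, 0 ≤ B p p) →
      (∀ (i j : r) p q, B (DZ (rz i j) p) q = - B p (DZ (rz i j) q)) →
      ∀ p, γ * ∑ i, ∑ j, B (DZ (rz i j) p) (DZ (rz i j) p) ≤ B (CasM p) (CasM p)) :
    ∫ x, (f x - g x) ^ 2 ∂μ ≤ 4 * R ^ 2 / γ := by
  have hfc : Continuous f := hf.continuous
  set u : EuclideanSpace ℝ (r × ι) → ℝ := fun x => f x - g x with hu
  have cu : Continuous u := hfc.sub hg
  set ρ : ℝ := √(R ^ 2 * Fintype.card ι) with hρdef
  have hρ : ∀ᵐ x ∂μ, ‖x‖ ≤ ρ := by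
    filter_upwards [hμ] with x hx using norm_of_OpLe hx
  have hanti : ∀ (i j : r) (p q : MvPolynomial (r × ι) ℝ),
      Bf μ hρ (DZ (rz i j) p) q = - Bf μ hρ p (DZ (rz i j) q) :=
    fun i j p q => Bf_anti hinv hρ (rz_skew i j) p q
  have hsymm : ∀ p q : MvPolynomial (r × ι) ℝ, Bf μ hρ p q = Bf μ hρ q p := by
    intro p q
    rw [Bf_apply, Bf_apply]
    refine integral_congr_ae (Eventually.of_forall fun x => ?_)
    exact mul_comm _ _
  have hpos : ∀ p : MvPolynomial (r × ι) ℝ, 0 ≤ Bf μ hρ p p := by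
    intro p
    rw [Bf_apply]
    exact integral_nonneg fun x => mul_self_nonneg _
  have hF0 : ∀ p : MvPolynomial (r × ι) ℝ, (∀ i j, DZ (rz i j) p = 0) → Ff μ hρ cu p = 0 := by
    intro p hp
    rw [Ff_apply]
    exact hfg _ (continuous_pe p) (pe_inv hp)
  have hfd : ∀ Z : Matrix r r ℝ, Continuous fun x : EuclideanSpace ℝ (r × ι) =>
      fderiv ℝ f x (act Z x) := by
    intro Z
    exact (hf.continuous_fderiv (by norm_num)).clm_apply (continuous_act_fix Z)
  have hF : ∀ p : MvPolynomial (r × ι) ℝ, (Ff μ hρ cu (CasM p)) ^ 2 ≤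
      (2 * R) ^ 2 * ∑ i, ∑ j, Bf μ hρ (DZ (rz i j) p) (DZ (rz i j) p) := by
    intro p
    have h1 : ∀ i j, Ff μ hρ cu (DZ (rz i j) (DZ (rz i j) p)) =
        - ∫ x, fderiv ℝ f x (act (rz i j) x) * pe (DZ (rz i j) p) x ∂μ := by
      intro i j
      have h := flow_ibp hinv hρ (rz_skew i j) hfc (hfd (rz i j))
        (continuous_pe (DZ (rz i j) p)) (continuous_pe (DZ (rz i j) (DZ (rz i j) p))) hg hginv
        (fun x t => hasDerivAt_smooth (rz i j) hf x t)
        (fun x t => hasDerivAt_pe (rz i j) (DZ (rz i j) p) x t)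
      have c1 := hfd (rz i j)
      have c2 := continuous_pe (DZ (rz i j) p)
      have c3 := continuous_pe (DZ (rz i j) (DZ (rz i j) p))
      rw [integral_add (integrable_cont hρ (by fun_prop)) (integrable_cont hρ (by fun_prop))] at h
      rw [Ff_apply]
      simp only [hu]
      linarith
    have hcont : ∀ i j, Continuous fun x : EuclideanSpace ℝ (r × ι) =>
        fderiv ℝ f x (act (rz i j) x) * pe (DZ (rz i j) p) x :=
      fun i j => (hfd (rz i j)).mul (continuous_pe _)
    have hscont : Continuous fun x : EuclideanSpace ℝ (r × ι) =>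
        ∑ i, ∑ j, fderiv ℝ f x (act (rz i j) x) * pe (DZ (rz i j) p) x :=
      continuous_finsetSum _ fun i _ => continuous_finsetSum _ fun j _ => hcont i j
    have h2 : Ff μ hρ cu (CasM p) =
        - ∫ x, ∑ i, ∑ j, fderiv ℝ f x (act (rz i j) x) * pe (DZ (rz i j) p) x ∂μ := by
      rw [CasM_apply, map_sum, integral_finsetSum _ (fun i _ =>
        integrable_cont hρ (continuous_finsetSum _ fun j _ => hcont i j)),
        ← Finset.sum_neg_distrib]
      refine Finset.sum_congr rfl fun i _ => ?_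
      rw [map_sum, integral_finsetSum _ (fun j _ => integrable_cont hρ (hcont i j)),
        ← Finset.sum_neg_distrib]
      exact Finset.sum_congr rfl fun j _ => h1 i j
    have hbc : ∀ i j, Continuous fun x : EuclideanSpace ℝ (r × ι) =>
        pe (DZ (rz i j) p) x * pe (DZ (rz i j) p) x :=
      fun i j => (continuous_pe _).mul (continuous_pe _)
    have h3 : ∑ i, ∑ j, Bf μ hρ (DZ (rz i j) p) (DZ (rz i j) p) =
        ∫ x, ∑ i, ∑ j, pe (DZ (rz i j) p) x * pe (DZ (rz i j) p) x ∂μ := by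
      rw [integral_finsetSum _ (fun i _ =>
        integrable_cont hρ (continuous_finsetSum _ fun j _ => hbc i j))]
      refine Finset.sum_congr rfl fun i _ => ?_
      rw [integral_finsetSum _ (fun j _ => integrable_cont hρ (hbc i j))]
      rfl
    rw [h2, neg_sq, h3, ← integral_const_mul]
    refine (sq_integral_le hρ hscont).trans ?_
    refine integral_mono_ae (integrable_cont hρ (hscont.pow 2))
      (integrable_cont hρ (continuous_const.mul
        (continuous_finsetSum _ fun i _ => continuous_finsetSum _ fun j _ => hbc i j))) ?_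
    filter_upwards [hμ] with x hx
    have h4 := rot_grad_bound hx (fderiv ℝ f x) (hf1 x)
    have h5 := cs_double (fun i j => fderiv ℝ f x (act (rz i j) x))
      (fun i j => pe (DZ (rz i j) p) x)
    refine h5.trans ?_
    have h6 : 0 ≤ ∑ i, ∑ j, pe (DZ (rz i j) p) x ^ 2 :=
      Finset.sum_nonneg fun i _ => Finset.sum_nonneg fun j _ => sq_nonneg _
    have h7 : ∑ i, ∑ j, pe (DZ (rz i j) p) x * pe (DZ (rz i j) p) x =
        ∑ i, ∑ j, pe (DZ (rz i j) p) x ^ 2 := by simp only [sq]
    rw [h7]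
    refine mul_le_mul_of_nonneg_right ?_ h6
    linarith
  have hdual := duality hpos hsymm hanti (Ff μ hρ cu) hF0 (hgap _ hsymm hpos hanti) hF
  -- limit
  set A : ℝ := ∫ x, u x ^ 2 ∂μ with hA
  have hA0 : 0 ≤ A := integral_nonneg fun x => sq_nonneg _
  set K : ℝ := ∫ x, |u x| ∂μ with hK
  have hK0 : 0 ≤ K := integral_nonneg fun x => abs_nonneg _
  have hε : ∀ ε : ℝ, 0 < ε → γ * (max (A - ε * K) 0) ^ 2 ≤
      (2 * R) ^ 2 * (A + 2 * ε * K + ε ^ 2) := by
    intro ε hε
    obtain ⟨p, hp⟩ := pe_dense cu ρ hε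
    have cp := continuous_pe p
    have h1 : A - ε * K ≤ ∫ x, u x * pe p x ∂μ := by
      rw [hA, hK, ← integral_const_mul,
        ← integral_sub (integrable_cont hρ (by fun_prop)) (integrable_cont hρ (by fun_prop))]
      refine integral_mono_ae (integrable_cont hρ (by fun_prop))
        (integrable_cont hρ (by fun_prop)) ?_
      filter_upwards [hρ] with x hx
      have h2 := (hp x hx).le
      have h3 : |u x * (pe p x - u x)| ≤ |u x| * ε := by
        rw [abs_mul]; exact mul_le_mul_of_nonneg_left h2 (abs_nonneg _)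
      have h4 := neg_abs_le (u x * (pe p x - u x))
      nlinarith
    have h2 : ∫ x, pe p x * pe p x ∂μ ≤ A + 2 * ε * K + ε ^ 2 := by
      have h3 : ∫ x, pe p x * pe p x ∂μ ≤ ∫ x, (u x ^ 2 + 2 * ε * |u x|) + ε ^ 2 ∂μ := by
        refine integral_mono_ae (integrable_cont hρ (by fun_prop))
          (integrable_cont hρ (by fun_prop)) ?_
        filter_upwards [hρ] with x hx
        have h2 := (hp x hx).le
        have h3 : |pe p x| ≤ |u x| + ε := by
          have : pe p x = u x + (pe p x - u x) := by ring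
          rw [this]
          exact (abs_add_le _ _).trans (by linarith)
        have h4 : pe p x * pe p x = |pe p x| ^ 2 := by rw [sq_abs, sq]
        rw [h4, ← sq_abs (u x)]
        nlinarith [abs_nonneg (pe p x), abs_nonneg (u x)]
      refine h3.trans (le_of_eq ?_)
      rw [integral_add (integrable_cont hρ (by fun_prop)) (integrable_const _),
        integral_add (integrable_cont hρ (by fun_prop)) (integrable_cont hρ (by fun_prop)),
        integral_const_mul, integral_const]
      simp [hA, hK]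
    have h3 := hdual p
    rw [Ff_apply, Bf_apply] at h3
    have h4 : (max (A - ε * K) 0) ^ 2 ≤ (∫ x, u x * pe p x ∂μ) ^ 2 := by
      rcases le_total (A - ε * K) 0 with h | h
      · rw [max_eq_right h]; simpa using sq_nonneg _
      · rw [max_eq_left h]
        exact pow_le_pow_left₀ h h1 2
    calc γ * (max (A - ε * K) 0) ^ 2 ≤ γ * (∫ x, u x * pe p x ∂μ) ^ 2 :=
          mul_le_mul_of_nonneg_left h4 hγ.le
      _ ≤ (2 * R) ^ 2 * ∫ x, pe p x * pe p x ∂μ := h3
      _ ≤ (2 * R) ^ 2 * (A + 2 * ε * K + ε ^ 2) :=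
          mul_le_mul_of_nonneg_left h2 (sq_nonneg _)
  have hlim : γ * (max (A - 0 * K) 0) ^ 2 ≤ (2 * R) ^ 2 * (A + 2 * 0 * K + 0 ^ 2) := by
    have c1 : Continuous fun ε : ℝ => γ * (max (A - ε * K) 0) ^ 2 := by fun_prop
    have c2 : Continuous fun ε : ℝ => (2 * R) ^ 2 * (A + 2 * ε * K + ε ^ 2) := by fun_prop
    refine le_of_tendsto_of_tendsto (b := 𝓝[>] (0 : ℝ))
      ((c1.tendsto 0).mono_left nhdsWithin_le_nhds)
      ((c2.tendsto 0).mono_left nhdsWithin_le_nhds) ?_
    filter_upwards [self_mem_nhdsWithin] with ε hε' using hε ε hε'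
  have hfin : γ * A ^ 2 ≤ 4 * R ^ 2 * A := by
    have e1 : max (A - 0 * K) 0 = A := by rw [zero_mul, sub_zero]; exact max_eq_left hA0
    rw [e1] at hlim
    nlinarith
  rw [le_div_iff₀ hγ]
  rcases hA0.eq_or_lt with h | h
  · rw [← h, zero_mul]; positivity
  · have : A * (A * γ) ≤ A * (4 * R ^ 2) := by nlinarith
    exact le_of_mul_le_mul_left this h

lemma Dr_eq_DZ {r ι : Type} [Fintype r] [DecidableEq r] [Fintype ι] (i j : r) :
    (Dr i j : Derivation ℝ (MvPolynomial (r × ι) ℝ) (MvPolynomial (r × ι) ℝ)) = DZ (rz i j) := by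
  refine MvPolynomial.derivation_ext fun p => ?_
  rw [DZ_X, Dr, MvPolynomial.mkDerivation_X]
  simp only [rz, Matrix.sub_apply, map_sub, sub_mul, Finset.sum_sub_distrib, Matrix.single_apply]
  congr 1
  · rw [Finset.sum_eq_single j]
    · by_cases h : p.1 = i
      · simp [h]
      · simp [h, Ne.symm h]
    · intro k _ hk; simp [Ne.symm hk]
    · simp
  · rw [Finset.sum_eq_single i]
    · by_cases h : p.1 = j
      · simp [h]
      · simp [h, Ne.symm h]
    · intro k _ hk; simp [Ne.symm hk]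
    · simp

/-- R-B: concentration on the orbits -/
theorem orbit_bound {r ι : Type} [Fintype r] [Fintype ι] [DecidableEq r] [DecidableEq ι]
    (hr : 3 ≤ Fintype.card r) {μ : Measure (EuclideanSpace ℝ (r × ι))} [IsProbabilityMeasure μ]
    (hinv : MInv μ) {R : ℝ} (hR : 0 < R) (hμ : ∀ᵐ x ∂μ, OpLe R x)
    {f g : EuclideanSpace ℝ (r × ι) → ℝ} (hf : ContDiff ℝ 1 f) (hf1 : ∀ x, ‖fderiv ℝ f x‖ ≤ 1)
    (hg : Continuous g) (hginv : RInv g)
    (hfg : ∀ h : EuclideanSpace ℝ (r × ι) → ℝ, Continuous h → RInv h →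
      ∫ x, (f x - g x) * h x ∂μ = 0) :
    ∫ x, (f x - g x) ^ 2 ∂μ ≤ 4 * R ^ 2 / ((Fintype.card r : ℝ) - 2) := by
  have hγ : (0 : ℝ) < (Fintype.card r : ℝ) - 2 := by
    have : (3 : ℝ) ≤ (Fintype.card r : ℝ) := by exact_mod_cast hr
    linarith
  refine orbit_bound_of hγ hinv hR hμ hf hf1 hg hginv hfg ?_
  intro B hsymm hpos hanti p
  have h := poly_gap B hsymm hpos (fun i j p q => by rw [Dr_eq_DZ]; exact hanti i j p q) p
  simp only [Dr_eq_DZ] at h
  rw [CasM_apply]
  exact h

end Pool.Agent.Lib.MP_6d896a_gt.OM
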