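import Mathlib
import Pool.Agent.Lib.MP_6d896a_gt.OM.Defs

/-!
The symmetric slice in the space of `(ι ⊕ κ) × ι` matrices.
-/

set_option autoImplicit false
set_option linter.unusedSectionVars false

namespace Pool.Agent.Lib.MP_6d896a_gt.OM

open MeasureTheory ProbabilityTheory Matrix Set Filter
open scoped ENNReal Topology

variable {ι κ : Type*} [Fintype ι] [Fintype κ]

/-- symmetric part of the top block -/
noncomputable def Sy : EuclideanSpace ℝ ((ι ⊕ κ) × ι) →ₗ[ℝ] Matrix ι ι ℝ where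
  toFun x := Matrix.of fun i j => (x (Sum.inl i, j) + x (Sum.inl j, i)) / 2
  map_add' x y := by ext i j; simp; ring
  map_smul' c x := by ext i j; simp; ring

/-- the matrix with top block `H` and bottom block `0` -/
noncomputable def emb : Matrix ι ι ℝ →ₗ[ℝ] EuclideanSpace ℝ ((ι ⊕ κ) × ι) where
  toFun H := WithLp.toLp 2 fun p => Sum.elim (fun i => H i p.2) (fun _ => (0 : ℝ)) p.1
  map_add' x y := by ext ⟨i | k, j⟩ <;> simp
  map_smul' c x := by ext ⟨i | k, j⟩ <;> simp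

@[simp] lemma Sy_apply (x : EuclideanSpace ℝ ((ι ⊕ κ) × ι)) (i j : ι) :
    Sy x i j = (x (Sum.inl i, j) + x (Sum.inl j, i)) / 2 := rfl

@[simp] lemma emb_inl (H : Matrix ι ι ℝ) (i j : ι) :
    (emb H : EuclideanSpace ℝ ((ι ⊕ κ) × ι)) (Sum.inl i, j) = H i j := rfl

@[simp] lemma emb_inr (H : Matrix ι ι ℝ) (k : κ) (j : ι) :
    (emb H : EuclideanSpace ℝ ((ι ⊕ κ) × ι)) (Sum.inr k, j) = 0 := rfl

/-- projection on the slice -/
noncomputable def sl : EuclideanSpace ℝ ((ι ⊕ κ) × ι) →ₗ[ℝ] EuclideanSpace ℝ ((ι ⊕ κ) × ι) :=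
  emb ∘ₗ Sy

/-- projection on the orthogonal complement of the slice -/
noncomputable def mm : EuclideanSpace ℝ ((ι ⊕ κ) × ι) →ₗ[ℝ] EuclideanSpace ℝ ((ι ⊕ κ) × ι) :=
  LinearMap.id - sl

/-- right multiplication -/
noncomputable def rmul (H : Matrix ι ι ℝ) :
    EuclideanSpace ℝ ((ι ⊕ κ) × ι) →ₗ[ℝ] EuclideanSpace ℝ ((ι ⊕ κ) × ι) where
  toFun x := me (mt x * H)
  map_add' x y := by rw [map_add, Matrix.add_mul, map_add]
  map_smul' c x := by rw [map_smul, Matrix.smul_mul, map_smul]; rfl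

/-- the admissible cone of symmetric matrices -/
def PD (κ : Type*) [Fintype κ] (H : Matrix ι ι ℝ) : Prop :=
  Hᵀ = H ∧ ∀ z : EuclideanSpace ℝ ((ι ⊕ κ) × ι), sl z = 0 → z ≠ 0 →
    0 < inner ℝ (rmul H z) z

/-- the symmetric operator whose determinant is the orbit density -/
noncomputable def Lop (R : ℝ) (H : Matrix ι ι ℝ) :
    EuclideanSpace ℝ ((ι ⊕ κ) × ι) →ₗ[ℝ] EuclideanSpace ℝ ((ι ⊕ κ) × ι) :=
  mm ∘ₗ rmul H ∘ₗ mm + R • sl

lemma sl_inl (x : EuclideanSpace ℝ ((ι ⊕ κ) × ι)) (i j : ι) :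
    sl x (Sum.inl i, j) = (x (Sum.inl i, j) + x (Sum.inl j, i)) / 2 := rfl

lemma sl_inr (x : EuclideanSpace ℝ ((ι ⊕ κ) × ι)) (k : κ) (j : ι) :
    sl x (Sum.inr k, j) = 0 := rfl

lemma mm_inl (x : EuclideanSpace ℝ ((ι ⊕ κ) × ι)) (i j : ι) :
    mm x (Sum.inl i, j) = (x (Sum.inl i, j) - x (Sum.inl j, i)) / 2 := by
  simp [mm, sl_inl]; ring

lemma mm_inr (x : EuclideanSpace ℝ ((ι ⊕ κ) × ι)) (k : κ) (j : ι) :
    mm x (Sum.inr k, j) = x (Sum.inr k, j) := by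
  simp [mm, sl_inr]

lemma sl_add_mm (x : EuclideanSpace ℝ ((ι ⊕ κ) × ι)) : sl x + mm x = x := by
  simp [mm]

lemma sl_sl (x : EuclideanSpace ℝ ((ι ⊕ κ) × ι)) : sl (sl x) = sl x := by
  ext ⟨i | k, j⟩
  · simp only [sl_inl]; ring
  · simp only [sl_inr]

lemma mm_mm (x : EuclideanSpace ℝ ((ι ⊕ κ) × ι)) : mm (mm x) = mm x := by
  simp [mm, sl_sl]

lemma sl_mm (x : EuclideanSpace ℝ ((ι ⊕ κ) × ι)) : sl (mm x) = 0 := by
  simp [mm, sl_sl]

lemma mm_sl (x : EuclideanSpace ℝ ((ι ⊕ κ) × ι)) : mm (sl x) = 0 := by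
  simp [mm, sl_sl]

lemma Sy_symm (x : EuclideanSpace ℝ ((ι ⊕ κ) × ι)) : (Sy x)ᵀ = Sy x := by
  ext i j; simp [add_comm]

lemma Sy_emb {H : Matrix ι ι ℝ} (hH : Hᵀ = H) :
    Sy (emb H : EuclideanSpace ℝ ((ι ⊕ κ) × ι)) = H := by
  ext i j
  have : H j i = H i j := congrFun (congrFun hH i) j
  simp [this]

lemma sl_emb {H : Matrix ι ι ℝ} (hH : Hᵀ = H) :
    sl (emb H : EuclideanSpace ℝ ((ι ⊕ κ) × ι)) = emb H := by
  change emb (Sy (emb H : EuclideanSpace ℝ ((ι ⊕ κ) × ι))) = emb H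
  rw [Sy_emb hH]

lemma mt_emb (H : Matrix ι ι ℝ) :
    mt (emb H : EuclideanSpace ℝ ((ι ⊕ κ) × ι)) = Matrix.fromRows H 0 := by
  ext (i | k) j <;> simp

lemma emb_eq_me (H : Matrix ι ι ℝ) :
    (emb H : EuclideanSpace ℝ ((ι ⊕ κ) × ι)) = me (Matrix.fromRows H 0) := by
  rw [← mt_emb (κ := κ), me_mt]

lemma inner_sl_mm (x y : EuclideanSpace ℝ ((ι ⊕ κ) × ι)) : inner ℝ (sl x) (mm y) = 0 := by
  rw [inner_eq_sum, Fintype.sum_sum_type]
  simp only [sl_inl, sl_inr, mm_inl, mm_inr, zero_mul, Finset.sum_const_zero, add_zero]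
  have h : ∑ i, ∑ j, (x (Sum.inl i, j) + x (Sum.inl j, i)) / 2 *
      ((y (Sum.inl i, j) - y (Sum.inl j, i)) / 2) =
      ∑ i, ∑ j, (x (Sum.inl i, j) + x (Sum.inl j, i)) / 2 * (y (Sum.inl i, j) / 2) -
      ∑ i, ∑ j, (x (Sum.inl i, j) + x (Sum.inl j, i)) / 2 * (y (Sum.inl j, i) / 2) := by
    rw [← Finset.sum_sub_distrib]
    refine Finset.sum_congr rfl fun i _ => ?_
    rw [← Finset.sum_sub_distrib]
    refine Finset.sum_congr rfl fun j _ => ?_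
    ring
  rw [h, sub_eq_zero]
  rw [Finset.sum_comm]
  refine Finset.sum_congr rfl fun i _ => Finset.sum_congr rfl fun j _ => ?_
  ring

lemma inner_mm_sl (x y : EuclideanSpace ℝ ((ι ⊕ κ) × ι)) : inner ℝ (mm x) (sl y) = 0 := by
  rw [real_inner_comm, inner_sl_mm]

lemma inner_mm_left (x y : EuclideanSpace ℝ ((ι ⊕ κ) × ι)) :
    inner ℝ (mm x) y = inner ℝ x (mm y) := by
  conv_lhs => rw [← sl_add_mm y]
  conv_rhs => rw [← sl_add_mm x]
  rw [inner_add_right, inner_add_left, inner_mm_sl, inner_sl_mm]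

lemma inner_sl_left (x y : EuclideanSpace ℝ ((ι ⊕ κ) × ι)) :
    inner ℝ (sl x) y = inner ℝ x (sl y) := by
  conv_lhs => rw [← sl_add_mm y]
  conv_rhs => rw [← sl_add_mm x]
  rw [inner_add_right, inner_add_left, inner_mm_sl, inner_sl_mm]

lemma norm_sq_split (x : EuclideanSpace ℝ ((ι ⊕ κ) × ι)) :
    ‖x‖ ^ 2 = ‖sl x‖ ^ 2 + ‖mm x‖ ^ 2 := by
  conv_lhs => rw [← sl_add_mm x]
  rw [← real_inner_self_eq_norm_sq, inner_add_left, inner_add_right, inner_add_right,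
    inner_sl_mm, inner_mm_sl, real_inner_self_eq_norm_sq, real_inner_self_eq_norm_sq]
  ring

lemma norm_emb_sq (H : Matrix ι ι ℝ) :
    ‖(emb H : EuclideanSpace ℝ ((ι ⊕ κ) × ι))‖ ^ 2 = ∑ i, ∑ j, H i j ^ 2 := by
  rw [norm_sq_eq_sum, Fintype.sum_sum_type]
  simp

lemma mt_rmul (H : Matrix ι ι ℝ) (x : EuclideanSpace ℝ ((ι ⊕ κ) × ι)) :
    mt (rmul H x) = mt x * H := by
  simp [rmul]

lemma rmul_apply (H : Matrix ι ι ℝ) (x : EuclideanSpace ℝ ((ι ⊕ κ) × ι)) (i : ι ⊕ κ) (j : ι) :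
    rmul H x (i, j) = ∑ k, x (i, k) * H k j := by
  simp [rmul, Matrix.mul_apply]

lemma inner_rmul (H : Matrix ι ι ℝ) (x y : EuclideanSpace ℝ ((ι ⊕ κ) × ι)) :
    inner ℝ (rmul H x) y = inner ℝ x (rmul Hᵀ y) := by
  rw [inner_eq_trace, inner_eq_trace, mt_rmul, mt_rmul, Matrix.transpose_mul, Matrix.mul_assoc,
    Matrix.trace_mul_comm, Matrix.mul_assoc]

end Pool.Agent.Lib.MP_6d896a_gt.OM
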