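import Mathlib
import Pool.Agent.Lib.MP_6d896a_gt.OM.Slice

/-!
Polar decomposition by maximisation over the group of rotations.
-/

set_option autoImplicit false
set_option linter.unusedSectionVars false

namespace Pool.Agent.Lib.MP_6d896a_gt.OM

open MeasureTheory ProbabilityTheory Matrix Set Filter
open scoped ENNReal Topology

section crit

variable {r : Type*} [Fintype r] [DecidableEq r]

open scoped Matrix.Norms.Operator in
lemma hasDerivAt_lin_exp (Φ : Matrix r r ℝ →ₗ[ℝ] ℝ) (Z : Matrix r r ℝ) (t : ℝ) :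
    HasDerivAt (fun t : ℝ => Φ (NormedSpace.exp (t • Z))) (Φ (NormedSpace.exp (t • Z) * Z)) t := by
  have h1 := hasDerivAt_exp_smul_const (𝕂 := ℝ) Z t
  have h2 := (LinearMap.toContinuousLinearMap Φ).hasFDerivAt.comp_hasDerivAt t h1
  exact h2

lemma smul_skew {Z : Matrix r r ℝ} (hZ : Zᵀ = -Z) (t : ℝ) : (t • Z)ᵀ = -(t • Z) := by
  rw [Matrix.transpose_smul, hZ, smul_neg]

/-- first and second order conditions at a maximum over the rotations -/
lemma crit {Φ : Matrix r r ℝ →ₗ[ℝ] ℝ}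
    (hmax : ∀ v ∈ RotG r, Φ (v : Matrix r r ℝ) ≤ Φ 1) {Z : Matrix r r ℝ} (hZ : Zᵀ = -Z) :
    Φ Z = 0 ∧ Φ (Z * Z) ≤ 0 := by
  set h : ℝ → ℝ := fun t => Φ (NormedSpace.exp (t • Z)) with hh
  have hle : ∀ t, h t ≤ h 0 := by
    intro t
    have := hmax _ (expG_mem (t • Z) (smul_skew hZ t))
    simpa [hh, expG] using this
  have hlm : IsLocalMax h 0 := Filter.Eventually.of_forall hle
  have hd : ∀ t, HasDerivAt h (Φ (NormedSpace.exp (t • Z) * Z)) t := hasDerivAt_lin_exp Φ Z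
  have h0 : Φ Z = 0 := by
    have := hlm.hasDerivAt_eq_zero (hd 0)
    simpa using this
  refine ⟨h0, ?_⟩
  by_contra hcon
  push Not at hcon
  have hderiv : deriv h = fun t => Φ (NormedSpace.exp (t • Z) * Z) := by
    funext t; exact (hd t).deriv
  have hd2 : HasDerivAt (deriv h) (Φ (Z * Z)) 0 := by
    rw [hderiv]
    have := hasDerivAt_lin_exp (Φ ∘ₗ LinearMap.mulRight ℝ Z) Z 0
    simpa using this
  have hmin : IsLocalMin h 0 := by
    refine isLocalMin_of_deriv_deriv_pos ?_ ?_ (hd 0).continuousAt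
    · rw [hd2.deriv]; exact hcon
    · rw [hderiv]; simpa using h0
  have hconst : h =ᶠ[𝓝 0] fun _ => h 0 := by
    filter_upwards [hmin] with t ht
    exact le_antisymm (hle t) ht
  have hd3 : deriv h =ᶠ[𝓝 0] deriv fun _ => h 0 := hconst.deriv
  have hd4 : deriv (deriv h) 0 = deriv (deriv fun _ : ℝ => h 0) 0 := hd3.deriv_eq
  rw [hd2.deriv] at hd4
  simp at hd4
  linarith

lemma exists_max (Φ : Matrix r r ℝ →ₗ[ℝ] ℝ) :
    ∃ u ∈ RotG r, ∀ v ∈ RotG r, Φ (v : Matrix r r ℝ) ≤ Φ (u : Matrix r r ℝ) := by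
  have hc : IsCompact (RotG r : Set (Matrix.orthogonalGroup r ℝ)) := isClosed_RotG.isCompact
  have hcont : Continuous fun u : Matrix.orthogonalGroup r ℝ => Φ (u : Matrix r r ℝ) :=
    (LinearMap.continuous_of_finiteDimensional Φ).comp continuous_subtype_val
  obtain ⟨u, hu, hmax⟩ := hc.exists_isMaxOn ⟨1, (RotG r).one_mem⟩ hcont.continuousOn
  exact ⟨u, hu, fun v hv => hmax hv⟩

/-- the elementary skew matrix -/
def sk (i j : r) : Matrix r r ℝ := Matrix.single i j 1 - Matrix.single j i 1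

lemma sk_skew (i j : r) : (sk i j)ᵀ = -sk i j := by
  simp [sk, Matrix.transpose_sub, Matrix.transpose_single]

lemma sk_apply (i j a b : r) : sk i j a b =
    (if i = a ∧ j = b then 1 else 0) - (if j = a ∧ i = b then 1 else 0) := by
  simp [sk, Matrix.single_apply]

/-- transitivity of the group of rotations on spheres -/
theorem rot_trans (hr : 2 ≤ Fintype.card r) (x y : r → ℝ) (hxy : ∑ i, x i ^ 2 = ∑ i, y i ^ 2) :
    ∃ u ∈ RotG r, (u : Matrix r r ℝ) *ᵥ x = y := by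
  by_cases hy : y = 0
  · refine ⟨1, (RotG r).one_mem, ?_⟩
    subst hy
    have h0 : ∑ i, x i ^ 2 = 0 := by rw [hxy]; simp
    have h1 : x = 0 := by
      funext i
      have := (Finset.sum_eq_zero_iff_of_nonneg (fun i _ => sq_nonneg (x i))).mp h0 i
        (Finset.mem_univ i)
      simpa using this
    simp [h1]
  let Φ : (r → ℝ) → Matrix r r ℝ →ₗ[ℝ] ℝ := fun b =>
    { toFun := fun M => y ⬝ᵥ (M *ᵥ b)
      map_add' := by intro M N; rw [Matrix.add_mulVec, dotProduct_add]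
      map_smul' := by intro c M; rw [Matrix.smul_mulVec, dotProduct_smul]; rfl }
  obtain ⟨u, hu, hmax⟩ := exists_max (Φ x)
  refine ⟨u, hu, ?_⟩
  set b := (u : Matrix r r ℝ) *ᵥ x with hb
  have hmax' : ∀ v ∈ RotG r, Φ b (v : Matrix r r ℝ) ≤ Φ b 1 := by
    intro v hv
    have := hmax (v * u) ((RotG r).mul_mem hv hu)
    change y ⬝ᵥ (((v * u : Matrix.orthogonalGroup r ℝ) : Matrix r r ℝ) *ᵥ x) ≤
      y ⬝ᵥ ((u : Matrix r r ℝ) *ᵥ x) at this
    change y ⬝ᵥ ((v : Matrix r r ℝ) *ᵥ b) ≤ y ⬝ᵥ ((1 : Matrix r r ℝ) *ᵥ b)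
    rw [Matrix.one_mulVec, hb, Matrix.mulVec_mulVec]
    exact this
  have hnorm : ∑ i, b i ^ 2 = ∑ i, y i ^ 2 := by
    rw [← hxy]
    have h1 : ∑ i, b i ^ 2 = b ⬝ᵥ b := by simp [dotProduct, sq]
    have h2 : ∑ i, x i ^ 2 = x ⬝ᵥ x := by simp [dotProduct, sq]
    rw [h1, h2, hb, Matrix.dotProduct_mulVec, Matrix.vecMul_mulVec, orth_left, Matrix.vecMul_one]
  have hsk : ∀ i j, y i * b j = y j * b i := by
    intro i j
    have := (crit hmax' (sk_skew i j)).1
    change y ⬝ᵥ (sk i j *ᵥ b) = 0 at this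
    rw [sk, Matrix.sub_mulVec, dotProduct_sub] at this
    simp only [Matrix.single_mulVec, dotProduct] at this
    simp [Function.update_apply] at this
    linarith
  have hsk2 : ∀ i j, i ≠ j → 0 ≤ y i * b i + y j * b j := by
    intro i j hij
    have := (crit hmax' (sk_skew i j)).2
    change y ⬝ᵥ ((sk i j * sk i j) *ᵥ b) ≤ 0 at this
    have hsq : sk i j * sk i j = -(Matrix.single i i 1 + Matrix.single j j 1) := by
      simp [sk, Matrix.sub_mul, Matrix.mul_sub, hij, hij.symm]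
      abel
    rw [hsq, Matrix.neg_mulVec, dotProduct_neg, Matrix.add_mulVec, dotProduct_add] at this
    simp only [Matrix.single_mulVec, dotProduct] at this
    simp [Function.update_apply] at this
    linarith
  obtain ⟨i0, hi0⟩ : ∃ i0, y i0 ≠ 0 := by
    by_contra hcon
    push Not at hcon
    exact hy (funext hcon)
  set c := b i0 / y i0 with hc
  have hbc : ∀ j, b j = c * y j := by
    intro j
    have := hsk i0 j
    rw [hc]
    field_simp
    linarith
  obtain ⟨j0, hj0⟩ : ∃ j0, j0 ≠ i0 := by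
    have : 1 < Fintype.card r := by omega
    exact Fintype.exists_ne_of_one_lt_card this i0
  have hc0 : 0 ≤ c := by
    have h1 := hsk2 j0 i0 hj0
    rw [hbc, hbc] at h1
    by_contra hneg
    push Not at hneg
    have h2 : 0 < y i0 ^ 2 := by positivity
    nlinarith [sq_nonneg (y j0)]
  have hc1 : c = 1 := by
    have h1 : c ^ 2 * ∑ i, y i ^ 2 = ∑ i, y i ^ 2 := by
      conv_rhs => rw [← hnorm]
      rw [Finset.mul_sum]
      refine Finset.sum_congr rfl fun i _ => ?_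
      rw [hbc i]; ring
    have h2 : 0 < ∑ i, y i ^ 2 := by
      refine lt_of_lt_of_le (by positivity : 0 < y i0 ^ 2)
        (Finset.single_le_sum (f := fun i => y i ^ 2) (fun i _ => sq_nonneg _) (Finset.mem_univ i0))
    have h3 : c ^ 2 = 1 := by
      have := mul_right_cancel₀ h2.ne' (h1.trans (one_mul _).symm)
      exact this
    nlinarith
  funext j
  rw [hbc j, hc1, one_mul]

end crit

section polar

variable {ι κ : Type*} [Fintype ι] [Fintype κ]

/-- the skew matrix with first block column `z` -/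
def hat (z : EuclideanSpace ℝ ((ι ⊕ κ) × ι)) : Matrix (ι ⊕ κ) (ι ⊕ κ) ℝ :=
  Matrix.of fun a b => Sum.elim (fun j => z (a, j))
    (fun k => Sum.elim (fun i => - z (Sum.inr k, i)) (fun _ => (0 : ℝ)) a) b

@[simp] lemma hat_l (z : EuclideanSpace ℝ ((ι ⊕ κ) × ι)) (a : ι ⊕ κ) (j : ι) :
    hat z a (Sum.inl j) = z (a, j) := rfl

@[simp] lemma hat_lr (z : EuclideanSpace ℝ ((ι ⊕ κ) × ι)) (i : ι) (k : κ) :
    hat z (Sum.inl i) (Sum.inr k) = - z (Sum.inr k, i) := rfl

@[simp] lemma hat_rr (z : EuclideanSpace ℝ ((ι ⊕ κ) × ι)) (k l : κ) :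
    hat z (Sum.inr l) (Sum.inr k) = 0 := rfl

lemma hat_add (z w : EuclideanSpace ℝ ((ι ⊕ κ) × ι)) : hat (z + w) = hat z + hat w := by
  ext (i | k) (j | l) <;> simp
  ring

lemma hat_smul (c : ℝ) (z : EuclideanSpace ℝ ((ι ⊕ κ) × ι)) : hat (c • z) = c • hat z := by
  ext (i | k) (j | l) <;> simp

lemma hat_skew {z : EuclideanSpace ℝ ((ι ⊕ κ) × ι)} (hz : sl z = 0) : (hat z)ᵀ = -hat z := by
  ext (i | k) (j | l)
  · have h : sl z (Sum.inl i, j) = 0 := by rw [hz]; rfl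
    rw [sl_inl] at h
    simp
    linarith
  · simp
  · simp
  · simp

lemma act_hat_emb (z : EuclideanSpace ℝ ((ι ⊕ κ) × ι)) (H : Matrix ι ι ℝ) :
    act (hat z) (emb H) = rmul H z := by
  ext ⟨i | k, j⟩ <;>
    simp [act_apply, rmul_apply, Fintype.sum_sum_type]

variable [DecidableEq ι] [DecidableEq κ]

lemma rmul_one (z : EuclideanSpace ℝ ((ι ⊕ κ) × ι)) : rmul (1 : Matrix ι ι ℝ) z = z := by
  simp [rmul]

/-- existence of the polar decomposition -/
theorem polar_exists (x : EuclideanSpace ℝ ((ι ⊕ κ) × ι)) :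
    ∃ u ∈ RotG (ι ⊕ κ), ∃ H : Matrix ι ι ℝ, Hᵀ = H ∧
      act (u : Matrix (ι ⊕ κ) (ι ⊕ κ) ℝ) x = emb H ∧
      ∀ z : EuclideanSpace ℝ ((ι ⊕ κ) × ι), sl z = 0 → 0 ≤ inner ℝ (rmul H z) z := by
  let Φ : EuclideanSpace ℝ ((ι ⊕ κ) × ι) → Matrix (ι ⊕ κ) (ι ⊕ κ) ℝ →ₗ[ℝ] ℝ := fun b =>
    { toFun := fun M => inner ℝ (act M b) (emb 1)
      map_add' := by
        intro M N
        rw [act_def, Matrix.add_mul, map_add, inner_add_left]; rfl
      map_smul' := by
        intro c M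
        rw [act_def, Matrix.smul_mul, map_smul, inner_smul_left]; rfl }
  obtain ⟨u, hu, hmax⟩ := exists_max (Φ x)
  set B := act (u : Matrix (ι ⊕ κ) (ι ⊕ κ) ℝ) x with hB
  have hmax' : ∀ v ∈ RotG (ι ⊕ κ), Φ B (v : Matrix (ι ⊕ κ) (ι ⊕ κ) ℝ) ≤ Φ B 1 := by
    intro v hv
    have := hmax (v * u) ((RotG (ι ⊕ κ)).mul_mem hv hu)
    change inner ℝ (act ((v : Matrix (ι ⊕ κ) (ι ⊕ κ) ℝ) * (u : Matrix (ι ⊕ κ) (ι ⊕ κ) ℝ)) x)
      (emb 1) ≤ inner ℝ (act (u : Matrix (ι ⊕ κ) (ι ⊕ κ) ℝ) x) (emb 1) at this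
    change inner ℝ (act (v : Matrix (ι ⊕ κ) (ι ⊕ κ) ℝ) B) (emb 1) ≤
      inner ℝ (act (1 : Matrix (ι ⊕ κ) (ι ⊕ κ) ℝ) B) (emb 1)
    rw [act_one, hB, ← act_mul]
    exact this
  have hfirst : ∀ Z : Matrix (ι ⊕ κ) (ι ⊕ κ) ℝ, Zᵀ = -Z → inner ℝ (act Z B) (emb 1) = 0 :=
    fun Z hZ => (crit hmax' hZ).1
  have hform : ∀ Z : Matrix (ι ⊕ κ) (ι ⊕ κ) ℝ,
      inner ℝ (act Z B) (emb 1) = ∑ i, ∑ a, Z (Sum.inl i) a * B (a, i) := by
    intro Z
    rw [inner_eq_sum, Fintype.sum_sum_type]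
    simp only [emb_inl, emb_inr, mul_zero, Finset.sum_const_zero, add_zero, act_apply]
    refine Finset.sum_congr rfl fun i _ => ?_
    rw [Finset.sum_eq_single i]
    · simp
    · intro j _ hj
      simp [Matrix.one_apply, hj.symm]
    · simp
  have hskB : ∀ a b : ι ⊕ κ, ∑ i, ∑ c, sk a b (Sum.inl i) c * B (c, i) = 0 := by
    intro a b
    rw [← hform]
    exact hfirst _ (sk_skew a b)
  have hsymm : ∀ i j : ι, B (Sum.inl j, i) = B (Sum.inl i, j) := by
    intro i j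
    have h := hskB (Sum.inl i) (Sum.inl j)
    simp only [sk_apply, sub_mul, Finset.sum_sub_distrib, ite_mul, one_mul, zero_mul] at h
    have h1 : ∑ k : ι, ∑ c : ι ⊕ κ, (if (Sum.inl i : ι ⊕ κ) = Sum.inl k ∧ Sum.inl j = c
        then B (c, k) else 0) = B (Sum.inl j, i) := by
      rw [Finset.sum_eq_single i]
      · rw [Finset.sum_eq_single (Sum.inl j)] <;> simp +contextual [eq_comm]
      · intro k _ hk
        refine Finset.sum_eq_zero fun c _ => ?_
        rw [if_neg]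
        rintro ⟨h, _⟩
        exact hk (Sum.inl.inj h).symm
      · simp
    have h2 : ∑ k : ι, ∑ c : ι ⊕ κ, (if (Sum.inl j : ι ⊕ κ) = Sum.inl k ∧ Sum.inl i = c
        then B (c, k) else 0) = B (Sum.inl i, j) := by
      rw [Finset.sum_eq_single j]
      · rw [Finset.sum_eq_single (Sum.inl i)] <;> simp +contextual [eq_comm]
      · intro k _ hk
        refine Finset.sum_eq_zero fun c _ => ?_
        rw [if_neg]
        rintro ⟨h, _⟩
        exact hk (Sum.inl.inj h).symm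
      · simp
    rw [h1, h2] at h
    linarith
  have hbot : ∀ (k : κ) (i : ι), B (Sum.inr k, i) = 0 := by
    intro k i
    have h := hskB (Sum.inl i) (Sum.inr k)
    simp only [sk_apply, sub_mul, Finset.sum_sub_distrib, ite_mul, one_mul, zero_mul] at h
    have h1 : ∑ j : ι, ∑ c : ι ⊕ κ, (if (Sum.inl i : ι ⊕ κ) = Sum.inl j ∧ Sum.inr k = c
        then B (c, j) else 0) = B (Sum.inr k, i) := by
      rw [Finset.sum_eq_single i]
      · rw [Finset.sum_eq_single (Sum.inr k)] <;> simp +contextual [eq_comm]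
      · intro j _ hj
        refine Finset.sum_eq_zero fun c _ => ?_
        rw [if_neg]
        rintro ⟨h, _⟩
        exact hj (Sum.inl.inj h).symm
      · simp
    rw [h1] at h
    simpa using h
  set H : Matrix ι ι ℝ := Matrix.of fun i j => B (Sum.inl i, j) with hH
  have hHs : Hᵀ = H := by
    ext i j
    simp only [Matrix.transpose_apply, hH, Matrix.of_apply]
    exact hsymm i j
  have hBe : B = emb H := by
    ext ⟨i | k, j⟩
    · simp [hH]
    · simp [hbot k j]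
  refine ⟨u, hu, H, hHs, hBe, fun z hz => ?_⟩
  have h2 : inner ℝ (act (hat z * hat z) B) (emb 1) ≤ 0 := (crit hmax' (hat_skew hz)).2
  rw [act_mul, inner_act, hat_skew hz] at h2
  have h3 : act (-hat z) (emb 1 : EuclideanSpace ℝ ((ι ⊕ κ) × ι)) = - z := by
    have : act (-hat z) (emb 1 : EuclideanSpace ℝ ((ι ⊕ κ) × ι)) = - act (hat z) (emb 1) := by
      rw [act_def, Matrix.neg_mul, map_neg]; rfl
    rw [this, act_hat_emb, rmul_one]
  rw [h3, hBe, act_hat_emb, inner_neg_right] at h2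
  linarith

end polar

end Pool.Agent.Lib.MP_6d896a_gt.OM
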