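import Mathlib
import Pool.Agent.Lib.MP_6d896a_gt.OM.Defs

/-!
Exponential tail of the operator norm for rotation invariant log-concave random matrices.
-/

set_option autoImplicit false
set_option linter.unusedSectionVars false

namespace Pool.Agent.Lib.MP_6d896a_gt.OM

open MeasureTheory ProbabilityTheory Matrix Set Filter
open Pool.Agent.Lib.MP_6d896a_gt.FP
open scoped ENNReal Topology

section rot

variable {r : Type*} [Fintype r] [DecidableEq r]

lemma dot_mulVec_orth (u : Matrix.orthogonalGroup r ℝ) (x : r → ℝ) :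
    ∑ i, ((u : Matrix r r ℝ) *ᵥ x) i ^ 2 = ∑ i, x i ^ 2 := by
  have h1 : ((u : Matrix r r ℝ) *ᵥ x) ⬝ᵥ ((u : Matrix r r ℝ) *ᵥ x) = x ⬝ᵥ x := by
    rw [Matrix.dotProduct_mulVec, Matrix.vecMul_mulVec, ← Matrix.dotProduct_mulVec]
    simp [orth_left]
  simpa [dotProduct, sq] using h1

/-- rotation of vectors, as an isometry -/
noncomputable def rv (u : Matrix.orthogonalGroup r ℝ) :
    EuclideanSpace ℝ r ≃ₗᵢ[ℝ] EuclideanSpace ℝ r where
  toFun x := WithLp.toLp 2 ((u : Matrix r r ℝ) *ᵥ x.ofLp)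
  invFun x := WithLp.toLp 2 ((u : Matrix r r ℝ)ᵀ *ᵥ x.ofLp)
  map_add' x y := by simp [Matrix.mulVec_add]
  map_smul' c x := by simp [Matrix.mulVec_smul]
  left_inv x := by simp [Matrix.mulVec_mulVec, orth_left]
  right_inv x := by simp [Matrix.mulVec_mulVec, orth_right]
  norm_map' x := by
    have h : ‖WithLp.toLp 2 ((u : Matrix r r ℝ) *ᵥ x.ofLp)‖ ^ 2 = ‖x‖ ^ 2 := by
      rw [EuclideanSpace.norm_sq_eq, EuclideanSpace.norm_sq_eq]
      simpa using dot_mulVec_orth u x.ofLp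
    exact (pow_left_inj₀ (norm_nonneg _) (norm_nonneg _) (by norm_num)).mp h

lemma rv_apply (u : Matrix.orthogonalGroup r ℝ) (x : EuclideanSpace ℝ r) :
    rv u x = WithLp.toLp 2 ((u : Matrix r r ℝ) *ᵥ x.ofLp) := rfl

lemma exists_rv
    (htrans : ∀ (r : Type) [Fintype r] [DecidableEq r], 2 ≤ Fintype.card r → ∀ x y : r → ℝ,
      ∑ i, x i ^ 2 = ∑ i, y i ^ 2 → ∃ u ∈ RotG r, (u : Matrix r r ℝ) *ᵥ x = y)
    {r : Type} [Fintype r] [DecidableEq r] (hr : 2 ≤ Fintype.card r) (x y : EuclideanSpace ℝ r)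
    (h : ‖x‖ = ‖y‖) : ∃ u ∈ RotG r, rv u x = y := by
  have h2 : ∑ i, x i ^ 2 = ∑ i, y i ^ 2 := by
    have := congrArg (· ^ 2) h
    simpa [EuclideanSpace.norm_sq_eq] using this
  obtain ⟨u, hu, hux⟩ := htrans r hr x.ofLp y.ofLp h2
  refine ⟨u, hu, ?_⟩
  rw [rv_apply, hux]

lemma cone_identity
    (htrans : ∀ (r : Type) [Fintype r] [DecidableEq r], 2 ≤ Fintype.card r → ∀ x y : r → ℝ,
      ∑ i, x i ^ 2 = ∑ i, y i ^ 2 → ∃ u ∈ RotG r, (u : Matrix r r ℝ) *ᵥ x = y)
    {r : Type} [Fintype r] [DecidableEq r] (hr : 2 ≤ Fintype.card r)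
    (ν : Measure (EuclideanSpace ℝ r)) [IsProbabilityMeasure ν]
    (hν : ∀ u ∈ RotG r, ν.map (rv u) = ν) (h0 : ν {0} = 0)
    (e : EuclideanSpace ℝ r) (he : ‖e‖ = 1) (c R : ℝ) :
    ν {x | c * ‖x‖ ≤ inner ℝ x e ∧ R ≤ ‖x‖} *
        volume (Metric.ball (0 : EuclideanSpace ℝ r) 1) =
      ν {x | R ≤ ‖x‖} *
        (volume.restrict (Metric.ball (0 : EuclideanSpace ℝ r) 1)) {y | c * ‖y‖ ≤ inner ℝ e y} := by
  have : Nonempty r := by
    rw [← Fintype.card_pos_iff]; omega
  set lam : Measure (EuclideanSpace ℝ r) := volume.restrict (Metric.ball 0 1) with hlam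
  have : IsFiniteMeasure lam := ⟨by simp [hlam, measure_ball_lt_top]⟩
  set S : Set (EuclideanSpace ℝ r × EuclideanSpace ℝ r) :=
    {p | c * (‖p.1‖ * ‖p.2‖) ≤ inner ℝ p.1 p.2 ∧ R ≤ ‖p.1‖} with hS
  have hSm : MeasurableSet S := by
    have c1 : IsClosed {p : EuclideanSpace ℝ r × EuclideanSpace ℝ r |
        c * (‖p.1‖ * ‖p.2‖) ≤ inner ℝ p.1 p.2} := isClosed_le (by fun_prop) (by fun_prop)
    have c2 : IsClosed {p : EuclideanSpace ℝ r × EuclideanSpace ℝ r | R ≤ ‖p.1‖} :=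
      isClosed_le (by fun_prop) (by fun_prop)
    exact (c1.inter c2).measurableSet
  have e1 : (ν.prod lam) S = ν {x | R ≤ ‖x‖} * lam {y | c * ‖y‖ ≤ inner ℝ e y} := by
    rw [Measure.prod_apply hSm]
    have hae : ∀ᵐ x ∂ν, lam (Prod.mk x ⁻¹' S) =
        ({x | R ≤ ‖x‖} : Set (EuclideanSpace ℝ r)).indicator
          (fun _ => lam {y | c * ‖y‖ ≤ inner ℝ e y}) x := by
      have hx0 : ∀ᵐ x ∂ν, x ≠ 0 := by
        rw [ae_iff]; simpa using h0
      filter_upwards [hx0] with x hx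
      by_cases hxR : R ≤ ‖x‖
      · rw [indicator_of_mem (by exact hxR)]
        have hxp : 0 < ‖x‖ := norm_pos_iff.mpr hx
        obtain ⟨u, hu, hux⟩ := exists_rv htrans hr (‖x‖ • e) x (by simp [norm_smul, he])
        have hmp : MeasurePreserving (rv u) lam lam := by
          have h1 := (rv u).measurePreserving
          have h2 := h1.restrict_preimage (s := Metric.ball 0 1) Metric.isOpen_ball.measurableSet
          have h3 : (rv u) ⁻¹' (Metric.ball 0 1) = Metric.ball 0 1 := by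
            ext y; simp
          rwa [h3] at h2
        have hm : MeasurableSet (Prod.mk x ⁻¹' S) := measurable_prodMk_left hSm
        rw [← hmp.measure_preimage hm.nullMeasurableSet]
        congr 1
        ext y
        simp only [mem_preimage, hS, mem_ofPred_eq, hxR, and_true]
        have h4 : inner ℝ x (rv u y) = ‖x‖ * inner ℝ e y := by
          conv_lhs => rw [← hux]
          rw [LinearIsometryEquiv.inner_map_map, real_inner_smul_left]
        rw [h4, LinearIsometryEquiv.norm_map]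
        constructor
        · intro h
          have : ‖x‖ * (c * ‖y‖) ≤ ‖x‖ * inner ℝ e y := by linarith
          exact le_of_mul_le_mul_left this hxp
        · intro h
          have := mul_le_mul_of_nonneg_left h hxp.le
          linarith
      · rw [indicator_of_notMem (by exact hxR)]
        have : Prod.mk x ⁻¹' S = ∅ := by
          ext y; simp [hS, hxR]
        rw [this]; simp
    rw [lintegral_congr_ae hae, lintegral_indicator_const, mul_comm]
    exact (isClosed_le continuous_const continuous_norm).measurableSet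
  have e2 : (ν.prod lam) S = ν {x | c * ‖x‖ ≤ inner ℝ x e ∧ R ≤ ‖x‖} *
      volume (Metric.ball (0 : EuclideanSpace ℝ r) 1) := by
    rw [Measure.prod_apply_symm hSm]
    have hae : ∀ᵐ y ∂lam, ν ((fun x => (x, y)) ⁻¹' S) =
        ν {x | c * ‖x‖ ≤ inner ℝ x e ∧ R ≤ ‖x‖} := by
      have hy0 : ∀ᵐ y ∂lam, y ≠ 0 := by
        refine ae_restrict_of_ae ?_
        rw [ae_iff]; simp
      filter_upwards [hy0] with y hy
      have hyp : 0 < ‖y‖ := norm_pos_iff.mpr hy
      obtain ⟨u, hu, huy⟩ := exists_rv htrans hr (‖y‖ • e) y (by simp [norm_smul, he])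
      have hm : MeasurableSet ((fun x => (x, y)) ⁻¹' S) := measurable_prodMk_right hSm
      conv_lhs => rw [← hν u hu]
      rw [Measure.map_apply (rv u).continuous.measurable hm]
      congr 1
      ext x
      simp only [mem_preimage, hS, mem_ofPred_eq]
      have h4 : inner ℝ (rv u x) y = ‖y‖ * inner ℝ x e := by
        conv_lhs => rw [← huy]
        rw [LinearIsometryEquiv.inner_map_map, real_inner_smul_right]
      rw [h4, LinearIsometryEquiv.norm_map]
      refine and_congr_left fun _ => ?_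
      constructor
      · intro h
        have : ‖y‖ * (c * ‖x‖) ≤ ‖y‖ * inner ℝ x e := by linarith
        exact le_of_mul_le_mul_left this hyp
      · intro h
        have := mul_le_mul_of_nonneg_left h hyp.le
        linarith
    rw [lintegral_congr_ae hae, lintegral_const]
    simp [hlam]
  rw [← e2, e1]

lemma cone_upper {r : Type} [Fintype r] [Nonempty r] (e : EuclideanSpace ℝ r) (he : ‖e‖ = 1) :
    (volume.restrict (Metric.ball (0 : EuclideanSpace ℝ r) 1)) {y | 1 / 2 * ‖y‖ ≤ inner ℝ e y} ≤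
      ENNReal.ofReal ((√3 / 2) ^ Fintype.card r) *
        volume (Metric.ball (0 : EuclideanSpace ℝ r) 1) := by
  have hm : MeasurableSet {y : EuclideanSpace ℝ r | 1 / 2 * ‖y‖ ≤ inner ℝ e y} :=
    (isClosed_le (by fun_prop) (by fun_prop)).measurableSet
  rw [Measure.restrict_apply hm]
  have h := Measure.addHaar_closedBall (volume : Measure (EuclideanSpace ℝ r))
    ((1 / 2 : ℝ) • e) (show (0 : ℝ) ≤ √3 / 2 by positivity)
  rw [finrank_euclideanSpace] at h
  rw [← h]
  refine measure_mono ?_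
  rintro y ⟨hy1, hy2⟩
  simp only [mem_ofPred_eq] at hy1
  rw [mem_ball_zero_iff] at hy2
  rw [mem_closedBall_iff_norm]
  refine abs_le_of_sq_le_sq' ?_ (by positivity) |>.2
  rw [norm_sub_sq_real, real_inner_smul_right, real_inner_comm, norm_smul, he]
  have h3 : (√3 / 2 : ℝ) ^ 2 = 3 / 4 := by
    rw [div_pow, Real.sq_sqrt (by norm_num)]; norm_num
  rw [h3]
  have h0 := norm_nonneg y
  rw [Real.norm_of_nonneg (by norm_num : (0 : ℝ) ≤ 1 / 2)]
  nlinarith

lemma cone_lower {r : Type} [Fintype r] [Nonempty r] (e : EuclideanSpace ℝ r) (he : ‖e‖ = 1) :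
    ENNReal.ofReal ((1 / 100) ^ Fintype.card r) *
        volume (Metric.ball (0 : EuclideanSpace ℝ r) 1) ≤
    (volume.restrict (Metric.ball (0 : EuclideanSpace ℝ r) 1))
      {y | 95 / 100 * ‖y‖ ≤ inner ℝ e y} := by
  have hm : MeasurableSet {y : EuclideanSpace ℝ r | 95 / 100 * ‖y‖ ≤ inner ℝ e y} :=
    (isClosed_le (by fun_prop) (by fun_prop)).measurableSet
  rw [Measure.restrict_apply hm]
  have h := Measure.addHaar_ball (volume : Measure (EuclideanSpace ℝ r))
    ((1 / 2 : ℝ) • e) (show (0 : ℝ) ≤ 1 / 100 by positivity)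
  rw [finrank_euclideanSpace] at h
  rw [← h]
  refine measure_mono ?_
  intro y hy
  rw [mem_ball_iff_norm] at hy
  set z := y - (1 / 2 : ℝ) • e with hz
  have hyz : y = (1 / 2 : ℝ) • e + z := by rw [hz]; abel
  have hn : ‖y‖ ≤ 1 / 2 + ‖z‖ := by
    rw [hyz]
    refine (norm_add_le _ _).trans ?_
    rw [norm_smul, he, Real.norm_of_nonneg (by norm_num : (0 : ℝ) ≤ 1 / 2)]
    linarith
  have hi : inner ℝ e y = 1 / 2 + inner ℝ e z := by
    rw [hyz, inner_add_right, real_inner_smul_right, real_inner_self_eq_norm_sq, he]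
    ring
  have hi2 : |inner ℝ e z| ≤ ‖z‖ := by
    have := abs_real_inner_le_norm e z
    rwa [he, one_mul] at this
  have hi3 := (abs_le.mp hi2).1
  refine ⟨?_, ?_⟩
  · simp only [mem_ofPred_eq]
    rw [hi]
    linarith
  · rw [mem_ball_zero_iff]
    linarith

/-- the numerical part of the tail estimate -/
lemma vec_tail_num {m : ℕ} (hm : 3 ≤ m) {θ p q s : ℝ} (hp : 0 ≤ p)
    (hθ : 3 / 4 ≤ θ) (hs0 : 0 ≤ s) (hs : s ≤ (√3 / 2) ^ m)
    (hq : (1 / 100) ^ m * p ≤ q)
    (h : θ ^ (1 - (1 / 180 : ℝ)) * q ^ (1 / 180 : ℝ) ≤ s) : p ≤ (1 / 12) ^ m := by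
  have hq0 : 0 ≤ q := le_trans (by positivity) hq
  have hθ0 : 0 < θ := by linarith
  have e1 : (θ ^ (1 - (1 / 180 : ℝ)) * q ^ (1 / 180 : ℝ)) ^ 180 = θ ^ 179 * q := by
    rw [mul_pow, ← Real.rpow_natCast, ← Real.rpow_mul hθ0.le, ← Real.rpow_natCast (q ^ _),
      ← Real.rpow_mul hq0]
    norm_num
  have e2 : θ ^ 179 * q ≤ s ^ 180 := by
    rw [← e1]
    have : 0 ≤ θ ^ (1 - (1 / 180 : ℝ)) * q ^ (1 / 180 : ℝ) := by positivity
    gcongr
  have e3 : s ^ 180 ≤ (3 / 4 : ℝ) ^ (90 * m) := by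
    have h1 : s ^ 180 ≤ ((√3 / 2) ^ m) ^ 180 := by gcongr
    have h2 : ((√3 / 2 : ℝ) ^ m) ^ 180 = (3 / 4 : ℝ) ^ (90 * m) := by
      have h3 : (√3 / 2 : ℝ) ^ 2 = 3 / 4 := by
        rw [div_pow, Real.sq_sqrt (by norm_num)]; norm_num
      rw [← h3, ← pow_mul, ← pow_mul]
      congr 1
      ring
    rw [← h2]; exact h1
  have e4 : (3 / 4 : ℝ) ^ 179 * q ≤ (3 / 4 : ℝ) ^ (90 * m) := by
    refine le_trans ?_ (e2.trans e3)
    gcongr
  obtain ⟨k, hk⟩ : ∃ k, 90 * m = 179 + (30 * m + k) := ⟨90 * m - 179 - 30 * m, by omega⟩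
  have e5 : q ≤ (3 / 4 : ℝ) ^ (30 * m + k) := by
    rw [hk, pow_add] at e4
    exact le_of_mul_le_mul_left e4 (by positivity)
  have e6 : q ≤ (3 / 4 : ℝ) ^ (30 * m) := by
    refine e5.trans ?_
    rw [pow_add]
    exact mul_le_of_le_one_right (by positivity) (pow_le_one₀ (by norm_num) (by norm_num))
  have e7 : (1 / 100 : ℝ) ^ m * p ≤ ((3 / 4 : ℝ) ^ 30) ^ m := by
    rw [← pow_mul]; exact hq.trans e6
  have e8 : ((3 / 4 : ℝ) ^ 30) ^ m ≤ (1 / 100 : ℝ) ^ m * (1 / 12) ^ m := by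
    rw [← mul_pow]
    gcongr
    norm_num
  exact le_of_mul_le_mul_left (e7.trans e8) (by positivity)

lemma vec_tail
    (htrans : ∀ (r : Type) [Fintype r] [DecidableEq r], 2 ≤ Fintype.card r → ∀ x y : r → ℝ,
      ∑ i, x i ^ 2 = ∑ i, y i ^ 2 → ∃ u ∈ RotG r, (u : Matrix r r ℝ) *ᵥ x = y)
    {r : Type} [Fintype r] [DecidableEq r] (hr : 3 ≤ Fintype.card r)
    (ν : Measure (EuclideanSpace ℝ r)) [IsProbabilityMeasure ν] (hpl : PLm ν)
    (hν : ∀ u ∈ RotG r, ν.map (rv u) = ν) (h0 : ν {0} = 0)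
    (h2 : ∫⁻ x, ENNReal.ofReal (‖x‖ ^ 2) ∂ν ≤ Fintype.card r) :
    ν.real {x | 1440 * √(Fintype.card r) ≤ ‖x‖} ≤ (1 / 12) ^ Fintype.card r := by
  set m := Fintype.card r with hm
  have hne : Nonempty r := by
    rw [← Fintype.card_pos_iff]; omega
  obtain ⟨i0⟩ := hne
  have hne : Nonempty r := ⟨i0⟩
  have hm3 : (3 : ℝ) ≤ m := by exact_mod_cast hr
  have hsm : 0 < √(m : ℝ) := Real.sqrt_pos.mpr (by linarith)
  set e : EuclideanSpace ℝ r := EuclideanSpace.single i0 1 with he'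
  have he : ‖e‖ = 1 := by simp [he']
  set R : ℝ := 1440 * √(m : ℝ) with hR
  set V : ℝ≥0∞ := volume (Metric.ball (0 : EuclideanSpace ℝ r) 1) with hV
  have hV0 : V ≠ 0 := (Metric.measure_ball_pos _ _ (by norm_num)).ne'
  have hVt : V ≠ ∞ := measure_ball_lt_top.ne
  set A : Set (EuclideanSpace ℝ r) := {x | 95 / 100 * ‖x‖ ≤ inner ℝ x e ∧ R ≤ ‖x‖} with hA
  set D : Set (EuclideanSpace ℝ r) := {x | 1 / 2 * ‖x‖ ≤ inner ℝ x e ∧ 0 ≤ ‖x‖} with hD
  set B : Set (EuclideanSpace ℝ r) := {x | ‖x‖ ≤ 2 * √(m : ℝ)} with hB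
  have hmA : MeasurableSet A := by
    have c1 : IsClosed {x : EuclideanSpace ℝ r | 95 / 100 * ‖x‖ ≤ inner ℝ x e} :=
      isClosed_le (by fun_prop) (by fun_prop)
    have c2 : IsClosed {x : EuclideanSpace ℝ r | R ≤ ‖x‖} :=
      isClosed_le (by fun_prop) (by fun_prop)
    exact (c1.inter c2).measurableSet
  have hmD : MeasurableSet D := by
    have c1 : IsClosed {x : EuclideanSpace ℝ r | 1 / 2 * ‖x‖ ≤ inner ℝ x e} :=
      isClosed_le (by fun_prop) (by fun_prop)
    have c2 : IsClosed {x : EuclideanSpace ℝ r | 0 ≤ ‖x‖} :=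
      isClosed_le (by fun_prop) (by fun_prop)
    exact (c1.inter c2).measurableSet
  have hmB : MeasurableSet B := (isClosed_le (by fun_prop) (by fun_prop)).measurableSet
  have i1 := cone_identity htrans (by omega) ν hν h0 e he (95 / 100) R
  have i2 := cone_identity htrans (by omega) ν hν h0 e he (1 / 2) 0
  rw [← hA, ← hV] at i1
  rw [← hD, ← hV] at i2
  -- lower bound for the narrow cone
  have j1 : ENNReal.ofReal ((1 / 100) ^ m) * ν {x | R ≤ ‖x‖} ≤ ν A := by
    have h := cone_lower e he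
    rw [← hV, ← hm] at h
    have h3 : ENNReal.ofReal ((1 / 100) ^ m) * ν {x | R ≤ ‖x‖} * V ≤ ν A * V := by
      rw [i1, mul_comm (ENNReal.ofReal _) (ν _), mul_assoc]
      gcongr
    exact (ENNReal.mul_le_mul_iff_left hV0 hVt).mp h3
  have j2 : ν D ≤ ENNReal.ofReal ((√3 / 2) ^ m) := by
    have h := cone_upper e he
    rw [← hV, ← hm] at h
    have h3 : ν D * V ≤ ENNReal.ofReal ((√3 / 2) ^ m) * V := by
      rw [i2]
      have : ν {x | (0 : ℝ) ≤ ‖x‖} = 1 := by
        have : {x : EuclideanSpace ℝ r | (0 : ℝ) ≤ ‖x‖} = univ := by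
          ext x; simp
        rw [this, measure_univ]
      rw [this, one_mul]
      exact h
    exact (ENNReal.mul_le_mul_iff_left hV0 hVt).mp h3
  -- Markov
  have j3 : 3 / 4 ≤ ν.real B := by
    have h3 : ν.real Bᶜ ≤ 1 / 4 := by
      have h4 := mul_meas_ge_le_lintegral₀ (μ := ν)
        (f := fun x => ENNReal.ofReal (‖x‖ ^ 2)) (by fun_prop) (ENNReal.ofReal (4 * m))
      have h5 : Bᶜ ⊆ {x | ENNReal.ofReal (4 * m) ≤ ENNReal.ofReal (‖x‖ ^ 2)} := by
        intro x hx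
        simp only [hB, mem_compl_iff, mem_ofPred_eq, not_le] at hx ⊢
        refine ENNReal.ofReal_le_ofReal ?_
        have h6 : (2 * √(m : ℝ)) ^ 2 = 4 * m := by
          rw [mul_pow, Real.sq_sqrt (by linarith)]; norm_num
        rw [← h6]
        have : 0 ≤ 2 * √(m : ℝ) := by positivity
        gcongr
      have h7 : ENNReal.ofReal (4 * m) * ν Bᶜ ≤ ENNReal.ofReal m := by
        calc ENNReal.ofReal (4 * m) * ν Bᶜ ≤ _ := by gcongr
          _ ≤ _ := h4
          _ ≤ (m : ℝ≥0∞) := h2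
          _ = ENNReal.ofReal m := by simp
      have h8 := ENNReal.toReal_mono (by simp) h7
      rw [ENNReal.toReal_mul, ENNReal.toReal_ofReal (by positivity),
        ENNReal.toReal_ofReal (by positivity)] at h8
      have h9 : (m : ℝ) * (4 * ν.real Bᶜ) ≤ m * 1 := by
        rw [measureReal_def]; linarith
      have := le_of_mul_le_mul_left h9 (by linarith)
      linarith
    rw [probReal_compl_eq_one_sub hmB] at h3
    linarith
  -- Prekopa-Leindler
  have j4 := hpl.sets (A := B) (B := A) (C := D) hmB hmA hmD (l := 1 / 180)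
    (by norm_num) (by norm_num) (by
      intro x hx y hy
      simp only [hB, hA, hD, mem_ofPred_eq] at hx hy ⊢
      refine ⟨?_, norm_nonneg _⟩
      have k1 : ‖(1 - 1 / 180 : ℝ) • x + (1 / 180 : ℝ) • y‖ ≤
          (1 - 1 / 180) * (2 * √(m : ℝ)) + 1 / 180 * ‖y‖ := by
        refine (norm_add_le _ _).trans ?_
        rw [norm_smul, norm_smul, Real.norm_of_nonneg (by norm_num : (0 : ℝ) ≤ 1 - 1 / 180),
          Real.norm_of_nonneg (by norm_num : (0 : ℝ) ≤ 1 / 180)]
        gcongr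
      have k2 : -(2 * √(m : ℝ)) ≤ inner ℝ x e := by
        have := abs_real_inner_le_norm x e
        rw [he, mul_one] at this
        have := (abs_le.mp this).1
        linarith
      rw [inner_add_left, real_inner_smul_left, real_inner_smul_left]
      have k3 := hy.2
      rw [hR] at k3
      nlinarith [hy.1])
  have j5 : (ν.real B) ^ (1 - (1 / 180 : ℝ)) * (ν.real A) ^ (1 / 180 : ℝ) ≤ ν.real D := by
    have := ENNReal.toReal_mono (measure_ne_top _ _) j4
    rwa [ENNReal.toReal_mul, ← ENNReal.toReal_rpow, ← ENNReal.toReal_rpow] at this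
  refine vec_tail_num hr measureReal_nonneg j3 measureReal_nonneg ?_ ?_ j5
  · have := ENNReal.toReal_mono (by simp) j2
    rwa [ENNReal.toReal_ofReal (by positivity)] at this
  · have := ENNReal.toReal_mono (measure_ne_top _ _) j1
    rwa [ENNReal.toReal_mul, ENNReal.toReal_ofReal (by positivity)] at this

end rot

section final

variable {r ι : Type*} [Fintype r] [Fintype ι]

/-- evaluation of a matrix at a vector -/
noncomputable def Tw (w : EuclideanSpace ℝ ι) :
    EuclideanSpace ℝ (r × ι) →ₗ[ℝ] EuclideanSpace ℝ r where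
  toFun x := WithLp.toLp 2 (fun i => ∑ j, x (i, j) * w j)
  map_add' x y := by
    ext i
    simp [add_mul, Finset.sum_add_distrib]
  map_smul' c x := by
    ext i
    simp [Finset.mul_sum, mul_assoc]

lemma Tw_apply (w : EuclideanSpace ℝ ι) (x : EuclideanSpace ℝ (r × ι)) (i : r) :
    Tw w x i = ∑ j, x (i, j) * w j := rfl

lemma norm_Tw_sq (w : EuclideanSpace ℝ ι) (x : EuclideanSpace ℝ (r × ι)) :
    ‖Tw w x‖ ^ 2 = ∑ i, (∑ j, x (i, j) * w j) ^ 2 := by
  rw [EuclideanSpace.norm_sq_eq]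
  simp [Tw_apply]

lemma Tw_add (w w' : EuclideanSpace ℝ ι) (x : EuclideanSpace ℝ (r × ι)) :
    Tw (w + w') x = Tw w x + Tw w' x := by
  ext i
  simp [Tw_apply, mul_add, Finset.sum_add_distrib]

lemma Tw_smul (c : ℝ) (w : EuclideanSpace ℝ ι) (x : EuclideanSpace ℝ (r × ι)) :
    Tw (c • w) x = c • Tw w x := by
  ext i
  simp only [Tw_apply, PiLp.smul_apply, smul_eq_mul, Finset.mul_sum]
  exact Finset.sum_congr rfl fun j _ => by ring

lemma Tw_act [DecidableEq r] (u : Matrix.orthogonalGroup r ℝ) (w : EuclideanSpace ℝ ι)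
    (x : EuclideanSpace ℝ (r × ι)) : Tw w (act (u : Matrix r r ℝ) x) = rv u (Tw w x) := by
  ext i
  rw [Tw_apply, rv_apply]
  simp only [act_apply, Matrix.mulVec, dotProduct, Tw_apply]
  simp only [Finset.sum_mul, Finset.mul_sum]
  rw [Finset.sum_comm]
  exact Finset.sum_congr rfl fun j _ => Finset.sum_congr rfl fun k _ => by ring

lemma continuous_Tw : Continuous fun p : EuclideanSpace ℝ (r × ι) × EuclideanSpace ℝ ι =>
    (Tw p.2 p.1 : EuclideanSpace ℝ r) := by
  have h : (fun p : EuclideanSpace ℝ (r × ι) × EuclideanSpace ℝ ι =>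
      (Tw p.2 p.1 : EuclideanSpace ℝ r)) = fun p : EuclideanSpace ℝ (r × ι) × EuclideanSpace ℝ ι =>
        WithLp.toLp 2 (fun i : r => ∑ j, p.1 (i, j) * p.2 j) := by
    funext p
    ext i
    exact Tw_apply _ _ _
  rw [h]
  refine (PiLp.continuous_toLp 2 _).comp (continuous_pi fun q => ?_)
  fun_prop

lemma continuous_Tw_left (w : EuclideanSpace ℝ ι) :
    Continuous (Tw w : EuclideanSpace ℝ (r × ι) → EuclideanSpace ℝ r) :=
  LinearMap.continuous_of_finiteDimensional _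

end final

lemma dir_tail
    (htrans : ∀ (r : Type) [Fintype r] [DecidableEq r], 2 ≤ Fintype.card r → ∀ x y : r → ℝ,
      ∑ i, x i ^ 2 = ∑ i, y i ^ 2 → ∃ u ∈ RotG r, (u : Matrix r r ℝ) *ᵥ x = y)
    {r ι : Type} [Fintype r] [Fintype ι] [DecidableEq r] [DecidableEq ι]
    (μ : Measure (EuclideanSpace ℝ (r × ι))) [IsProbabilityMeasure μ] (hac : μ ≪ volume)
    (hpl : PLm μ) (hinv : MInv μ) (hr : 3 ≤ Fintype.card r)
    (h2 : ∀ w : ι → ℝ, ∑ j, w j ^ 2 = 1 →
        ∫⁻ x, ENNReal.ofReal (∑ i, (∑ j, x (i, j) * w j) ^ 2) ∂μ ≤ Fintype.card r)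
    (w : EuclideanSpace ℝ ι) (hw : ‖w‖ = 1) :
    μ {x | 1440 * √(Fintype.card r) ≤ ‖(Tw w x : EuclideanSpace ℝ r)‖} ≤
      ENNReal.ofReal ((1 / 12) ^ Fintype.card r) := by
  have hTm : Measurable (Tw w : EuclideanSpace ℝ (r × ι) → EuclideanSpace ℝ r) :=
    (continuous_Tw_left w).measurable
  set ν : Measure (EuclideanSpace ℝ r) := μ.map (Tw w) with hν
  have hprob : IsProbabilityMeasure ν := Measure.isProbabilityMeasure_map hTm.aemeasurable
  have h := vec_tail htrans hr ν (hpl.map _ hTm) ?_ ?_ ?_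
  · have hms : MeasurableSet {x : EuclideanSpace ℝ r | 1440 * √(Fintype.card r) ≤ ‖x‖} :=
      (isClosed_le (by fun_prop) (by fun_prop)).measurableSet
    have e1 : μ {x | 1440 * √(Fintype.card r) ≤ ‖(Tw w x : EuclideanSpace ℝ r)‖} =
        ν {x | 1440 * √(Fintype.card r) ≤ ‖x‖} := by
      rw [hν, Measure.map_apply hTm hms]
      rfl
    rw [e1, ← ofReal_measureReal]
    exact ENNReal.ofReal_le_ofReal h
  · intro u hu
    have hum : Measurable (rv u : EuclideanSpace ℝ r → EuclideanSpace ℝ r) :=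
      (rv u).continuous.measurable
    have ham : Measurable (act (u : Matrix r r ℝ) :
        EuclideanSpace ℝ (r × ι) → EuclideanSpace ℝ (r × ι)) :=
      (actE u).continuous.measurable
    rw [hν, Measure.map_map hum hTm]
    conv_rhs => rw [← hinv u hu, Measure.map_map hTm ham]
    congr 1
    funext x
    exact (Tw_act u w x).symm
  · rw [hν, Measure.map_apply hTm (measurableSet_singleton 0)]
    refine hac ?_
    have e1 : (Tw w : EuclideanSpace ℝ (r × ι) → EuclideanSpace ℝ r) ⁻¹' {0} =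
        (LinearMap.ker (Tw w : EuclideanSpace ℝ (r × ι) →ₗ[ℝ] EuclideanSpace ℝ r) :
          Set (EuclideanSpace ℝ (r × ι))) := by
      ext x; simp
    rw [e1]
    refine Measure.addHaar_submodule _ _ ?_
    rw [Ne, LinearMap.ker_eq_top]
    intro h0
    have hne : Nonempty r := by
      rw [← Fintype.card_pos_iff]; omega
    obtain ⟨i0⟩ := hne
    have h3 : ∀ j, w j = 0 := by
      intro j
      have := congrArg (fun T : EuclideanSpace ℝ (r × ι) →ₗ[ℝ] EuclideanSpace ℝ r =>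
        T (EuclideanSpace.single (i0, j) 1) i0) h0
      simpa [Tw_apply, Finset.sum_ite_eq] using this
    have : w = 0 := by
      ext j; simpa using h3 j
    rw [this] at hw
    simp at hw
  · rw [hν, lintegral_map (by fun_prop) hTm]
    have hw2 : ∑ j, w j ^ 2 = 1 := by
      have := EuclideanSpace.norm_sq_eq w
      rw [hw] at this
      simpa using this.symm
    have := h2 w.ofLp hw2
    calc _ = ∫⁻ x, ENNReal.ofReal (∑ i, (∑ j, x (i, j) * w j) ^ 2) ∂μ := by
          refine lintegral_congr fun x => ?_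
          rw [norm_Tw_sq]
      _ ≤ _ := this

/-- a matrix of large operator norm is large in many directions -/
lemma many_dirs {r ι : Type} [Fintype r] [Fintype ι] {R : ℝ}
    (x : EuclideanSpace ℝ (r × ι)) (hx : ¬ OpLe (2 * R) x) :
    ENNReal.ofReal ((1 / 2) ^ Fintype.card ι) *
        volume (Metric.ball (0 : EuclideanSpace ℝ ι) 1) ≤
      2 * (volume.restrict (Metric.ball (0 : EuclideanSpace ℝ ι) 1))
        {w | R < ‖(Tw w x : EuclideanSpace ℝ r)‖} := by
  obtain ⟨w, hw⟩ : ∃ w : ι → ℝ,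
      (2 * R) ^ 2 * ∑ j, w j ^ 2 < ∑ i, (∑ j, x (i, j) * w j) ^ 2 := by
    simpa [OpLe] using hx
  set v : EuclideanSpace ℝ ι := WithLp.toLp 2 w with hv
  have hv1 : ((2 * R) * ‖v‖) ^ 2 < ‖(Tw v x : EuclideanSpace ℝ r)‖ ^ 2 := by
    rw [norm_Tw_sq, mul_pow, EuclideanSpace.norm_sq_eq]
    simpa [hv] using hw
  have hv2 : (2 * R) * ‖v‖ < ‖(Tw v x : EuclideanSpace ℝ r)‖ :=
    lt_of_pow_lt_pow_left₀ 2 (norm_nonneg _) hv1
  have hv0 : 0 < ‖v‖ := by
    rw [norm_pos_iff]
    intro h0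
    rw [h0] at hv2
    have : (Tw (0 : EuclideanSpace ℝ ι) x : EuclideanSpace ℝ r) = 0 := by
      ext i; simp [Tw_apply]
    rw [this] at hv2
    simp at hv2
  set w0 : EuclideanSpace ℝ ι := ‖v‖⁻¹ • v with hw0
  have hw0n : ‖w0‖ = 1 := by
    rw [hw0, norm_smul, norm_inv, norm_norm, inv_mul_cancel₀ hv0.ne']
  have hw0T : 2 * R < ‖(Tw w0 x : EuclideanSpace ℝ r)‖ := by
    rw [hw0, Tw_smul, norm_smul, norm_inv, norm_norm, ← div_eq_inv_mul, lt_div_iff₀ hv0]
    exact hv2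
  have hcont : Continuous fun w : EuclideanSpace ℝ ι => (Tw w x : EuclideanSpace ℝ r) :=
    continuous_Tw.comp (by fun_prop : Continuous fun w : EuclideanSpace ℝ ι => (x, w))
  set G : Set (EuclideanSpace ℝ ι) := {w | R < ‖(Tw w x : EuclideanSpace ℝ r)‖} ∩
    Metric.ball 0 1 with hG
  have hmG0 : MeasurableSet {w : EuclideanSpace ℝ ι | R < ‖(Tw w x : EuclideanSpace ℝ r)‖} :=
    (isOpen_lt continuous_const hcont.norm).measurableSet
  have hmG : MeasurableSet G := hmG0.inter Metric.isOpen_ball.measurableSet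
  rw [Measure.restrict_apply hmG0, ← hG]
  have h := Measure.addHaar_ball_of_pos (volume : Measure (EuclideanSpace ℝ ι))
    ((1 / 2 : ℝ) • w0) (show (0 : ℝ) < 1 / 2 by positivity)
  rw [finrank_euclideanSpace] at h
  rw [← h]
  have hmp : MeasurePreserving (fun w : EuclideanSpace ℝ ι => w0 - w) volume volume :=
    Measure.measurePreserving_sub_left _ w0
  have hsub : Metric.ball ((1 / 2 : ℝ) • w0) (1 / 2) ⊆ G ∪ (fun w => w0 - w) ⁻¹' G := by
    intro y hy
    have hy1 : ‖y - (1 / 2 : ℝ) • w0‖ < 1 / 2 := mem_ball_iff_norm.mp hy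
    have hb : ∀ z : EuclideanSpace ℝ ι, ‖z - (1 / 2 : ℝ) • w0‖ < 1 / 2 → ‖z‖ < 1 := by
      intro z hz
      have : z = (z - (1 / 2 : ℝ) • w0) + (1 / 2 : ℝ) • w0 := by abel
      rw [this]
      refine (norm_add_le _ _).trans_lt ?_
      rw [norm_smul, hw0n, Real.norm_of_nonneg (by norm_num : (0 : ℝ) ≤ 1 / 2)]
      linarith
    have hy2 : ‖(w0 - y) - (1 / 2 : ℝ) • w0‖ < 1 / 2 := by
      have e : (w0 - y) - (1 / 2 : ℝ) • w0 = -(y - (1 / 2 : ℝ) • w0) := by
        have : w0 = (1 / 2 : ℝ) • w0 + (1 / 2 : ℝ) • w0 := by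
          rw [← add_smul]; norm_num
        conv_lhs => enter [1, 1]; rw [this]
        abel
      rw [e, norm_neg]
      exact hy1
    have hsum : (Tw w0 x : EuclideanSpace ℝ r) = Tw y x + Tw (w0 - y) x := by
      rw [← Tw_add]; congr 2; abel
    have hlt : 2 * R < ‖(Tw y x : EuclideanSpace ℝ r)‖ + ‖(Tw (w0 - y) x : EuclideanSpace ℝ r)‖ := by
      refine hw0T.trans_le ?_
      rw [hsum]
      exact norm_add_le _ _
    by_cases hc : R < ‖(Tw y x : EuclideanSpace ℝ r)‖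
    · left
      exact ⟨hc, mem_ball_zero_iff.mpr (hb y hy1)⟩
    · right
      refine ⟨?_, mem_ball_zero_iff.mpr (hb _ hy2)⟩
      change R < ‖(Tw (w0 - y) x : EuclideanSpace ℝ r)‖
      push Not at hc
      linarith
  calc volume (Metric.ball ((1 / 2 : ℝ) • w0) (1 / 2))
      ≤ volume (G ∪ (fun w => w0 - w) ⁻¹' G) := measure_mono hsub
    _ ≤ volume G + volume ((fun w => w0 - w) ⁻¹' G) := measure_union_le _ _
    _ = 2 * volume G := by
        rw [hmp.measure_preimage hmG.nullMeasurableSet, two_mul]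

/-- exponential tail of the operator norm -/
theorem op_tail
    (htrans : ∀ (r : Type) [Fintype r] [DecidableEq r], 2 ≤ Fintype.card r → ∀ x y : r → ℝ,
      ∑ i, x i ^ 2 = ∑ i, y i ^ 2 → ∃ u ∈ RotG r, (u : Matrix r r ℝ) *ᵥ x = y) :
    ∃ C : ℝ, 0 < C ∧ ∀ (r ι : Type) [Fintype r] [Fintype ι] [DecidableEq r] [DecidableEq ι]
      (μ : Measure (EuclideanSpace ℝ (r × ι))), IsProbabilityMeasure μ → μ ≪ volume →
      PLm μ → MInv μ → 3 ≤ Fintype.card r → Fintype.card ι ≤ Fintype.card r →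
      (∀ w : ι → ℝ, ∑ j, w j ^ 2 = 1 →
        ∫⁻ x, ENNReal.ofReal (∑ i, (∑ j, x (i, j) * w j) ^ 2) ∂μ ≤ Fintype.card r) →
      μ.real {x | ¬ OpLe (C * √(Fintype.card r)) x} ≤ Real.exp (-(Fintype.card r : ℝ)) := by
  refine ⟨2880, by norm_num, ?_⟩
  intro r ι _ _ _ _ μ hprob hac hpl hinv hr hcard h2
  set m := Fintype.card r with hm
  set n := Fintype.card ι with hn
  have hm3 : (3 : ℝ) ≤ m := by exact_mod_cast hr
  have hsm : 0 < √(m : ℝ) := Real.sqrt_pos.mpr (by linarith)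
  set R : ℝ := 1440 * √(m : ℝ) with hR
  have hR0 : 0 < R := by positivity
  have hR2 : 2880 * √(m : ℝ) = 2 * R := by rw [hR]; ring
  rw [hR2]
  set lam : Measure (EuclideanSpace ℝ ι) := volume.restrict (Metric.ball 0 1) with hlam
  have hfin : IsFiniteMeasure lam := ⟨by simp [hlam, measure_ball_lt_top]⟩
  set V : ℝ≥0∞ := volume (Metric.ball (0 : EuclideanSpace ℝ ι) 1) with hV
  have hV0 : V ≠ 0 := (Metric.measure_ball_pos _ _ (by norm_num)).ne'
  have hVt : V ≠ ∞ := measure_ball_lt_top.ne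
  set S : Set (EuclideanSpace ℝ (r × ι) × EuclideanSpace ℝ ι) :=
    {p | R < ‖(Tw p.2 p.1 : EuclideanSpace ℝ r)‖} with hS
  have hSm : MeasurableSet S :=
    (isOpen_lt continuous_const continuous_Tw.norm).measurableSet
  have e1 : (μ.prod lam) S ≤ ENNReal.ofReal ((1 / 12) ^ m) * V := by
    rw [Measure.prod_apply_symm hSm]
    have hle : ∀ᵐ w ∂lam, μ ((fun x => (x, w)) ⁻¹' S) ≤ ENNReal.ofReal ((1 / 12) ^ m) := by
      refine (ae_restrict_iff' Metric.isOpen_ball.measurableSet).mpr (ae_of_all _ ?_)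
      intro w hw
      rw [mem_ball_zero_iff] at hw
      by_cases hw0 : w = 0
      · have : (fun x => (x, w)) ⁻¹' S = (∅ : Set (EuclideanSpace ℝ (r × ι))) := by
          ext x
          have h0 : (Tw (0 : EuclideanSpace ℝ ι) x : EuclideanSpace ℝ r) = 0 := by
            ext i; simp [Tw_apply]
          simp [hS, hw0, h0, hR0.le]
        rw [this]; simp
      · have hwp : 0 < ‖w‖ := norm_pos_iff.mpr hw0
        refine le_trans (measure_mono ?_) (dir_tail htrans μ hac hpl hinv hr h2 (‖w‖⁻¹ • w)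
          (by rw [norm_smul, norm_inv, norm_norm, inv_mul_cancel₀ hwp.ne']))
        intro x hx
        simp only [hS, mem_preimage, mem_ofPred_eq] at hx ⊢
        rw [Tw_smul, norm_smul, norm_inv, norm_norm, ← div_eq_inv_mul, le_div_iff₀ hwp, ← hR]
        nlinarith
    calc ∫⁻ w, μ ((fun x => (x, w)) ⁻¹' S) ∂lam
        ≤ ∫⁻ _, ENNReal.ofReal ((1 / 12) ^ m) ∂lam := lintegral_mono_ae hle
      _ = ENNReal.ofReal ((1 / 12) ^ m) * V := by
          rw [lintegral_const]; simp [hlam, hV]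
  have e2 : ENNReal.ofReal ((1 / 2) ^ n) * V * μ {x | ¬ OpLe (2 * R) x} ≤
      2 * (μ.prod lam) S := by
    rw [Measure.prod_apply hSm, ← lintegral_const_mul _ (measurable_measure_prodMk_left hSm)]
    refine le_trans ?_ (mul_meas_ge_le_lintegral₀ (μ := μ)
      ((measurable_measure_prodMk_left hSm).const_mul 2).aemeasurable
      (ENNReal.ofReal ((1 / 2) ^ n) * V))
    gcongr with x
    intro hx
    exact many_dirs x hx
  set P := μ {x | ¬ OpLe (2 * R) x} with hP
  have e3 : ENNReal.ofReal ((1 / 2) ^ n) * P * V ≤ 2 * ENNReal.ofReal ((1 / 12) ^ m) * V := by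
    calc _ = ENNReal.ofReal ((1 / 2) ^ n) * V * P := by ring
      _ ≤ _ := e2
      _ ≤ 2 * (ENNReal.ofReal ((1 / 12) ^ m) * V) := by gcongr
      _ = _ := by ring
  have e4 : ENNReal.ofReal ((1 / 2) ^ n) * P ≤ 2 * ENNReal.ofReal ((1 / 12) ^ m) :=
    (ENNReal.mul_le_mul_iff_left hV0 hVt).mp e3
  have e5 : (1 / 2 : ℝ) ^ n * μ.real {x | ¬ OpLe (2 * R) x} ≤ 2 * (1 / 12) ^ m := by
    have := ENNReal.toReal_mono (by finiteness) e4
    rw [ENNReal.toReal_mul, ENNReal.toReal_mul, ENNReal.toReal_ofReal (by positivity),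
      ENNReal.toReal_ofReal (by positivity)] at this
    simpa [measureReal_def] using this
  have e6 : (1 / 2 : ℝ) ^ m * μ.real {x | ¬ OpLe (2 * R) x} ≤ 2 * (1 / 12) ^ m := by
    refine le_trans ?_ e5
    have : (1 / 2 : ℝ) ^ m ≤ (1 / 2) ^ n :=
      pow_le_pow_of_le_one (by norm_num) (by norm_num) hcard
    have h0 : 0 ≤ μ.real {x | ¬ OpLe (2 * R) x} := measureReal_nonneg
    gcongr
  have e7 : 2 * (1 / 12 : ℝ) ^ m ≤ (1 / 2) ^ m * (1 / 3) ^ m := by
    rw [← mul_pow]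
    have h6 : (2 : ℝ) ≤ 2 ^ m := by
      calc (2 : ℝ) = 2 ^ 1 := by norm_num
        _ ≤ 2 ^ m := pow_le_pow_right₀ (by norm_num) (by omega)
    calc 2 * (1 / 12 : ℝ) ^ m ≤ 2 ^ m * (1 / 12) ^ m := by gcongr
      _ = (1 / 2 * (1 / 3)) ^ m := by rw [← mul_pow]; norm_num
  have e8 : μ.real {x | ¬ OpLe (2 * R) x} ≤ (1 / 3) ^ m :=
    le_of_mul_le_mul_left (e6.trans e7) (by positivity)
  refine e8.trans ?_
  have e9 : Real.exp (-(m : ℝ)) = (Real.exp (-1)) ^ m := by
    rw [← Real.exp_nat_mul]; congr 1; ring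
  rw [e9]
  have e10 : (1 / 3 : ℝ) ≤ Real.exp (-1) := by
    rw [Real.exp_neg, one_div]
    have := Real.exp_one_lt_three
    gcongr
  gcongr

end Pool.Agent.Lib.MP_6d896a_gt.OM
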