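import Mathlib
import Pool.Agent.Lib.MP_6d896a_gt.OM.Polar

/-!
Uniqueness of the polar decomposition on the admissible cone.
-/

set_option autoImplicit false
set_option linter.unusedSectionVars false

namespace Pool.Agent.Lib.MP_6d896a_gt.OM

open MeasureTheory ProbabilityTheory Matrix Set Filter
open scoped ENNReal Topology

variable {ι κ : Type*} [Fintype ι] [Fintype κ]

lemma inner_rmul_emb (H Z : Matrix ι ι ℝ) :
    inner ℝ (rmul H (emb Z : EuclideanSpace ℝ ((ι ⊕ κ) × ι))) (emb Z) =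
      (Hᵀ * (Zᵀ * Z)).trace := by
  rw [inner_eq_trace, mt_rmul, mt_emb, Matrix.transpose_mul, Matrix.mul_assoc,
    Matrix.transpose_fromRows, Matrix.fromCols_mul_fromRows]
  simp

lemma PD_skew {H : Matrix ι ι ℝ} (hH : PD κ H) {Z : Matrix ι ι ℝ} (hZ : Zᵀ = -Z) (h0 : Z ≠ 0) :
    0 < (H * (Zᵀ * Z)).trace := by
  have h1 : sl (emb Z : EuclideanSpace ℝ ((ι ⊕ κ) × ι)) = 0 := by
    ext ⟨i | k, j⟩
    · have : Z j i = - Z i j := congrFun (congrFun hZ i) j
      simp [sl_inl, this]
    · simp [sl_inr]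
  have h2 : (emb Z : EuclideanSpace ℝ ((ι ⊕ κ) × ι)) ≠ 0 := by
    intro h
    apply h0
    ext i j
    have : (emb Z : EuclideanSpace ℝ ((ι ⊕ κ) × ι)) (Sum.inl i, j) = 0 := by rw [h]; rfl
    simpa using this
  have h3 := hH.2 _ h1 h2
  rwa [inner_rmul_emb, hH.1] at h3

lemma PD_row [DecidableEq ι] [DecidableEq κ] {H : Matrix ι ι ℝ} (hH : PD κ H) (k0 : κ) {w : ι → ℝ} (h0 : w ≠ 0) :
    0 < (w ᵥ* H) ⬝ᵥ w := by
  set z : EuclideanSpace ℝ ((ι ⊕ κ) × ι) :=
    WithLp.toLp 2 (fun p => if p.1 = Sum.inr k0 then w p.2 else 0) with hz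
  have hzl : ∀ i j, z (Sum.inl i, j) = 0 := by intro i j; simp [hz]
  have hzr : ∀ k j, z (Sum.inr k, j) = if k = k0 then w j else 0 := by intro k j; simp [hz]
  have h1 : sl z = 0 := by
    ext ⟨i | k, j⟩
    · simp [sl_inl, hzl]
    · simp [sl_inr]
  have h2 : z ≠ 0 := by
    intro h
    apply h0
    funext j
    have : z (Sum.inr k0, j) = 0 := by rw [h]; rfl
    simpa [hzr] using this
  have h3 := hH.2 _ h1 h2
  rw [inner_eq_sum, Fintype.sum_sum_type] at h3
  simp only [rmul_apply, hzl, hzr, mul_zero, Finset.sum_const_zero, zero_add] at h3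
  rw [Finset.sum_eq_single k0] at h3
  · simpa [dotProduct, Matrix.vecMul] using h3
  · intro k _ hk
    simp [hk]
  · simp

/-- a sum of two admissible matrices is admissible -/
lemma PD_add {H K : Matrix ι ι ℝ} (hH : PD κ H) (hK : PD κ K) : PD κ (H + K) := by
  refine ⟨by rw [Matrix.transpose_add, hH.1, hK.1], fun z hz h0 => ?_⟩
  have h : rmul (H + K) z = rmul H z + rmul K z := by
    simp [rmul, Matrix.mul_add]
  rw [h, inner_add_left]
  exact add_pos (hH.2 z hz h0) (hK.2 z hz h0)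

lemma PD_smul {H : Matrix ι ι ℝ} (hH : PD κ H) {c : ℝ} (hc : 0 < c) : PD κ (c • H) := by
  refine ⟨by rw [Matrix.transpose_smul, hH.1], fun z hz h0 => ?_⟩
  have h : rmul (c • H) z = c • rmul H z := by
    simp [rmul]
  rw [h, inner_smul_left]
  exact mul_pos hc (hH.2 z hz h0)

lemma gram_emb (H : Matrix ι ι ℝ) :
    (mt (emb H : EuclideanSpace ℝ ((ι ⊕ κ) × ι)))ᵀ * mt (emb H : EuclideanSpace ℝ ((ι ⊕ κ) × ι)) =
      Hᵀ * H := by
  ext i j
  simp [Matrix.mul_apply, Fintype.sum_sum_type]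

lemma gram_act [DecidableEq ι] [DecidableEq κ] (u : Matrix.orthogonalGroup (ι ⊕ κ) ℝ)
    (x : EuclideanSpace ℝ ((ι ⊕ κ) × ι)) :
    (mt (act (u : Matrix (ι ⊕ κ) (ι ⊕ κ) ℝ) x))ᵀ * mt (act (u : Matrix (ι ⊕ κ) (ι ⊕ κ) ℝ) x) =
      (mt x)ᵀ * mt x := by
  rw [mt_act, Matrix.transpose_mul, Matrix.mul_assoc, ← Matrix.mul_assoc _ _ (mt x), orth_left,
    Matrix.one_mul]

lemma sq_eq_of_act [DecidableEq ι] [DecidableEq κ] {H K : Matrix ι ι ℝ} (hH : Hᵀ = H) (hK : Kᵀ = K)
    {u : Matrix.orthogonalGroup (ι ⊕ κ) ℝ}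
    (h : act (u : Matrix (ι ⊕ κ) (ι ⊕ κ) ℝ) (emb H) = emb K) : H * H = K * K := by
  have h1 := gram_act u (emb H)
  rw [h, gram_emb, gram_emb, hH, hK] at h1
  exact h1.symm

lemma unique_nonempty [DecidableEq ι] [DecidableEq κ] {H K : Matrix ι ι ℝ} (hH : PD κ H)
    (hK : PD κ K) (k0 : κ) (hsq : H * H = K * K) : H = K := by
  set D := H - K with hD
  set S := H + K with hS
  have hDt : Dᵀ = D := by rw [hD, Matrix.transpose_sub, hH.1, hK.1]
  have hSP : PD κ S := PD_add hH hK
  have h1 : D * S = -(S * D) := by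
    rw [hD, hS, eq_neg_iff_add_eq_zero]
    have : (H - K) * (H + K) + (H + K) * (H - K) = 2 • (H * H - K * K) := by noncomm_ring
    rw [this, hsq]; simp
  have h2 : (D * S * D).trace = 0 := by
    have h3 : (D * S * D).trace = -(D * S * D).trace := by
      conv_lhs => rw [h1, Matrix.neg_mul, Matrix.trace_neg, Matrix.mul_assoc, Matrix.trace_mul_comm,
        Matrix.mul_assoc, Matrix.trace_mul_comm]
    linarith
  have hrow : ∀ i, (D * S * D) i i = (D i ᵥ* S) ⬝ᵥ D i := by
    intro i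
    simp only [Matrix.mul_apply, dotProduct, Matrix.vecMul]
    refine Finset.sum_congr rfl fun j _ => ?_
    have : D j i = D i j := congrFun (congrFun hDt i) j
    rw [this]
  have hnn : ∀ i, 0 ≤ (D i ᵥ* S) ⬝ᵥ D i := by
    intro i
    by_cases h0 : D i = 0
    · rw [h0]; simp
    · exact (PD_row hSP k0 h0).le
  have hz : ∀ i, D i = 0 := by
    intro i
    by_contra h0
    have hpos := PD_row hSP k0 h0
    have : 0 < (D * S * D).trace := by
      rw [Matrix.trace]
      simp only [Matrix.diag_apply, hrow]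
      exact Finset.sum_pos' (fun i _ => hnn i) ⟨i, Finset.mem_univ i, hpos⟩
    linarith
  have hD0 : D = 0 := by
    ext i j
    exact congrFun (hz i) j
  rw [hD] at hD0
  exact sub_eq_zero.mp hD0

/-- a symmetric projection annihilating all skew matrices has rank at most one -/
lemma proj_rank_one [DecidableEq ι] {P : Matrix ι ι ℝ} (hPt : Pᵀ = P) (hPP : P * P = P)
    (hsk : ∀ i j, P * sk i j * P = 0) (hdet : (1 - 2 • P).det = 1) : P = 0 := by
  by_contra hP
  obtain ⟨j0, b0, h0⟩ : ∃ j0 b0, P j0 b0 ≠ 0 := by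
    by_contra hcon
    push Not at hcon
    exact hP (by ext i j; exact hcon i j)
  have hmin : ∀ a i j b, P a i * P j b = P a j * P i b := by
    intro a i j b
    have h1 := congrFun (congrFun (hsk i j) a) b
    simp only [sk, Matrix.mul_sub, Matrix.sub_mul, Matrix.sub_apply, Matrix.zero_apply] at h1
    have h2 : ∀ i j : ι, (P * Matrix.single i j (1 : ℝ) * P : Matrix ι ι ℝ) a b = P a i * P j b := by
      intro i j
      rw [Matrix.mul_apply, Finset.sum_eq_single j]
      · rw [Matrix.mul_single_apply_same]; ring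
      · intro k _ hk
        have h3 : (P * Matrix.single i j (1 : ℝ) : Matrix ι ι ℝ) a k = 0 := by
          simp [hk]
        rw [h3, zero_mul]
      · simp
    rw [h2, h2] at h1
    linarith
  have htr : P.trace * P j0 b0 = P j0 b0 := by
    have h1 : (P * P) j0 b0 = P j0 b0 := by rw [hPP]
    rw [Matrix.mul_apply] at h1
    conv_rhs => rw [← h1]
    rw [Matrix.trace, Finset.sum_mul]
    refine Finset.sum_congr rfl fun i _ => ?_
    rw [Matrix.diag_apply, hmin i i j0 b0]
    have : P i j0 = P j0 i := congrFun (congrFun hPt j0) i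
    rw [this]
  have htr1 : P.trace = 1 := by
    have := mul_right_cancel₀ h0 (htr.trans (one_mul _).symm)
    exact this
  have hform : (1 : Matrix ι ι ℝ) - 2 • P = 1 + Matrix.replicateCol Unit (fun a => -2 * P a j0 / P j0 b0) *
      Matrix.replicateRow Unit (fun i => P i b0) := by
    ext a i
    have h1 := hmin a i j0 b0
    simp only [Matrix.sub_apply, Matrix.add_apply, Matrix.smul_apply, Matrix.mul_apply,
      Matrix.replicateCol_apply, Matrix.replicateRow_apply, Finset.univ_unique, Finset.sum_singleton]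
    field_simp
    linear_combination (-2) * h1
  rw [hform, Matrix.det_one_add_replicateCol_mul_replicateRow] at hdet
  have h3 : (fun i => P i b0) ⬝ᵥ (fun a => -2 * P a j0 / P j0 b0) = -2 * P.trace := by
    rw [Matrix.trace, Finset.mul_sum]
    simp only [dotProduct]
    refine Finset.sum_congr rfl fun i _ => ?_
    rw [Matrix.diag_apply]
    have h1 := hmin i i j0 b0
    field_simp
    linear_combination h1
  rw [h3, htr1] at hdet
  norm_num at hdet

lemma unique_empty [DecidableEq ι] [DecidableEq κ] [IsEmpty κ] {H K : Matrix ι ι ℝ} (hH : PD κ H)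
    (hK : PD κ K) {u : Matrix.orthogonalGroup (ι ⊕ κ) ℝ} (hu : u ∈ RotG (ι ⊕ κ))
    (h : act (u : Matrix (ι ⊕ κ) (ι ⊕ κ) ℝ) (emb H) = emb K) : H = K := by
  set e : ι ≃ ι ⊕ κ := (Equiv.sumEmpty ι κ).symm with he
  have hel : ∀ i, e i = Sum.inl i := fun i => rfl
  set g : Matrix ι ι ℝ := Matrix.submatrix (u : Matrix (ι ⊕ κ) (ι ⊕ κ) ℝ) e e with hg
  have hdet : g.det = 1 := by
    rw [hg, Matrix.det_submatrix_equiv_self, det_rot hu]
  have hgg : g * gᵀ = 1 := by
    rw [hg, Matrix.transpose_submatrix, Matrix.submatrix_mul_equiv, orth_right,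
      Matrix.submatrix_one_equiv]
  have hgg' : gᵀ * g = 1 := by
    rw [hg, Matrix.transpose_submatrix, Matrix.submatrix_mul_equiv, orth_left,
      Matrix.submatrix_one_equiv]
  have hgH : g * H = K := by
    ext i j
    have h1 : act (u : Matrix (ι ⊕ κ) (ι ⊕ κ) ℝ) (emb H) (Sum.inl i, j) = K i j := by rw [h]; rfl
    rw [act_apply, Fintype.sum_sum_type] at h1
    simp only [emb_inl, emb_inr, mul_zero, Finset.sum_const_zero, add_zero] at h1
    rw [← h1, Matrix.mul_apply]
    rfl
  have hsy : g * H = H * gᵀ := by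
    have h1 := hK.1
    rw [← hgH, Matrix.transpose_mul, hH.1] at h1
    exact h1.symm
  have hsy2 : H * g = gᵀ * H := by
    have h1 : gᵀ * (g * H) * g = gᵀ * (H * gᵀ) * g := by rw [hsy]
    rw [← Matrix.mul_assoc, hgg', Matrix.one_mul, Matrix.mul_assoc gᵀ (H * gᵀ) g,
      Matrix.mul_assoc H gᵀ g, hgg', Matrix.mul_one] at h1
    exact h1
  set Z := g - gᵀ with hZ
  have hZs : Zᵀ = -Z := by rw [hZ, Matrix.transpose_sub, Matrix.transpose_transpose]; abel
  have hZ0 : Z = 0 := by
    by_contra hne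
    have h1 := PD_skew hH hZs hne
    have h2 : H * (Zᵀ * Z) = 2 • H - H * g * g - H * gᵀ * gᵀ := by
      rw [hZs, hZ]
      have : H * (-(g - gᵀ) * (g - gᵀ)) = H * (gᵀ * g) + H * (g * gᵀ) - H * g * g - H * gᵀ * gᵀ := by
        noncomm_ring
      rw [this, hgg, hgg', Matrix.mul_one]
      abel
    have h3 : (H * g * g).trace = H.trace := by
      rw [hsy2, Matrix.mul_assoc, Matrix.trace_mul_comm, Matrix.mul_assoc, hgg, Matrix.mul_one]
    have h4 : (H * gᵀ * gᵀ).trace = H.trace := by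
      rw [← hsy, Matrix.mul_assoc, Matrix.trace_mul_comm, Matrix.mul_assoc, hgg', Matrix.mul_one]
    rw [h2, Matrix.trace_sub, Matrix.trace_sub, h3, h4, Matrix.trace_smul] at h1
    simp at h1
    linarith
  have hgt : gᵀ = g := (sub_eq_zero.mp hZ0).symm
  rw [hgt] at hgg hsy
  set P : Matrix ι ι ℝ := (1 / 2 : ℝ) • (1 - g) with hP
  have hPt : Pᵀ = P := by rw [hP, Matrix.transpose_smul, Matrix.transpose_sub, hgt]; simp
  have hPP : P * P = P := by
    rw [hP, Matrix.smul_mul, Matrix.mul_smul]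
    have : (1 - g) * (1 - g) = 1 - 2 • g + g * g := by noncomm_ring
    rw [this, hgg, smul_smul]
    have : (1 : Matrix ι ι ℝ) - 2 • g + 1 = 2 • (1 - g) := by
      rw [smul_sub]; abel
    rw [this, ← Nat.cast_smul_eq_nsmul ℝ, smul_smul]
    norm_num
  have hPK : K * P = -(H * P) := by
    have : g * (1 - g) = -(1 - g) := by
      rw [Matrix.mul_sub, Matrix.mul_one, hgg]; abel
    rw [← hgH, hsy, Matrix.mul_assoc, hP]
    simp only [Matrix.mul_smul]
    rw [this, Matrix.mul_neg, smul_neg]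
  have hsk : ∀ i j, P * sk i j * P = 0 := by
    intro i j
    by_contra hne
    set W := P * sk i j * P with hW
    have hWs : Wᵀ = -W := by
      rw [hW, Matrix.transpose_mul, Matrix.transpose_mul, hPt, sk_skew]
      simp only [Matrix.neg_mul, Matrix.mul_neg, Matrix.mul_assoc]
    have h1 := PD_skew hH hWs hne
    have h2 := PD_skew hK hWs hne
    have h3 : K * (Wᵀ * W) = -(H * (Wᵀ * W)) := by
      rw [hWs, hW]
      have e1 : K * (-(P * sk i j * P) * (P * sk i j * P)) =
          -(K * P * (sk i j * P * (P * sk i j * P))) := by noncomm_ring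
      have e2 : H * (-(P * sk i j * P) * (P * sk i j * P)) =
          -(H * P * (sk i j * P * (P * sk i j * P))) := by noncomm_ring
      rw [e1, e2, hPK]
      simp
    rw [h3, Matrix.trace_neg] at h2
    linarith
  have hdet2 : (1 - 2 • P).det = 1 := by
    have : (1 : Matrix ι ι ℝ) - 2 • P = g := by
      rw [hP, ← Nat.cast_smul_eq_nsmul ℝ, smul_smul]
      norm_num
    rw [this, hdet]
  have hP0 := proj_rank_one hPt hPP hsk hdet2
  have hg1 : g = 1 := by
    rw [hP] at hP0
    have := (smul_eq_zero.mp hP0).resolve_left (by norm_num)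
    exact (sub_eq_zero.mp this).symm
  rw [← hgH, hg1, Matrix.one_mul]

/-- uniqueness of the polar decomposition -/
theorem polar_unique [DecidableEq ι] [DecidableEq κ] {H K : Matrix ι ι ℝ} (hH : PD κ H)
    (hK : PD κ K) {u : Matrix.orthogonalGroup (ι ⊕ κ) ℝ} (hu : u ∈ RotG (ι ⊕ κ))
    (h : act (u : Matrix (ι ⊕ κ) (ι ⊕ κ) ℝ) (emb H) = emb K) : H = K := by
  rcases isEmpty_or_nonempty κ with he | hne
  · exact unique_empty hH hK hu h
  · obtain ⟨k0⟩ := hne
    exact unique_nonempty hH hK k0 (sq_eq_of_act hH.1 hK.1 h)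

end Pool.Agent.Lib.MP_6d896a_gt.OM
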