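import Mathlib
import Pool.Agent.Lib.MP_6d896a_gt.OM.Unique

/-!
The chart `x ↦ exp (hat (mm x)) • sl x` of the space of matrices adapted to the rotations.
-/

set_option autoImplicit false
set_option linter.unusedSectionVars false

namespace Pool.Agent.Lib.MP_6d896a_gt.OM

open MeasureTheory ProbabilityTheory Matrix Set Filter
open scoped ENNReal Topology

section bil

variable {r ι : Type*} [Fintype r] [Fintype ι]

/-- the action as a continuous bilinear map -/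
noncomputable def bil : EuclideanSpace ℝ (r × r) →L[ℝ] EuclideanSpace ℝ (r × ι) →L[ℝ]
    EuclideanSpace ℝ (r × ι) :=
  (LinearMap.mk₂ ℝ (fun (M : EuclideanSpace ℝ (r × r)) (x : EuclideanSpace ℝ (r × ι)) =>
    act (mt M) x)
    (fun M N x => by simp only [act_def, map_add, Matrix.add_mul])
    (fun c M x => by simp only [act_def, map_smul, Matrix.smul_mul])
    (fun M x y => by simp only [map_add])
    (fun c M x => by simp only [map_smul])).toContinuousBilinearMap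

@[simp] lemma bil_apply (M : EuclideanSpace ℝ (r × r)) (x : EuclideanSpace ℝ (r × ι)) :
    bil M x = act (mt M) x := rfl

variable [DecidableEq r]

open scoped Matrix.Norms.Operator in
lemma contDiff_me_exp : ContDiff ℝ 2 fun A : EuclideanSpace ℝ (r × r) =>
    (me (NormedSpace.exp (mt A)) : EuclideanSpace ℝ (r × r)) := by
  have h1 : ContDiff ℝ 2 (fun A : Matrix r r ℝ => NormedSpace.exp A) := by
    rw [contDiff_iff_contDiffAt]
    intro A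
    exact (NormedSpace.exp_analytic (𝕂 := ℝ) A).contDiffAt
  have h2 : ContDiff ℝ 2 (me : Matrix r r ℝ →ₗ[ℝ] EuclideanSpace ℝ (r × r)) :=
    (LinearMap.toContinuousLinearMap (me : Matrix r r ℝ →ₗ[ℝ] EuclideanSpace ℝ (r × r))).contDiff
  have h3 : ContDiff ℝ 2 (mt : EuclideanSpace ℝ (r × r) →ₗ[ℝ] Matrix r r ℝ) :=
    (LinearMap.toContinuousLinearMap (mt : EuclideanSpace ℝ (r × r) →ₗ[ℝ] Matrix r r ℝ)).contDiff
  exact h2.comp (h1.comp h3)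

open scoped Matrix.Norms.Operator in
lemma hasStrictFDerivAt_me_exp_zero :
    HasStrictFDerivAt (fun A : EuclideanSpace ℝ (r × r) =>
      (me (NormedSpace.exp (mt A)) : EuclideanSpace ℝ (r × r)))
      (ContinuousLinearMap.id ℝ _) 0 := by
  have h1 : HasStrictFDerivAt (NormedSpace.exp : Matrix r r ℝ → Matrix r r ℝ)
      (1 : Matrix r r ℝ →L[ℝ] Matrix r r ℝ) (mt (0 : EuclideanSpace ℝ (r × r))) := by
    rw [map_zero]
    exact hasStrictFDerivAt_exp_zero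
  have h2 := (LinearMap.toContinuousLinearMap
    (me : Matrix r r ℝ →ₗ[ℝ] EuclideanSpace ℝ (r × r))).hasStrictFDerivAt
    (x := NormedSpace.exp (mt (0 : EuclideanSpace ℝ (r × r))))
  have h3 := (LinearMap.toContinuousLinearMap
    (mt : EuclideanSpace ℝ (r × r) →ₗ[ℝ] Matrix r r ℝ)).hasStrictFDerivAt
    (x := (0 : EuclideanSpace ℝ (r × r)))
  have h4 := h2.comp 0 (h1.comp 0 h3)
  have h5 : (LinearMap.toContinuousLinearMap
      (me : Matrix r r ℝ →ₗ[ℝ] EuclideanSpace ℝ (r × r))).comp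
      ((1 : Matrix r r ℝ →L[ℝ] Matrix r r ℝ).comp (LinearMap.toContinuousLinearMap
      (mt : EuclideanSpace ℝ (r × r) →ₗ[ℝ] Matrix r r ℝ))) =
      ContinuousLinearMap.id ℝ (EuclideanSpace ℝ (r × r)) := by
    ext A p
    simp
  exact h4.congr_fderiv h5

end bil

section chart

variable {ι κ : Type*} [Fintype ι] [Fintype κ] [DecidableEq ι] [DecidableEq κ]

/-- `x ↦ hat (mm x)` as a linear map -/
noncomputable def hatL : EuclideanSpace ℝ ((ι ⊕ κ) × ι) →L[ℝ]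
    EuclideanSpace ℝ ((ι ⊕ κ) × (ι ⊕ κ)) :=
  LinearMap.toContinuousLinearMap
    { toFun := fun x => me (hat (mm x))
      map_add' := fun x y => by rw [map_add, hat_add, map_add]
      map_smul' := fun c x => by rw [map_smul, hat_smul, map_smul]; rfl }

@[simp] lemma hatL_apply (x : EuclideanSpace ℝ ((ι ⊕ κ) × ι)) : hatL x = me (hat (mm x)) := rfl

lemma hatL_mm (x : EuclideanSpace ℝ ((ι ⊕ κ) × ι)) : hatL (mm x) = hatL x := by
  simp [mm_mm]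

/-- the rotation attached to `x` -/
noncomputable def Ex (x : EuclideanSpace ℝ ((ι ⊕ κ) × ι)) :
    EuclideanSpace ℝ ((ι ⊕ κ) × (ι ⊕ κ)) := me (NormedSpace.exp (hat (mm x)))

lemma mt_Ex (x : EuclideanSpace ℝ ((ι ⊕ κ) × ι)) : mt (Ex x) = NormedSpace.exp (hat (mm x)) := by
  simp [Ex]

lemma Ex_eq : (Ex : EuclideanSpace ℝ ((ι ⊕ κ) × ι) → _) =
    (fun A : EuclideanSpace ℝ ((ι ⊕ κ) × (ι ⊕ κ)) =>
      (me (NormedSpace.exp (mt A)) : EuclideanSpace ℝ ((ι ⊕ κ) × (ι ⊕ κ)))) ∘ hatL := by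
  funext x
  simp [Ex]

/-- the rotation attached to `x`, as an element of the group -/
noncomputable def Eg (x : EuclideanSpace ℝ ((ι ⊕ κ) × ι)) : Matrix.orthogonalGroup (ι ⊕ κ) ℝ :=
  expG (hat (mm x)) (hat_skew (sl_mm x))

lemma Eg_mem (x : EuclideanSpace ℝ ((ι ⊕ κ) × ι)) : Eg x ∈ RotG (ι ⊕ κ) := expG_mem _ _

lemma coe_Eg (x : EuclideanSpace ℝ ((ι ⊕ κ) × ι)) :
    (Eg x : Matrix (ι ⊕ κ) (ι ⊕ κ) ℝ) = mt (Ex x) := by rw [mt_Ex]; rfl

lemma contDiff_Ex : ContDiff ℝ 2 (Ex : EuclideanSpace ℝ ((ι ⊕ κ) × ι) → _) := by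
  rw [Ex_eq]
  exact contDiff_me_exp.comp (hatL (ι := ι) (κ := κ)).contDiff

lemma hasFDerivAt_Ex (x : EuclideanSpace ℝ ((ι ⊕ κ) × ι)) :
    HasFDerivAt (Ex : EuclideanSpace ℝ ((ι ⊕ κ) × ι) → _) (fderiv ℝ Ex x) x :=
  (contDiff_Ex.differentiable (by norm_num) x).hasFDerivAt

lemma fderiv_Ex_mm (x : EuclideanSpace ℝ ((ι ⊕ κ) × ι)) :
    fderiv ℝ (Ex : EuclideanSpace ℝ ((ι ⊕ κ) × ι) → _) (mm x) = fderiv ℝ Ex x := by
  have h : ∀ y : EuclideanSpace ℝ ((ι ⊕ κ) × ι), fderiv ℝ Ex y =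
      (fderiv ℝ (fun A : EuclideanSpace ℝ ((ι ⊕ κ) × (ι ⊕ κ)) =>
      (me (NormedSpace.exp (mt A)) : EuclideanSpace ℝ ((ι ⊕ κ) × (ι ⊕ κ)))) (hatL y)).comp hatL := by
    intro y
    rw [Ex_eq, fderiv_comp _ ((contDiff_me_exp.differentiable (by norm_num)) _)
      hatL.differentiableAt, ContinuousLinearMap.fderiv]
  rw [h, h, hatL_mm]

lemma Ex_mm (x : EuclideanSpace ℝ ((ι ⊕ κ) × ι)) : Ex (mm x) = Ex x := by
  simp [Ex, mm_mm]

/-- the bilinear map `(M, N) ↦ Mᵀ N` -/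
noncomputable def bil2 : EuclideanSpace ℝ ((ι ⊕ κ) × (ι ⊕ κ)) →L[ℝ]
    EuclideanSpace ℝ ((ι ⊕ κ) × (ι ⊕ κ)) →L[ℝ] EuclideanSpace ℝ ((ι ⊕ κ) × (ι ⊕ κ)) :=
  (LinearMap.mk₂ ℝ (fun (M N : EuclideanSpace ℝ ((ι ⊕ κ) × (ι ⊕ κ))) => me ((mt M)ᵀ * mt N))
    (fun M N x => by simp only [map_add, Matrix.transpose_add, Matrix.add_mul])
    (fun c M x => by simp only [map_smul, Matrix.transpose_smul, Matrix.smul_mul])
    (fun M x y => by simp only [map_add, Matrix.mul_add])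
    (fun c M x => by simp only [map_smul, Matrix.mul_smul])).toContinuousBilinearMap

@[simp] lemma bil2_apply (M N : EuclideanSpace ℝ ((ι ⊕ κ) × (ι ⊕ κ))) :
    bil2 M N = me ((mt M)ᵀ * mt N) := rfl

/-- logarithmic derivative of the rotation -/
noncomputable def Th (x ξ : EuclideanSpace ℝ ((ι ⊕ κ) × ι)) : Matrix (ι ⊕ κ) (ι ⊕ κ) ℝ :=
  (mt (Ex x))ᵀ * mt (fderiv ℝ Ex x ξ)

lemma Ex_orth (x : EuclideanSpace ℝ ((ι ⊕ κ) × ι)) : (mt (Ex x))ᵀ * mt (Ex x) = 1 := by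
  rw [← coe_Eg]; exact orth_left _

lemma Ex_orth' (x : EuclideanSpace ℝ ((ι ⊕ κ) × ι)) : mt (Ex x) * (mt (Ex x))ᵀ = 1 := by
  rw [← coe_Eg]; exact orth_right _

lemma Th_skew (x ξ : EuclideanSpace ℝ ((ι ⊕ κ) × ι)) : (Th x ξ)ᵀ = - Th x ξ := by
  have h1 := (bil2 (ι := ι) (κ := κ)).hasFDerivAt_of_bilinear (hasFDerivAt_Ex x) (hasFDerivAt_Ex x)
  have h2 : (fun y : EuclideanSpace ℝ ((ι ⊕ κ) × ι) => bil2 (Ex y) (Ex y)) = fun _ => me 1 := by
    funext y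
    rw [bil2_apply, Ex_orth]
  rw [h2] at h1
  have h3 := h1.unique (hasFDerivAt_const (me 1 : EuclideanSpace ℝ ((ι ⊕ κ) × (ι ⊕ κ))) x)
  have h4 := congrArg (fun L => mt (L ξ)) h3
  simp only [_root_.add_apply, ContinuousLinearMap.precompR_apply,
    ContinuousLinearMap.precompL_apply, bil2_apply, map_add, mt_me,
    _root_.zero_apply, map_zero] at h4
  rw [Th, Matrix.transpose_mul, Matrix.transpose_transpose]
  rw [eq_neg_iff_add_eq_zero, add_comm]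
  exact h4

lemma mt_fderiv_Ex (x ξ : EuclideanSpace ℝ ((ι ⊕ κ) × ι)) :
    mt (fderiv ℝ Ex x ξ) = mt (Ex x) * Th x ξ := by
  rw [Th, ← Matrix.mul_assoc, Ex_orth', Matrix.one_mul]

/-- first block column of a skew matrix -/
lemma sl_act_skew {A : Matrix (ι ⊕ κ) (ι ⊕ κ) ℝ} (hA : Aᵀ = -A) :
    sl (act A (emb (1 : Matrix ι ι ℝ)) : EuclideanSpace ℝ ((ι ⊕ κ) × ι)) = 0 := by
  have h : ∀ a (j : ι), (act A (emb (1 : Matrix ι ι ℝ)) : EuclideanSpace ℝ ((ι ⊕ κ) × ι)) (a, j) =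
      A a (Sum.inl j) := by
    intro a j
    rw [act_apply, Fintype.sum_sum_type]
    simp only [emb_inl, emb_inr, mul_zero, Finset.sum_const_zero, add_zero]
    rw [Finset.sum_eq_single j]
    · simp
    · intro k _ hk
      simp [hk]
    · simp
  ext ⟨i | k, j⟩
  · have h1 : A (Sum.inl j) (Sum.inl i) = - A (Sum.inl i) (Sum.inl j) :=
      congrFun (congrFun hA (Sum.inl i)) (Sum.inl j)
    rw [sl_inl, h, h, h1]
    simp
  · simp [sl_inr]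

lemma act_emb (A : Matrix (ι ⊕ κ) (ι ⊕ κ) ℝ) (H : Matrix ι ι ℝ) :
    (act A (emb H) : EuclideanSpace ℝ ((ι ⊕ κ) × ι)) = rmul H (act A (emb 1)) := by
  have h1 : (emb H : EuclideanSpace ℝ ((ι ⊕ κ) × ι)) = rmul H (emb 1) := by
    ext ⟨i | k, j⟩
    · rw [rmul_apply]
      simp [Matrix.one_apply]
    · rw [rmul_apply]
      simp
  conv_lhs => rw [h1]
  simp only [rmul, act, LinearMap.coe_mk, AddHom.coe_mk, mt_me, Matrix.mul_assoc]

/-- the chart -/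
noncomputable def Psi (x : EuclideanSpace ℝ ((ι ⊕ κ) × ι)) : EuclideanSpace ℝ ((ι ⊕ κ) × ι) :=
  act (mt (Ex x)) (sl x)

/-- the bilinear map `(M, N) ↦ first block column of Mᵀ N` -/
noncomputable def bil3 : EuclideanSpace ℝ ((ι ⊕ κ) × (ι ⊕ κ)) →L[ℝ]
    EuclideanSpace ℝ ((ι ⊕ κ) × (ι ⊕ κ)) →L[ℝ] EuclideanSpace ℝ ((ι ⊕ κ) × ι) :=
  (LinearMap.mk₂ ℝ (fun (M N : EuclideanSpace ℝ ((ι ⊕ κ) × (ι ⊕ κ))) =>
      act ((mt M)ᵀ * mt N) (emb 1))
    (fun M N x => by simp only [act_def, map_add, Matrix.transpose_add, Matrix.add_mul])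
    (fun c M x => by simp only [act_def, map_smul, Matrix.transpose_smul, Matrix.smul_mul])
    (fun M x y => by simp only [act_def, map_add, Matrix.mul_add, Matrix.add_mul])
    (fun c M x => by simp only [act_def, map_smul, Matrix.mul_smul, Matrix.smul_mul])
    ).toContinuousBilinearMap

@[simp] lemma bil3_apply (M N : EuclideanSpace ℝ ((ι ⊕ κ) × (ι ⊕ κ))) :
    bil3 M N = act ((mt M)ᵀ * mt N) (emb 1) := rfl

/-- the factor of the derivative depending only on `mm x` -/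
noncomputable def Tx (x : EuclideanSpace ℝ ((ι ⊕ κ) × ι)) :
    EuclideanSpace ℝ ((ι ⊕ κ) × ι) →L[ℝ] EuclideanSpace ℝ ((ι ⊕ κ) × ι) :=
  (bil3 (Ex x)).comp (fderiv ℝ Ex x) + LinearMap.toContinuousLinearMap sl

lemma Tx_apply (x ξ : EuclideanSpace ℝ ((ι ⊕ κ) × ι)) :
    Tx x ξ = act (Th x ξ) (emb 1) + sl ξ := rfl

lemma Tx_mm (x : EuclideanSpace ℝ ((ι ⊕ κ) × ι)) : Tx (mm x) = Tx x := by
  rw [Tx, Tx, Ex_mm, fderiv_Ex_mm]

/-- the factor of the derivative depending only on `sl x` -/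
noncomputable def Nx (H : Matrix ι ι ℝ) :
    EuclideanSpace ℝ ((ι ⊕ κ) × ι) →L[ℝ] EuclideanSpace ℝ ((ι ⊕ κ) × ι) :=
  LinearMap.toContinuousLinearMap (rmul H ∘ₗ mm + sl)

lemma Nx_apply (H : Matrix ι ι ℝ) (y : EuclideanSpace ℝ ((ι ⊕ κ) × ι)) :
    Nx H y = rmul H (mm y) + sl y := rfl

lemma hasFDerivAt_Psi (x : EuclideanSpace ℝ ((ι ⊕ κ) × ι)) :
    HasFDerivAt (Psi : EuclideanSpace ℝ ((ι ⊕ κ) × ι) → _)
      ((LinearMap.toContinuousLinearMap (act (mt (Ex x)))).comp ((Nx (Sy x)).comp (Tx x))) x := by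
  have h1 := (bil (r := ι ⊕ κ) (ι := ι)).hasFDerivAt_of_bilinear (hasFDerivAt_Ex x)
    (LinearMap.toContinuousLinearMap
      (sl : EuclideanSpace ℝ ((ι ⊕ κ) × ι) →ₗ[ℝ] _)).hasFDerivAt
  have h2 : (fun y : EuclideanSpace ℝ ((ι ⊕ κ) × ι) => bil (Ex y)
      (LinearMap.toContinuousLinearMap sl y)) = Psi := rfl
  rw [h2] at h1
  refine h1.congr_fderiv ?_
  ext1 ξ
  change act (mt (Ex x)) (sl ξ) + act (mt (fderiv ℝ Ex x ξ)) (sl x) =
    act (mt (Ex x)) (Nx (Sy x) (Tx x ξ))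
  rw [mt_fderiv_Ex, act_mul, ← map_add]
  congr 1
  have h3 : sl (act (Th x ξ) (emb 1) : EuclideanSpace ℝ ((ι ⊕ κ) × ι)) = 0 :=
    sl_act_skew (Th_skew x ξ)
  have h4 : mm (act (Th x ξ) (emb 1) : EuclideanSpace ℝ ((ι ⊕ κ) × ι)) =
      act (Th x ξ) (emb 1) := by
    have := sl_add_mm (act (Th x ξ) (emb 1) : EuclideanSpace ℝ ((ι ⊕ κ) × ι))
    rwa [h3, zero_add] at this
  simp only [Nx_apply, Tx_apply, map_add, h3, h4, mm_sl, sl_sl, map_zero, add_zero, zero_add]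
  have h5 : sl x = emb (Sy x) := rfl
  rw [h5, act_emb, add_comm]

lemma continuous_Tx : Continuous (Tx : EuclideanSpace ℝ ((ι ⊕ κ) × ι) → _) := by
  have h1 : Continuous (fun x : EuclideanSpace ℝ ((ι ⊕ κ) × ι) => fderiv ℝ Ex x) :=
    contDiff_Ex.continuous_fderiv (by norm_num)
  have h2 : Continuous (Ex : EuclideanSpace ℝ ((ι ⊕ κ) × ι) → _) := contDiff_Ex.continuous
  have h3 : Continuous (fun x : EuclideanSpace ℝ ((ι ⊕ κ) × ι) =>
      (bil3 (ι := ι) (κ := κ) (Ex x)).comp (fderiv ℝ Ex x)) :=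
    ((bil3 (ι := ι) (κ := κ)).continuous.comp h2).clm_comp h1
  exact h3.add continuous_const

lemma fderiv_Ex_zero (ξ : EuclideanSpace ℝ ((ι ⊕ κ) × ι)) :
    fderiv ℝ (Ex : EuclideanSpace ℝ ((ι ⊕ κ) × ι) → _) 0 ξ = hatL ξ := by
  have h1 : HasFDerivAt (Ex : EuclideanSpace ℝ ((ι ⊕ κ) × ι) → _)
      ((ContinuousLinearMap.id ℝ _).comp (hatL (ι := ι) (κ := κ))) 0 := by
    rw [Ex_eq]
    refine HasFDerivAt.comp 0 ?_ hatL.hasFDerivAt
    rw [map_zero]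
    exact hasStrictFDerivAt_me_exp_zero.hasFDerivAt
  rw [h1.fderiv]
  rfl

lemma act_hat_mm_one (x : EuclideanSpace ℝ ((ι ⊕ κ) × ι)) :
    act (hat (mm x)) (emb 1) = mm x := by
  rw [act_hat_emb, rmul_one]

lemma Tx_zero : Tx (0 : EuclideanSpace ℝ ((ι ⊕ κ) × ι)) = ContinuousLinearMap.id ℝ _ := by
  ext1 ξ
  rw [Tx_apply, Th, fderiv_Ex_zero, hatL_apply, mt_me, mt_Ex]
  have h0 : hat (mm (0 : EuclideanSpace ℝ ((ι ⊕ κ) × ι))) = 0 := by
    rw [map_zero]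
    have := hat_smul (ι := ι) (κ := κ) 0 0
    simpa using this
  rw [h0, NormedSpace.exp_zero, Matrix.transpose_one, Matrix.one_mul, act_hat_mm_one, add_comm,
    sl_add_mm]
  rfl

/-- auxiliary injective map -/
noncomputable def Gx (x : EuclideanSpace ℝ ((ι ⊕ κ) × ι)) : EuclideanSpace ℝ ((ι ⊕ κ) × ι) :=
  act (mt (Ex x)) (emb 1) + sl x

lemma hasStrictFDerivAt_Gx : HasStrictFDerivAt (Gx : EuclideanSpace ℝ ((ι ⊕ κ) × ι) → _)
    (ContinuousLinearMap.id ℝ _) 0 := by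
  have h1 : HasStrictFDerivAt (Ex : EuclideanSpace ℝ ((ι ⊕ κ) × ι) → _)
      ((ContinuousLinearMap.id ℝ _).comp (hatL (ι := ι) (κ := κ))) 0 := by
    rw [Ex_eq]
    have hA : HasStrictFDerivAt (fun A : EuclideanSpace ℝ ((ι ⊕ κ) × (ι ⊕ κ)) =>
        (me (NormedSpace.exp (mt A)) : EuclideanSpace ℝ ((ι ⊕ κ) × (ι ⊕ κ))))
        (ContinuousLinearMap.id ℝ _) (hatL (0 : EuclideanSpace ℝ ((ι ⊕ κ) × ι))) := by
      rw [map_zero]
      exact hasStrictFDerivAt_me_exp_zero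
    exact hA.comp 0 (hatL (ι := ι) (κ := κ)).hasStrictFDerivAt
  have h2 := ((bil (r := ι ⊕ κ) (ι := ι)).flip (emb 1)).hasStrictFDerivAt
    (x := Ex (0 : EuclideanSpace ℝ ((ι ⊕ κ) × ι)))
  have h3 := (LinearMap.toContinuousLinearMap
      (sl : EuclideanSpace ℝ ((ι ⊕ κ) × ι) →ₗ[ℝ] _)).hasStrictFDerivAt
      (x := (0 : EuclideanSpace ℝ ((ι ⊕ κ) × ι)))
  have h4 := (h2.comp 0 h1).add h3
  refine h4.congr_fderiv ?_
  ext1 ξ
  change act (mt (hatL ξ)) (emb 1) + sl ξ = ξ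
  rw [hatL_apply, mt_me, act_hat_mm_one, add_comm, sl_add_mm]

/-- local injectivity of `z ↦ exp (hat z) • 1` -/
lemma exists_inj : ∃ δ : ℝ, 0 < δ ∧ ∀ x y : EuclideanSpace ℝ ((ι ⊕ κ) × ι), ‖mm x‖ < δ →
    ‖mm y‖ < δ → act (mt (Ex x)) (emb 1) = act (mt (Ex y)) (emb 1) → mm x = mm y := by
  have h1 := hasStrictFDerivAt_Gx (ι := ι) (κ := κ)
  have h2 : HasStrictFDerivAt (Gx : EuclideanSpace ℝ ((ι ⊕ κ) × ι) → _)
    ((ContinuousLinearEquiv.refl ℝ (EuclideanSpace ℝ ((ι ⊕ κ) × ι)) :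
      EuclideanSpace ℝ ((ι ⊕ κ) × ι) ≃L[ℝ] _) :
      EuclideanSpace ℝ ((ι ⊕ κ) × ι) →L[ℝ] _) 0 := h1
  set e := h2.toOpenPartialHomeomorph with he
  have hsrc : (0 : EuclideanSpace ℝ ((ι ⊕ κ) × ι)) ∈ e.source :=
    h2.mem_toOpenPartialHomeomorph_source
  obtain ⟨δ, hδ, hball⟩ := Metric.isOpen_iff.mp e.open_source 0 hsrc
  refine ⟨δ, hδ, fun x y hx hy hxy => ?_⟩
  have hinj := e.injOn
  refine hinj (hball (by simpa using hx)) (hball (by simpa using hy)) ?_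
  change Gx (mm x) = Gx (mm y)
  rw [Gx, Gx, Ex_mm, Ex_mm, sl_mm, sl_mm, hxy]

lemma exists_det : ∃ δ : ℝ, 0 < δ ∧ ∀ x : EuclideanSpace ℝ ((ι ⊕ κ) × ι), ‖mm x‖ < δ →
    1 / 2 ≤ |(Tx x).det| ∧ |(Tx x).det| ≤ 2 := by
  have h1 : Continuous (fun x : EuclideanSpace ℝ ((ι ⊕ κ) × ι) => |(Tx x).det|) :=
    (ContinuousLinearMap.continuous_det.comp continuous_Tx).abs
  have h2 : |(Tx (0 : EuclideanSpace ℝ ((ι ⊕ κ) × ι))).det| = 1 := by
    rw [Tx_zero]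
    have : (ContinuousLinearMap.id ℝ (EuclideanSpace ℝ ((ι ⊕ κ) × ι))).det = 1 := by
      exact LinearMap.det_id
    rw [this, abs_one]
  have h3 : ∀ᶠ x in 𝓝 (0 : EuclideanSpace ℝ ((ι ⊕ κ) × ι)),
      |(Tx x).det| ∈ Set.Ioo (1 / 2 : ℝ) 2 := by
    apply h1.continuousAt.eventually_mem
    rw [h2]
    exact Ioo_mem_nhds (by norm_num) (by norm_num)
  obtain ⟨δ, hδ, hball⟩ := Metric.eventually_nhds_iff.mp h3
  refine ⟨δ, hδ, fun x hx => ?_⟩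
  have := hball (y := mm x) (by simpa using hx)
  rw [Tx_mm] at this
  exact ⟨this.1.le, this.2.le⟩

end chart

end Pool.Agent.Lib.MP_6d896a_gt.OM
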