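import Mathlib
import Pool.Agent.Lib.MP_6d896a_gt.OM.Chart

/-!
The Jacobian of the chart, null sets and injectivity.
-/

set_option autoImplicit false
set_option linter.unusedSectionVars false

namespace Pool.Agent.Lib.MP_6d896a_gt.OM

open MeasureTheory ProbabilityTheory Matrix Set Filter
open scoped ENNReal Topology

section det

variable {r ι : Type*} [Fintype r] [Fintype ι] [DecidableEq r]

lemma abs_det_act (u : Matrix.orthogonalGroup r ℝ) :
    |LinearMap.det (act (u : Matrix r r ℝ) : EuclideanSpace ℝ (r × ι) →ₗ[ℝ] _)| = 1 := by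
  have h1 : LinearMap.det (act (u : Matrix r r ℝ) : EuclideanSpace ℝ (r × ι) →ₗ[ℝ] _) *
      LinearMap.det (act (u : Matrix r r ℝ)ᵀ : EuclideanSpace ℝ (r × ι) →ₗ[ℝ] _) = 1 := by
    rw [← LinearMap.det_comp]
    have : (act (u : Matrix r r ℝ) : EuclideanSpace ℝ (r × ι) →ₗ[ℝ] _) ∘ₗ
        act (u : Matrix r r ℝ)ᵀ = LinearMap.id := by
      ext1 x
      rw [LinearMap.comp_apply, ← act_mul, orth_right, act_one]; rfl
    rw [this, LinearMap.det_id]
  have hne : LinearMap.det (act (u : Matrix r r ℝ) : EuclideanSpace ℝ (r × ι) →ₗ[ℝ] _) ≠ 0 :=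
    left_ne_zero_of_mul_eq_one h1
  have h2 := Measure.map_linearMap_addHaar_eq_smul_addHaar
    (volume : Measure (EuclideanSpace ℝ (r × ι))) hne
  rw [map_act_volume] at h2
  have h3 := congrArg (fun μ => μ (Metric.ball (0 : EuclideanSpace ℝ (r × ι)) 1)) h2
  simp only [Measure.smul_apply, smul_eq_mul] at h3
  have hpos : (volume : Measure (EuclideanSpace ℝ (r × ι))) (Metric.ball 0 1) ≠ 0 :=
    (Metric.measure_ball_pos _ _ one_pos).ne'
  have hfin : (volume : Measure (EuclideanSpace ℝ (r × ι))) (Metric.ball 0 1) ≠ ∞ :=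
    measure_ball_lt_top.ne
  have h4 : ENNReal.ofReal |(LinearMap.det
      (act (u : Matrix r r ℝ) : EuclideanSpace ℝ (r × ι) →ₗ[ℝ] _))⁻¹| = 1 := by
    have := ENNReal.mul_left_inj hpos hfin |>.mp ((one_mul _).trans h3)
    exact this.symm
  rw [ENNReal.ofReal_eq_one, abs_inv] at h4
  exact inv_eq_one.mp h4

end det

section jac

variable {ι κ : Type*} [Fintype ι] [Fintype κ]

lemma abs_det_Nx (H : Matrix ι ι ℝ) :
    |(Nx H : EuclideanSpace ℝ ((ι ⊕ κ) × ι) →L[ℝ] _).det| = |LinearMap.det (Lop (κ := κ) 1 H)| := by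
  let E : EuclideanSpace ℝ ((ι ⊕ κ) × ι) →ₗ[ℝ] EuclideanSpace ℝ ((ι ⊕ κ) × ι) :=
    sl ∘ₗ rmul H ∘ₗ mm
  let σ : EuclideanSpace ℝ ((ι ⊕ κ) × ι) →ₗ[ℝ] EuclideanSpace ℝ ((ι ⊕ κ) × ι) := sl - mm
  have hE : ∀ y, E y = sl (rmul H (mm y)) := fun y => rfl
  have hσ : ∀ y, σ y = sl y - mm y := fun y => rfl
  have h1 : (rmul H ∘ₗ mm + sl : EuclideanSpace ℝ ((ι ⊕ κ) × ι) →ₗ[ℝ] _) =
      Lop 1 H ∘ₗ (LinearMap.id + E) := by
    ext1 y
    simp only [LinearMap.add_apply, LinearMap.comp_apply, LinearMap.id_apply, Lop,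
      LinearMap.smul_apply, one_smul, hE, map_add, mm_sl, sl_sl, map_zero, add_zero]
    conv_lhs => rw [← sl_add_mm (rmul H (mm y))]
    abel
  have h2 : (LinearMap.id + E) ∘ₗ (LinearMap.id - E) = LinearMap.id := by
    ext1 y
    simp only [LinearMap.add_apply, LinearMap.comp_apply, LinearMap.id_apply, LinearMap.sub_apply,
      hE, map_sub, mm_sl, map_zero, sub_zero]
    abel
  have h3 : σ ∘ₗ (LinearMap.id + E) ∘ₗ σ = LinearMap.id - E := by
    ext1 y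
    simp only [LinearMap.add_apply, LinearMap.comp_apply, LinearMap.id_apply, LinearMap.sub_apply,
      hE, hσ, map_sub, map_add, mm_sl, sl_sl, mm_mm, sl_mm, map_zero, sub_zero, zero_sub, map_neg]
    conv_rhs => rw [← sl_add_mm y]
    simp only [map_add, mm_sl, mm_mm, map_zero, zero_add]
    abel
  have h4 : σ ∘ₗ σ = LinearMap.id := by
    ext1 y
    simp only [LinearMap.comp_apply, LinearMap.id_apply, hσ, map_sub, mm_sl, sl_sl, mm_mm, sl_mm,
      sub_zero, zero_sub, sub_neg_eq_add, sl_add_mm]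
  have d2 := congrArg LinearMap.det h2
  have d3 := congrArg LinearMap.det h3
  have d4 := congrArg LinearMap.det h4
  rw [LinearMap.det_comp, LinearMap.det_id] at d2 d4
  rw [LinearMap.det_comp, LinearMap.det_comp] at d3
  have d5 : LinearMap.det (LinearMap.id + E) = LinearMap.det (LinearMap.id - E) := by
    rw [← d3]
    linear_combination (-LinearMap.det (LinearMap.id + E)) * d4
  have d6 : |LinearMap.det (LinearMap.id + E)| = 1 := by
    rw [← d5] at d2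
    have : |LinearMap.det (LinearMap.id + E)| * |LinearMap.det (LinearMap.id + E)| = 1 := by
      rw [← abs_mul, d2, abs_one]
    nlinarith [abs_nonneg (LinearMap.det (LinearMap.id + E))]
  change |LinearMap.det (rmul H ∘ₗ mm + sl : EuclideanSpace ℝ ((ι ⊕ κ) × ι) →ₗ[ℝ] _)| = _
  rw [h1, LinearMap.det_comp, abs_mul, d6, mul_one]

variable [DecidableEq ι] [DecidableEq κ]

/-- the derivative of the chart -/
noncomputable def DPsi (x : EuclideanSpace ℝ ((ι ⊕ κ) × ι)) :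
    EuclideanSpace ℝ ((ι ⊕ κ) × ι) →L[ℝ] EuclideanSpace ℝ ((ι ⊕ κ) × ι) :=
  (LinearMap.toContinuousLinearMap (act (mt (Ex x)))).comp ((Nx (Sy x)).comp (Tx x))

/-- density of the orbits -/
noncomputable def Jd (κ : Type*) [Fintype κ] (H : Matrix ι ι ℝ) : ℝ :=
  |LinearMap.det (Lop (κ := κ) 1 H)|

lemma abs_det_DPsi (x : EuclideanSpace ℝ ((ι ⊕ κ) × ι)) :
    |(DPsi x).det| = Jd κ (Sy x) * |(Tx x).det| := by
  have h1 : (DPsi x).det = LinearMap.det (act (mt (Ex x)) : EuclideanSpace ℝ ((ι ⊕ κ) × ι) →ₗ[ℝ] _) *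
      ((Nx (κ := κ) (Sy x)).det * (Tx x).det) := by
    have e : ((DPsi x : EuclideanSpace ℝ ((ι ⊕ κ) × ι) →L[ℝ] _) :
        EuclideanSpace ℝ ((ι ⊕ κ) × ι) →ₗ[ℝ] _) =
        (act (mt (Ex x)) : EuclideanSpace ℝ ((ι ⊕ κ) × ι) →ₗ[ℝ] _) ∘ₗ
        (((Nx (κ := κ) (Sy x) : EuclideanSpace ℝ ((ι ⊕ κ) × ι) →L[ℝ] _) :
        EuclideanSpace ℝ ((ι ⊕ κ) × ι) →ₗ[ℝ] _) ∘ₗ
        ((Tx x : EuclideanSpace ℝ ((ι ⊕ κ) × ι) →L[ℝ] _) :
        EuclideanSpace ℝ ((ι ⊕ κ) × ι) →ₗ[ℝ] _)) := rfl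
    change LinearMap.det ((DPsi x : EuclideanSpace ℝ ((ι ⊕ κ) × ι) →L[ℝ] _) :
        EuclideanSpace ℝ ((ι ⊕ κ) × ι) →ₗ[ℝ] _) = _
    rw [e, LinearMap.det_comp, LinearMap.det_comp]
  rw [h1, abs_mul, abs_mul, ← coe_Eg, abs_det_act, one_mul, abs_det_Nx]
  rfl

end jac

end Pool.Agent.Lib.MP_6d896a_gt.OM
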