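import Mathlib
import Pool.Agent.Lib.MP_6d896a_gt.OM.Jac

/-!
The admissible cone is open, its boundary is negligible; the chart is injective.
-/

set_option autoImplicit false
set_option linter.unusedSectionVars false

namespace Pool.Agent.Lib.MP_6d896a_gt.OM

open MeasureTheory ProbabilityTheory Matrix Set Filter
open scoped ENNReal Topology

variable {ι κ : Type*} [Fintype ι] [Fintype κ]

lemma norm_rmul_le (H : Matrix ι ι ℝ) (z : EuclideanSpace ℝ ((ι ⊕ κ) × ι)) :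
    ‖rmul H z‖ ≤ ‖(emb H : EuclideanSpace ℝ ((ι ⊕ κ) × ι))‖ * ‖z‖ := by
  have h : ‖rmul H z‖ ^ 2 ≤ (‖(emb H : EuclideanSpace ℝ ((ι ⊕ κ) × ι))‖ * ‖z‖) ^ 2 := by
    rw [mul_pow, norm_emb_sq, norm_sq_eq_sum, norm_sq_eq_sum]
    simp only [rmul_apply]
    calc ∑ i, ∑ j, (∑ k, z (i, k) * H k j) ^ 2
        ≤ ∑ i, ∑ j, (∑ k, z (i, k) ^ 2) * ∑ k, H k j ^ 2 := by
          gcongr with i _ j _
          exact Finset.sum_mul_sq_le_sq_mul_sq _ _ _
      _ = (∑ k, ∑ j, H k j ^ 2) * ∑ i, ∑ k, z (i, k) ^ 2 := by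
          rw [Finset.mul_sum]
          refine Finset.sum_congr rfl fun i _ => ?_
          rw [← Finset.mul_sum, mul_comm, Finset.sum_comm (γ := ι)]
  exact (pow_le_pow_iff_left₀ (norm_nonneg _) (by positivity) (by norm_num)).mp h

lemma norm_sl_le (x : EuclideanSpace ℝ ((ι ⊕ κ) × ι)) : ‖sl x‖ ≤ ‖x‖ := by
  have h := norm_sq_split x
  have : ‖sl x‖ ^ 2 ≤ ‖x‖ ^ 2 := by nlinarith [sq_nonneg ‖mm x‖]
  exact (pow_le_pow_iff_left₀ (norm_nonneg _) (norm_nonneg _) (by norm_num)).mp this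

lemma norm_mm_le (x : EuclideanSpace ℝ ((ι ⊕ κ) × ι)) : ‖mm x‖ ≤ ‖x‖ := by
  have h := norm_sq_split x
  have : ‖mm x‖ ^ 2 ≤ ‖x‖ ^ 2 := by nlinarith [sq_nonneg ‖sl x‖]
  exact (pow_le_pow_iff_left₀ (norm_nonneg _) (norm_nonneg _) (by norm_num)).mp this

lemma emb_Sy (x : EuclideanSpace ℝ ((ι ⊕ κ) × ι)) :
    (emb (Sy x) : EuclideanSpace ℝ ((ι ⊕ κ) × ι)) = sl x := rfl

lemma Sy_sl (x : EuclideanSpace ℝ ((ι ⊕ κ) × ι)) : Sy (sl x) = Sy x := by
  rw [← emb_Sy, Sy_emb (Sy_symm x)]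

lemma rmul_add_left (H K : Matrix ι ι ℝ) (z : EuclideanSpace ℝ ((ι ⊕ κ) × ι)) :
    rmul (H + K) z = rmul H z + rmul K z := by
  simp [rmul, Matrix.mul_add]

lemma rmul_smul_left (c : ℝ) (H : Matrix ι ι ℝ) (z : EuclideanSpace ℝ ((ι ⊕ κ) × ι)) :
    rmul (c • H) z = c • rmul H z := by
  simp [rmul]

lemma abs_inner_rmul_le (x z : EuclideanSpace ℝ ((ι ⊕ κ) × ι)) :
    |inner ℝ (rmul (Sy x) z) z| ≤ ‖x‖ * ‖z‖ ^ 2 := by
  calc |inner ℝ (rmul (Sy x) z) z| ≤ ‖rmul (Sy x) z‖ * ‖z‖ := abs_real_inner_le_norm _ _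
    _ ≤ (‖x‖ * ‖z‖) * ‖z‖ := by
        gcongr
        refine (norm_rmul_le _ _).trans ?_
        rw [emb_Sy]
        gcongr
        exact norm_sl_le x
    _ = _ := by ring

lemma isOpen_PD : IsOpen {x : EuclideanSpace ℝ ((ι ⊕ κ) × ι) | PD κ (Sy x)} := by
  rw [Metric.isOpen_iff]
  intro x0 hx0
  set K : Set (EuclideanSpace ℝ ((ι ⊕ κ) × ι)) := {z | sl z = 0} ∩ Metric.sphere 0 1 with hK
  have hcl : IsClosed {z : EuclideanSpace ℝ ((ι ⊕ κ) × ι) | sl z = 0} :=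
    isClosed_eq (LinearMap.continuous_of_finiteDimensional sl) continuous_const
  have hKc : IsCompact K := (isCompact_sphere _ _).inter_left hcl
  have hlow : ∃ ε : ℝ, 0 < ε ∧ ∀ z ∈ K, ε ≤ inner ℝ (rmul (Sy x0) z) z := by
    rcases K.eq_empty_or_nonempty with he | hne
    · exact ⟨1, one_pos, fun z hz => by rw [he] at hz; exact absurd hz (by simp)⟩
    · have hcont : Continuous fun z : EuclideanSpace ℝ ((ι ⊕ κ) × ι) =>
          inner ℝ (rmul (Sy x0) z) z :=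
        (LinearMap.continuous_of_finiteDimensional (rmul (Sy x0))).inner continuous_id
      obtain ⟨z0, hz0, hmin⟩ := hKc.exists_isMinOn hne hcont.continuousOn
      refine ⟨_, hx0.2 z0 hz0.1 ?_, fun z hz => hmin hz⟩
      intro h
      have := hz0.2
      rw [h] at this
      simp at this
  obtain ⟨ε, hε, hlow⟩ := hlow
  refine ⟨ε, hε, fun x hx => ?_⟩
  refine ⟨Sy_symm x, fun z hz h0 => ?_⟩
  have hz0 : 0 < ‖z‖ := norm_pos_iff.mpr h0
  have h1 : ε * ‖z‖ ^ 2 ≤ inner ℝ (rmul (Sy x0) z) z := by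
    have h2 := hlow (‖z‖⁻¹ • z) ⟨by simp [hz], by simp [norm_smul, hz0.ne']⟩
    rw [map_smul, inner_smul_left, inner_smul_right] at h2
    simp only [conj_trivial] at h2
    rw [← mul_assoc, ← sq, inv_pow, ← div_eq_inv_mul, le_div_iff₀ (by positivity)] at h2
    exact h2
  have h3 : inner ℝ (rmul (Sy x) z) z = inner ℝ (rmul (Sy x0) z) z +
      inner ℝ (rmul (Sy (x - x0)) z) z := by
    rw [← inner_add_left, ← rmul_add_left, ← map_add]
    congr 3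
    abel_nf
  have h4 := abs_inner_rmul_le (x - x0) z
  have h5 : ‖x - x0‖ < ε := by simpa [dist_eq_norm] using hx
  have h6 := neg_abs_le (inner ℝ (rmul (Sy (x - x0)) z) z)
  rw [h3]
  have h7 : ‖x - x0‖ * ‖z‖ ^ 2 < ε * ‖z‖ ^ 2 := by
    have : 0 < ‖z‖ ^ 2 := by positivity
    exact mul_lt_mul_of_pos_right h5 this
  linarith

variable [DecidableEq ι] [DecidableEq κ]

lemma PD_one : PD κ (1 : Matrix ι ι ℝ) := by
  refine ⟨Matrix.transpose_one, fun z _ h0 => ?_⟩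
  rw [rmul_one]
  exact real_inner_self_pos.mpr h0

/-- the closed cone -/
def C0 (ι κ : Type*) [Fintype ι] [Fintype κ] : Set (EuclideanSpace ℝ ((ι ⊕ κ) × ι)) :=
  {x | ∀ z : EuclideanSpace ℝ ((ι ⊕ κ) × ι), sl z = 0 → 0 ≤ inner ℝ (rmul (Sy x) z) z}

lemma convex_C0 : Convex ℝ (C0 ι κ) := by
  intro x hx y hy a b ha hb _ z hz
  rw [map_add, rmul_add_left, map_smul, map_smul, rmul_smul_left, rmul_smul_left, inner_add_left,
    inner_smul_left, inner_smul_left]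
  exact add_nonneg (mul_nonneg ha (hx z hz)) (mul_nonneg hb (hy z hz))

lemma null_C0_diff : (volume : Measure (EuclideanSpace ℝ ((ι ⊕ κ) × ι)))
    (C0 ι κ \ {x | PD κ (Sy x)}) = 0 := by
  refine measure_mono_null ?_ ((convex_C0 (ι := ι) (κ := κ)).addHaar_frontier volume)
  rintro x ⟨hx, hnp⟩
  refine ⟨subset_closure hx, fun hint => hnp ?_⟩
  obtain ⟨ε, hε, hball⟩ := Metric.isOpen_iff.mp isOpen_interior x hint
  set e : EuclideanSpace ℝ ((ι ⊕ κ) × ι) := emb 1 with he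
  set δ : ℝ := ε / (2 * (‖e‖ + 1)) with hδ
  have hδ0 : 0 < δ := by positivity
  have h1 : x - δ • e ∈ C0 ι κ := by
    apply interior_subset
    apply hball
    rw [Metric.mem_ball, dist_eq_norm]
    have : x - δ • e - x = -(δ • e) := by abel
    rw [this, norm_neg, norm_smul, Real.norm_of_nonneg hδ0.le, hδ, div_mul_eq_mul_div,
      div_lt_iff₀ (by positivity)]
    nlinarith [norm_nonneg e]
  refine ⟨Sy_symm x, fun z hz h0 => ?_⟩
  have h2 := h1 z hz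
  have h3 : Sy (x - δ • e) = Sy x - δ • (1 : Matrix ι ι ℝ) := by
    rw [map_sub, map_smul, he, Sy_emb Matrix.transpose_one]
  have h4 : rmul (Sy x - δ • (1 : Matrix ι ι ℝ)) z = rmul (Sy x) z - δ • z := by
    rw [sub_eq_add_neg, rmul_add_left, ← neg_smul, rmul_smul_left, rmul_one, neg_smul,
      ← sub_eq_add_neg]
  rw [h3, h4, inner_sub_left, inner_smul_left] at h2
  simp only [conj_trivial] at h2
  have h5 : 0 < δ * inner ℝ z z := mul_pos hδ0 (real_inner_self_pos.mpr h0)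
  linarith

lemma continuous_Sy : Continuous (fun x : EuclideanSpace ℝ ((ι ⊕ κ) × ι) => Sy x) := by
  refine continuous_matrix fun i j => ?_
  simp only [Sy_apply]
  fun_prop

lemma isOpen_det : IsOpen {x : EuclideanSpace ℝ ((ι ⊕ κ) × ι) | (Sy x).det ≠ 0} :=
  isOpen_ne_fun continuous_Sy.matrix_det continuous_const

lemma null_det : (volume : Measure (EuclideanSpace ℝ ((ι ⊕ κ) × ι)))
    {x | (Sy x).det = 0} = 0 := by
  have hm : MeasurableSet {x : EuclideanSpace ℝ ((ι ⊕ κ) × ι) | (Sy x).det ≠ 0} :=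
    isOpen_det.measurableSet
  let L : ℝ →ₗ[ℝ] EuclideanSpace ℝ ((ι ⊕ κ) × ι) := LinearMap.toSpanSingleton ℝ _ (emb 1)
  have h := ae_mem_of_ae_add_linearMap_mem L volume
    (volume : Measure (EuclideanSpace ℝ ((ι ⊕ κ) × ι))) hm (by
      intro y
      have h1 : ∀ t : ℝ, (Sy (y + L t)).det = (-(Sy y)).charpoly.eval t := by
        intro t
        rw [Matrix.eval_charpoly, map_add]
        have h2 : Sy (L t) = t • (1 : Matrix ι ι ℝ) := by
          simp only [L, LinearMap.toSpanSingleton_apply, map_smul]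
          rw [Sy_emb Matrix.transpose_one]
        rw [h2, sub_neg_eq_add, add_comm, Matrix.scalar_apply, Matrix.smul_one_eq_diagonal]
      have hfin : {t : ℝ | (-(Sy y)).charpoly.IsRoot t}.Finite :=
        Polynomial.finite_setOfPred_isRoot (Matrix.charpoly_monic _).ne_zero
      rw [ae_iff]
      refine measure_mono_null ?_ (hfin.measure_zero volume)
      intro t ht
      simp only [mem_ofPred_eq, not_not, h1] at ht
      exact ht)
  rw [ae_iff] at h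
  simpa using h

/-- the good part of the cone -/
def Good (ι κ : Type*) [Fintype ι] [Fintype κ] [DecidableEq ι] :
    Set (EuclideanSpace ℝ ((ι ⊕ κ) × ι)) := {x | PD κ (Sy x) ∧ (Sy x).det ≠ 0}

lemma isOpen_Good : IsOpen (Good ι κ) := isOpen_PD.inter isOpen_det

lemma null_C0_diff_Good : (volume : Measure (EuclideanSpace ℝ ((ι ⊕ κ) × ι)))
    (C0 ι κ \ Good ι κ) = 0 := by
  refine measure_mono_null (t := (C0 ι κ \ {x | PD κ (Sy x)}) ∪ {x | (Sy x).det = 0}) ?_ ?_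
  · rintro x ⟨h1, h2⟩
    by_cases h3 : (Sy x).det = 0
    · exact Or.inr h3
    · exact Or.inl ⟨h1, fun h4 => h2 ⟨h4, h3⟩⟩
  · exact measure_union_null null_C0_diff null_det

lemma rmul_cancel {H : Matrix ι ι ℝ} (hH : H.det ≠ 0) {x y : EuclideanSpace ℝ ((ι ⊕ κ) × ι)}
    (h : rmul H x = rmul H y) : x = y := by
  have h1 := congrArg mt h
  rw [mt_rmul, mt_rmul] at h1
  have h2 := congrArg (fun A => A * H⁻¹) h1
  simp only [Matrix.mul_assoc] at h2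
  rw [Matrix.mul_nonsing_inv _ (isUnit_iff_ne_zero.mpr hH), Matrix.mul_one, Matrix.mul_one] at h2
  rw [← me_mt x, ← me_mt y, h2]

lemma coe_inv_mul_Eg {x y : EuclideanSpace ℝ ((ι ⊕ κ) × ι)} (h : Psi x = Psi y) :
    act (((Eg y)⁻¹ * Eg x : Matrix.orthogonalGroup (ι ⊕ κ) ℝ) : Matrix (ι ⊕ κ) (ι ⊕ κ) ℝ)
      (emb (Sy x) : EuclideanSpace ℝ ((ι ⊕ κ) × ι)) = emb (Sy y) := by
  have h1 : act (mt (Ex x)) (sl x) = act (mt (Ex y)) (sl y) := h
  rw [← coe_Eg, ← coe_Eg] at h1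
  rw [Submonoid.coe_mul, act_mul, emb_Sy, emb_Sy, h1, ← act_mul, ← Submonoid.coe_mul,
    inv_mul_cancel, Submonoid.coe_one, act_one]

lemma Psi_inj_aux {x y : EuclideanSpace ℝ ((ι ⊕ κ) × ι)} (hx : PD κ (Sy x)) (hy : PD κ (Sy y))
    (h : Psi x = Psi y) : Sy x = Sy y :=
  polar_unique hx hy ((RotG _).mul_mem ((RotG _).inv_mem (Eg_mem y)) (Eg_mem x)) (coe_inv_mul_Eg h)

lemma injOn_Psi {δ : ℝ} (hδ : ∀ x y : EuclideanSpace ℝ ((ι ⊕ κ) × ι), ‖mm x‖ < δ →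
    ‖mm y‖ < δ → act (mt (Ex x)) (emb 1) = act (mt (Ex y)) (emb 1) → mm x = mm y) :
    InjOn Psi (Good ι κ ∩ {x | ‖mm x‖ < δ}) := by
  rintro x ⟨hx, hxδ⟩ y ⟨hy, hyδ⟩ h
  have h1 : Sy x = Sy y := Psi_inj_aux hx.1 hy.1 h
  have h2 : act (mt (Ex x)) (emb (Sy x)) = act (mt (Ex y)) (emb (Sy y)) := h
  rw [h1, act_emb, act_emb (mt (Ex y))] at h2
  have h3 := rmul_cancel hy.2 h2
  have h4 := hδ x y hxδ hyδ h3
  rw [← sl_add_mm x, ← sl_add_mm y, h4, ← emb_Sy x, ← emb_Sy y, h1]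

lemma contDiff_Psi : ContDiff ℝ 1 (Psi : EuclideanSpace ℝ ((ι ⊕ κ) × ι) → _) := by
  have h2 : (fun y : EuclideanSpace ℝ ((ι ⊕ κ) × ι) => bil (Ex y)
      (LinearMap.toContinuousLinearMap sl y)) = Psi := rfl
  rw [← h2]
  have h3 : ContDiff ℝ 1 (Ex : EuclideanSpace ℝ ((ι ⊕ κ) × ι) → _) :=
    contDiff_Ex.of_le (by norm_num)
  exact ((bil (r := ι ⊕ κ) (ι := ι)).contDiff.comp h3).clm_apply
    (LinearMap.toContinuousLinearMap (sl : EuclideanSpace ℝ ((ι ⊕ κ) × ι) →ₗ[ℝ] _)).contDiff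

lemma RInv_Psi {α : Type*} {Φ : EuclideanSpace ℝ ((ι ⊕ κ) × ι) → α} (hΦ : RInv Φ)
    (x : EuclideanSpace ℝ ((ι ⊕ κ) × ι)) : Φ (Psi x) = Φ (sl x) := by
  change Φ (act (mt (Ex x)) (sl x)) = Φ (sl x)
  rw [← coe_Eg]
  exact hΦ _ (Eg_mem x) _

/-- change of variables in the chart -/
lemma cov_Psi {δ : ℝ} (hδ : ∀ x y : EuclideanSpace ℝ ((ι ⊕ κ) × ι), ‖mm x‖ < δ →
    ‖mm y‖ < δ → act (mt (Ex x)) (emb 1) = act (mt (Ex y)) (emb 1) → mm x = mm y)
    {Φ : EuclideanSpace ℝ ((ι ⊕ κ) × ι) → ℝ≥0∞} (hΦ : RInv Φ) :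
    ∫⁻ x in Psi '' (Good ι κ ∩ {x | ‖mm x‖ < δ}), Φ x =
      ∫⁻ x in Good ι κ ∩ {x | ‖mm x‖ < δ},
        ENNReal.ofReal (Jd κ (Sy x) * |(Tx x).det|) * Φ (sl x) := by
  have hm : MeasurableSet (Good ι κ ∩ {x | ‖mm x‖ < δ}) := by
    refine isOpen_Good.measurableSet.inter (measurableSet_lt ?_ measurable_const)
    exact ((LinearMap.continuous_of_finiteDimensional mm).norm).measurable
  rw [lintegral_image_eq_lintegral_abs_det_fderiv_mul volume hm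
    (fun x _ => (hasFDerivAt_Psi x).hasFDerivWithinAt) (injOn_Psi hδ)]
  refine lintegral_congr fun x => ?_
  rw [RInv_Psi hΦ]
  have := abs_det_DPsi x
  rw [DPsi] at this
  rw [this]

end Pool.Agent.Lib.MP_6d896a_gt.OM
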