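import Mathlib
import Pool.Agent.Lib.MP_6d896a_gt.OM.Null

/-!
The integration formula for rotation invariant functions of a matrix.
-/

set_option autoImplicit false
set_option linter.unusedSectionVars false

namespace Pool.Agent.Lib.MP_6d896a_gt.OM

open MeasureTheory ProbabilityTheory Matrix Set Filter
open scoped ENNReal Topology

variable {ι κ : Type*} [Fintype ι] [Fintype κ] [DecidableEq ι] [DecidableEq κ]

/-- action of the group of rotations -/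
noncomputable def gact {r ι : Type*} [Fintype r] [DecidableEq r] [Fintype ι] (g : RotG r)
    (x : EuclideanSpace ℝ (r × ι)) : EuclideanSpace ℝ (r × ι) :=
  act ((g : Matrix.orthogonalGroup r ℝ) : Matrix r r ℝ) x

section gact

variable {r ι : Type*} [Fintype r] [DecidableEq r] [Fintype ι]

lemma gact_def (g : RotG r) (x : EuclideanSpace ℝ (r × ι)) :
    gact g x = act ((g : Matrix.orthogonalGroup r ℝ) : Matrix r r ℝ) x := rfl

lemma gact_mul (g h : RotG r) (x : EuclideanSpace ℝ (r × ι)) :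
    gact (g * h) x = gact g (gact h x) := by
  rw [gact_def, gact_def, gact_def, ← act_mul, ← Submonoid.coe_mul, ← Subgroup.coe_mul]

@[simp] lemma gact_one (x : EuclideanSpace ℝ (r × ι)) : gact 1 x = x := by
  simp [gact_def]

lemma continuous_gact : Continuous fun p : RotG r × EuclideanSpace ℝ (r × ι) => gact p.1 p.2 :=
  continuous_actG

lemma measurable_gact : Measurable fun p : RotG r × EuclideanSpace ℝ (r × ι) => gact p.1 p.2 :=
  continuous_gact.measurable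

lemma continuous_gact_right (g : RotG r) :
    Continuous fun x : EuclideanSpace ℝ (r × ι) => gact g x :=
  continuous_gact.comp (continuous_const.prodMk continuous_id)

lemma continuous_gact_left (x : EuclideanSpace ℝ (r × ι)) :
    Continuous fun g : RotG r => gact g x :=
  continuous_gact.comp (continuous_id.prodMk continuous_const)

lemma map_gact_volume (g : RotG r) :
    (volume : Measure (EuclideanSpace ℝ (r × ι))).map (gact g) = volume :=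
  map_act_volume _

lemma RInv.gact {α : Type*} {h : EuclideanSpace ℝ (r × ι) → α} (hh : RInv h) (g : RotG r)
    (x : EuclideanSpace ℝ (r × ι)) : h (gact g x) = h x := hh _ g.2 x

end gact

lemma Psi_emb_one : Psi (emb 1 : EuclideanSpace ℝ ((ι ⊕ κ) × ι)) = emb 1 := by
  have h0 : mm (emb 1 : EuclideanSpace ℝ ((ι ⊕ κ) × ι)) = 0 := by
    rw [← sl_emb Matrix.transpose_one, mm_sl]
  have h1 : hat (0 : EuclideanSpace ℝ ((ι ⊕ κ) × ι)) = 0 := by
    have := hat_smul (ι := ι) (κ := κ) 0 0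
    simpa using this
  rw [Psi, mt_Ex, h0, h1, NormedSpace.exp_zero, act_one, sl_emb Matrix.transpose_one]

lemma DPsi_emb_one : DPsi (emb 1 : EuclideanSpace ℝ ((ι ⊕ κ) × ι)) =
    ContinuousLinearMap.id ℝ _ := by
  have h0 : mm (emb 1 : EuclideanSpace ℝ ((ι ⊕ κ) × ι)) = 0 := by
    rw [← sl_emb Matrix.transpose_one, mm_sl]
  have h1 : hat (0 : EuclideanSpace ℝ ((ι ⊕ κ) × ι)) = 0 := by
    have := hat_smul (ι := ι) (κ := κ) 0 0
    simpa using this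
  ext1 y
  change act (mt (Ex (emb 1 : EuclideanSpace ℝ ((ι ⊕ κ) × ι))))
    (Nx (Sy (emb 1 : EuclideanSpace ℝ ((ι ⊕ κ) × ι))) (Tx (emb 1) y)) = y
  rw [mt_Ex, h0, h1, NormedSpace.exp_zero, act_one, Sy_emb Matrix.transpose_one, ← Tx_mm, h0,
    Tx_zero, Nx_apply, ContinuousLinearMap.id_apply, rmul_one, add_comm, sl_add_mm]

lemma map_Psi_nhds : Filter.map Psi (𝓝 (emb 1 : EuclideanSpace ℝ ((ι ⊕ κ) × ι))) = 𝓝 (emb 1) := by
  have h1 : HasStrictFDerivAt (Psi : EuclideanSpace ℝ ((ι ⊕ κ) × ι) → _)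
      ((ContinuousLinearEquiv.refl ℝ (EuclideanSpace ℝ ((ι ⊕ κ) × ι)) :
        EuclideanSpace ℝ ((ι ⊕ κ) × ι) ≃L[ℝ] _) :
        EuclideanSpace ℝ ((ι ⊕ κ) × ι) →L[ℝ] _) (emb 1) := by
    have h2 := contDiff_Psi (ι := ι) (κ := κ) |>.contDiffAt (x := emb 1) |>.hasStrictFDerivAt'
      (hasFDerivAt_Psi (emb 1)) (by norm_num)
    have h3 := DPsi_emb_one (ι := ι) (κ := κ)
    rw [DPsi] at h3
    rw [h3] at h2
    exact h2
  have h4 := h1.map_nhds_eq_of_equiv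
  rwa [Psi_emb_one] at h4

/-- rotations near the identity are in the chart -/
lemma eventually_chart {δ : ℝ} (hδ : 0 < δ) : ∀ᶠ h : RotG (ι ⊕ κ) in 𝓝 1,
    ∃ x : EuclideanSpace ℝ ((ι ⊕ κ) × ι), ‖mm x‖ < δ ∧
      act ((h : Matrix.orthogonalGroup (ι ⊕ κ) ℝ) : Matrix (ι ⊕ κ) (ι ⊕ κ) ℝ) (emb 1) =
        act (mt (Ex x)) (emb 1) := by
  have h0 : mm (emb 1 : EuclideanSpace ℝ ((ι ⊕ κ) × ι)) = 0 := by
    rw [← sl_emb Matrix.transpose_one, mm_sl]
  have hV : {x : EuclideanSpace ℝ ((ι ⊕ κ) × ι) | ‖mm x‖ < δ ∧ PD κ (Sy x)} ∈ 𝓝 (emb 1) := by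
    refine IsOpen.mem_nhds ?_ ⟨by rw [h0]; simpa using hδ, by
      rw [Sy_emb Matrix.transpose_one]; exact PD_one⟩
    exact (isOpen_lt (LinearMap.continuous_of_finiteDimensional mm).norm continuous_const).inter
      isOpen_PD
  have hW : Psi '' {x : EuclideanSpace ℝ ((ι ⊕ κ) × ι) | ‖mm x‖ < δ ∧ PD κ (Sy x)} ∈
      𝓝 (emb 1 : EuclideanSpace ℝ ((ι ⊕ κ) × ι)) := by
    rw [← map_Psi_nhds]
    exact image_mem_map hV
  have hcont : Continuous fun h : RotG (ι ⊕ κ) =>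
      act ((h : Matrix.orthogonalGroup (ι ⊕ κ) ℝ) : Matrix (ι ⊕ κ) (ι ⊕ κ) ℝ)
        (emb 1 : EuclideanSpace ℝ ((ι ⊕ κ) × ι)) :=
    continuous_actG.comp (continuous_id.prodMk continuous_const)
  have h1 : act (((1 : RotG (ι ⊕ κ)) : Matrix.orthogonalGroup (ι ⊕ κ) ℝ) :
      Matrix (ι ⊕ κ) (ι ⊕ κ) ℝ) (emb 1 : EuclideanSpace ℝ ((ι ⊕ κ) × ι)) = emb 1 := by
    simp
  have h2 := hcont.continuousAt (x := (1 : RotG (ι ⊕ κ)))
  rw [ContinuousAt, h1] at h2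
  filter_upwards [h2 hW] with h hh
  obtain ⟨x, ⟨hx1, hx2⟩, hx3⟩ := hh
  replace hx3 : Psi x = act ((h : Matrix.orthogonalGroup (ι ⊕ κ) ℝ) :
    Matrix (ι ⊕ κ) (ι ⊕ κ) ℝ) (emb 1) := hx3
  refine ⟨x, hx1, ?_⟩
  have h4 : act (((Eg x)⁻¹ * (h : Matrix.orthogonalGroup (ι ⊕ κ) ℝ) :
      Matrix.orthogonalGroup (ι ⊕ κ) ℝ) : Matrix (ι ⊕ κ) (ι ⊕ κ) ℝ)
      (emb 1 : EuclideanSpace ℝ ((ι ⊕ κ) × ι)) = emb (Sy x) := by
    rw [Submonoid.coe_mul, act_mul, ← hx3, Psi, ← coe_Eg, ← act_mul, ← Submonoid.coe_mul,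
      inv_mul_cancel, Submonoid.coe_one, act_one, emb_Sy]
  have h5 : (1 : Matrix ι ι ℝ) = Sy x :=
    polar_unique PD_one hx2 ((RotG _).mul_mem ((RotG _).inv_mem (Eg_mem x)) h.2) h4
  rw [← hx3, Psi, ← emb_Sy, ← h5]

/-- almost every matrix is in the orbit of a good symmetric matrix -/
lemma ae_polar : ∀ᵐ A : EuclideanSpace ℝ ((ι ⊕ κ) × ι), ∃ u : RotG (ι ⊕ κ),
    ∃ y ∈ Good ι κ, A = act ((u : Matrix.orthogonalGroup (ι ⊕ κ) ℝ) : Matrix (ι ⊕ κ) (ι ⊕ κ) ℝ)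
      (sl y) := by
  obtain ⟨Q, hQc, hQd⟩ := TopologicalSpace.exists_countable_dense (RotG (ι ⊕ κ))
  have hnull : (volume : Measure (EuclideanSpace ℝ ((ι ⊕ κ) × ι)))
      (⋃ g ∈ Q, (act ((g : Matrix.orthogonalGroup (ι ⊕ κ) ℝ) : Matrix (ι ⊕ κ) (ι ⊕ κ) ℝ) :
        EuclideanSpace ℝ ((ι ⊕ κ) × ι) →ₗ[ℝ] _) '' (Psi '' (C0 ι κ \ Good ι κ))) = 0 := by
    rw [measure_biUnion_null_iff hQc]
    intro g _
    refine addHaar_image_eq_zero_of_differentiableOn_of_addHaar_eq_zero volume ?_ ?_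
    · exact ((LinearMap.toContinuousLinearMap (act ((g : Matrix.orthogonalGroup (ι ⊕ κ) ℝ) :
        Matrix (ι ⊕ κ) (ι ⊕ κ) ℝ) : EuclideanSpace ℝ ((ι ⊕ κ) × ι) →ₗ[ℝ] _)).differentiable
        ).differentiableOn
    · refine addHaar_image_eq_zero_of_differentiableOn_of_addHaar_eq_zero volume ?_
        null_C0_diff_Good
      exact (contDiff_Psi.differentiable (by norm_num)).differentiableOn
  rw [ae_iff]
  refine measure_mono_null ?_ hnull
  intro A hA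
  simp only [mem_ofPred_eq, not_exists, not_and] at hA
  obtain ⟨u, hu, H, hHs, hAH, hpos⟩ := polar_exists A
  have hA1 : A = act ((u⁻¹ : Matrix.orthogonalGroup (ι ⊕ κ) ℝ) : Matrix (ι ⊕ κ) (ι ⊕ κ) ℝ)
      (emb H) := by
    rw [← hAH, ← act_mul, ← Submonoid.coe_mul, inv_mul_cancel, Submonoid.coe_one, act_one]
  have hy : (emb H : EuclideanSpace ℝ ((ι ⊕ κ) × ι)) ∉ Good ι κ := by
    intro hg
    refine hA ⟨u⁻¹, (RotG _).inv_mem hu⟩ _ hg ?_
    rw [sl_emb hHs]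
    exact hA1
  have hev := eventually_chart (ι := ι) (κ := κ) one_pos
  obtain ⟨W, hWsub, hWo, hW1⟩ := mem_nhds_iff.mp hev
  set v : RotG (ι ⊕ κ) := ⟨u⁻¹, (RotG _).inv_mem hu⟩ with hv
  have hopen : IsOpen {g : RotG (ι ⊕ κ) | g⁻¹ * v ∈ W} :=
    hWo.preimage (by fun_prop)
  obtain ⟨g, hgQ, hgW⟩ := hQd.exists_mem_open hopen ⟨v, by simpa using hW1⟩
  obtain ⟨x, _, hx⟩ := hWsub hgW
  simp only [mem_iUnion]
  refine ⟨g, hgQ, Psi (mm x + emb H), ⟨mm x + emb H, ?_, rfl⟩, ?_⟩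
  · have hS : Sy (mm x + emb H) = H := by
      rw [map_add, Sy_emb hHs]
      have : Sy (mm x) = 0 := by
        rw [← Sy_sl, sl_mm, map_zero]
      rw [this, zero_add]
    constructor
    · intro z hz
      rw [hS]
      exact hpos z hz
    · intro hg
      apply hy
      have : Good ι κ = {x | PD κ (Sy x) ∧ (Sy x).det ≠ 0} := rfl
      rw [this] at hg ⊢
      simp only [mem_ofPred_eq, hS, Sy_emb hHs] at hg ⊢
      exact hg
  · have h1 : Psi (mm x + emb H) = act (mt (Ex x)) (emb H) := by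
      have e1 : mm (mm x + emb H) = mm x := by
        rw [map_add, mm_mm, ← sl_emb hHs, mm_sl, add_zero]
      have e2 : sl (mm x + emb H) = emb H := by
        rw [map_add, sl_mm, zero_add, sl_emb hHs]
      rw [Psi, e2, ← Ex_mm, e1, Ex_mm]
    rw [h1, act_emb, ← hx, ← act_emb, ← act_mul, hA1]
    have h2 : ((g : Matrix.orthogonalGroup (ι ⊕ κ) ℝ) : Matrix (ι ⊕ κ) (ι ⊕ κ) ℝ) *
        (((g⁻¹ * v : RotG (ι ⊕ κ)) : Matrix.orthogonalGroup (ι ⊕ κ) ℝ) :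
          Matrix (ι ⊕ κ) (ι ⊕ κ) ℝ) =
        ((u⁻¹ : Matrix.orthogonalGroup (ι ⊕ κ) ℝ) : Matrix (ι ⊕ κ) (ι ⊕ κ) ℝ) := by
      rw [← Submonoid.coe_mul, ← Subgroup.coe_mul, mul_inv_cancel_left]
    rw [h2]

/-- the part of the group seen by the chart -/
def Us (ι κ : Type*) [Fintype ι] [Fintype κ] [DecidableEq ι] [DecidableEq κ] (δ : ℝ) :
    Set (RotG (ι ⊕ κ)) :=
  {g | ∃ x : EuclideanSpace ℝ ((ι ⊕ κ) × ι), ‖mm x‖ < δ ∧ gact g⁻¹ (emb 1) = act (mt (Ex x)) (emb 1)}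

lemma Us_nhds {δ : ℝ} (hδ : 0 < δ) : Us ι κ δ ∈ 𝓝 (1 : RotG (ι ⊕ κ)) := by
  have h1 := eventually_chart (ι := ι) (κ := κ) hδ
  have h2 : Tendsto (fun g : RotG (ι ⊕ κ) => g⁻¹) (𝓝 1) (𝓝 1) := by
    have := (continuous_inv (G := RotG (ι ⊕ κ))).tendsto 1
    rwa [inv_one] at this
  exact h2.eventually h1

lemma mem_chart_iff {δ : ℝ} {y : EuclideanSpace ℝ ((ι ⊕ κ) × ι)} (hy : y ∈ Good ι κ)
    (g : RotG (ι ⊕ κ)) :
    gact g⁻¹ (sl y) ∈ Psi '' (Good ι κ ∩ {x | ‖mm x‖ < δ}) ↔ g ∈ Us ι κ δ := by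
  constructor
  · rintro ⟨x, ⟨hxG, hxδ⟩, hx⟩
    refine ⟨x, hxδ, ?_⟩
    have h4 : act (((Eg x)⁻¹ * ((g⁻¹ : RotG (ι ⊕ κ)) : Matrix.orthogonalGroup (ι ⊕ κ) ℝ) :
        Matrix.orthogonalGroup (ι ⊕ κ) ℝ) : Matrix (ι ⊕ κ) (ι ⊕ κ) ℝ)
        (emb (Sy y) : EuclideanSpace ℝ ((ι ⊕ κ) × ι)) = emb (Sy x) := by
      rw [emb_Sy, Submonoid.coe_mul, act_mul, ← gact_def, ← hx, Psi, ← coe_Eg, ← act_mul,
        ← Submonoid.coe_mul, inv_mul_cancel, Submonoid.coe_one, act_one, emb_Sy]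
    have h5 : Sy y = Sy x :=
      polar_unique hy.1 hxG.1 ((RotG _).mul_mem ((RotG _).inv_mem (Eg_mem x)) (g⁻¹).2) h4
    have h6 : act (mt (Ex x)) (emb (Sy x)) = gact g⁻¹ (emb (Sy x)) := by
      have e := hx
      rw [Psi, ← emb_Sy x, ← emb_Sy y, h5] at e
      exact e
    rw [gact_def, act_emb, act_emb (((g⁻¹ : RotG (ι ⊕ κ)) : Matrix.orthogonalGroup (ι ⊕ κ) ℝ) :
      Matrix (ι ⊕ κ) (ι ⊕ κ) ℝ)] at h6
    exact (rmul_cancel hxG.2 h6).symm
  · rintro ⟨x, hxδ, hx⟩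
    have e1 : mm (mm x + sl y) = mm x := by rw [map_add, mm_mm, mm_sl, add_zero]
    have e2 : sl (mm x + sl y) = sl y := by rw [map_add, sl_mm, zero_add, sl_sl]
    have hS : Sy (mm x + sl y) = Sy y := by rw [← Sy_sl, e2, Sy_sl]
    refine ⟨mm x + sl y, ⟨?_, ?_⟩, ?_⟩
    · have : Good ι κ = {x | PD κ (Sy x) ∧ (Sy x).det ≠ 0} := rfl
      rw [this] at hy ⊢
      simp only [mem_ofPred_eq, hS] at hy ⊢
      exact hy
    · simp only [mem_ofPred_eq, e1]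
      exact hxδ
    · rw [Psi, e2, ← Ex_mm, e1, Ex_mm, ← emb_Sy, act_emb, ← hx, gact_def, gact_def, ← act_emb]

lemma ae_const_chart (δ : ℝ) : ∀ᵐ A : EuclideanSpace ℝ ((ι ⊕ κ) × ι),
    haarG (ι ⊕ κ) {g | gact g⁻¹ A ∈ Psi '' (Good ι κ ∩ {x | ‖mm x‖ < δ})} =
      haarG (ι ⊕ κ) (Us ι κ δ) := by
  filter_upwards [ae_polar (ι := ι) (κ := κ)] with A hA
  obtain ⟨u, y, hy, hA⟩ := hA
  rw [← gact_def] at hA
  have h1 : {g : RotG (ι ⊕ κ) | gact g⁻¹ A ∈ Psi '' (Good ι κ ∩ {x | ‖mm x‖ < δ})} =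
      (fun g => u⁻¹ * g) ⁻¹' (Us ι κ δ) := by
    ext g
    have h2 : gact g⁻¹ A = gact (u⁻¹ * g)⁻¹ (sl y) := by
      rw [hA, ← gact_mul, _root_.mul_inv_rev, inv_inv]
    simp only [mem_ofPred_eq, mem_preimage, h2]
    exact mem_chart_iff hy _
  rw [h1, measure_preimage_mul]

lemma measurableSet_chart {δ : ℝ} (hδ : ∀ x y : EuclideanSpace ℝ ((ι ⊕ κ) × ι), ‖mm x‖ < δ →
    ‖mm y‖ < δ → act (mt (Ex x)) (emb 1) = act (mt (Ex y)) (emb 1) → mm x = mm y) :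
    MeasurableSet (Psi '' (Good ι κ ∩ {x | ‖mm x‖ < δ})) := by
  have hm : MeasurableSet (Good ι κ ∩ {x | ‖mm x‖ < δ}) := by
    refine isOpen_Good.measurableSet.inter (measurableSet_lt ?_ measurable_const)
    exact ((LinearMap.continuous_of_finiteDimensional mm).norm).measurable
  exact hm.image_of_continuousOn_injOn contDiff_Psi.continuous.continuousOn (injOn_Psi hδ)

section average

variable {r ι : Type*} [Fintype r] [DecidableEq r] [Fintype ι]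

/-- averaging over the group -/
lemma average {T : Set (EuclideanSpace ℝ (r × ι))} (hT : MeasurableSet T) {c : ℝ≥0∞}
    (hc : ∀ᵐ A : EuclideanSpace ℝ (r × ι), haarG r {g | gact g⁻¹ A ∈ T} = c)
    {Φ : EuclideanSpace ℝ (r × ι) → ℝ≥0∞} (hΦm : Measurable Φ) (hΦ : RInv Φ) :
    ∫⁻ x in T, Φ x = c * ∫⁻ x, Φ x := by
  set χ : EuclideanSpace ℝ (r × ι) → ℝ≥0∞ := T.indicator 1 with hχ
  have hχm : Measurable χ := measurable_one.indicator hT
  have hjm : Measurable fun p : RotG r × EuclideanSpace ℝ (r × ι) => gact p.1⁻¹ p.2 := by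
    have : Continuous fun p : RotG r × EuclideanSpace ℝ (r × ι) => gact p.1⁻¹ p.2 :=
      continuous_gact.comp ((continuous_inv.comp continuous_fst).prodMk continuous_snd)
    exact this.measurable
  have hind : ∀ B, T.indicator Φ B = χ B * Φ B := by
    intro B
    by_cases hB : B ∈ T <;> simp [hχ, hB]
  have h1 : ∀ g : RotG r, ∫⁻ x in T, Φ x = ∫⁻ A, χ (gact g⁻¹ A) * Φ A := by
    intro g
    rw [← lintegral_indicator hT]
    conv_lhs => rw [← map_gact_volume (ι := ι) (g⁻¹ : RotG r)]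
    rw [lintegral_map (hΦm.indicator hT) (continuous_gact_right _).measurable]
    refine lintegral_congr fun A => ?_
    rw [hind, hΦ.gact]
  have h3 : ∀ A, ∫⁻ g : RotG r, χ (gact g⁻¹ A) * Φ A ∂(haarG r) =
      haarG r {g | gact g⁻¹ A ∈ T} * Φ A := by
    intro A
    have hcA : Continuous fun g : RotG r => gact g⁻¹ A :=
      (continuous_gact_left A).comp continuous_inv
    have hm : MeasurableSet {g : RotG r | gact g⁻¹ A ∈ T} := hcA.measurable hT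
    have e2 : (fun g : RotG r => χ (gact g⁻¹ A) * Φ A) =
        fun g => {g : RotG r | gact g⁻¹ A ∈ T}.indicator 1 g * Φ A := by
      funext g
      simp only [hχ, indicator, mem_ofPred_eq, Pi.one_apply]
    rw [e2, lintegral_mul_const _ (measurable_one.indicator hm), lintegral_indicator_one hm]
  calc ∫⁻ x in T, Φ x = ∫⁻ _g : RotG r, (∫⁻ x in T, Φ x) ∂(haarG r) := by
        rw [lintegral_const, measure_univ, mul_one]
    _ = ∫⁻ g : RotG r, (∫⁻ A, χ (gact g⁻¹ A) * Φ A) ∂(haarG r) := lintegral_congr h1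
    _ = ∫⁻ A, (∫⁻ g : RotG r, χ (gact g⁻¹ A) * Φ A ∂(haarG r)) := by
        apply lintegral_lintegral_swap
        exact ((hχm.comp hjm).mul (hΦm.comp measurable_snd)).aemeasurable
    _ = ∫⁻ A, haarG r {g | gact g⁻¹ A ∈ T} * Φ A := lintegral_congr h3
    _ = ∫⁻ A, c * Φ A := by
        apply lintegral_congr_ae
        filter_upwards [hc] with A hA
        rw [hA]
    _ = c * ∫⁻ x, Φ x := lintegral_const_mul _ hΦm

end average

end Pool.Agent.Lib.MP_6d896a_gt.OM
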