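import Mathlib
import Pool.Agent.Lib.MP_6d896a_gt.OM.Haar

/-!
Average of a Lipschitz function over the group of rotations (MP_6d896a_gt, request 92).
-/

set_option autoImplicit false
set_option linter.unusedSectionVars false

namespace Pool.Agent.Lib.MP_6d896a_gt.OM

open MeasureTheory ProbabilityTheory Matrix Set Filter
open scoped ENNReal Topology

section avg

variable {r ι : Type} [Fintype r] [Fintype ι] [DecidableEq r]

lemma continuous_gact_inv : Continuous fun p : RotG r × EuclideanSpace ℝ (r × ι) =>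
    gact p.1⁻¹ p.2 :=
  continuous_gact.comp ((continuous_inv.comp continuous_fst).prodMk continuous_snd)

lemma gact_sub (u : RotG r) (x y : EuclideanSpace ℝ (r × ι)) :
    gact u x - gact u y = gact u (x - y) := by
  simp only [gact_def, map_sub]

lemma norm_gact (u : RotG r) (x : EuclideanSpace ℝ (r × ι)) : ‖gact u x‖ = ‖x‖ := by
  rw [gact_def, norm_act]

/-- averages over the group of rotations -/
noncomputable def avg (f : EuclideanSpace ℝ (r × ι) → ℝ) (x : EuclideanSpace ℝ (r × ι)) : ℝ :=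
  ∫ u : RotG r, f (gact u⁻¹ x) ∂(haarG r)

lemma integrable_avg {f : EuclideanSpace ℝ (r × ι) → ℝ} (hf : Continuous f)
    (x : EuclideanSpace ℝ (r × ι)) :
    Integrable (fun u : RotG r => f (gact u⁻¹ x)) (haarG r) := by
  have h0 : Continuous fun u : RotG r => gact u⁻¹ x :=
    (continuous_gact_left x).comp continuous_inv
  have hc : Continuous fun u : RotG r => f (gact u⁻¹ x) := hf.comp h0
  obtain ⟨C, hC⟩ := (isCompact_univ (X := RotG r)).exists_bound_of_continuousOn hc.continuousOn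
  exact Integrable.of_bound hc.aestronglyMeasurable C (Eventually.of_forall fun u =>
    hC u (Set.mem_univ u))

lemma avg_lip {f : EuclideanSpace ℝ (r × ι) → ℝ} (hf : Continuous f)
    (hL : ∀ x y, |f x - f y| ≤ ‖x - y‖) (x y : EuclideanSpace ℝ (r × ι)) :
    |avg f x - avg f y| ≤ ‖x - y‖ := by
  rw [avg, avg, ← integral_sub (integrable_avg hf x) (integrable_avg hf y)]
  have h1 := norm_integral_le_of_norm_le_const (μ := haarG r) (C := ‖x - y‖)
    (f := fun u : RotG r => f (gact u⁻¹ x) - f (gact u⁻¹ y)) (Eventually.of_forall fun u => by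
      rw [Real.norm_eq_abs]
      refine (hL _ _).trans ?_
      rw [gact_sub, norm_gact])
  simpa using h1

lemma avg_RInv (f : EuclideanSpace ℝ (r × ι) → ℝ) : RInv (avg f) := by
  intro v hv x
  have h1 := integral_mul_left_eq_self (μ := haarG r) (fun u : RotG r => f (gact u⁻¹ x))
    (⟨v, hv⟩ : RotG r)⁻¹
  rw [avg, avg, ← h1]
  refine integral_congr_ae (Eventually.of_forall fun u => ?_)
  change f (gact u⁻¹ (gact ⟨v, hv⟩ x)) = f (gact ((⟨v, hv⟩ : RotG r)⁻¹ * u)⁻¹ x)
  rw [← gact_mul, _root_.mul_inv_rev, inv_inv]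

/-- S-H: average over the group -/
theorem haar_avg {f : EuclideanSpace ℝ (r × ι) → ℝ} (hf : ContDiff ℝ 1 f)
    (hf1 : ∀ x, ‖fderiv ℝ f x‖ ≤ 1) :
    ∃ g : EuclideanSpace ℝ (r × ι) → ℝ, Continuous g ∧ RInv g ∧
      (∀ x y, |g x - g y| ≤ ‖x - y‖) ∧
      ∀ (μ : Measure (EuclideanSpace ℝ (r × ι))), IsProbabilityMeasure μ → MInv μ →
        (∃ R : ℝ, ∀ᵐ x ∂μ, ‖x‖ ≤ R) → ∀ h : EuclideanSpace ℝ (r × ι) → ℝ, Continuous h → RInv h →
        ∫ x, (f x - g x) * h x ∂μ = 0 := by
  have hfc : Continuous f := hf.continuous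
  have hL : ∀ x y, |f x - f y| ≤ ‖x - y‖ := by
    intro x y
    have h := Convex.norm_image_sub_le_of_norm_fderiv_le (𝕜 := ℝ) (f := f) (s := Set.univ) (C := 1)
      (fun z _ => (hf.differentiable (by norm_num)).differentiableAt) (fun z _ => hf1 z)
      convex_univ (Set.mem_univ y) (Set.mem_univ x)
    simpa using h
  have hgL := avg_lip hfc hL
  have hgc : Continuous (avg f) := by
    have : LipschitzWith 1 (avg f) := LipschitzWith.of_dist_le_mul fun x y => by
      rw [Real.dist_eq, dist_eq_norm]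
      simpa using hgL x y
    exact this.continuous
  refine ⟨avg f, hgc, avg_RInv f, hgL, ?_⟩
  rintro μ hμ hinv ⟨R, hR⟩ h hhc hhR
  -- bounds
  have hR0 : ∀ᵐ x ∂μ, x ∈ Metric.closedBall (0 : EuclideanSpace ℝ (r × ι)) R := by
    filter_upwards [hR] with x hx
    simpa using hx
  obtain ⟨B, hB⟩ : ∃ B : ℝ, ∀ x ∈ Metric.closedBall (0 : EuclideanSpace ℝ (r × ι)) R,
      ‖h x‖ ≤ B :=
    (isCompact_closedBall _ _).exists_bound_of_continuousOn hhc.continuousOn
  obtain ⟨A, hA⟩ : ∃ A : ℝ, ∀ x ∈ Metric.closedBall (0 : EuclideanSpace ℝ (r × ι)) R,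
      ‖f x‖ ≤ A :=
    (isCompact_closedBall _ _).exists_bound_of_continuousOn hfc.continuousOn
  have hFc : Continuous fun p : RotG r × EuclideanSpace ℝ (r × ι) =>
      f (gact p.1⁻¹ p.2) * h p.2 :=
    (hfc.comp continuous_gact_inv).mul (hhc.comp continuous_snd)
  have hint : Integrable (fun p : RotG r × EuclideanSpace ℝ (r × ι) =>
      f (gact p.1⁻¹ p.2) * h p.2) ((haarG r).prod μ) := by
    refine Integrable.of_bound hFc.aestronglyMeasurable (A * B) ?_
    have hprod : ∀ᵐ p : RotG r × EuclideanSpace ℝ (r × ι) ∂((haarG r).prod μ),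
        p.2 ∈ Metric.closedBall (0 : EuclideanSpace ℝ (r × ι)) R :=
      Measure.quasiMeasurePreserving_snd.ae hR0
    filter_upwards [hprod] with p hp
    rw [norm_mul]
    have h1 : ‖f (gact p.1⁻¹ p.2)‖ ≤ A := by
      apply hA
      rw [mem_closedBall_zero_iff, norm_gact]
      simpa using hp
    exact mul_le_mul h1 (hB _ hp) (norm_nonneg _) ((norm_nonneg _).trans h1)
  have hfh : Integrable (fun x => f x * h x) μ := by
    refine Integrable.of_bound (hfc.mul hhc).aestronglyMeasurable (A * B) ?_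
    filter_upwards [hR0] with x hx
    rw [norm_mul]
    exact mul_le_mul (hA _ hx) (hB _ hx) (norm_nonneg _) ((norm_nonneg _).trans (hA _ hx))
  have hgh : Integrable (fun x => avg f x * h x) μ := by
    obtain ⟨A', hA'⟩ : ∃ A : ℝ, ∀ x ∈ Metric.closedBall (0 : EuclideanSpace ℝ (r × ι)) R,
        ‖avg f x‖ ≤ A :=
      (isCompact_closedBall _ _).exists_bound_of_continuousOn hgc.continuousOn
    refine Integrable.of_bound (hgc.mul hhc).aestronglyMeasurable (A' * B) ?_
    filter_upwards [hR0] with x hx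
    rw [norm_mul]
    exact mul_le_mul (hA' _ hx) (hB _ hx) (norm_nonneg _) ((norm_nonneg _).trans (hA' _ hx))
  -- invariance
  have hu : ∀ u : RotG r, ∫ x, f (gact u⁻¹ x) * h x ∂μ = ∫ x, f x * h x ∂μ := by
    intro u
    have h1 : μ.map (gact u⁻¹) = μ := hinv _ (u⁻¹).2
    conv_rhs => rw [← h1]
    rw [integral_map (continuous_gact_right _).measurable.aemeasurable]
    · refine integral_congr_ae (Eventually.of_forall fun x => ?_)
      simp only [hhR.gact]
    · exact (hfc.mul hhc).aestronglyMeasurable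
  have hswap : ∫ u : RotG r, (∫ x, f (gact u⁻¹ x) * h x ∂μ) ∂(haarG r) =
      ∫ x, (∫ u : RotG r, f (gact u⁻¹ x) * h x ∂(haarG r)) ∂μ :=
    integral_integral_swap hint
  have h2 : ∫ u : RotG r, (∫ x, f (gact u⁻¹ x) * h x ∂μ) ∂(haarG r) = ∫ x, f x * h x ∂μ := by
    simp only [hu]
    simp
  have h3 : ∫ x, (∫ u : RotG r, f (gact u⁻¹ x) * h x ∂(haarG r)) ∂μ = ∫ x, avg f x * h x ∂μ := by
    refine integral_congr_ae (Eventually.of_forall fun x => ?_)
    simp only [avg]
    rw [integral_mul_const]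
  have h4 : ∀ x, (f x - avg f x) * h x = f x * h x - avg f x * h x := fun x => by ring
  simp only [h4]
  rw [integral_sub hfh hgh, ← h2, hswap, h3, sub_self]

end avg

end Pool.Agent.Lib.MP_6d896a_gt.OM
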