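import Mathlib
import Pool.Agent.Lib.MP_6d896a_gt.OM.Defs

/-!
From the variance of a Lipschitz function on a large set to the variance under the whole isotropic
log-concave measure.
-/

set_option autoImplicit false
set_option linter.unusedSectionVars false

namespace Pool.Agent.Lib.MP_6d896a_gt.OM

open MeasureTheory ProbabilityTheory Matrix Set Filter
open Pool.Agent.Lib.MP_6d896a_gt.FP
open scoped ENNReal Topology

section

variable {E : Type*} [NormedAddCommGroup E] [NormedSpace ℝ E] [MeasurableSpace E] [BorelSpace E]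

lemma memLp_of_var_ne {μ : Measure E} [IsProbabilityMeasure μ] (L : E →L[ℝ] ℝ)
    (h : Var[fun x => L x; μ] ≠ 0) : MemLp (fun x => L x) 2 μ := by
  by_contra hn
  apply h
  rw [variance, evariance_eq_top L.continuous.aestronglyMeasurable hn, ENNReal.toReal_top]

lemma pow_four_le_exp {t : ℝ} (ht : 0 ≤ t) : t ^ 4 ≤ 24 * Real.exp t := by
  have := Real.pow_div_factorial_le_exp t ht 4
  have h4 : ((Nat.factorial 4 : ℕ) : ℝ) = 24 := by norm_num [Nat.factorial]
  rw [h4, div_le_iff₀ (by norm_num)] at this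
  linarith

lemma fourth_moment {μ : Measure E} [IsProbabilityMeasure μ] (h : PLm μ) (L : E →L[ℝ] ℝ)
    (hv : Var[fun x => L x; μ] = 1) :
    Integrable (fun x => (L x - ∫ y, L y ∂μ) ^ 4) μ ∧
      ∫ x, (L x - ∫ y, L y ∂μ) ^ 4 ∂μ ≤ 393216 := by
  set m := ∫ y, L y ∂μ with hm
  have hL2 : MemLp (fun x => L x) 2 μ := memLp_of_var_ne L (by rw [hv]; norm_num)
  have hmeas : Measurable (fun x => L x - m) := (L.continuous.measurable).sub_const m
  have hch : μ.real {x | 2 ≤ |L x - m|} ≤ 1 / 4 := by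
    have h3 := meas_ge_le_variance_div_sq (μ := μ) hL2 (c := 2) (by norm_num)
    have h4 := ENNReal.toReal_mono ENNReal.ofReal_ne_top h3
    rw [ENNReal.toReal_ofReal (by rw [hv]; norm_num), hv] at h4
    refine h4.trans (by norm_num)
  have hms : MeasurableSet {x | 2 ≤ |L x - m|} := measurableSet_le measurable_const hmeas.abs
  have h5 : 3 / 4 ≤ μ.real {x | |L x - m| ≤ 2} := by
    have h6 : μ.real {x | 2 ≤ |L x - m|}ᶜ ≤ μ.real {x | |L x - m| ≤ 2} := by
      refine measureReal_mono ?_ (measure_ne_top _ _)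
      intro x hx
      simp only [mem_compl_iff, mem_ofPred_eq, not_le] at hx ⊢
      exact hx.le
    rw [probReal_compl_eq_one_sub hms] at h6
    linarith
  have h1 := h.exp_moment (ξ := fun x => L x - m) hmeas (by
    intro x y l
    simp only [map_add, map_smul, smul_eq_mul]
    ring) (r := 2) (by norm_num) h5
  have hpt : ∀ x, (L x - m) ^ 4 ≤ 98304 * Real.exp (|L x - m| / (4 * 2)) := by
    intro x
    have h2 := pow_four_le_exp (t := |L x - m| / (4 * 2)) (by positivity)
    have h3 : |L x - m| ^ 4 = (L x - m) ^ 4 := by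
      rw [show (4 : ℕ) = 2 * 2 from rfl, pow_mul, pow_mul, sq_abs]
    rw [div_pow, h3, div_le_iff₀ (by positivity)] at h2
    nlinarith [Real.exp_pos (|L x - m| / (4 * 2))]
  have h40 : ∀ x, 0 ≤ (L x - m) ^ 4 := fun x => by positivity
  have hb : ∫⁻ x, ENNReal.ofReal ((L x - m) ^ 4) ∂μ ≤ ENNReal.ofReal 393216 := by
    calc ∫⁻ x, ENNReal.ofReal ((L x - m) ^ 4) ∂μ
        ≤ ∫⁻ x, ENNReal.ofReal 98304 *
            ENNReal.ofReal (Real.exp (|L x - m| / (4 * 2))) ∂μ := by
          apply lintegral_mono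
          intro x
          simp only
          rw [← ENNReal.ofReal_mul (by positivity)]
          exact ENNReal.ofReal_le_ofReal (hpt x)
      _ = ENNReal.ofReal 98304 *
            ∫⁻ x, ENNReal.ofReal (Real.exp (|L x - m| / (4 * 2))) ∂μ := by
          rw [lintegral_const_mul]
          exact (Real.measurable_exp.comp (hmeas.abs.div_const _)).ennreal_ofReal
      _ ≤ ENNReal.ofReal 98304 * 4 := by gcongr
      _ = ENNReal.ofReal 393216 := by
          have : (4 : ℝ≥0∞) = ENNReal.ofReal 4 := by norm_num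
          rw [this, ← ENNReal.ofReal_mul (by positivity)]
          congr 1
          norm_num
  have hint : Integrable (fun x => (L x - m) ^ 4) μ := by
    refine ⟨(hmeas.pow_const 4).aestronglyMeasurable, ?_⟩
    rw [hasFiniteIntegral_iff_ofReal (ae_of_all _ h40)]
    exact hb.trans_lt ENNReal.ofReal_lt_top
  refine ⟨hint, ?_⟩
  rw [integral_eq_lintegral_of_nonneg_ae (ae_of_all _ h40)
    (hmeas.pow_const 4).aestronglyMeasurable]
  have h3 := ENNReal.toReal_mono ENNReal.ofReal_ne_top hb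
  rwa [ENNReal.toReal_ofReal (by positivity)] at h3

end

/-- second and fourth moment of the distance from the barycentre -/
lemma radial_moments {r ι : Type} [Fintype r] [Fintype ι]
    [DecidableEq r] [DecidableEq ι] (μ : Measure (EuclideanSpace ℝ (r × ι)))
    [IsProbabilityMeasure μ] (hPL : PLm μ)
    (hiso : ∀ ℓ : EuclideanSpace ℝ (r × ι) →L[ℝ] ℝ, Var[fun x => ℓ x; μ] = ‖ℓ‖ ^ 2)
    (hcard : Fintype.card ι ≤ Fintype.card r) :
    ∃ b : EuclideanSpace ℝ (r × ι), Integrable (fun x => ‖x - b‖ ^ 2) μ ∧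
      ∫ x, ‖x - b‖ ^ 2 ∂μ ≤ (Fintype.card r : ℝ) ^ 2 ∧
      Integrable (fun x => ‖x - b‖ ^ 4) μ ∧
      ∫ x, ‖x - b‖ ^ 4 ∂μ ≤ 393216 * (Fintype.card r : ℝ) ^ 4 := by
  classical
  set L : r × ι → EuclideanSpace ℝ (r × ι) →L[ℝ] ℝ := fun p => EuclideanSpace.proj p with hL
  have hLn : ∀ p, ‖L p‖ = 1 := by
    intro p
    apply le_antisymm
    · refine ContinuousLinearMap.opNorm_le_bound _ zero_le_one fun x => ?_
      rw [one_mul]
      exact PiLp.norm_apply_le x p
    · have h1 := (L p).le_opNorm (EuclideanSpace.single p 1)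
      rw [PiLp.norm_single] at h1
      simpa [hL] using h1
  have hvar : ∀ p, Var[fun x => L p x; μ] = 1 := by
    intro p
    rw [hiso, hLn, one_pow]
  set b : EuclideanSpace ℝ (r × ι) := WithLp.toLp 2 fun p => ∫ y, L p y ∂μ with hb
  have hmem : ∀ p, MemLp (fun x => L p x) 2 μ := fun p => memLp_of_var_ne _ (by rw [hvar]; norm_num)
  have hsq : ∀ x : EuclideanSpace ℝ (r × ι), ‖x - b‖ ^ 2 = ∑ p, (L p x - ∫ y, L p y ∂μ) ^ 2 := by
    intro x
    rw [EuclideanSpace.norm_sq_eq]
    refine Finset.sum_congr rfl fun p _ => ?_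
    rw [Real.norm_eq_abs, sq_abs]
    rfl
  have hcs : (Fintype.card (r × ι) : ℝ) ≤ (Fintype.card r : ℝ) ^ 2 := by
    rw [Fintype.card_prod, sq]
    push_cast
    gcongr
  have hint2 : ∀ p, Integrable (fun x => (L p x - ∫ y, L p y ∂μ) ^ 2) μ := by
    intro p
    have := ((hmem p).sub (memLp_const (∫ y, L p y ∂μ))).integrable_sq
    simpa using this
  refine ⟨b, ?_, ?_, ?_, ?_⟩
  · simp only [hsq]
    exact integrable_finsetSum _ fun p _ => hint2 p
  · simp only [hsq]
    rw [integral_finsetSum _ fun p _ => hint2 p]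
    have : ∀ p, ∫ x, (L p x - ∫ y, L p y ∂μ) ^ 2 ∂μ = 1 := by
      intro p
      rw [← variance_eq_integral (L p).continuous.aemeasurable]
      exact hvar p
    simp only [this]
    rw [Finset.sum_const, Finset.card_univ, nsmul_eq_mul, mul_one]
    exact hcs
  · have h4 : ∀ x : EuclideanSpace ℝ (r × ι), ‖x - b‖ ^ 4 ≤
        Fintype.card (r × ι) * ∑ p, (L p x - ∫ y, L p y ∂μ) ^ 4 := by
      intro x
      have h5 : ‖x - b‖ ^ 4 = (‖x - b‖ ^ 2) ^ 2 := by ring
      rw [h5, hsq]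
      refine (sq_sum_le_card_mul_sum_sq).trans (le_of_eq ?_)
      rw [Finset.card_univ]
      congr 1
      refine Finset.sum_congr rfl fun p _ => ?_
      ring
    refine Integrable.mono' (g := fun x => (Fintype.card (r × ι) : ℝ) *
      ∑ p, (L p x - ∫ y, L p y ∂μ) ^ 4) ((integrable_finsetSum Finset.univ fun p _ =>
      (fourth_moment hPL (L p) (hvar p)).1).const_mul (Fintype.card (r × ι) : ℝ)) ?_ ?_
    · exact (by fun_prop : Continuous fun x : EuclideanSpace ℝ (r × ι) =>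
        ‖x - b‖ ^ 4).aestronglyMeasurable
    · refine ae_of_all _ fun x => ?_
      rw [Real.norm_eq_abs, abs_of_nonneg (by positivity)]
      exact h4 x
  · have h4 : ∀ x : EuclideanSpace ℝ (r × ι), ‖x - b‖ ^ 4 ≤
        Fintype.card (r × ι) * ∑ p, (L p x - ∫ y, L p y ∂μ) ^ 4 := by
      intro x
      have h5 : ‖x - b‖ ^ 4 = (‖x - b‖ ^ 2) ^ 2 := by ring
      rw [h5, hsq]
      refine (sq_sum_le_card_mul_sum_sq).trans (le_of_eq ?_)
      rw [Finset.card_univ]
      congr 1
      refine Finset.sum_congr rfl fun p _ => ?_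
      ring
    have h6 : ∫ x, ‖x - b‖ ^ 4 ∂μ ≤
        ∫ x, Fintype.card (r × ι) * ∑ p, (L p x - ∫ y, L p y ∂μ) ^ 4 ∂μ := by
      refine integral_mono_of_nonneg (ae_of_all _ fun x => by positivity) ?_ (ae_of_all _ h4)
      exact (integrable_finsetSum _ fun p _ =>
        (fourth_moment hPL (L p) (hvar p)).1).const_mul (Fintype.card (r × ι) : ℝ)
    refine h6.trans ?_
    rw [integral_const_mul, integral_finsetSum _ fun p _ =>
      (fourth_moment hPL (L p) (hvar p)).1]
    have h7 : ∑ p, ∫ x, (L p x - ∫ y, L p y ∂μ) ^ 4 ∂μ ≤ Fintype.card (r × ι) * 393216 := by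
      refine (Finset.sum_le_sum fun p _ => (fourth_moment hPL (L p) (hvar p)).2).trans ?_
      rw [Finset.sum_const, Finset.card_univ, nsmul_eq_mul]
    have h8 : (0 : ℝ) ≤ Fintype.card (r × ι) := Nat.cast_nonneg _
    calc (Fintype.card (r × ι) : ℝ) * ∑ p, ∫ x, (L p x - ∫ y, L p y ∂μ) ^ 4 ∂μ
        ≤ Fintype.card (r × ι) * (Fintype.card (r × ι) * 393216) :=
          mul_le_mul_of_nonneg_left h7 h8
      _ = 393216 * (Fintype.card (r × ι) : ℝ) ^ 2 := by ring
      _ ≤ 393216 * ((Fintype.card r : ℝ) ^ 2) ^ 2 := by gcongr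
      _ = _ := by ring

lemma sq_mul_exp_neg_le {m : ℝ} (hm : 0 ≤ m) : m ^ 2 * Real.exp (-m) ≤ 2 := by
  have h1 := Real.quadratic_le_exp_of_nonneg hm
  rw [Real.exp_neg, ← div_eq_mul_inv, div_le_iff₀ (Real.exp_pos _)]
  nlinarith

/-- S-C: from the restricted measure to the whole measure. -/
theorem cutoff_bound : ∃ C : ℝ, 0 < C ∧ ∀ (r ι : Type) [Fintype r] [Fintype ι] [DecidableEq r]
    [DecidableEq ι] (μ : Measure (EuclideanSpace ℝ (r × ι))), IsProbabilityMeasure μ → PLm μ →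
    (∀ ℓ : EuclideanSpace ℝ (r × ι) →L[ℝ] ℝ, Var[fun x => ℓ x; μ] = ‖ℓ‖ ^ 2) →
    3 ≤ Fintype.card r → Fintype.card ι ≤ Fintype.card r →
    ∀ K : Set (EuclideanSpace ℝ (r × ι)), MeasurableSet K →
      μ.real Kᶜ ≤ Real.exp (-(Fintype.card r : ℝ)) →
    ∀ g : EuclideanSpace ℝ (r × ι) → ℝ, Continuous g → (∀ x y, |g x - g y| ≤ ‖x - y‖) →
    ∀ V : ℝ, Var[g; ProbabilityTheory.cond μ K] ≤ V → Var[g; μ] ≤ V + C := by
  refine ⟨8 * (393216 + 1) + 16, by norm_num, ?_⟩
  intro r ι _ _ _ _ μ hμ hPL hiso h3 hcard K hK hKc g hg hlip V hV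
  obtain ⟨b, hi2, h2, hi4, h4⟩ := radial_moments μ hPL hiso hcard
  set m : ℝ := (Fintype.card r : ℝ) with hm
  have hm3 : 3 ≤ m := by rw [hm]; exact_mod_cast h3
  have hm0 : 0 < m := by linarith
  -- `μ K ≥ 1 / 2`
  have hexp3 : Real.exp (-m) ≤ 1 / 2 := by
    have h1 : Real.exp (-m) ≤ Real.exp (-3) := Real.exp_le_exp.2 (by linarith)
    refine h1.trans ?_
    rw [Real.exp_neg]
    have : 2 ≤ Real.exp 3 := by
      have := Real.add_one_le_exp (3 : ℝ)
      linarith
    rw [inv_eq_one_div]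
    exact one_div_le_one_div_of_le (by norm_num) this
  have hKr : 1 / 2 ≤ μ.real K := by
    have h1 := probReal_compl_eq_one_sub (μ := μ) hK
    linarith
  have hK0 : μ K ≠ 0 := by
    intro h0
    rw [measureReal_def, h0, ENNReal.toReal_zero] at hKr
    norm_num at hKr
  have hKprob : IsProbabilityMeasure (ProbabilityTheory.cond μ K) := cond_isProbabilityMeasure hK0
  have hcond : ∀ f : EuclideanSpace ℝ (r × ι) → ℝ,
      ∫ x, f x ∂(ProbabilityTheory.cond μ K) = (μ.real K)⁻¹ * ∫ x in K, f x ∂μ := by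
    intro f
    rw [ProbabilityTheory.cond, integral_smul_measure, ENNReal.toReal_inv, smul_eq_mul]
    rfl
  have hgm : Measurable g := hg.measurable
  -- integrability
  have hcont : Continuous fun x : EuclideanSpace ℝ (r × ι) => ‖x - b‖ := by fun_prop
  have hn2 : MemLp (fun x : EuclideanSpace ℝ (r × ι) => ‖x - b‖) 2 μ := by
    rw [memLp_two_iff_integrable_sq hcont.aestronglyMeasurable]
    exact hi2
  have hn1 : Integrable (fun x : EuclideanSpace ℝ (r × ι) => ‖x - b‖) μ :=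
    hn2.integrable (by norm_num)
  have hgi : MemLp (fun x => g x - g b) 2 μ := by
    refine hn2.mono (hgm.sub_const _).aestronglyMeasurable (ae_of_all _ fun x => ?_)
    rw [Real.norm_eq_abs, Real.norm_eq_abs, abs_of_nonneg (norm_nonneg (x - b))]
    exact hlip x b
  -- first moment
  have h1m : ∫ x, ‖x - b‖ ∂μ ≤ m := by
    have h5 : (∫ x, ‖x - b‖ ∂μ) ^ 2 ≤ ∫ x, ‖x - b‖ ^ 2 ∂μ := by
      have := variance_nonneg (fun x : EuclideanSpace ℝ (r × ι) => ‖x - b‖) μ
      rw [variance_eq_sub hn2] at this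
      simp only [Pi.pow_apply] at this
      linarith
    exact (abs_le_of_sq_le_sq' (h5.trans h2) hm0.le).2
  set c := ∫ x, g x ∂(ProbabilityTheory.cond μ K) with hc
  have hcb : |c - g b| ≤ 2 * m := by
    have h5 : c - g b = ∫ x, (g x - g b) ∂(ProbabilityTheory.cond μ K) := by
      rw [integral_sub, integral_const, probReal_univ, one_smul]
      · have h6 : Integrable g μ := by
          have h7 := (hgi.integrable (by norm_num)).add (integrable_const (g b))
          have h8 : (fun x => g x - g b) + (fun _ => g b) = g := by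
            funext x
            simp
          rwa [h8] at h7
        rw [ProbabilityTheory.cond]
        exact h6.integrableOn.smul_measure (ENNReal.inv_ne_top.2 hK0)
      · exact integrable_const _
    rw [h5, hcond]
    have h6 : |∫ x in K, (g x - g b) ∂μ| ≤ m := by
      have h7 : |∫ x in K, (g x - g b) ∂μ| ≤ ∫ x in K, |g x - g b| ∂μ :=
        abs_integral_le_integral_abs
      have h8 : ∫ x in K, |g x - g b| ∂μ ≤ ∫ x in K, ‖x - b‖ ∂μ := by
        refine integral_mono_of_nonneg (ae_of_all _ fun x => abs_nonneg _) hn1.integrableOn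
          (ae_of_all _ fun x => hlip x b)
      have h9 : ∫ x in K, ‖x - b‖ ∂μ ≤ ∫ x, ‖x - b‖ ∂μ :=
        setIntegral_le_integral hn1 (ae_of_all _ fun x => norm_nonneg _)
      linarith
    rw [abs_mul, abs_of_nonneg (by positivity : (0 : ℝ) ≤ (μ.real K)⁻¹)]
    have h10 : (μ.real K)⁻¹ ≤ 2 := by
      rw [inv_le_comm₀ (by linarith) (by norm_num)]
      linarith
    exact mul_le_mul h10 h6 (abs_nonneg _) (by norm_num)
  -- the variance
  have hgc : MemLp (fun x => g x - c) 2 μ := by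
    have h7 := hgi.sub (memLp_const (c - g b))
    have h8 : (fun x => g x - g b) - (fun _ => c - g b) = fun x => g x - c := by
      funext x
      simp
    rwa [h8] at h7
  have hint : Integrable (fun x => (g x - c) ^ 2) μ := hgc.integrable_sq
  have hv1 : Var[g; μ] ≤ ∫ x, (g x - c) ^ 2 ∂μ := by
    rw [← variance_sub_const hg.aestronglyMeasurable c]
    exact variance_le_expectation_sq hgc.1
  have hsplit : ∫ x, (g x - c) ^ 2 ∂μ =
      (∫ x in K, (g x - c) ^ 2 ∂μ) + ∫ x in Kᶜ, (g x - c) ^ 2 ∂μ :=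
    (integral_add_compl hK hint).symm
  have hpart1 : ∫ x in K, (g x - c) ^ 2 ∂μ ≤ V := by
    have h5 : Var[g; ProbabilityTheory.cond μ K] = (μ.real K)⁻¹ * ∫ x in K, (g x - c) ^ 2 ∂μ := by
      rw [variance_eq_integral hgm.aemeasurable, hcond]
    have h6 : 0 ≤ ∫ x in K, (g x - c) ^ 2 ∂μ := integral_nonneg fun x => sq_nonneg _
    have h7 : 1 ≤ (μ.real K)⁻¹ := (one_le_inv₀ (by linarith)).2 measureReal_le_one
    rw [h5] at hV
    nlinarith
  have hpart2 : ∫ x in Kᶜ, (g x - c) ^ 2 ∂μ ≤ 8 * (393216 + 1) + 16 := by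
    set w := Real.exp (-(m / 2)) with hw
    have hw0 : 0 < w := Real.exp_pos _
    have hww : w * w = Real.exp (-m) := by
      rw [hw, ← Real.exp_add]; congr 1; ring
    set lam := w / m ^ 2 with hlam
    have hlam0 : 0 < lam := by positivity
    have hpt : ∀ x, (g x - c) ^ 2 ≤ (lam * ‖x - b‖ ^ 4 + 1 / lam) + 8 * m ^ 2 := by
      intro x
      have h5 : |g x - c| ≤ ‖x - b‖ + 2 * m := by
        have h6 : g x - c = (g x - g b) + (g b - c) := by ring
        rw [h6]
        refine (abs_add_le _ _).trans (add_le_add (hlip x b) ?_)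
        rw [abs_sub_comm]; exact hcb
      have h7 : (g x - c) ^ 2 ≤ (‖x - b‖ + 2 * m) ^ 2 := by
        rw [← sq_abs]
        exact pow_le_pow_left₀ (abs_nonneg _) h5 2
      have h8 : (‖x - b‖ + 2 * m) ^ 2 ≤ 2 * ‖x - b‖ ^ 2 + 8 * m ^ 2 := by
        nlinarith [sq_nonneg (‖x - b‖ - 2 * m)]
      have h9 : 2 * ‖x - b‖ ^ 2 ≤ lam * ‖x - b‖ ^ 4 + 1 / lam := by
        have h10 : lam * ‖x - b‖ ^ 4 + 1 / lam - 2 * ‖x - b‖ ^ 2 =
            (lam * ‖x - b‖ ^ 2 - 1) ^ 2 / lam := by
          field_simp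
          ring
        have h11 : 0 ≤ (lam * ‖x - b‖ ^ 2 - 1) ^ 2 / lam := by positivity
        linarith
      linarith
    have hi5 : Integrable (fun x => (lam * ‖x - b‖ ^ 4 + 1 / lam) + 8 * m ^ 2) μ :=
      ((hi4.const_mul lam).add (integrable_const _)).add (integrable_const _)
    have h5 : ∫ x in Kᶜ, (g x - c) ^ 2 ∂μ ≤
        ∫ x in Kᶜ, ((lam * ‖x - b‖ ^ 4 + 1 / lam) + 8 * m ^ 2) ∂μ :=
      integral_mono_of_nonneg (ae_of_all _ fun x => sq_nonneg _) hi5.integrableOn
        (ae_of_all _ hpt)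
    have h6 : ∫ x in Kᶜ, ((lam * ‖x - b‖ ^ 4 + 1 / lam) + 8 * m ^ 2) ∂μ =
        lam * (∫ x in Kᶜ, ‖x - b‖ ^ 4 ∂μ) + (1 / lam + 8 * m ^ 2) * μ.real Kᶜ := by
      have e1 : ∀ x : EuclideanSpace ℝ (r × ι), (lam * ‖x - b‖ ^ 4 + 1 / lam) + 8 * m ^ 2 =
          lam * ‖x - b‖ ^ 4 + (1 / lam + 8 * m ^ 2) := fun x => by ring
      simp only [e1]
      rw [integral_add (hi4.const_mul lam).integrableOn (integrable_const _), integral_const_mul,
        integral_const, measureReal_restrict_apply_univ, smul_eq_mul]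
      ring
    have h7 : ∫ x in Kᶜ, ‖x - b‖ ^ 4 ∂μ ≤ 393216 * m ^ 4 :=
      (setIntegral_le_integral hi4 (ae_of_all _ fun x => by positivity)).trans h4
    have h8 : lam * (∫ x in Kᶜ, ‖x - b‖ ^ 4 ∂μ) ≤ 393216 * (m ^ 2 * w) := by
      calc lam * (∫ x in Kᶜ, ‖x - b‖ ^ 4 ∂μ)
          ≤ lam * (393216 * m ^ 4) := mul_le_mul_of_nonneg_left h7 hlam0.le
        _ = 393216 * (m ^ 2 * w) := by rw [hlam]; field_simp
    have h9 : (1 / lam + 8 * m ^ 2) * μ.real Kᶜ ≤ m ^ 2 * w + 8 * (m ^ 2 * Real.exp (-m)) := by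
      calc (1 / lam + 8 * m ^ 2) * μ.real Kᶜ ≤ (1 / lam + 8 * m ^ 2) * (w * w) := by
            rw [hww]
            exact mul_le_mul_of_nonneg_left hKc (by positivity)
        _ = m ^ 2 * w + 8 * (m ^ 2 * (w * w)) := by rw [hlam]; field_simp
        _ = _ := by rw [hww]
    have h10 : m ^ 2 * w ≤ 8 := by
      have := sq_mul_exp_neg_le (m := m / 2) (by positivity)
      rw [← hw] at this
      nlinarith
    have h11 := sq_mul_exp_neg_le hm0.le
    linarith
  linarith

end Pool.Agent.Lib.MP_6d896a_gt.OM
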