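import Mathlib
import Pool.Agent.Lib.MP_6d896a_gt.OM.Slice

/-!
Strong midpoint log-concavity of the orbit density.
-/

set_option autoImplicit false
set_option linter.unusedSectionVars false

namespace Pool.Agent.Lib.MP_6d896a_gt.OM

open MeasureTheory ProbabilityTheory Matrix Set Filter
open scoped ENNReal Topology

section matrices

variable {N : Type*} [Fintype N] [DecidableEq N]

/-- factorisation of a positive semidefinite real matrix -/
lemma psd_factor {M : Matrix N N ℝ} (hM : M.PosSemidef) : ∃ C : Matrix N N ℝ, M = Cᵀ * C := by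
  open scoped MatrixOrder in
  obtain ⟨B, hB⟩ := CStarAlgebra.nonneg_iff_eq_star_mul_self.mp hM.nonneg
  refine ⟨B, ?_⟩
  rw [hB, Matrix.star_eq_conjTranspose, Matrix.conjTranspose_eq_transpose_of_trivial]

/-- sum of the squares of the entries -/
def hs (A : Matrix N N ℝ) : ℝ := ∑ i, ∑ j, A i j ^ 2

lemma hs_transpose (A : Matrix N N ℝ) : hs Aᵀ = hs A := by
  unfold hs
  rw [Finset.sum_comm]
  rfl

lemma hs_eq_trace (A : Matrix N N ℝ) : hs A = (Aᵀ * A).trace := by
  unfold hs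
  rw [Finset.sum_comm]
  simp [Matrix.trace, Matrix.mul_apply, sq]

lemma det_le_exp_trace {P : Matrix N N ℝ} (hP : P.PosSemidef) :
    P.det ≤ Real.exp (P.trace - Fintype.card N) := by
  rw [hP.isHermitian.det_eq_prod_eigenvalues, hP.isHermitian.trace_eq_sum_eigenvalues]
  simp only [RCLike.ofReal_real_eq_id, id_eq]
  have h1 : ∏ i, hP.isHermitian.eigenvalues i ≤
      ∏ i, Real.exp (hP.isHermitian.eigenvalues i - 1) := by
    refine Finset.prod_le_prod (fun i _ => hP.eigenvalues_nonneg i) fun i _ => ?_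
    have := Real.add_one_le_exp (hP.isHermitian.eigenvalues i - 1)
    linarith
  refine h1.trans (le_of_eq ?_)
  rw [← Real.exp_sum, Finset.sum_sub_distrib]
  simp

/-- `det (1 + E) det (1 - E) ≤ exp (- |E|²)` -/
lemma det_one_sub_sq {E : Matrix N N ℝ} (hE : Eᵀ = E) (h1 : (1 + E).PosSemidef)
    (h2 : (1 - E).PosSemidef) : (1 + E).det * (1 - E).det ≤ Real.exp (-hs E) := by
  have hP : (1 - E * E).PosSemidef := by
    have e : 1 - E * E = (1 / 2 : ℝ) • ((1 + E)ᴴ * (1 - E) * (1 + E) +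
        (1 - E)ᴴ * (1 + E) * (1 - E)) := by
      simp only [Matrix.conjTranspose_eq_transpose_of_trivial, Matrix.transpose_add,
        Matrix.transpose_sub, Matrix.transpose_one, hE]
      have : (1 + E) * (1 - E) * (1 + E) + (1 - E) * (1 + E) * (1 - E) = (2 : ℝ) • (1 - E * E) := by
        rw [two_smul]
        noncomm_ring
      rw [this, smul_smul]
      norm_num
    rw [e]
    exact ((h2.conjTranspose_mul_mul_same (1 + E)).add
      (h1.conjTranspose_mul_mul_same (1 - E))).smul (by norm_num)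
  have e1 : (1 + E).det * (1 - E).det = (1 - E * E).det := by
    rw [← Matrix.det_mul]
    congr 1
    noncomm_ring
  rw [e1]
  refine (det_le_exp_trace hP).trans (le_of_eq ?_)
  congr 1
  rw [Matrix.trace_sub, Matrix.trace_one, hs_eq_trace, hE]
  ring

lemma hs_nonneg (A : Matrix N N ℝ) : 0 ≤ hs A :=
  Finset.sum_nonneg fun _ _ => Finset.sum_nonneg fun _ _ => sq_nonneg _

lemma dot_self (x : N → ℝ) : x ⬝ᵥ x = ∑ i, x i ^ 2 := by
  simp [dotProduct, sq]

lemma dot_self_nonneg (x : N → ℝ) : 0 ≤ x ⬝ᵥ x := by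
  rw [dot_self]; exact Finset.sum_nonneg fun _ _ => sq_nonneg _

/-- multiplication on the left by a matrix with `|C x|² ≤ R |x|²` -/
lemma hs_mul_left {C : Matrix N N ℝ} {R : ℝ} (hC : ∀ x, (C *ᵥ x) ⬝ᵥ (C *ᵥ x) ≤ R * (x ⬝ᵥ x))
    (F : Matrix N N ℝ) : hs (C * F) ≤ R * hs F := by
  rw [← hs_transpose, ← hs_transpose F]
  unfold hs
  rw [Finset.mul_sum]
  refine Finset.sum_le_sum fun j _ => ?_
  have h := hC (Fᵀ j)
  rw [dot_self, dot_self] at h
  have e : ∀ i, (C * F)ᵀ j i = (C *ᵥ (Fᵀ j)) i := by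
    intro i
    simp [Matrix.mul_apply, Matrix.mulVec, dotProduct]
  simp_rw [e]
  exact h

lemma transpose_bound {C : Matrix N N ℝ} {R : ℝ} (hR : 0 ≤ R)
    (hC : ∀ x, (C *ᵥ x) ⬝ᵥ (C *ᵥ x) ≤ R * (x ⬝ᵥ x)) (x : N → ℝ) :
    (Cᵀ *ᵥ x) ⬝ᵥ (Cᵀ *ᵥ x) ≤ R * (x ⬝ᵥ x) := by
  set y := Cᵀ *ᵥ x with hy
  have h1 : y ⬝ᵥ y = x ⬝ᵥ (C *ᵥ y) := by
    rw [Matrix.dotProduct_mulVec x, ← Matrix.mulVec_transpose]
  have h2 : (x ⬝ᵥ (C *ᵥ y)) ^ 2 ≤ (x ⬝ᵥ x) * ((C *ᵥ y) ⬝ᵥ (C *ᵥ y)) := by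
    rw [dot_self, dot_self]
    exact Finset.sum_mul_sq_le_sq_mul_sq _ _ _
  have h3 := hC y
  have h4 := dot_self_nonneg y
  have h5 := dot_self_nonneg x
  rcases h4.eq_or_lt with h6 | h6
  · rw [← h6]; positivity
  · rw [← h1] at h2
    have h7 : (y ⬝ᵥ y) ^ 2 ≤ (x ⬝ᵥ x) * (R * (y ⬝ᵥ y)) :=
      h2.trans (mul_le_mul_of_nonneg_left h3 h5)
    nlinarith

/-- midpoint strong log-concavity of the determinant -/
lemma det_mid {M D : Matrix N N ℝ} {R : ℝ} (hR : 0 < R) (hM : M.PosDef) (hD : Dᵀ = D)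
    (hA : (M + D).PosSemidef) (hB : (M - D).PosSemidef)
    (hMR : ∀ x, x ⬝ᵥ (M *ᵥ x) ≤ R * (x ⬝ᵥ x)) :
    (M + D).det * (M - D).det ≤ M.det ^ 2 * Real.exp (-(hs D / R ^ 2)) := by
  obtain ⟨C, hC⟩ := psd_factor hM.posSemidef
  have hdet : M.det = C.det ^ 2 := by
    rw [hC, Matrix.det_mul, Matrix.det_transpose, sq]
  have hdC : C.det ≠ 0 := by
    intro h
    have := hM.det_pos
    rw [hdet, h] at this
    norm_num at this
  have hu : IsUnit C.det := isUnit_iff_ne_zero.mpr hdC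
  set E := (C⁻¹)ᵀ * D * C⁻¹ with hE
  have hCC : C⁻¹ * C = 1 := Matrix.nonsing_inv_mul C hu
  have hCC' : C * C⁻¹ = 1 := Matrix.mul_nonsing_inv C hu
  have hCT : Cᵀ * (C⁻¹)ᵀ = 1 := by rw [← Matrix.transpose_mul, hCC, Matrix.transpose_one]
  have hCT' : (C⁻¹)ᵀ * Cᵀ = 1 := by rw [← Matrix.transpose_mul, hCC', Matrix.transpose_one]
  have hDE : D = Cᵀ * E * C := by
    rw [hE]
    calc D = (Cᵀ * (C⁻¹)ᵀ) * D * (C⁻¹ * C) := by rw [hCT, hCC, Matrix.one_mul, Matrix.mul_one]
      _ = _ := by simp only [Matrix.mul_assoc]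
  have hEs : Eᵀ = E := by
    rw [hE]
    simp only [Matrix.transpose_mul, Matrix.transpose_transpose, hD, Matrix.mul_assoc]
  have hAE : M + D = Cᵀ * (1 + E) * C := by
    rw [hDE, hC]
    conv_rhs => rw [Matrix.mul_add, Matrix.add_mul, Matrix.mul_one]
  have hBE : M - D = Cᵀ * (1 - E) * C := by
    rw [hDE, hC]
    conv_rhs => rw [Matrix.mul_sub, Matrix.sub_mul, Matrix.mul_one]
  have key : ∀ P Q : Matrix N N ℝ, P = Cᵀ * Q * C → P.PosSemidef → Q.PosSemidef := by
    intro P Q hPQ hP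
    have e : Q = (C⁻¹)ᴴ * P * C⁻¹ := by
      rw [hPQ, Matrix.conjTranspose_eq_transpose_of_trivial]
      calc Q = ((C⁻¹)ᵀ * Cᵀ) * Q * (C * C⁻¹) := by
            rw [hCT', hCC', Matrix.one_mul, Matrix.mul_one]
        _ = _ := by simp only [Matrix.mul_assoc]
    rw [e]
    exact hP.conjTranspose_mul_mul_same _
  have h1 := key _ _ hAE hA
  have h2 := key _ _ hBE hB
  have h3 := det_one_sub_sq hEs h1 h2
  have hCb : ∀ x, (C *ᵥ x) ⬝ᵥ (C *ᵥ x) ≤ R * (x ⬝ᵥ x) := by
    intro x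
    refine le_trans (le_of_eq ?_) (hMR x)
    rw [hC, ← Matrix.mulVec_mulVec, Matrix.dotProduct_mulVec x, Matrix.vecMul_transpose]
  have hCTb := transpose_bound hR.le hCb
  have h4 : hs D ≤ R ^ 2 * hs E := by
    rw [hDE, Matrix.mul_assoc]
    refine (hs_mul_left hCTb _).trans ?_
    rw [← hs_transpose (E * C), Matrix.transpose_mul]
    have h5 := hs_mul_left hCTb Eᵀ
    rw [hs_transpose] at h5
    nlinarith
  rw [hAE, hBE, Matrix.det_mul, Matrix.det_mul, Matrix.det_mul, Matrix.det_mul,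
    Matrix.det_transpose, hdet]
  have e2 : C.det * (1 + E).det * C.det * (C.det * (1 - E).det * C.det) =
      (C.det ^ 2) ^ 2 * ((1 + E).det * (1 - E).det) := by ring
  rw [e2]
  refine mul_le_mul_of_nonneg_left ?_ (by positivity)
  refine h3.trans (Real.exp_le_exp.mpr ?_)
  rw [neg_le_neg_iff, div_le_iff₀ (by positivity)]
  linarith

end matrices

section slice

variable {ι κ : Type*} [Fintype ι] [Fintype κ] [DecidableEq ι] [DecidableEq κ]

/-- the standard basis -/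
noncomputable def bE (N : Type*) [Fintype N] : Module.Basis N ℝ (EuclideanSpace ℝ N) :=
  (EuclideanSpace.basisFun N ℝ).toBasis

/-- matrix of an operator in the standard basis -/
noncomputable def toM {N : Type*} [Fintype N] [DecidableEq N]
    (T : EuclideanSpace ℝ N →ₗ[ℝ] EuclideanSpace ℝ N) : Matrix N N ℝ :=
  LinearMap.toMatrix (bE N) (bE N) T

lemma toM_det {N : Type*} [Fintype N] [DecidableEq N]
    (T : EuclideanSpace ℝ N →ₗ[ℝ] EuclideanSpace ℝ N) : (toM T).det = LinearMap.det T :=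
  LinearMap.det_toMatrix _ _

lemma toM_apply {N : Type*} [Fintype N] [DecidableEq N]
    (T : EuclideanSpace ℝ N →ₗ[ℝ] EuclideanSpace ℝ N) (p q : N) :
    toM T p q = T (EuclideanSpace.single q 1) p := by
  simp [toM, bE, LinearMap.toMatrix_apply]

lemma toM_dot {N : Type*} [Fintype N] [DecidableEq N]
    (T : EuclideanSpace ℝ N →ₗ[ℝ] EuclideanSpace ℝ N) (x : N → ℝ) :
    x ⬝ᵥ (toM T *ᵥ x) = inner ℝ (T (WithLp.toLp 2 x)) (WithLp.toLp 2 x) := by
  have hrep : ∀ v : EuclideanSpace ℝ N, ⇑((EuclideanSpace.basisFun N ℝ).toBasis.repr v) = v.ofLp := by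
    intro v
    ext i
    simp
  have h1 : toM T *ᵥ x = (T (WithLp.toLp 2 x)).ofLp := by
    have := LinearMap.toMatrix_mulVec_repr (bE N) (bE N) T (WithLp.toLp 2 x)
    unfold bE at this
    rw [hrep, hrep] at this
    exact this
  rw [h1, PiLp.inner_apply]
  simp [dotProduct]

lemma toM_transpose {N : Type*} [Fintype N] [DecidableEq N]
    {T : EuclideanSpace ℝ N →ₗ[ℝ] EuclideanSpace ℝ N}
    (hT : ∀ x y, inner ℝ (T x) y = inner ℝ x (T y)) : (toM T)ᵀ = toM T := by
  ext p q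
  rw [Matrix.transpose_apply, toM_apply, toM_apply]
  have h := hT (EuclideanSpace.single p 1) (EuclideanSpace.single q 1)
  rw [EuclideanSpace.inner_single_left, EuclideanSpace.inner_single_right] at h
  simpa using h

lemma toM_add {N : Type*} [Fintype N] [DecidableEq N]
    (S T : EuclideanSpace ℝ N →ₗ[ℝ] EuclideanSpace ℝ N) : toM (S + T) = toM S + toM T := by
  simp [toM]

lemma toM_sub {N : Type*} [Fintype N] [DecidableEq N]
    (S T : EuclideanSpace ℝ N →ₗ[ℝ] EuclideanSpace ℝ N) : toM (S - T) = toM S - toM T := by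
  simp [toM]

lemma rmul_lin (a b : ℝ) (H K : Matrix ι ι ℝ) :
    (rmul (a • H + b • K) : EuclideanSpace ℝ ((ι ⊕ κ) × ι) →ₗ[ℝ] _) = a • rmul H + b • rmul K := by
  ext x p
  obtain ⟨i, j⟩ := p
  simp only [LinearMap.add_apply, LinearMap.smul_apply, PiLp.add_apply, PiLp.smul_apply,
    rmul_apply, smul_eq_mul, Finset.mul_sum]
  rw [← Finset.sum_add_distrib]
  refine Finset.sum_congr rfl fun k _ => ?_
  simp only [Matrix.add_apply, Matrix.smul_apply, smul_eq_mul]
  ring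

lemma inner_Lop (R : ℝ) (H : Matrix ι ι ℝ) (z : EuclideanSpace ℝ ((ι ⊕ κ) × ι)) :
    inner ℝ (Lop R H z) z = inner ℝ (rmul H (mm z)) (mm z) + R * ‖sl z‖ ^ 2 := by
  have h1 : Lop R H z = mm (rmul H (mm z)) + R • sl z := rfl
  rw [h1, inner_add_left, inner_mm_left, real_inner_smul_left]
  congr 2
  conv_lhs => rw [← sl_add_mm z, map_add, sl_sl, sl_mm, add_zero]
  rw [inner_add_right, inner_sl_mm, add_zero, real_inner_self_eq_norm_sq]

lemma Lop_symm (R : ℝ) {H : Matrix ι ι ℝ} (hH : Hᵀ = H)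
    (x y : EuclideanSpace ℝ ((ι ⊕ κ) × ι)) :
    inner ℝ (Lop R H x) y = inner ℝ x (Lop R H y) := by
  have h1 : ∀ z : EuclideanSpace ℝ ((ι ⊕ κ) × ι), Lop R H z = mm (rmul H (mm z)) + R • sl z :=
    fun z => rfl
  rw [h1, h1, inner_add_left, inner_add_right, inner_mm_left, ← inner_mm_left x, inner_rmul, hH,
    real_inner_smul_left, real_inner_smul_right, inner_sl_left]

lemma Lop_pos {R : ℝ} (hR : 0 < R) {H : Matrix ι ι ℝ} (hH : PD κ H)
    {z : EuclideanSpace ℝ ((ι ⊕ κ) × ι)} (hz : z ≠ 0) : 0 < inner ℝ (Lop R H z) z := by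
  rw [inner_Lop]
  by_cases h : mm z = 0
  · have h2 : sl z ≠ 0 := by
      intro h3
      apply hz
      rw [← sl_add_mm z, h, h3, add_zero]
    rw [h, map_zero, inner_zero_left, zero_add]
    have : 0 < ‖sl z‖ := norm_pos_iff.mpr h2
    positivity
  · have := hH.2 (mm z) (sl_mm z) h
    positivity

lemma inner_rmul_le {R : ℝ} (hR : 0 < R) {H : Matrix ι ι ℝ}  (hH : Hᵀ = H)
    (hHR : OpLe R (emb H : EuclideanSpace ℝ ((ι ⊕ κ) × ι)))
    (x : EuclideanSpace ℝ ((ι ⊕ κ) × ι)) : inner ℝ (rmul H x) x ≤ R * ‖x‖ ^ 2 := by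
  rw [inner_eq_sum, norm_sq_eq_sum, Finset.mul_sum]
  refine Finset.sum_le_sum fun i _ => ?_
  have h1 := hHR (fun j => x (i, j))
  rw [Fintype.sum_sum_type] at h1
  simp only [emb_inl, emb_inr, zero_mul, Finset.sum_const_zero, ne_eq, OfNat.ofNat_ne_zero,
    not_false_eq_true, zero_pow, add_zero] at h1
  have h2 : ∀ j, rmul H x (i, j) = ∑ k, H j k * x (i, k) := by
    intro j
    rw [rmul_apply]
    refine Finset.sum_congr rfl fun k _ => ?_
    have : H k j = H j k := congrFun (congrFun hH j) k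
    rw [this, mul_comm]
  simp_rw [h2]
  set a : ι → ℝ := fun j => ∑ k, H j k * x (i, k) with ha
  set b : ι → ℝ := fun j => x (i, j) with hb
  have h3 : (∑ j, a j * b j) ^ 2 ≤ (∑ j, a j ^ 2) * ∑ j, b j ^ 2 :=
    Finset.sum_mul_sq_le_sq_mul_sq _ _ _
  have h4 : 0 ≤ ∑ j, b j ^ 2 := Finset.sum_nonneg fun _ _ => sq_nonneg _
  have h5 : (∑ j, a j * b j) ^ 2 ≤ (R * ∑ j, b j ^ 2) ^ 2 := by
    refine h3.trans ?_
    have := mul_le_mul_of_nonneg_right h1 h4
    refine this.trans (le_of_eq ?_)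
    ring
  exact abs_le_of_sq_le_sq' h5 (by positivity) |>.2

lemma inner_Lop_le {R : ℝ} (hR : 0 < R) {H : Matrix ι ι ℝ} (hH : Hᵀ = H)
    (hHR : OpLe R (emb H : EuclideanSpace ℝ ((ι ⊕ κ) × ι)))
    (z : EuclideanSpace ℝ ((ι ⊕ κ) × ι)) : inner ℝ (Lop R H z) z ≤ R * ‖z‖ ^ 2 := by
  rw [inner_Lop, norm_sq_split z]
  have := inner_rmul_le hR hH hHR (mm z)
  linarith

lemma top_sum (L : Matrix ι ι ℝ) (hL : Lᵀ = L) :
    ∑ a, ∑ b, ∑ c, ∑ d, ((if a = c then L d b else 0) - (if a = d then L c b else 0) -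
      (if b = c then L d a else 0) + (if b = d then L c a else 0)) ^ 2 =
    4 * (((Fintype.card ι : ℝ) - 2) * ∑ i, ∑ j, L i j ^ 2 + (∑ i, L i i) ^ 2) := by
  have hs : ∀ i j, L i j = L j i := fun i j => congrFun (congrFun hL j) i
  have e : ∀ a b c d, ((if a = c then L d b else 0) - (if a = d then L c b else 0) -
      (if b = c then L d a else 0) + (if b = d then L c a else 0)) ^ 2 =
      (if a = c then L d b ^ 2 else 0) + (if a = d then L c b ^ 2 else 0) +
      (if b = c then L d a ^ 2 else 0) + (if b = d then L c a ^ 2 else 0) -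
      2 * (if a = c then (if a = d then L d b * L c b else 0) else 0) -
      2 * (if a = c then (if b = c then L d b * L d a else 0) else 0) +
      2 * (if a = c then (if b = d then L d b * L c a else 0) else 0) +
      2 * (if a = d then (if b = c then L c b * L d a else 0) else 0) -
      2 * (if a = d then (if b = d then L c b * L c a else 0) else 0) -
      2 * (if b = c then (if b = d then L d a * L c a else 0) else 0) := by
    intro a b c d
    split_ifs <;> ring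
  simp_rw [e]
  simp only [Finset.sum_add_distrib, Finset.sum_sub_distrib, ← Finset.mul_sum]
  have h1 : ∑ a : ι, ∑ b : ι, ∑ c : ι, ∑ d : ι, (if a = c then L d b ^ 2 else 0) =
      Fintype.card ι * ∑ i, ∑ j, L i j ^ 2 := by
    have : ∀ a b : ι, ∑ c : ι, ∑ d : ι, (if a = c then L d b ^ 2 else 0) = ∑ d, L d b ^ 2 := by
      intro a b; rw [Finset.sum_comm]; simp
    simp_rw [this]
    rw [Finset.sum_const, Finset.card_univ, nsmul_eq_mul, Finset.sum_comm]
  have h2 : ∑ a : ι, ∑ b : ι, ∑ c : ι, ∑ d : ι, (if a = d then L c b ^ 2 else 0) =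
      Fintype.card ι * ∑ i, ∑ j, L i j ^ 2 := by
    simp only [Finset.sum_ite_eq, Finset.mem_univ, if_true]
    rw [Finset.sum_const, Finset.card_univ, nsmul_eq_mul, Finset.sum_comm]
  have h3 : ∑ a : ι, ∑ b : ι, ∑ c : ι, ∑ d : ι, (if b = c then L d a ^ 2 else 0) =
      Fintype.card ι * ∑ i, ∑ j, L i j ^ 2 := by
    have : ∀ a b : ι, ∑ c : ι, ∑ d : ι, (if b = c then L d a ^ 2 else 0) = ∑ d, L d a ^ 2 := by
      intro a b; rw [Finset.sum_comm]; simp
    simp_rw [this]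
    simp only [Finset.sum_const, Finset.card_univ, nsmul_eq_mul]
    rw [← Finset.mul_sum, Finset.sum_comm]
  have h4 : ∑ a : ι, ∑ b : ι, ∑ c : ι, ∑ d : ι, (if b = d then L c a ^ 2 else 0) =
      Fintype.card ι * ∑ i, ∑ j, L i j ^ 2 := by
    simp only [Finset.sum_ite_eq, Finset.mem_univ, if_true, Finset.sum_const, Finset.card_univ,
      nsmul_eq_mul]
    rw [← Finset.mul_sum, Finset.sum_comm]
  have c1 : ∑ a : ι, ∑ b : ι, ∑ c : ι, ∑ d : ι,
      (if a = c then (if a = d then L d b * L c b else 0) else 0) = ∑ i, ∑ j, L i j ^ 2 := by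
    refine Finset.sum_congr rfl fun a _ => Finset.sum_congr rfl fun b _ => ?_
    rw [Finset.sum_comm]
    simp [sq]
  have c2 : ∑ a : ι, ∑ b : ι, ∑ c : ι, ∑ d : ι,
      (if a = c then (if b = c then L d b * L d a else 0) else 0) = ∑ i, ∑ j, L i j ^ 2 := by
    have : ∀ a b : ι, ∑ c : ι, ∑ d : ι,
        (if a = c then (if b = c then L d b * L d a else 0) else 0) =
        if b = a then ∑ d, L d a ^ 2 else 0 := by
      intro a b
      rw [Finset.sum_comm]
      simp only [Finset.sum_ite_eq, Finset.mem_univ, if_true]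
      split_ifs with h
      · subst h; exact Finset.sum_congr rfl fun d _ => by ring
      · simp
    simp_rw [this]
    simp only [Finset.sum_ite_eq', Finset.mem_univ, if_true]
    rw [Finset.sum_comm]
  have c3 : ∑ a : ι, ∑ b : ι, ∑ c : ι, ∑ d : ι,
      (if a = c then (if b = d then L d b * L c a else 0) else 0) = (∑ i, L i i) ^ 2 := by
    have : ∀ a b : ι, ∑ c : ι, ∑ d : ι,
        (if a = c then (if b = d then L d b * L c a else 0) else 0) = L b b * L a a := by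
      intro a b
      rw [Finset.sum_comm]
      simp
    simp_rw [this]
    rw [sq, Finset.sum_mul_sum, Finset.sum_comm]
  have c4 : ∑ a : ι, ∑ b : ι, ∑ c : ι, ∑ d : ι,
      (if a = d then (if b = c then L c b * L d a else 0) else 0) = (∑ i, L i i) ^ 2 := by
    have : ∀ a b : ι, ∑ c : ι, ∑ d : ι,
        (if a = d then (if b = c then L c b * L d a else 0) else 0) = L b b * L a a := by
      intro a b
      simp
    simp_rw [this]
    rw [sq, Finset.sum_mul_sum, Finset.sum_comm]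
  have c5 : ∑ a : ι, ∑ b : ι, ∑ c : ι, ∑ d : ι,
      (if a = d then (if b = d then L c b * L c a else 0) else 0) = ∑ i, ∑ j, L i j ^ 2 := by
    have : ∀ a b : ι, ∑ c : ι, ∑ d : ι,
        (if a = d then (if b = d then L c b * L c a else 0) else 0) =
        if b = a then ∑ d, L d a ^ 2 else 0 := by
      intro a b
      simp only [Finset.sum_ite_eq, Finset.mem_univ, if_true]
      split_ifs with h
      · subst h; exact Finset.sum_congr rfl fun d _ => by ring
      · simp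
    simp_rw [this]
    simp only [Finset.sum_ite_eq', Finset.mem_univ, if_true]
    rw [Finset.sum_comm]
  have c6 : ∑ a : ι, ∑ b : ι, ∑ c : ι, ∑ d : ι,
      (if b = c then (if b = d then L d a * L c a else 0) else 0) = ∑ i, ∑ j, L i j ^ 2 := by
    have : ∀ a b : ι, ∑ c : ι, ∑ d : ι,
        (if b = c then (if b = d then L d a * L c a else 0) else 0) = L b a ^ 2 := by
      intro a b
      rw [Finset.sum_comm]
      simp [sq]
    simp_rw [this]
    rw [Finset.sum_comm]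
  rw [h1, h2, h3, h4, c1, c2, c3, c4, c5, c6]
  ring

lemma D_entry_top (L : Matrix ι ι ℝ) (a b c d : ι) :
    toM (mm ∘ₗ rmul L ∘ₗ mm : EuclideanSpace ℝ ((ι ⊕ κ) × ι) →ₗ[ℝ] _) (Sum.inl a, b)
      (Sum.inl c, d) =
    ((if a = c then L d b else 0) - (if a = d then L c b else 0) -
      (if b = c then L d a else 0) + (if b = d then L c a else 0)) / 4 := by
  rw [toM_apply]
  simp only [LinearMap.comp_apply]
  rw [mm_inl, rmul_apply, rmul_apply]
  simp only [mm_inl, PiLp.single_apply, Prod.mk.injEq, Sum.inl.injEq]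
  have h : ∀ i j : ι, ∑ k, ((if i = c ∧ k = d then (1 : ℝ) else 0) -
      (if k = c ∧ i = d then (1 : ℝ) else 0)) / 2 * L k j =
      ((if i = c then L d j else 0) - (if i = d then L c j else 0)) / 2 := by
    intro i j
    have e : ∀ k, ((if i = c ∧ k = d then (1 : ℝ) else 0) -
      (if k = c ∧ i = d then (1 : ℝ) else 0)) / 2 * L k j =
      (if k = d then (if i = c then L k j / 2 else 0) else 0) -
      (if k = c then (if i = d then L k j / 2 else 0) else 0) := by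
      intro k
      have e1 : (if i = c ∧ k = d then (1 : ℝ) else 0) =
          if k = d then (if i = c then 1 else 0) else 0 := by
        by_cases h1 : i = c <;> by_cases h2 : k = d <;> simp [h1, h2]
      have e2 : (if k = c ∧ i = d then (1 : ℝ) else 0) =
          if k = c then (if i = d then 1 else 0) else 0 := by
        by_cases h1 : i = d <;> by_cases h2 : k = c <;> simp [h1, h2]
      rw [e1, e2]
      split_ifs <;> ring
    simp_rw [e]
    rw [Finset.sum_sub_distrib]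
    simp only [Finset.sum_ite_eq', Finset.mem_univ, if_true]
    split_ifs <;> ring
  rw [h, h]
  ring

lemma D_entry_bot (L : Matrix ι ι ℝ) (k : κ) (b d : ι) :
    toM (mm ∘ₗ rmul L ∘ₗ mm : EuclideanSpace ℝ ((ι ⊕ κ) × ι) →ₗ[ℝ] _) (Sum.inr k, b)
      (Sum.inr k, d) = L d b := by
  rw [toM_apply]
  simp only [LinearMap.comp_apply]
  rw [mm_inr, rmul_apply]
  simp only [mm_inr, PiLp.single_apply, Prod.mk.injEq, true_and]
  simp

lemma hs_D (L : Matrix ι ι ℝ) (hL : Lᵀ = L) :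
    ((Fintype.card (ι ⊕ κ) : ℝ) - 2) / 4 * ∑ i, ∑ j, L i j ^ 2 ≤
      hs (toM (mm ∘ₗ rmul L ∘ₗ mm : EuclideanSpace ℝ ((ι ⊕ κ) × ι) →ₗ[ℝ] _)) := by
  set T := toM (mm ∘ₗ rmul L ∘ₗ mm : EuclideanSpace ℝ ((ι ⊕ κ) × ι) →ₗ[ℝ] _) with hT
  have h1 : hs T = ∑ x : (ι ⊕ κ), ∑ b : ι, ∑ y : (ι ⊕ κ), ∑ d : ι, T (x, b) (y, d) ^ 2 := by
    unfold hs
    rw [Fintype.sum_prod_type]
    refine Finset.sum_congr rfl fun x _ => Finset.sum_congr rfl fun b _ => ?_
    rw [Fintype.sum_prod_type]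
  have h2 : ∑ a : ι, ∑ b : ι, ∑ c : ι, ∑ d : ι, T (Sum.inl a, b) (Sum.inl c, d) ^ 2 +
      ∑ k : κ, ∑ b : ι, ∑ d : ι, T (Sum.inr k, b) (Sum.inr k, d) ^ 2 ≤ hs T := by
    rw [h1, Fintype.sum_sum_type]
    refine add_le_add ?_ ?_
    · refine Finset.sum_le_sum fun a _ => Finset.sum_le_sum fun b _ => ?_
      rw [Fintype.sum_sum_type]
      refine le_add_of_nonneg_right ?_
      exact Finset.sum_nonneg fun _ _ => Finset.sum_nonneg fun _ _ => sq_nonneg _
    · refine Finset.sum_le_sum fun k _ => Finset.sum_le_sum fun b _ => ?_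
      refine Finset.single_le_sum (f := fun y : ι ⊕ κ => ∑ d : ι, T (Sum.inr k, b) (y, d) ^ 2)
        (fun y _ => Finset.sum_nonneg fun _ _ => sq_nonneg _) (Finset.mem_univ (Sum.inr k))
  refine le_trans ?_ h2
  have h3 : ∑ a : ι, ∑ b : ι, ∑ c : ι, ∑ d : ι, T (Sum.inl a, b) (Sum.inl c, d) ^ 2 =
      (((Fintype.card ι : ℝ) - 2) * ∑ i, ∑ j, L i j ^ 2 + (∑ i, L i i) ^ 2) / 4 := by
    have e : ∀ a b c d : ι, T (Sum.inl a, b) (Sum.inl c, d) ^ 2 =
        (1 / 16 : ℝ) * ((if a = c then L d b else 0) - (if a = d then L c b else 0) -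
      (if b = c then L d a else 0) + (if b = d then L c a else 0)) ^ 2 := by
      intro a b c d
      rw [hT, D_entry_top]
      ring
    simp_rw [e, ← Finset.mul_sum]
    rw [top_sum L hL]
    ring
  have h4 : ∑ k : κ, ∑ b : ι, ∑ d : ι, T (Sum.inr k, b) (Sum.inr k, d) ^ 2 =
      (Fintype.card κ : ℝ) * ∑ i, ∑ j, L i j ^ 2 := by
    have e : ∀ (k : κ) (b d : ι), T (Sum.inr k, b) (Sum.inr k, d) ^ 2 = L d b ^ 2 := by
      intro k b d
      rw [hT, D_entry_bot]
    simp_rw [e]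
    rw [Finset.sum_const, Finset.card_univ, nsmul_eq_mul, Finset.sum_comm]
  rw [h3, h4, Fintype.card_sum]
  push_cast
  have h5 : 0 ≤ ∑ i, ∑ j, L i j ^ 2 :=
    Finset.sum_nonneg fun _ _ => Finset.sum_nonneg fun _ _ => sq_nonneg _
  have h6 : 0 ≤ (∑ i, L i i) ^ 2 := sq_nonneg _
  have h7 : (0 : ℝ) ≤ Fintype.card κ := by positivity
  nlinarith [mul_nonneg h7 h5]

/-- strong midpoint log-concavity of the orbit density -/
theorem logdet_mid {R : ℝ} (hR : 0 < R) {H K : Matrix ι ι ℝ} (hH : PD κ H) (hK : PD κ K)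
    (hHR : OpLe R (emb H : EuclideanSpace ℝ ((ι ⊕ κ) × ι)))
    (hKR : OpLe R (emb K : EuclideanSpace ℝ ((ι ⊕ κ) × ι))) :
    0 < LinearMap.det (Lop (κ := κ) R H) ∧
    LinearMap.det (Lop (κ := κ) R H) * LinearMap.det (Lop (κ := κ) R K) ≤
      LinearMap.det (Lop (κ := κ) R ((1 / 2 : ℝ) • (H + K))) ^ 2 *
        Real.exp (-(((Fintype.card (ι ⊕ κ) : ℝ) - 2) * ∑ i, ∑ j, (H i j - K i j) ^ 2) /
          (16 * R ^ 2)) := by
  have pos : ∀ {G : Matrix ι ι ℝ}, PD κ G → (toM (Lop (κ := κ) R G)).PosDef := by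
    intro G hG
    rw [Matrix.posDef_iff_dotProduct_mulVec]
    refine ⟨?_, fun x hx => ?_⟩
    · rw [Matrix.IsHermitian, Matrix.conjTranspose_eq_transpose_of_trivial]
      exact toM_transpose (Lop_symm R hG.1)
    · rw [star_trivial, toM_dot]
      refine Lop_pos hR hG ?_
      intro h0
      apply hx
      have := congrArg WithLp.ofLp h0
      simpa using this
  have hPA := pos hH
  have hPB := pos hK
  refine ⟨by rw [← toM_det]; exact hPA.det_pos, ?_⟩
  set L : Matrix ι ι ℝ := (1 / 2 : ℝ) • H + (-(1 / 2) : ℝ) • K with hLdef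
  set M := toM (Lop (κ := κ) R ((1 / 2 : ℝ) • (H + K))) with hM
  set D := toM (mm ∘ₗ rmul L ∘ₗ mm : EuclideanSpace ℝ ((ι ⊕ κ) × ι) →ₗ[ℝ] _) with hD
  have hLs : Lᵀ = L := by
    rw [hLdef, Matrix.transpose_add, Matrix.transpose_smul, Matrix.transpose_smul, hH.1, hK.1]
  have hmid : (1 / 2 : ℝ) • (H + K) = (1 / 2 : ℝ) • H + (1 / 2 : ℝ) • K := smul_add _ _ _
  have hlin : ∀ (a b : ℝ) (z : EuclideanSpace ℝ ((ι ⊕ κ) × ι)),
      mm (rmul (a • H + b • K) (mm z)) = a • mm (rmul H (mm z)) + b • mm (rmul K (mm z)) := by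
    intro a b z
    rw [rmul_lin]
    simp
  have hA : M + D = toM (Lop (κ := κ) R H) := by
    rw [hM, hD, ← toM_add]
    congr 1
    ext1 z
    change mm (rmul ((1 / 2 : ℝ) • (H + K)) (mm z)) + R • sl z + mm (rmul L (mm z)) =
      mm (rmul H (mm z)) + R • sl z
    rw [hmid, hLdef, hlin, hlin]
    module
  have hB : M - D = toM (Lop (κ := κ) R K) := by
    rw [hM, hD, ← toM_sub]
    congr 1
    ext1 z
    change mm (rmul ((1 / 2 : ℝ) • (H + K)) (mm z)) + R • sl z - mm (rmul L (mm z)) =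
      mm (rmul K (mm z)) + R • sl z
    rw [hmid, hLdef, hlin, hlin]
    module
  have hMM : M = (1 / 2 : ℝ) • (toM (Lop (κ := κ) R H) + toM (Lop (κ := κ) R K)) := by
    rw [← hA, ← hB]
    ext p q
    simp only [Matrix.smul_apply, Matrix.add_apply, Matrix.sub_apply, smul_eq_mul]
    ring
  have hPM : M.PosDef := by
    rw [hMM]
    exact (hPA.add hPB).smul (by norm_num)
  have hDs : Dᵀ = D := by
    refine toM_transpose fun x y => ?_
    simp only [LinearMap.comp_apply]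
    rw [inner_mm_left, inner_rmul, hLs, ← inner_mm_left]
  have hMR : ∀ x, x ⬝ᵥ (M *ᵥ x) ≤ R * (x ⬝ᵥ x) := by
    intro x
    have hn : x ⬝ᵥ x = ‖(WithLp.toLp 2 x : EuclideanSpace ℝ ((ι ⊕ κ) × ι))‖ ^ 2 := by
      rw [dot_self, EuclideanSpace.norm_sq_eq]
      simp
    rw [hMM, Matrix.smul_mulVec, Matrix.add_mulVec, dotProduct_smul, dotProduct_add, toM_dot,
      toM_dot, hn]
    have h1 := inner_Lop_le hR hH.1 hHR (WithLp.toLp 2 x)
    have h2 := inner_Lop_le hR hK.1 hKR (WithLp.toLp 2 x)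
    simp only [smul_eq_mul]
    linarith
  have hfin := det_mid hR hPM hDs (by rw [hA]; exact hPA.posSemidef)
    (by rw [hB]; exact hPB.posSemidef) hMR
  rw [hA, hB, toM_det, toM_det] at hfin
  rw [← toM_det (Lop (κ := κ) R ((1 / 2 : ℝ) • (H + K))), ← hM]
  refine hfin.trans ?_
  refine mul_le_mul_of_nonneg_left (Real.exp_le_exp.mpr ?_) (sq_nonneg _)
  have h1 := hs_D (κ := κ) L hLs
  rw [← hD] at h1
  have h2 : ∑ i, ∑ j, L i j ^ 2 = (1 / 4) * ∑ i, ∑ j, (H i j - K i j) ^ 2 := by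
    rw [Finset.mul_sum]
    refine Finset.sum_congr rfl fun i _ => ?_
    rw [Finset.mul_sum]
    refine Finset.sum_congr rfl fun j _ => ?_
    rw [hLdef]
    simp only [Matrix.add_apply, Matrix.smul_apply, smul_eq_mul]
    ring
  rw [h2] at h1
  rw [neg_div, neg_le_neg_iff, div_le_div_iff₀ (by positivity) (by positivity)]
  have h3 : 0 < R ^ 2 := by positivity
  nlinarith

end slice

end Pool.Agent.Lib.MP_6d896a_gt.OM
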