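import Mathlib
import Pool.Agent.Lib.MP_6d896a_gt.OM.Defs
import Pool.Agent.Lib.MP_6d896a_gt.OM.OrbitFlow
import Pool.Agent.Lib.MP_6d896a_gt.OM.LogDet
import Pool.Agent.Lib.MP_6d896a_gt.FP.Tail

/-!
Isotropic normalisation of rotation invariant log-concave measures on matrices by right
multiplication.
-/

set_option autoImplicit false
set_option linter.unusedSectionVars false

namespace Pool.Agent.Lib.MP_6d896a_gt.OM

open MeasureTheory ProbabilityTheory Matrix Set Filter
open Pool.Agent.Lib.MP_6d896a_gt.FP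
open scoped ENNReal Topology

/-- right multiplication -/
noncomputable def rm {r ι : Type*} [Fintype r] [Fintype ι] (T : Matrix ι ι ℝ) :
    EuclideanSpace ℝ (r × ι) →L[ℝ] EuclideanSpace ℝ (r × ι) :=
  LinearMap.toContinuousLinearMap
    { toFun := fun x => me (mt x * T)
      map_add' := fun x y => by rw [map_add, Matrix.add_mul, map_add]
      map_smul' := fun c x => by rw [map_smul, Matrix.smul_mul, map_smul]; rfl }

lemma rm_apply {r ι : Type*} [Fintype r] [Fintype ι] (T : Matrix ι ι ℝ)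
    (x : EuclideanSpace ℝ (r × ι)) : rm T x = me (mt x * T) := rfl

/-- a slab of measure at least `3/4` -/
lemma exists_slab {E : Type*} [MeasurableSpace E] {μ : Measure E} [IsProbabilityMeasure μ]
    (ξ : E → ℝ) : ∃ R : ℝ, 0 < R ∧ 3 / 4 ≤ μ.real {x | |ξ x| ≤ R} := by
  have hmono : Monotone (fun r : ℕ => {x : E | |ξ x| ≤ (r : ℝ)}) := by
    intro r r' hrr x hx
    simp only [mem_ofPred_eq] at hx ⊢
    exact hx.trans (by exact_mod_cast hrr)
  have hU : (⋃ r : ℕ, {x : E | |ξ x| ≤ (r : ℝ)}) = univ := by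
    ext x
    simp only [mem_iUnion, mem_ofPred_eq, mem_univ, iff_true]
    exact exists_nat_ge _
  have ht := tendsto_measure_iUnion_atTop (μ := μ) hmono
  rw [hU, measure_univ] at ht
  have ht2 := (ENNReal.tendsto_toReal ENNReal.one_ne_top).comp ht
  have : ∀ᶠ r : ℕ in atTop, (3 / 4 : ℝ) <
      (ENNReal.toReal ∘ (fun r : ℕ => μ {x : E | |ξ x| ≤ (r : ℝ)})) r :=
    ht2.eventually (lt_mem_nhds (by norm_num))
  obtain ⟨r, hr⟩ := this.exists
  refine ⟨r + 1, by positivity, hr.le.trans ?_⟩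
  apply measureReal_mono _ (by simp)
  intro x hx
  simp only [mem_ofPred_eq] at hx ⊢
  linarith

/-- linear functionals of log-concave measures have second moments -/
lemma plm_memLp {E : Type*} [NormedAddCommGroup E] [NormedSpace ℝ E] [MeasurableSpace E]
    [BorelSpace E] {μ : Measure E} [IsProbabilityMeasure μ] (h : PLm μ) (ℓ : E →L[ℝ] ℝ) :
    MemLp (fun x => ℓ x) 2 μ := by
  obtain ⟨R, hR, hslab⟩ := exists_slab (μ := μ) (fun x => ℓ x)
  have hm : Measurable fun x => ℓ x := ℓ.continuous.measurable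
  have hexp := h.exp_moment (ξ := fun x => ℓ x) hm (fun x y l => by simp) hR hslab
  rw [memLp_two_iff_integrable_sq hm.aestronglyMeasurable]
  have hint : Integrable (fun x => Real.exp (|ℓ x| / (4 * R))) μ := by
    refine ⟨(by fun_prop : Measurable fun x => Real.exp (|ℓ x| / (4 * R))).aestronglyMeasurable, ?_⟩
    rw [hasFiniteIntegral_iff_ofReal (Eventually.of_forall fun x => (Real.exp_pos _).le)]
    exact hexp.trans_lt (by norm_num)
  refine (hint.const_mul (32 * R ^ 2)).mono' (hm.pow_const 2).aestronglyMeasurable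
    (Eventually.of_forall fun x => ?_)
  rw [Real.norm_eq_abs, abs_of_nonneg (sq_nonneg _)]
  set t : ℝ := |ℓ x| / (4 * R) with ht
  have ht0 : 0 ≤ t := by positivity
  have h1 : ℓ x ^ 2 = 16 * R ^ 2 * t ^ 2 := by
    rw [ht, div_pow, sq_abs]; field_simp; ring
  have h2 : t ^ 2 / 2 ≤ Real.exp t := by
    have := Real.pow_div_factorial_le_exp t ht0 2
    simpa using this
  rw [h1]
  nlinarith [sq_nonneg R]

variable {r ι : Type} [Fintype r] [Fintype ι] [DecidableEq r] [DecidableEq ι]

lemma int_inner_mul {μ : Measure (EuclideanSpace ℝ (r × ι))}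
    (hm : ∀ L : EuclideanSpace ℝ (r × ι), MemLp (fun x => inner ℝ L x) 2 μ)
    (L M : EuclideanSpace ℝ (r × ι)) : Integrable (fun x => inner ℝ L x * inner ℝ M x) μ :=
  (hm L).integrable_mul (hm M)

/-- the second moment form -/
noncomputable def Sf {μ : Measure (EuclideanSpace ℝ (r × ι))}
    (hm : ∀ L : EuclideanSpace ℝ (r × ι), MemLp (fun x => inner ℝ L x) 2 μ) :
    EuclideanSpace ℝ (r × ι) →ₗ[ℝ] EuclideanSpace ℝ (r × ι) →ₗ[ℝ] ℝ :=
  LinearMap.mk₂ ℝ (fun L L' => ∫ x, inner ℝ L x * inner ℝ L' x ∂μ)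
    (by
      intro L L' M
      rw [← integral_add (int_inner_mul hm L M) (int_inner_mul hm L' M)]
      refine integral_congr_ae (Eventually.of_forall fun x => ?_)
      simp only [inner_add_left]; ring)
    (by
      intro c L M
      rw [smul_eq_mul, ← integral_const_mul]
      refine integral_congr_ae (Eventually.of_forall fun x => ?_)
      simp only [real_inner_smul_left]; ring)
    (by
      intro L M M'
      rw [← integral_add (int_inner_mul hm L M) (int_inner_mul hm L M')]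
      refine integral_congr_ae (Eventually.of_forall fun x => ?_)
      simp only [inner_add_left]; ring)
    (by
      intro c L M
      rw [smul_eq_mul, ← integral_const_mul]
      refine integral_congr_ae (Eventually.of_forall fun x => ?_)
      simp only [real_inner_smul_left]; ring)

lemma Sf_apply {μ : Measure (EuclideanSpace ℝ (r × ι))}
    (hm : ∀ L : EuclideanSpace ℝ (r × ι), MemLp (fun x => inner ℝ L x) 2 μ)
    (L L' : EuclideanSpace ℝ (r × ι)) :
    Sf hm L L' = ∫ x, inner ℝ L x * inner ℝ L' x ∂μ := rfl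

lemma inner_act_orth (u : Matrix.orthogonalGroup r ℝ) (L x : EuclideanSpace ℝ (r × ι)) :
    inner ℝ (act (u : Matrix r r ℝ) L) x =
      inner ℝ L (act ((u⁻¹ : Matrix.orthogonalGroup r ℝ) : Matrix r r ℝ) x) := by
  rw [inner_act, coe_inv_orth]

lemma integral_inv {μ : Measure (EuclideanSpace ℝ (r × ι))} (hinv : MInv μ)
    {u : Matrix.orthogonalGroup r ℝ} (hu : u ∈ RotG r) {h : EuclideanSpace ℝ (r × ι) → ℝ}
    (hh : Continuous h) : ∫ x, h (act (u : Matrix r r ℝ) x) ∂μ = ∫ x, h x ∂μ := by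
  have h2 := hinv u hu
  conv_rhs => rw [← h2]
  rw [integral_map (continuous_act_fix _).aemeasurable hh.aestronglyMeasurable]

/-- infinitesimal invariance of the mean -/
lemma mean_inf {μ : Measure (EuclideanSpace ℝ (r × ι))} [IsProbabilityMeasure μ] (hinv : MInv μ)
    (hm : ∀ L : EuclideanSpace ℝ (r × ι), MemLp (fun x => inner ℝ L x) 2 μ)
    {Z : Matrix r r ℝ} (hZ : Zᵀ = -Z) (L : EuclideanSpace ℝ (r × ι)) :
    ∫ x, inner ℝ (act Z L) x ∂μ = 0 := by
  have hi : ∀ L : EuclideanSpace ℝ (r × ι), Integrable (fun x => inner ℝ L x) μ :=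
    fun L => (hm L).integrable (by norm_num)
  let m : EuclideanSpace ℝ (r × ι) →ₗ[ℝ] ℝ :=
    { toFun := fun L => ∫ x, inner ℝ L x ∂μ
      map_add' := fun L L' => by
        rw [← integral_add (hi L) (hi L')]
        simp only [inner_add_left]
      map_smul' := fun c L => by
        rw [RingHom.id_apply, smul_eq_mul, ← integral_const_mul]
        simp only [real_inner_smul_left] }
  let m' : EuclideanSpace ℝ (r × ι) →L[ℝ] ℝ := LinearMap.toContinuousLinearMap m
  have hd := m'.hasFDerivAt.comp_hasDerivAt (0 : ℝ) (hasDerivAt_fl Z L 0)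
  have hc : (m' ∘ fun s => fl Z s L) = fun _ => m' L := by
    funext s
    change ∫ x, inner ℝ (fl Z s L) x ∂μ = ∫ x, inner ℝ L x ∂μ
    have h1 : ∀ x, inner ℝ (fl Z s L) x = inner ℝ L
        (act (((expG (s • Z) (fl_smul_skew hZ s))⁻¹ : Matrix.orthogonalGroup r ℝ) : Matrix r r ℝ) x) := by
      intro x
      rw [fl_eq Z hZ, inner_act_orth]
    simp only [h1]
    exact integral_inv hinv ((RotG r).inv_mem (expG_mem (s • Z) (fl_smul_skew hZ s)))
      (h := fun x => inner ℝ L x) (by fun_prop)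
  rw [hc, fl_zero] at hd
  have := hd.unique (hasDerivAt_const (0 : ℝ) (m' L))
  exact this

/-- infinitesimal invariance of the second moments -/
lemma Sf_inf {μ : Measure (EuclideanSpace ℝ (r × ι))} [IsProbabilityMeasure μ] (hinv : MInv μ)
    (hm : ∀ L : EuclideanSpace ℝ (r × ι), MemLp (fun x => inner ℝ L x) 2 μ)
    {Z : Matrix r r ℝ} (hZ : Zᵀ = -Z) (L L' : EuclideanSpace ℝ (r × ι)) :
    Sf hm (act Z L) L' + Sf hm L (act Z L') = 0 := by
  let B' : EuclideanSpace ℝ (r × ι) →L[ℝ] EuclideanSpace ℝ (r × ι) →L[ℝ] ℝ :=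
    LinearMap.toContinuousLinearMap
      ((LinearMap.toContinuousLinearMap (𝕜 := ℝ) (E := EuclideanSpace ℝ (r × ι))
        (F' := ℝ)).toLinearMap ∘ₗ Sf hm)
  have hB : ∀ L L', B' L L' = Sf hm L L' := fun _ _ => rfl
  have hd := (B'.hasFDerivAt.comp_hasDerivAt (0 : ℝ) (hasDerivAt_fl Z L 0)).clm_apply
    (hasDerivAt_fl Z L' 0)
  have hc : (fun s => (B' ∘ fun s => fl Z s L) s (fl Z s L')) = fun _ => B' L L' := by
    funext s
    change ∫ x, inner ℝ (fl Z s L) x * inner ℝ (fl Z s L') x ∂μ =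
      ∫ x, inner ℝ L x * inner ℝ L' x ∂μ
    have h1 : ∀ L x : EuclideanSpace ℝ (r × ι), inner ℝ (fl Z s L) x = inner ℝ L
        (act (((expG (s • Z) (fl_smul_skew hZ s))⁻¹ : Matrix.orthogonalGroup r ℝ) : Matrix r r ℝ) x) := by
      intro L x
      rw [fl_eq Z hZ, inner_act_orth]
    simp only [h1]
    exact integral_inv hinv ((RotG r).inv_mem (expG_mem (s • Z) (fl_smul_skew hZ s)))
      (h := fun x => inner ℝ L x * inner ℝ L' x) (by fun_prop)
  rw [hc] at hd
  have := hd.unique (hasDerivAt_const (0 : ℝ) (B' L L'))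
  simp only [Function.comp_apply, fl_zero] at this
  exact this

/-- matrix units -/
noncomputable def eb (j : r) (a : ι) : EuclideanSpace ℝ (r × ι) := EuclideanSpace.single (j, a) 1

lemma eb_apply (j : r) (a : ι) (k : r) (b : ι) :
    (eb j a : EuclideanSpace ℝ (r × ι)) (k, b) = if k = j ∧ b = a then 1 else 0 := by
  simp [eb]

lemma act_rz (i j : r) (x : EuclideanSpace ℝ (r × ι)) (k : r) (b : ι) :
    act (rz i j) x (k, b) = (if k = i then x (j, b) else 0) - (if k = j then x (i, b) else 0) := by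
  rw [act_apply]
  simp only [rz, Matrix.sub_apply, Matrix.single_apply, sub_mul, Finset.sum_sub_distrib]
  congr 1
  · rw [Finset.sum_eq_single j]
    · by_cases h : k = i
      · simp [h]
      · simp [h, Ne.symm h]
    · intro l _ hl
      simp [Ne.symm hl]
    · simp
  · rw [Finset.sum_eq_single i]
    · by_cases h : k = j
      · simp [h]
      · simp [h, Ne.symm h]
    · intro l _ hl
      simp [Ne.symm hl]
    · simp

lemma act_rz_right {i j : r} (h : i ≠ j) (a : ι) :
    act (rz i j) (eb j a : EuclideanSpace ℝ (r × ι)) = eb i a := by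
  ext ⟨k, b⟩
  rw [act_rz, eb_apply, eb_apply, eb_apply]
  by_cases h1 : k = i <;> by_cases h2 : k = j <;> by_cases h3 : b = a <;> simp_all

lemma act_rz_left {i j : r} (h : i ≠ j) (a : ι) :
    act (rz i j) (eb i a : EuclideanSpace ℝ (r × ι)) = - eb j a := by
  have h' := h.symm
  ext ⟨k, b⟩
  rw [act_rz, PiLp.neg_apply, eb_apply, eb_apply, eb_apply]
  by_cases h1 : k = i <;> by_cases h2 : k = j <;> by_cases h3 : b = a <;> simp_all

lemma act_rz_other {i j k : r} (h : k ≠ i) (h' : k ≠ j) (a : ι) :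
    act (rz i j) (eb k a : EuclideanSpace ℝ (r × ι)) = 0 := by
  ext ⟨l, b⟩
  rw [act_rz, PiLp.zero_apply, eb_apply, eb_apply]
  simp [Ne.symm h, Ne.symm h']

lemma exists_third (hr : 3 ≤ Fintype.card r) (j k : r) : ∃ i : r, i ≠ j ∧ i ≠ k := by
  by_contra hcon
  push Not at hcon
  have h1 : (Finset.univ : Finset r) ⊆ {j, k} := by
    intro i _
    by_cases h : i = j
    · simp [h]
    · simp [hcon i h]
  have h2 := Finset.card_le_card h1
  rw [Finset.card_univ] at h2
  have h3 := Finset.card_le_two (a := j) (b := k)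
  omega

lemma expand (L : EuclideanSpace ℝ (r × ι)) : L = ∑ j, ∑ a, L (j, a) • eb j a := by
  ext ⟨k, b⟩
  simp only [WithLp.ofLp_sum, Finset.sum_apply, WithLp.ofLp_smul, Pi.smul_apply,
    eb_apply, smul_eq_mul]
  rw [Finset.sum_eq_single k, Finset.sum_eq_single b]
  · simp
  · intro a _ ha; simp [Ne.symm ha]
  · simp
  · intro j _ hj
    refine Finset.sum_eq_zero fun a _ => ?_
    simp [Ne.symm hj]
  · simp

lemma Sf_form (hr : 3 ≤ Fintype.card r) {μ : Measure (EuclideanSpace ℝ (r × ι))}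
    [IsProbabilityMeasure μ] (hinv : MInv μ)
    (hm : ∀ L : EuclideanSpace ℝ (r × ι), MemLp (fun x => inner ℝ L x) 2 μ) (j0 : r)
    (L L' : EuclideanSpace ℝ (r × ι)) :
    Sf hm L L' = ∑ j, ∑ a, ∑ b, L (j, a) * L' (j, b) * Sf hm (eb j0 a) (eb j0 b) := by
  have c1 : ∀ (j k : r) (a b : ι), j ≠ k → Sf hm (eb j a) (eb k b) = 0 := by
    intro j k a b hjk
    obtain ⟨i, hij, hik⟩ := exists_third hr j k
    have h := Sf_inf hinv hm (rz_skew i j) (eb i a) (eb k b)
    rw [act_rz_left hij, act_rz_other (Ne.symm hik) (Ne.symm hjk)] at h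
    simp only [map_neg, LinearMap.neg_apply, map_zero, add_zero, neg_eq_zero] at h
    exact h
  have c2 : ∀ (j : r) (a b : ι), Sf hm (eb j a) (eb j b) = Sf hm (eb j0 a) (eb j0 b) := by
    intro j a b
    by_cases hj : j = j0
    · rw [hj]
    · have h := Sf_inf hinv hm (rz_skew j j0) (eb j0 a) (eb j b)
      rw [act_rz_right hj, act_rz_left hj] at h
      simp only [map_neg] at h
      linarith
  conv_lhs => rw [expand L, expand L']
  simp only [map_sum, LinearMap.sum_apply, map_smul, LinearMap.smul_apply, smul_eq_mul]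
  refine Finset.sum_congr rfl fun k _ => ?_
  have e1 : ∀ b, ∑ j, ∑ a, L (j, a) * Sf hm (eb j a) (eb k b) =
      ∑ a, L (k, a) * Sf hm (eb j0 a) (eb j0 b) := by
    intro b
    rw [Finset.sum_eq_single k]
    · simp only [c2]
    · intro j _ hj
      refine Finset.sum_eq_zero fun a _ => ?_
      rw [c1 j k a b hj, mul_zero]
    · simp
  simp only [e1]
  simp only [Finset.mul_sum]
  rw [Finset.sum_comm]
  refine Finset.sum_congr rfl fun a _ => Finset.sum_congr rfl fun b _ => ?_
  ring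

lemma mean_zero (hr : 3 ≤ Fintype.card r) {μ : Measure (EuclideanSpace ℝ (r × ι))}
    [IsProbabilityMeasure μ] (hinv : MInv μ)
    (hm : ∀ L : EuclideanSpace ℝ (r × ι), MemLp (fun x => inner ℝ L x) 2 μ)
    (L : EuclideanSpace ℝ (r × ι)) : ∫ x, inner ℝ L x ∂μ = 0 := by
  have hi : ∀ L : EuclideanSpace ℝ (r × ι), Integrable (fun x => inner ℝ L x) μ :=
    fun L => (hm L).integrable (by norm_num)
  have h1 : ∀ (j : r) (a : ι), ∫ x, inner ℝ (eb j a : EuclideanSpace ℝ (r × ι)) x ∂μ = 0 := by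
    intro j a
    obtain ⟨i, hij, _⟩ := exists_third hr j j
    rw [← act_rz_right hij.symm a]
    exact mean_inf hinv hm (rz_skew j i) (eb i a)
  conv_lhs => rw [expand L]
  have h2 : ∀ x : EuclideanSpace ℝ (r × ι), inner ℝ (∑ j, ∑ a, L (j, a) • eb j a) x =
      ∑ j, ∑ a, L (j, a) * inner ℝ (eb j a : EuclideanSpace ℝ (r × ι)) x := by
    intro x
    rw [sum_inner]
    refine Finset.sum_congr rfl fun j _ => ?_
    rw [sum_inner]
    refine Finset.sum_congr rfl fun a _ => ?_
    rw [real_inner_smul_left]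
  simp only [h2]
  rw [integral_finsetSum _ (fun j _ => integrable_finsetSum _ fun a _ => (hi _).const_mul _)]
  refine Finset.sum_eq_zero fun j _ => ?_
  rw [integral_finsetSum _ (fun a _ => (hi _).const_mul _)]
  refine Finset.sum_eq_zero fun a _ => ?_
  rw [integral_const_mul, h1, mul_zero]

/-- linear functionals are not almost surely constant -/
lemma Sf_pos {μ : Measure (EuclideanSpace ℝ (r × ι))} [IsProbabilityMeasure μ]
    (hac : μ ≪ volume)
    (hm : ∀ L : EuclideanSpace ℝ (r × ι), MemLp (fun x => inner ℝ L x) 2 μ)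
    {L : EuclideanSpace ℝ (r × ι)} (hL : L ≠ 0) : 0 < Sf hm L L := by
  have h0 : 0 ≤ Sf hm L L := by
    rw [Sf_apply]
    exact integral_nonneg fun x => mul_self_nonneg _
  refine lt_of_le_of_ne h0 fun h => ?_
  rw [Sf_apply, eq_comm, integral_eq_zero_iff_of_nonneg (fun x => mul_self_nonneg _)
    (int_inner_mul hm L L)] at h
  have h1 : ∀ᵐ x ∂μ, inner ℝ L x = 0 := by
    filter_upwards [h] with x hx
    simpa using hx
  set P : Submodule ℝ (EuclideanSpace ℝ (r × ι)) := LinearMap.ker (innerSL ℝ L).toLinearMap with hP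
  have hPt : P ≠ ⊤ := by
    intro htop
    have : L ∈ P := by rw [htop]; trivial
    rw [hP, LinearMap.mem_ker] at this
    have h2 : inner ℝ L L = 0 := this
    exact hL (inner_self_eq_zero.mp h2)
  have h3 : (volume : Measure (EuclideanSpace ℝ (r × ι))) (P : Set _) = 0 :=
    Measure.addHaar_submodule volume P hPt
  have h4 : μ (P : Set _) = 0 := hac h3
  have h5 : ∀ᵐ x ∂μ, x ∉ (P : Set (EuclideanSpace ℝ (r × ι))) := by
    rw [ae_iff]; simpa using h4
  have h6 : ∀ᵐ x ∂μ, False := by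
    filter_upwards [h1, h5] with x hx hx'
    exact hx' hx
  rw [ae_iff] at h6
  simp at h6

/-- S-N: isotropic normalisation by right multiplication -/
theorem isotropize {r ι : Type} [Fintype r] [Fintype ι] [DecidableEq r] [DecidableEq ι]
    (hr : 3 ≤ Fintype.card r) {μ : Measure (EuclideanSpace ℝ (r × ι))} [IsProbabilityMeasure μ]
    (hPL : PLm μ) (hac : μ ≪ volume) (hinv : MInv μ) :
    ∃ T : Matrix ι ι ℝ, IsUnit T.det ∧ ∀ ℓ : EuclideanSpace ℝ (r × ι) →L[ℝ] ℝ,
      Var[fun x => ℓ x; μ.map (rm T)] = ‖ℓ‖ ^ 2 := by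
  have hm : ∀ L : EuclideanSpace ℝ (r × ι), MemLp (fun x => inner ℝ L x) 2 μ :=
    fun L => plm_memLp hPL (innerSL ℝ L)
  have hne : Nonempty r := Fintype.card_pos_iff.mp (by omega)
  obtain ⟨j0⟩ := hne
  set S : Matrix ι ι ℝ := Matrix.of fun a b => Sf hm (eb j0 a) (eb j0 b) with hS
  have hform : ∀ L L' : EuclideanSpace ℝ (r × ι), Sf hm L L' =
      ∑ j, ∑ a, ∑ b, L (j, a) * L' (j, b) * S a b := fun L L' => Sf_form hr hinv hm j0 L L'
  have hSpos : S.PosDef := by
    refine Matrix.PosDef.of_dotProduct_mulVec_pos ?_ ?_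
    · ext a b
      rw [Matrix.conjTranspose_apply, star_trivial, hS, Matrix.of_apply, Matrix.of_apply,
        Sf_apply, Sf_apply]
      simp only [mul_comm]
    · intro v hv
      set L : EuclideanSpace ℝ (r × ι) := ∑ a, v a • eb j0 a with hLdef
      have hLe : ∀ j a, L (j, a) = if j = j0 then v a else 0 := by
        intro j a
        simp only [hLdef, WithLp.ofLp_sum, Finset.sum_apply, WithLp.ofLp_smul, Pi.smul_apply,
          eb_apply, smul_eq_mul]
        rw [Finset.sum_eq_single a]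
        · by_cases h : j = j0 <;> simp [h]
        · intro b _ hb; simp [Ne.symm hb]
        · simp
      have hL : L ≠ 0 := by
        intro h0
        apply hv
        funext a
        have := hLe j0 a
        rw [h0] at this
        simpa using this.symm
      have h1 := Sf_pos hac hm hL
      rw [hform] at h1
      have h2 : ∑ j, ∑ a, ∑ b, L (j, a) * L (j, b) * S a b = star v ⬝ᵥ (S *ᵥ v) := by
        rw [Finset.sum_eq_single j0]
        · simp only [hLe, if_true, dotProduct, Matrix.mulVec, star_trivial, Finset.mul_sum]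
          refine Finset.sum_congr rfl fun a _ => Finset.sum_congr rfl fun b _ => ?_
          ring
        · intro j _ hj
          refine Finset.sum_eq_zero fun a _ => Finset.sum_eq_zero fun b _ => ?_
          rw [hLe, if_neg hj]; ring
        · simp
      rwa [h2] at h1
  obtain ⟨B, hB⟩ := psd_factor hSpos.posSemidef
  have hdet : IsUnit B.det := by
    have h1 := hSpos.det_pos
    rw [hB, Matrix.det_mul, Matrix.det_transpose] at h1
    rw [isUnit_iff_ne_zero]
    intro h0
    rw [h0] at h1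
    simp at h1
  have hTS : (B⁻¹)ᵀ * S * B⁻¹ = 1 := by
    rw [hB, Matrix.transpose_nonsing_inv]
    have h1 : Bᵀ⁻¹ * Bᵀ = 1 := Matrix.nonsing_inv_mul _ (by rwa [Matrix.det_transpose])
    have h2 : B * B⁻¹ = 1 := Matrix.mul_nonsing_inv _ hdet
    calc Bᵀ⁻¹ * (Bᵀ * B) * B⁻¹ = (Bᵀ⁻¹ * Bᵀ) * (B * B⁻¹) := by simp only [Matrix.mul_assoc]
      _ = 1 := by rw [h1, h2, one_mul]
  refine ⟨B⁻¹, by rw [Matrix.det_nonsing_inv]; exact hdet.ringInverse, fun ℓ => ?_⟩
  set G : EuclideanSpace ℝ (r × ι) := (InnerProductSpace.toDual ℝ _).symm ℓ with hG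
  have hℓ : ∀ y, ℓ y = inner ℝ G y := fun y => by
    rw [hG, InnerProductSpace.toDual_symm_apply]
  have hn : ‖ℓ‖ = ‖G‖ := by rw [hG, LinearIsometryEquiv.norm_map]
  set L : EuclideanSpace ℝ (r × ι) := me (mt G * (B⁻¹)ᵀ) with hLdef
  have hL : ∀ x, ℓ (rm B⁻¹ x) = inner ℝ L x := by
    intro x
    rw [hℓ, rm_apply, inner_eq_trace, inner_eq_trace, mt_me, hLdef, mt_me,
      Matrix.transpose_mul, Matrix.transpose_transpose, ← Matrix.mul_assoc,
      Matrix.trace_mul_comm, Matrix.mul_assoc]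
  rw [variance_map (X := fun x => ℓ x) (by fun_prop) (by fun_prop)]
  have h1 : (fun x => ℓ x) ∘ (rm B⁻¹ : EuclideanSpace ℝ (r × ι) →L[ℝ] _) =
      fun x => inner ℝ L x := by
    funext x; exact hL x
  rw [h1, variance_eq_sub (hm L), mean_zero hr hinv hm L]
  have h2 : ∫ x, ((fun x => inner ℝ L x) ^ 2) x ∂μ = Sf hm L L := by
    rw [Sf_apply]
    refine integral_congr_ae (Eventually.of_forall fun x => ?_)
    simp [sq]
  rw [h2, hform, hn, norm_sq_eq_sum]
  have h3 : ∀ A : Matrix r ι ℝ, ∑ j, ∑ a, ∑ b, A j a * A j b * S a b = (A * S * Aᵀ).trace := by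
    intro A
    simp only [Matrix.trace, Matrix.diag, Matrix.mul_apply, Matrix.transpose_apply]
    refine Finset.sum_congr rfl fun j _ => ?_
    rw [Finset.sum_comm]
    refine Finset.sum_congr rfl fun b _ => ?_
    rw [Finset.sum_mul]
    refine Finset.sum_congr rfl fun a _ => ?_
    ring
  have h4 : ∑ j, ∑ a, ∑ b, L (j, a) * L (j, b) * S a b =
      ((mt L) * S * (mt L)ᵀ).trace := h3 (mt L)
  rw [h4, hLdef, mt_me, Matrix.transpose_mul, Matrix.transpose_transpose]
  have h5 : mt G * (B⁻¹)ᵀ * S * (B⁻¹ * (mt G)ᵀ) = mt G * (mt G)ᵀ := by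
    calc mt G * (B⁻¹)ᵀ * S * (B⁻¹ * (mt G)ᵀ) = mt G * ((B⁻¹)ᵀ * S * B⁻¹) * (mt G)ᵀ := by
          simp only [Matrix.mul_assoc]
      _ = mt G * (mt G)ᵀ := by rw [hTS, Matrix.mul_one]
  rw [h5]
  simp [Matrix.trace, Matrix.mul_apply, sq]

end Pool.Agent.Lib.MP_6d896a_gt.OM
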