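import Mathlib
import Pool.Agent.Lib.MP_6d896a_gt.OM.Haar

/-!
The integration formula for rotation invariant functions of a matrix (final form).
-/

set_option autoImplicit false
set_option linter.unusedSectionVars false

namespace Pool.Agent.Lib.MP_6d896a_gt.OM

open MeasureTheory ProbabilityTheory Matrix Set Filter
open scoped ENNReal Topology

lemma prod_haar {E : Type*} [NormedAddCommGroup E] [InnerProductSpace ℝ E] [FiniteDimensional ℝ E]
    [MeasurableSpace E] [BorelSpace E] (S M : Submodule ℝ E) (e : (S × M) ≃L[ℝ] E) :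
    ∃ c : ℝ≥0∞, c ≠ 0 ∧ c ≠ ∞ ∧ (volume : Measure E) =
      c • (((volume : Measure S).prod (volume : Measure M)).map e) := by
  have h2 : (((volume : Measure S).prod (volume : Measure M)).map e).IsAddHaarMeasure :=
    e.isAddHaarMeasure_map _
  exact ⟨_, by simpa using
    (Measure.addHaarScalarFactor_pos_of_isAddHaarMeasure (volume : Measure E)
      (((volume : Measure S).prod (volume : Measure M)).map e)).ne',
    ENNReal.coe_ne_top, Measure.isAddLeftInvariant_eq_smul _ _⟩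

variable {ι κ : Type*} [Fintype ι] [Fintype κ]

/-- the slice as a subspace -/
noncomputable def Ss (ι κ : Type*) [Fintype ι] [Fintype κ] :
    Submodule ℝ (EuclideanSpace ℝ ((ι ⊕ κ) × ι)) := LinearMap.ker mm

/-- the complement of the slice -/
noncomputable def Ms (ι κ : Type*) [Fintype ι] [Fintype κ] :
    Submodule ℝ (EuclideanSpace ℝ ((ι ⊕ κ) × ι)) := LinearMap.ker sl

lemma mem_Ss {x : EuclideanSpace ℝ ((ι ⊕ κ) × ι)} : x ∈ Ss ι κ ↔ mm x = 0 := LinearMap.mem_ker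

lemma mem_Ms {x : EuclideanSpace ℝ ((ι ⊕ κ) × ι)} : x ∈ Ms ι κ ↔ sl x = 0 := LinearMap.mem_ker

lemma sl_of_mem {x : EuclideanSpace ℝ ((ι ⊕ κ) × ι)} (h : x ∈ Ss ι κ) : sl x = x := by
  have := sl_add_mm x
  rwa [mem_Ss.mp h, add_zero] at this

lemma mm_of_mem {x : EuclideanSpace ℝ ((ι ⊕ κ) × ι)} (h : x ∈ Ms ι κ) : mm x = x := by
  have := sl_add_mm x
  rwa [mem_Ms.mp h, zero_add] at this

/-- the decomposition of the space of matrices -/
noncomputable def splitE (ι κ : Type*) [Fintype ι] [Fintype κ] :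
    (Ss ι κ × Ms ι κ) ≃L[ℝ] EuclideanSpace ℝ ((ι ⊕ κ) × ι) :=
  LinearEquiv.toContinuousLinearEquiv
    { toFun := fun p => (p.1 : EuclideanSpace ℝ ((ι ⊕ κ) × ι)) + p.2
      map_add' := fun p q => by
        simp only [Prod.fst_add, Prod.snd_add, Submodule.coe_add]; abel
      map_smul' := fun c p => by
        simp only [Prod.smul_fst, Prod.smul_snd, Submodule.coe_smul, RingHom.id_apply, smul_add]
      invFun := fun x => (⟨sl x, mem_Ss.mpr (mm_sl x)⟩, ⟨mm x, mem_Ms.mpr (sl_mm x)⟩)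
      left_inv := fun p => by
        ext1
        · ext1
          change sl ((p.1 : EuclideanSpace ℝ ((ι ⊕ κ) × ι)) +
            (p.2 : EuclideanSpace ℝ ((ι ⊕ κ) × ι))) = (p.1 : EuclideanSpace ℝ ((ι ⊕ κ) × ι))
          rw [map_add, sl_of_mem p.1.2, mem_Ms.mp p.2.2, add_zero]
        · ext1
          change mm ((p.1 : EuclideanSpace ℝ ((ι ⊕ κ) × ι)) +
            (p.2 : EuclideanSpace ℝ ((ι ⊕ κ) × ι))) = (p.2 : EuclideanSpace ℝ ((ι ⊕ κ) × ι))
          rw [map_add, mm_of_mem p.2.2, mem_Ss.mp p.1.2, zero_add]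
      right_inv := fun x => sl_add_mm x }

lemma splitE_apply (p : Ss ι κ × Ms ι κ) :
    splitE ι κ p = (p.1 : EuclideanSpace ℝ ((ι ⊕ κ) × ι)) + p.2 := rfl

lemma product_split : ∃ c : ℝ≥0∞, c ≠ 0 ∧ c ≠ ∞ ∧
    ∀ a b : EuclideanSpace ℝ ((ι ⊕ κ) × ι) → ℝ≥0∞, Measurable a → Measurable b →
      ∫⁻ x, a (sl x) * b (mm x) = c * ((∫⁻ s : Ss ι κ, a s) * ∫⁻ t : Ms ι κ, b t) := by
  obtain ⟨c, hc0, hc1, hc⟩ := prod_haar (Ss ι κ) (Ms ι κ) (splitE ι κ)
  refine ⟨c, hc0, hc1, fun a b ha hb => ?_⟩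
  have hsl : Measurable (sl : EuclideanSpace ℝ ((ι ⊕ κ) × ι) → _) :=
    (LinearMap.continuous_of_finiteDimensional sl).measurable
  have hmm : Measurable (mm : EuclideanSpace ℝ ((ι ⊕ κ) × ι) → _) :=
    (LinearMap.continuous_of_finiteDimensional mm).measurable
  have hF : Measurable fun x : EuclideanSpace ℝ ((ι ⊕ κ) × ι) => a (sl x) * b (mm x) :=
    (ha.comp hsl).mul (hb.comp hmm)
  conv_lhs => rw [hc]
  rw [lintegral_smul_measure, lintegral_map hF (splitE ι κ).continuous.measurable, smul_eq_mul]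
  congr 1
  have h3 : ∀ p : Ss ι κ × Ms ι κ, a (sl (splitE ι κ p)) * b (mm (splitE ι κ p)) =
      a p.1 * b p.2 := by
    intro p
    rw [splitE_apply, map_add, map_add, sl_of_mem p.1.2, mem_Ms.mp p.2.2, add_zero,
      mm_of_mem p.2.2, mem_Ss.mp p.1.2, zero_add]
  simp_rw [h3]
  exact lintegral_prod_mul (f := fun s : Ss ι κ => a s) (g := fun t : Ms ι κ => b t)
    (ha.comp measurable_subtype_coe).aemeasurable (hb.comp measurable_subtype_coe).aemeasurable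

variable [DecidableEq ι] [DecidableEq κ]

lemma continuous_Lop : Continuous fun x : EuclideanSpace ℝ ((ι ⊕ κ) × ι) =>
    LinearMap.toContinuousLinearMap (Lop (κ := κ) 1 (Sy x)) := by
  let Λ : EuclideanSpace ℝ ((ι ⊕ κ) × ι) →ₗ[ℝ]
      (EuclideanSpace ℝ ((ι ⊕ κ) × ι) →L[ℝ] EuclideanSpace ℝ ((ι ⊕ κ) × ι)) :=
    { toFun := fun x => LinearMap.toContinuousLinearMap (mm ∘ₗ rmul (Sy x) ∘ₗ mm)
      map_add' := fun x y => by
        ext1 z
        simp only [LinearMap.coe_toContinuousLinearMap', LinearMap.comp_apply, _root_.add_apply,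
          map_add, rmul_add_left]
      map_smul' := fun c x => by
        ext1 z
        simp only [LinearMap.coe_toContinuousLinearMap', LinearMap.comp_apply, _root_.smul_apply,
          map_smul, rmul_smul_left, RingHom.id_apply] }
  have h : (fun x : EuclideanSpace ℝ ((ι ⊕ κ) × ι) =>
      LinearMap.toContinuousLinearMap (Lop (κ := κ) 1 (Sy x))) = fun x => Λ x +
      LinearMap.toContinuousLinearMap sl := by
    funext x
    ext1 z
    change mm (rmul (Sy x) (mm z)) + (1 : ℝ) • sl z = mm (rmul (Sy x) (mm z)) + sl z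
    rw [one_smul]
  rw [h]
  exact (LinearMap.continuous_of_finiteDimensional Λ).add continuous_const

lemma continuous_Jd : Continuous fun x : EuclideanSpace ℝ ((ι ⊕ κ) × ι) => Jd κ (Sy x) := by
  have h : (fun x : EuclideanSpace ℝ ((ι ⊕ κ) × ι) => Jd κ (Sy x)) = fun x =>
      |(LinearMap.toContinuousLinearMap (Lop (κ := κ) 1 (Sy x))).det| := rfl
  rw [h]
  exact (ContinuousLinearMap.continuous_det.comp continuous_Lop).abs

/-- weight of the integration formula -/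
noncomputable def Wt (x : EuclideanSpace ℝ ((ι ⊕ κ) × ι)) : ℝ≥0∞ :=
  {x : EuclideanSpace ℝ ((ι ⊕ κ) × ι) | PD κ (Sy x) ∧ ‖mm x‖ < 1}.indicator
    (fun x => ENNReal.ofReal (Jd κ (Sy x))) x

lemma good_sl {x : EuclideanSpace ℝ ((ι ⊕ κ) × ι)} : sl x ∈ Good ι κ ↔ x ∈ Good ι κ := by
  have : Good ι κ = {x | PD κ (Sy x) ∧ (Sy x).det ≠ 0} := rfl
  rw [this]
  simp only [mem_ofPred_eq, Sy_sl]

/-- integration formula -/
theorem integration : ∃ c : ℝ≥0∞, c ≠ 0 ∧ c ≠ ∞ ∧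
    ∀ Φ : EuclideanSpace ℝ ((ι ⊕ κ) × ι) → ℝ≥0∞, Measurable Φ → RInv Φ →
      ∫⁻ x, Φ x = c * ∫⁻ x, Wt x * Φ (sl x) := by
  obtain ⟨δ1, hδ1, hinj1⟩ := exists_inj (ι := ι) (κ := κ)
  obtain ⟨δ2, hδ2, hdet2⟩ := exists_det (ι := ι) (κ := κ)
  set δ := min δ1 δ2 with hδdef
  have hδ : 0 < δ := lt_min hδ1 hδ2
  have hinj : ∀ x y : EuclideanSpace ℝ ((ι ⊕ κ) × ι), ‖mm x‖ < δ →
    ‖mm y‖ < δ → act (mt (Ex x)) (emb 1) = act (mt (Ex y)) (emb 1) → mm x = mm y :=
    fun x y hx hy => hinj1 x y (hx.trans_le (min_le_left _ _)) (hy.trans_le (min_le_left _ _))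
  have hdet : ∀ x : EuclideanSpace ℝ ((ι ⊕ κ) × ι), ‖mm x‖ < δ →
    1 / 2 ≤ |(Tx x).det| ∧ |(Tx x).det| ≤ 2 :=
    fun x hx => hdet2 x (hx.trans_le (min_le_right _ _))
  obtain ⟨c0, hc0, hc0', hsplit⟩ := product_split (ι := ι) (κ := κ)
  have hJm : Measurable fun x : EuclideanSpace ℝ ((ι ⊕ κ) × ι) => ENNReal.ofReal (Jd κ (Sy x)) :=
    continuous_Jd.measurable.ennreal_ofReal
  have hTm : Measurable fun x : EuclideanSpace ℝ ((ι ⊕ κ) × ι) =>
      ENNReal.ofReal |(Tx x).det| :=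
    (ContinuousLinearMap.continuous_det.comp continuous_Tx).abs.measurable.ennreal_ofReal
  have hGm : MeasurableSet (Good ι κ) := isOpen_Good.measurableSet
  have hbm : ∀ ε : ℝ, MeasurableSet {x : EuclideanSpace ℝ ((ι ⊕ κ) × ι) | ‖x‖ < ε} :=
    fun ε => measurableSet_lt measurable_norm measurable_const
  -- the factors
  let a : (EuclideanSpace ℝ ((ι ⊕ κ) × ι) → ℝ≥0∞) → EuclideanSpace ℝ ((ι ⊕ κ) × ι) → ℝ≥0∞ :=
    fun Φ => (Good ι κ).indicator fun x => ENNReal.ofReal (Jd κ (Sy x)) * Φ x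
  let bδ : EuclideanSpace ℝ ((ι ⊕ κ) × ι) → ℝ≥0∞ :=
    {x | ‖x‖ < δ}.indicator fun x => ENNReal.ofReal |(Tx x).det|
  let b1 : EuclideanSpace ℝ ((ι ⊕ κ) × ι) → ℝ≥0∞ := {x | ‖x‖ < 1}.indicator 1
  have ham : ∀ Φ, Measurable Φ → Measurable (a Φ) := fun Φ hΦ => (hJm.mul hΦ).indicator hGm
  have hbδm : Measurable bδ := hTm.indicator (hbm δ)
  have hb1m : Measurable b1 := measurable_one.indicator (hbm 1)
  set βδ := ∫⁻ t : Ms ι κ, bδ t with hβδ
  set β1 := ∫⁻ t : Ms ι κ, b1 t with hβ1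
  set u := haarG (ι ⊕ κ) (Us ι κ δ) with hu
  have hu0 : u ≠ 0 := (Measure.measure_pos_of_mem_nhds _ (Us_nhds hδ)).ne'
  have hu1 : u ≠ ∞ := measure_ne_top _ _
  -- balls of the complement
  have hballm : ∀ ε : ℝ, MeasurableSet {t : Ms ι κ | ‖(t : EuclideanSpace ℝ ((ι ⊕ κ) × ι))‖ < ε} :=
    fun ε => measurable_subtype_coe (hbm ε)
  have hball : ∀ ε : ℝ, {t : Ms ι κ | ‖(t : EuclideanSpace ℝ ((ι ⊕ κ) × ι))‖ < ε} =
      Metric.ball 0 ε := by
    intro ε
    ext t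
    simp
  have hβ1' : β1 = volume (Metric.ball (0 : Ms ι κ) 1) := by
    have e : (fun t : Ms ι κ => b1 t) = {t : Ms ι κ |
        ‖(t : EuclideanSpace ℝ ((ι ⊕ κ) × ι))‖ < 1}.indicator 1 := by
      funext t
      simp only [b1, indicator, mem_ofPred_eq, Pi.one_apply]
    rw [hβ1, e, lintegral_indicator_one (hballm 1), hball]
  have hβ10 : β1 ≠ 0 := by rw [hβ1']; exact (Metric.measure_ball_pos _ _ one_pos).ne'
  have hβ1t : β1 ≠ ∞ := by rw [hβ1']; exact measure_ball_lt_top.ne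
  have hβδ0 : βδ ≠ 0 := by
    have h1 : ENNReal.ofReal (1 / 2) * volume (Metric.ball (0 : Ms ι κ) δ) ≤ βδ := by
      rw [hβδ, ← hball, ← lintegral_indicator_const (hballm δ)]
      refine lintegral_mono fun t => ?_
      simp only [bδ, indicator, mem_ofPred_eq]
      split_ifs with ht
      · apply ENNReal.ofReal_le_ofReal
        have := (hdet (t : EuclideanSpace ℝ ((ι ⊕ κ) × ι)) (by rw [mm_of_mem t.2]; exact ht)).1
        exact this
      · exact le_rfl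
    have h2 : ENNReal.ofReal (1 / 2) * volume (Metric.ball (0 : Ms ι κ) δ) ≠ 0 :=
      mul_ne_zero (by simp) (Metric.measure_ball_pos _ _ hδ).ne'
    exact ne_of_gt (lt_of_lt_of_le (pos_iff_ne_zero.mpr h2) h1)
  have hβδt : βδ ≠ ∞ := by
    have h1 : βδ ≤ ENNReal.ofReal 2 * volume (Metric.ball (0 : Ms ι κ) δ) := by
      rw [hβδ, ← hball, ← lintegral_indicator_const (hballm δ)]
      refine lintegral_mono fun t => ?_
      simp only [bδ, indicator, mem_ofPred_eq]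
      split_ifs with ht
      · apply ENNReal.ofReal_le_ofReal
        have := (hdet (t : EuclideanSpace ℝ ((ι ⊕ κ) × ι)) (by rw [mm_of_mem t.2]; exact ht)).2
        exact this
      · exact le_rfl
    exact ne_of_lt (lt_of_le_of_lt h1 (ENNReal.mul_lt_top (by simp) measure_ball_lt_top))
  have haT : ∀ Φ x, x ∈ Good ι κ → a Φ (sl x) = ENNReal.ofReal (Jd κ (Sy x)) * Φ (sl x) := by
    intro Φ x hx
    simp only [a]
    rw [indicator_of_mem (good_sl.mpr hx), Sy_sl]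
  have haF : ∀ Φ x, x ∉ Good ι κ → a Φ (sl x) = 0 := by
    intro Φ x hx
    simp only [a]
    rw [indicator_of_notMem (fun h => hx (good_sl.mp h))]
  have hbT : ∀ x, ‖mm x‖ < δ → bδ (mm x) = ENNReal.ofReal |(Tx x).det| := by
    intro x hx
    simp only [bδ]
    rw [indicator_of_mem (show mm x ∈ {x | ‖x‖ < δ} from hx), Tx_mm]
  have hbF : ∀ x, ¬ ‖mm x‖ < δ → bδ (mm x) = 0 := by
    intro x hx
    simp only [bδ]
    rw [indicator_of_notMem (show mm x ∉ {x | ‖x‖ < δ} from hx)]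
  have hb1T : ∀ x, ‖mm x‖ < 1 → b1 (mm x) = 1 := by
    intro x hx
    simp only [b1]
    rw [indicator_of_mem (show mm x ∈ {x | ‖x‖ < 1} from hx)]
    rfl
  have hb1F : ∀ x, ¬ ‖mm x‖ < 1 → b1 (mm x) = 0 := by
    intro x hx
    simp only [b1]
    rw [indicator_of_notMem (show mm x ∉ {x | ‖x‖ < 1} from hx)]
  -- the chart integral
  have key1 : ∀ Φ, Measurable Φ → RInv Φ →
      u * ∫⁻ x, Φ x = c0 * ((∫⁻ s : Ss ι κ, a Φ s) * βδ) := by
    intro Φ hΦm hΦ
    rw [hu, ← average (measurableSet_chart hinj) (ae_const_chart δ) hΦm hΦ, cov_Psi hinj hΦ,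
      ← hsplit (a Φ) bδ (ham Φ hΦm) hbδm]
    have hm : MeasurableSet (Good ι κ ∩ {x | ‖mm x‖ < δ}) := by
      refine isOpen_Good.measurableSet.inter (measurableSet_lt ?_ measurable_const)
      exact ((LinearMap.continuous_of_finiteDimensional mm).norm).measurable
    rw [← lintegral_indicator hm]
    refine lintegral_congr fun x => ?_
    by_cases h1 : x ∈ Good ι κ
    · by_cases h2 : ‖mm x‖ < δ
      · rw [indicator_of_mem (show x ∈ Good ι κ ∩ {x | ‖mm x‖ < δ} from ⟨h1, h2⟩), haT Φ x h1,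
          hbT x h2, ENNReal.ofReal_mul (show 0 ≤ Jd κ (Sy x) from abs_nonneg _)]
        ring
      · rw [indicator_of_notMem (fun h => h2 h.2), hbF x h2, mul_zero]
    · rw [indicator_of_notMem (fun h => h1 h.1), haF Φ x h1, zero_mul]
  have key2 : ∀ Φ, Measurable Φ →
      ∫⁻ x, Wt x * Φ (sl x) = c0 * ((∫⁻ s : Ss ι κ, a Φ s) * β1) := by
    intro Φ hΦm
    rw [← hsplit (a Φ) b1 (ham Φ hΦm) hb1m]
    refine lintegral_congr_ae ?_
    have hae : ∀ᵐ x : EuclideanSpace ℝ ((ι ⊕ κ) × ι), (Sy x).det ≠ 0 := by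
      rw [ae_iff]
      simpa using null_det (ι := ι) (κ := κ)
    filter_upwards [hae] with x hx
    have hg : x ∈ Good ι κ ↔ PD κ (Sy x) := by
      have : Good ι κ = {x | PD κ (Sy x) ∧ (Sy x).det ≠ 0} := rfl
      rw [this]
      simp only [mem_ofPred_eq, hx, ne_eq, not_false_eq_true, and_true]
    by_cases h1 : PD κ (Sy x)
    · by_cases h2 : ‖mm x‖ < 1
      · rw [Wt, indicator_of_mem (show x ∈ {x : EuclideanSpace ℝ ((ι ⊕ κ) × ι) |
          PD κ (Sy x) ∧ ‖mm x‖ < 1} from ⟨h1, h2⟩), haT Φ x (hg.mpr h1), hb1T x h2, mul_one]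
      · rw [Wt, indicator_of_notMem (fun h => h2 h.2), hb1F x h2, zero_mul, mul_zero]
    · rw [Wt, indicator_of_notMem (fun h => h1 h.1), haF Φ x (fun h => h1 (hg.mp h)), zero_mul,
        zero_mul]
  refine ⟨βδ / (β1 * u), ?_, ?_, fun Φ hΦm hΦ => ?_⟩
  · exact ENNReal.div_ne_zero.mpr ⟨hβδ0, ENNReal.mul_ne_top hβ1t hu1⟩
  · exact ENNReal.div_ne_top hβδt (mul_ne_zero hβ10 hu0)
  · rw [key2 Φ hΦm]
    have h1 := key1 Φ hΦm hΦ
    have h2 : ∫⁻ x, Φ x = c0 * ((∫⁻ s : Ss ι κ, a Φ s) * βδ) / u := by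
      rw [← h1, mul_comm u, ENNReal.mul_div_cancel_right hu0 hu1]
    rw [h2, ENNReal.div_eq_inv_mul, ENNReal.div_eq_inv_mul, ENNReal.mul_inv (Or.inl hβ10) (Or.inl hβ1t)]
    have h3 : β1⁻¹ * β1 = 1 := ENNReal.inv_mul_cancel hβ10 hβ1t
    calc u⁻¹ * (c0 * ((∫⁻ s : Ss ι κ, a Φ s) * βδ))
        = (β1⁻¹ * β1) * (u⁻¹ * (c0 * ((∫⁻ s : Ss ι κ, a Φ s) * βδ))) := by rw [h3, one_mul]
      _ = β1⁻¹ * u⁻¹ * βδ * (c0 * ((∫⁻ s : Ss ι κ, a Φ s) * β1)) := by ring

end Pool.Agent.Lib.MP_6d896a_gt.OM
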