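import Mathlib
import Pool.Agent.Lib.MP_6d896a_gt.OM.Integration
import Pool.Agent.Lib.MP_6d896a_gt.OM.LogDet

/-!
Variance of rotation invariant Lipschitz functions.
-/

set_option autoImplicit false
set_option linter.unusedSectionVars false

namespace Pool.Agent.Lib.MP_6d896a_gt.OM

open MeasureTheory ProbabilityTheory Matrix Set Filter
open Pool.Agent.Lib.MP_6d896a_gt.FP
open scoped ENNReal Topology

section jd

variable {ι κ : Type*} [Fintype ι] [Fintype κ]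

lemma det_Lop_scale {R : ℝ} (hR : 0 < R) : ∃ δ : ℝ, δ ≠ 0 ∧ ∀ H : Matrix ι ι ℝ,
    LinearMap.det (Lop (κ := κ) R H) = LinearMap.det (Lop (κ := κ) 1 H) * δ := by
  refine ⟨LinearMap.det (mm + R • sl : EuclideanSpace ℝ ((ι ⊕ κ) × ι) →ₗ[ℝ] _), ?_, fun H => ?_⟩
  · have h : (mm + R • sl : EuclideanSpace ℝ ((ι ⊕ κ) × ι) →ₗ[ℝ] _) ∘ₗ (mm + R⁻¹ • sl) =
        LinearMap.id := by
      ext1 y
      simp only [LinearMap.comp_apply, LinearMap.add_apply, LinearMap.smul_apply, map_add, map_smul,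
        mm_mm, mm_sl, sl_mm, sl_sl, smul_zero, add_zero, zero_add, LinearMap.id_apply]
      rw [smul_smul, inv_mul_cancel₀ hR.ne', one_smul, add_comm, sl_add_mm]
    have h2 := congrArg LinearMap.det h
    rw [LinearMap.det_comp, LinearMap.det_id] at h2
    exact left_ne_zero_of_mul_eq_one h2
  · rw [← LinearMap.det_comp]
    congr 1
    ext1 y
    simp only [Lop, LinearMap.comp_apply, LinearMap.add_apply, LinearMap.smul_apply, map_add, map_smul,
      mm_mm, mm_sl, sl_mm, sl_sl, smul_zero, add_zero, zero_add, one_smul, map_zero]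

variable [DecidableEq ι] [DecidableEq κ]

/-- strong midpoint log-concavity of the orbit density -/
lemma Jd_mid {R : ℝ} (hR : 0 < R) {H K : Matrix ι ι ℝ} (hH : PD κ H) (hK : PD κ K)
    (hHR : OpLe R (emb H : EuclideanSpace ℝ ((ι ⊕ κ) × ι)))
    (hKR : OpLe R (emb K : EuclideanSpace ℝ ((ι ⊕ κ) × ι))) :
    Jd κ H * Jd κ K ≤ Jd κ ((1 / 2 : ℝ) • (H + K)) ^ 2 *
        Real.exp (-(((Fintype.card (ι ⊕ κ) : ℝ) - 2) * ∑ i, ∑ j, (H i j - K i j) ^ 2) /
          (16 * R ^ 2)) := by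
  obtain ⟨δ, hδ, hs⟩ := det_Lop_scale (ι := ι) (κ := κ) hR
  have h1 := (logdet_mid hR hH hK hHR hKR).2
  have hH0 := (logdet_mid hR hH hK hHR hKR).1
  have hK0 := (logdet_mid hR hK hH hKR hHR).1
  rw [← abs_of_pos hH0, ← abs_of_pos hK0, ← sq_abs, hs, hs, hs, abs_mul, abs_mul, abs_mul] at h1
  have hδ2 : 0 < |δ| ^ 2 := by positivity
  have h2 : (Jd κ H * Jd κ K) * |δ| ^ 2 ≤ (Jd κ ((1 / 2 : ℝ) • (H + K)) ^ 2 *
        Real.exp (-(((Fintype.card (ι ⊕ κ) : ℝ) - 2) * ∑ i, ∑ j, (H i j - K i j) ^ 2) /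
          (16 * R ^ 2))) * |δ| ^ 2 := by
    unfold Jd
    calc _ = |LinearMap.det (Lop (κ := κ) 1 H)| * |δ| * (|LinearMap.det (Lop (κ := κ) 1 K)| * |δ|) := by
          ring
      _ ≤ _ := h1
      _ = _ := by ring
  exact le_of_mul_le_mul_right h2 hδ2

end jd

section quot

variable {ι κ : Type*} [Fintype ι] [Fintype κ] [DecidableEq ι] [DecidableEq κ]

/-- the weight on the slice -/
noncomputable def Wr (ρ : EuclideanSpace ℝ ((ι ⊕ κ) × ι) → ℝ≥0∞)
    (x : EuclideanSpace ℝ ((ι ⊕ κ) × ι)) : ℝ≥0∞ := Wt x * ρ (sl x)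

lemma norm_sl_sub (x y : EuclideanSpace ℝ ((ι ⊕ κ) × ι)) :
    ‖sl x - sl y‖ ^ 2 = ∑ i, ∑ j, (Sy x i j - Sy y i j) ^ 2 := by
  rw [← map_sub, ← emb_Sy, norm_emb_sq, map_sub]
  rfl

lemma Wr_mid {ρ : EuclideanSpace ℝ ((ι ⊕ κ) × ι) → ℝ≥0∞} (hρ : LCf ρ) {R : ℝ} (hR : 0 < R)
    (hsupp : ∀ x, ρ x ≠ 0 → OpLe R x) (x y : EuclideanSpace ℝ ((ι ⊕ κ) × ι)) :
    Wr ρ x ^ (1 - 1 / 2 : ℝ) * Wr ρ y ^ (1 / 2 : ℝ) ≤
      Wr ρ ((1 - 1 / 2 : ℝ) • x + (1 / 2 : ℝ) • y) *
        ENNReal.ofReal (Real.exp (-(((Fintype.card (ι ⊕ κ) : ℝ) - 2) * ‖sl x - sl y‖ ^ 2) /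
          (32 * R ^ 2))) := by
  by_cases hx : PD κ (Sy x) ∧ ‖mm x‖ < 1
  swap
  · have : Wr ρ x = 0 := by
      rw [Wr, Wt, indicator_of_notMem (show x ∉ {x : EuclideanSpace ℝ ((ι ⊕ κ) × ι) |
        PD κ (Sy x) ∧ ‖mm x‖ < 1} from hx), zero_mul]
    rw [this, ENNReal.zero_rpow_of_pos (by norm_num), zero_mul]
    exact zero_le
  by_cases hy : PD κ (Sy y) ∧ ‖mm y‖ < 1
  swap
  · have : Wr ρ y = 0 := by
      rw [Wr, Wt, indicator_of_notMem (show y ∉ {x : EuclideanSpace ℝ ((ι ⊕ κ) × ι) |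
        PD κ (Sy x) ∧ ‖mm x‖ < 1} from hy), zero_mul]
    rw [this, ENNReal.zero_rpow_of_pos (by norm_num), mul_zero]
    exact zero_le
  by_cases hρx : ρ (sl x) = 0
  · have : Wr ρ x = 0 := by rw [Wr, hρx, mul_zero]
    rw [this, ENNReal.zero_rpow_of_pos (by norm_num), zero_mul]
    exact zero_le
  by_cases hρy : ρ (sl y) = 0
  · have : Wr ρ y = 0 := by rw [Wr, hρy, mul_zero]
    rw [this, ENNReal.zero_rpow_of_pos (by norm_num), mul_zero]
    exact zero_le
  set z := (1 - 1 / 2 : ℝ) • x + (1 / 2 : ℝ) • y with hz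
  have hSz : Sy z = (1 / 2 : ℝ) • (Sy x + Sy y) := by
    rw [hz, map_add, map_smul, map_smul, smul_add]
    norm_num
  have hzP : PD κ (Sy z) := by
    rw [hSz]
    exact PD_smul (PD_add hx.1 hy.1) (by norm_num)
  have hzm : ‖mm z‖ < 1 := by
    rw [hz, map_add, map_smul, map_smul]
    refine (norm_add_le _ _).trans_lt ?_
    rw [norm_smul, norm_smul, Real.norm_of_nonneg (by norm_num), Real.norm_of_nonneg (by norm_num)]
    linarith [hx.2, hy.2]
  have hJ := Jd_mid hR hx.1 hy.1 (hsupp _ hρx) (hsupp _ hρy)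
  rw [← hSz, ← norm_sl_sub] at hJ
  set q : ℝ := -(((Fintype.card (ι ⊕ κ) : ℝ) - 2) * ‖sl x - sl y‖ ^ 2) with hq
  have hW : ∀ w : EuclideanSpace ℝ ((ι ⊕ κ) × ι), PD κ (Sy w) ∧ ‖mm w‖ < 1 →
      Wr ρ w = ENNReal.ofReal (Jd κ (Sy w)) * ρ (sl w) := by
    intro w hw
    rw [Wr, Wt, indicator_of_mem (show w ∈ {x : EuclideanSpace ℝ ((ι ⊕ κ) × ι) |
        PD κ (Sy x) ∧ ‖mm x‖ < 1} from hw)]
  rw [hW x hx, hW y hy, hW z ⟨hzP, hzm⟩, ENNReal.mul_rpow_of_nonneg _ _ (by norm_num),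
    ENNReal.mul_rpow_of_nonneg _ _ (by norm_num)]
  have hρm := hρ (sl x) (sl y) (1 / 2) (by norm_num) (by norm_num)
  have hslz : (1 - 1 / 2 : ℝ) • sl x + (1 / 2 : ℝ) • sl y = sl z := by
    rw [hz, map_add, map_smul, map_smul]
  rw [hslz] at hρm
  have hJm : ENNReal.ofReal (Jd κ (Sy x)) ^ (1 - 1 / 2 : ℝ) *
      ENNReal.ofReal (Jd κ (Sy y)) ^ (1 / 2 : ℝ) ≤
      ENNReal.ofReal (Jd κ (Sy z)) * ENNReal.ofReal (Real.exp (q / (32 * R ^ 2))) := by
    have e1 : (1 - 1 / 2 : ℝ) = 1 / 2 := by norm_num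
    have hn : ∀ H : Matrix ι ι ℝ, 0 ≤ Jd κ H := fun H => abs_nonneg _
    rw [e1, ← ENNReal.mul_rpow_of_nonneg _ _ (by norm_num), ← ENNReal.ofReal_mul (hn _),
      ENNReal.ofReal_rpow_of_nonneg (mul_nonneg (hn _) (hn _)) (by norm_num),
      ← ENNReal.ofReal_mul (hn _)]
    apply ENNReal.ofReal_le_ofReal
    rw [← Real.sqrt_eq_rpow]
    apply Real.sqrt_le_iff.mpr
    refine ⟨mul_nonneg (hn _) (Real.exp_pos _).le, hJ.trans (le_of_eq ?_)⟩
    rw [mul_pow, ← Real.exp_nat_mul]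
    congr 2
    push_cast
    field_simp
    ring
  calc ENNReal.ofReal (Jd κ (Sy x)) ^ (1 - 1 / 2 : ℝ) * ρ (sl x) ^ (1 - 1 / 2 : ℝ) *
        (ENNReal.ofReal (Jd κ (Sy y)) ^ (1 / 2 : ℝ) * ρ (sl y) ^ (1 / 2 : ℝ))
      = (ENNReal.ofReal (Jd κ (Sy x)) ^ (1 - 1 / 2 : ℝ) *
        ENNReal.ofReal (Jd κ (Sy y)) ^ (1 / 2 : ℝ)) *
        (ρ (sl x) ^ (1 - 1 / 2 : ℝ) * ρ (sl y) ^ (1 / 2 : ℝ)) := by ring
    _ ≤ (ENNReal.ofReal (Jd κ (Sy z)) * ENNReal.ofReal (Real.exp (q / (32 * R ^ 2)))) *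
        ρ (sl z) := by gcongr
    _ = _ := by ring

lemma measurable_Wt : Measurable (Wt : EuclideanSpace ℝ ((ι ⊕ κ) × ι) → ℝ≥0∞) := by
  have hJm : Measurable fun x : EuclideanSpace ℝ ((ι ⊕ κ) × ι) => ENNReal.ofReal (Jd κ (Sy x)) :=
    continuous_Jd.measurable.ennreal_ofReal
  have hm : MeasurableSet {x : EuclideanSpace ℝ ((ι ⊕ κ) × ι) | PD κ (Sy x) ∧ ‖mm x‖ < 1} := by
    have hmm : Measurable fun x : EuclideanSpace ℝ ((ι ⊕ κ) × ι) => ‖mm x‖ :=
      ((LinearMap.continuous_of_finiteDimensional mm).norm).measurable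
    have h2 : MeasurableSet {x : EuclideanSpace ℝ ((ι ⊕ κ) × ι) | ‖mm x‖ < 1} :=
      measurableSet_lt hmm measurable_const
    exact (isOpen_PD (ι := ι) (κ := κ)).measurableSet.inter h2
  exact hJm.indicator hm

lemma measurable_sl : Measurable (sl : EuclideanSpace ℝ ((ι ⊕ κ) × ι) → _) :=
  (LinearMap.continuous_of_finiteDimensional sl).measurable

/-- the transport inequality for invariant Lipschitz functions -/
lemma tau_ineq (hcard : 3 ≤ Fintype.card (ι ⊕ κ)) {ρ : EuclideanSpace ℝ ((ι ⊕ κ) × ι) → ℝ≥0∞}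
    (hρm : Measurable ρ) (hρ : LCf ρ) (hinv : RInv ρ)
    [IsProbabilityMeasure ((volume : Measure (EuclideanSpace ℝ ((ι ⊕ κ) × ι))).withDensity ρ)]
    {R : ℝ} (hR : 0 < R) (hsupp : ∀ x, ρ x ≠ 0 → OpLe R x)
    {g : EuclideanSpace ℝ ((ι ⊕ κ) × ι) → ℝ} (hg : Continuous g) (hginv : RInv g)
    (hgl : ∀ x y, |g x - g y| ≤ ‖x - y‖) (t : ℝ) :
    (∫⁻ x, ENNReal.ofReal (Real.exp (t * g x))
      ∂((volume : Measure (EuclideanSpace ℝ ((ι ⊕ κ) × ι))).withDensity ρ)) *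
    (∫⁻ x, ENNReal.ofReal (Real.exp (-(t * g x)))
      ∂((volume : Measure (EuclideanSpace ℝ ((ι ⊕ κ) × ι))).withDensity ρ)) ≤
    ENNReal.ofReal (Real.exp (t ^ 2 * (4 * R ^ 2 / ((Fintype.card (ι ⊕ κ) : ℝ) - 2)))) := by
  obtain ⟨c, hc0, hc1, hform⟩ := integration (ι := ι) (κ := κ)
  set d : ℝ := (Fintype.card (ι ⊕ κ) : ℝ) - 2 with hd
  have hd0 : 0 < d := by
    have : (3 : ℝ) ≤ Fintype.card (ι ⊕ κ) := by exact_mod_cast hcard
    rw [hd]; linarith
  set v : ℝ := t ^ 2 * (4 * R ^ 2 / d) with hv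
  have hWm : Measurable (Wr ρ) := measurable_Wt.mul (hρm.comp measurable_sl)
  -- integral against the measure
  have hint : ∀ h : EuclideanSpace ℝ ((ι ⊕ κ) × ι) → ℝ, Continuous h → RInv h →
      ∫⁻ x, ENNReal.ofReal (Real.exp (h x))
        ∂((volume : Measure (EuclideanSpace ℝ ((ι ⊕ κ) × ι))).withDensity ρ) =
      c * ∫⁻ x, Wr ρ x * ENNReal.ofReal (Real.exp (h (sl x))) := by
    intro h hh hhinv
    have hem : Measurable fun x => ENNReal.ofReal (Real.exp (h x)) :=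
      (Real.continuous_exp.comp hh).measurable.ennreal_ofReal
    rw [lintegral_withDensity_eq_lintegral_mul _ hρm hem]
    rw [hform _ (hρm.mul hem) (fun u hu x => by
      simp only [Pi.mul_apply]
      rw [hinv u hu x, hhinv u hu x])]
    congr 1
    refine lintegral_congr fun x => ?_
    simp only [Pi.mul_apply, Wr]
    ring
  have hone : c * ∫⁻ x, Wr ρ x = 1 := by
    have h1 := hint (fun _ => 0) continuous_const (fun _ _ _ => rfl)
    simpa using h1.symm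
  -- Prekopa Leindler
  have hf : Measurable fun x : EuclideanSpace ℝ ((ι ⊕ κ) × ι) =>
      Wr ρ x * ENNReal.ofReal (Real.exp (t * g (sl x) - v / 2)) := by
    refine hWm.mul ?_
    exact (Real.continuous_exp.measurable.comp
      (((hg.measurable.comp measurable_sl).const_mul t).sub_const _)).ennreal_ofReal
  have hf' : Measurable fun x : EuclideanSpace ℝ ((ι ⊕ κ) × ι) =>
      Wr ρ x * ENNReal.ofReal (Real.exp (-(t * g (sl x)) - v / 2)) := by
    refine hWm.mul ?_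
    exact (Real.continuous_exp.measurable.comp
      (((hg.measurable.comp measurable_sl).const_mul t).neg.sub_const _)).ennreal_ofReal
  have hpl := plm_haar (volume : Measure (EuclideanSpace ℝ ((ι ⊕ κ) × ι))) (1 / 2) (by norm_num)
    (by norm_num) _ _ (Wr ρ) hf hf' hWm (by
      intro x y
      have h1 := Wr_mid hρ hR hsupp x y
      rw [ENNReal.mul_rpow_of_nonneg _ _ (by norm_num), ENNReal.mul_rpow_of_nonneg _ _ (by norm_num)]
      have h2 : ENNReal.ofReal (Real.exp (t * g (sl x) - v / 2)) ^ (1 - 1 / 2 : ℝ) *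
          ENNReal.ofReal (Real.exp (-(t * g (sl y)) - v / 2)) ^ (1 / 2 : ℝ) *
          ENNReal.ofReal (Real.exp (-(((Fintype.card (ι ⊕ κ) : ℝ) - 2) * ‖sl x - sl y‖ ^ 2) /
          (32 * R ^ 2))) ≤ 1 := by
        rw [ENNReal.ofReal_rpow_of_pos (Real.exp_pos _), ENNReal.ofReal_rpow_of_pos (Real.exp_pos _),
          ← Real.exp_mul, ← Real.exp_mul, ← ENNReal.ofReal_mul (Real.exp_pos _).le,
          ← ENNReal.ofReal_mul (by positivity), ← Real.exp_add, ← Real.exp_add,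
          ENNReal.ofReal_le_one, Real.exp_le_one_iff]
        have h3 : t * g (sl x) - t * g (sl y) ≤ |t| * ‖sl x - sl y‖ := by
          rw [← mul_sub]
          calc t * (g (sl x) - g (sl y)) ≤ |t * (g (sl x) - g (sl y))| := le_abs_self _
            _ = |t| * |g (sl x) - g (sl y)| := abs_mul _ _
            _ ≤ _ := by gcongr; exact hgl _ _
        rw [← hd]
        set w := ‖sl x - sl y‖ with hw
        have h4 : |t| * w / 2 ≤ v / 2 + d * w ^ 2 / (32 * R ^ 2) := by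
          have h5 : 0 ≤ (|t| * (2 * R) / Real.sqrt d - Real.sqrt d * w / (4 * R)) ^ 2 := sq_nonneg _
          have hsd : Real.sqrt d ^ 2 = d := Real.sq_sqrt hd0.le
          have hsd0 : 0 < Real.sqrt d := Real.sqrt_pos.mpr hd0
          have h6 : (|t| * (2 * R) / Real.sqrt d - Real.sqrt d * w / (4 * R)) ^ 2 =
              v - |t| * w + d * w ^ 2 / (16 * R ^ 2) := by
            rw [sub_sq, div_pow, div_pow, mul_pow, mul_pow, mul_pow, hsd, sq_abs, hv]
            have e1 : 2 * (|t| * (2 * R) / Real.sqrt d) * (Real.sqrt d * w / (4 * R)) = |t| * w := by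
              field_simp
              ring
            rw [e1]
            ring
          rw [h6] at h5
          have e2 : d * w ^ 2 / (32 * R ^ 2) = (d * w ^ 2 / (16 * R ^ 2)) / 2 := by
            field_simp
            ring
          rw [e2]
          linarith
        have e3 : -(d * w ^ 2) / (32 * R ^ 2) = -(d * w ^ 2 / (32 * R ^ 2)) := by ring
        rw [e3]
        nlinarith [h3, h4]
      calc _ = (Wr ρ x ^ (1 - 1 / 2 : ℝ) * Wr ρ y ^ (1 / 2 : ℝ)) *
            (ENNReal.ofReal (Real.exp (t * g (sl x) - v / 2)) ^ (1 - 1 / 2 : ℝ) *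
            ENNReal.ofReal (Real.exp (-(t * g (sl y)) - v / 2)) ^ (1 / 2 : ℝ)) := by ring
        _ ≤ (Wr ρ ((1 - 1 / 2 : ℝ) • x + (1 / 2 : ℝ) • y) *
            ENNReal.ofReal (Real.exp (-(((Fintype.card (ι ⊕ κ) : ℝ) - 2) * ‖sl x - sl y‖ ^ 2) /
            (32 * R ^ 2)))) *
            (ENNReal.ofReal (Real.exp (t * g (sl x) - v / 2)) ^ (1 - 1 / 2 : ℝ) *
            ENNReal.ofReal (Real.exp (-(t * g (sl y)) - v / 2)) ^ (1 / 2 : ℝ)) := by gcongr
        _ = Wr ρ ((1 - 1 / 2 : ℝ) • x + (1 / 2 : ℝ) • y) *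
            (ENNReal.ofReal (Real.exp (t * g (sl x) - v / 2)) ^ (1 - 1 / 2 : ℝ) *
            ENNReal.ofReal (Real.exp (-(t * g (sl y)) - v / 2)) ^ (1 / 2 : ℝ) *
            ENNReal.ofReal (Real.exp (-(((Fintype.card (ι ⊕ κ) : ℝ) - 2) * ‖sl x - sl y‖ ^ 2) /
            (32 * R ^ 2)))) := by ring
        _ ≤ Wr ρ ((1 - 1 / 2 : ℝ) • x + (1 / 2 : ℝ) • y) * 1 := by gcongr
        _ = _ := mul_one _)
  set F := ∫⁻ x : EuclideanSpace ℝ ((ι ⊕ κ) × ι),
    Wr ρ x * ENNReal.ofReal (Real.exp (t * g (sl x) - v / 2)) with hF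
  set F' := ∫⁻ x : EuclideanSpace ℝ ((ι ⊕ κ) × ι),
    Wr ρ x * ENNReal.ofReal (Real.exp (-(t * g (sl x)) - v / 2)) with hF'
  have hFF : F * F' ≤ (∫⁻ x, Wr ρ x) ^ 2 := by
    have e1 : (1 - 1 / 2 : ℝ) = 1 / 2 := by norm_num
    rw [e1, ← ENNReal.mul_rpow_of_nonneg _ _ (by norm_num)] at hpl
    have h2 : ((F * F') ^ (1 / 2 : ℝ)) ^ 2 ≤ (∫⁻ x, Wr ρ x) ^ 2 := by gcongr
    rw [← ENNReal.rpow_natCast, ← ENNReal.rpow_mul] at h2
    norm_num at h2
    exact h2
  have hA : ∫⁻ x, ENNReal.ofReal (Real.exp (t * g x))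
      ∂((volume : Measure (EuclideanSpace ℝ ((ι ⊕ κ) × ι))).withDensity ρ) =
      c * (ENNReal.ofReal (Real.exp (v / 2)) * F) := by
    rw [hint (fun x => t * g x) (continuous_const.mul hg) (fun u hu x => by
      simp only [hginv u hu x]), hF, ← lintegral_const_mul _ hf]
    congr 1
    refine lintegral_congr fun x => ?_
    rw [Real.exp_sub, mul_left_comm, ← ENNReal.ofReal_mul (Real.exp_pos _).le]
    congr 2
    field_simp
  have hA' : ∫⁻ x, ENNReal.ofReal (Real.exp (-(t * g x)))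
      ∂((volume : Measure (EuclideanSpace ℝ ((ι ⊕ κ) × ι))).withDensity ρ) =
      c * (ENNReal.ofReal (Real.exp (v / 2)) * F') := by
    rw [hint (fun x => -(t * g x)) (continuous_const.mul hg).neg (fun u hu x => by
      simp only [hginv u hu x]), hF', ← lintegral_const_mul _ hf']
    congr 1
    refine lintegral_congr fun x => ?_
    rw [Real.exp_sub, mul_left_comm, ← ENNReal.ofReal_mul (Real.exp_pos _).le]
    congr 2
    field_simp
  rw [hA, hA']
  have hexp : ENNReal.ofReal (Real.exp (v / 2)) * ENNReal.ofReal (Real.exp (v / 2)) =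
      ENNReal.ofReal (Real.exp v) := by
    rw [← ENNReal.ofReal_mul (Real.exp_pos _).le, ← Real.exp_add]
    congr 2
    ring
  calc c * (ENNReal.ofReal (Real.exp (v / 2)) * F) * (c * (ENNReal.ofReal (Real.exp (v / 2)) * F'))
      = c ^ 2 * (ENNReal.ofReal (Real.exp (v / 2)) * ENNReal.ofReal (Real.exp (v / 2))) *
        (F * F') := by ring
    _ ≤ c ^ 2 * (ENNReal.ofReal (Real.exp (v / 2)) * ENNReal.ofReal (Real.exp (v / 2))) *
        (∫⁻ x, Wr ρ x) ^ 2 := by gcongr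
    _ = (c * ∫⁻ x, Wr ρ x) ^ 2 * ENNReal.ofReal (Real.exp v) := by rw [hexp]; ring
    _ = ENNReal.ofReal (Real.exp v) := by rw [hone]; ring

lemma OpLe.norm_sq_le {r : Type*} [Fintype r] {R : ℝ} {x : EuclideanSpace ℝ (r × ι)}
    (h : OpLe R x) : ‖x‖ ^ 2 ≤ R ^ 2 * Fintype.card ι := by
  rw [EuclideanSpace.norm_sq_eq]
  simp only [Real.norm_eq_abs, sq_abs]
  rw [Fintype.sum_prod_type_right]
  calc ∑ j : ι, ∑ i : r, x (i, j) ^ 2 ≤ ∑ _j : ι, R ^ 2 := by
        refine Finset.sum_le_sum fun j _ => ?_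
        have h1 := h (Pi.single j 1)
        simpa [Pi.single_apply, ite_pow] using h1
    _ = R ^ 2 * Fintype.card ι := by
        rw [Finset.sum_const, Finset.card_univ, nsmul_eq_mul, mul_comm]

lemma sq_add_two_le (s : ℝ) : s ^ 2 + 2 ≤ Real.exp s + Real.exp (-s) := by
  have h1 : s ^ 2 / 2 + 1 ≤ Real.cosh s := by
    have h2 : Real.cosh s = 2 * Real.sinh (s / 2) ^ 2 + 1 := by
      have h3 := Real.cosh_two_mul (s / 2)
      have h4 := Real.cosh_sq (s / 2)
      rw [show 2 * (s / 2) = s by ring] at h3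
      rw [h3, h4]
      ring
    have h5 : (s / 2) ^ 2 ≤ Real.sinh (s / 2) ^ 2 := by
      rw [sq_le_sq]
      rcases le_total 0 (s / 2) with h | h
      · rw [abs_of_nonneg h, abs_of_nonneg (Real.sinh_nonneg_iff.mpr h)]
        exact Real.self_le_sinh_iff.mpr h
      · rw [abs_of_nonpos h, abs_of_nonpos (Real.sinh_nonpos_iff.mpr h)]
        have := Real.sinh_le_self_iff.mpr h
        linarith
    rw [h2]
    linarith
  rw [Real.cosh_eq] at h1
  linarith

/-- variance of an invariant Lipschitz function -/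
theorem quotient_bound (hcard : 3 ≤ Fintype.card (ι ⊕ κ))
    {ρ : EuclideanSpace ℝ ((ι ⊕ κ) × ι) → ℝ≥0∞}
    (hρm : Measurable ρ) (hρ : LCf ρ) (hinv : RInv ρ)
    [IsProbabilityMeasure ((volume : Measure (EuclideanSpace ℝ ((ι ⊕ κ) × ι))).withDensity ρ)]
    {R : ℝ} (hR : 0 < R) (hsupp : ∀ x, ρ x ≠ 0 → OpLe R x)
    {g : EuclideanSpace ℝ ((ι ⊕ κ) × ι) → ℝ} (hg : Continuous g) (hginv : RInv g)
    (hgl : ∀ x y, |g x - g y| ≤ ‖x - y‖) :
    Var[g; (volume : Measure (EuclideanSpace ℝ ((ι ⊕ κ) × ι))).withDensity ρ] ≤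
      8 * R ^ 2 / ((Fintype.card (ι ⊕ κ) : ℝ) - 2) := by
  set μ := (volume : Measure (EuclideanSpace ℝ ((ι ⊕ κ) × ι))).withDensity ρ with hμ
  set d : ℝ := (Fintype.card (ι ⊕ κ) : ℝ) - 2 with hd
  have hd0 : 0 < d := by
    have : (3 : ℝ) ≤ Fintype.card (ι ⊕ κ) := by exact_mod_cast hcard
    rw [hd]; linarith
  set K : ℝ := 4 * R ^ 2 / d with hK
  have hK0 : 0 < K := by positivity
  have hae : ∀ᵐ x ∂μ, OpLe R x := by
    have : ∀ᵐ x ∂μ, ρ x ≠ 0 := by
      rw [hμ, ae_withDensity_iff hρm]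
      exact Filter.Eventually.of_forall fun x hx => hx
    filter_upwards [this] with x hx using hsupp x hx
  set m0 : ℝ := ∫ x, g x ∂μ with hm0
  set B : ℝ := |g 0| + Real.sqrt (R ^ 2 * Fintype.card ι) with hB
  have hgB : ∀ᵐ x ∂μ, |g x| ≤ B := by
    filter_upwards [hae] with x hx
    have h1 : ‖x‖ ≤ Real.sqrt (R ^ 2 * Fintype.card ι) := Real.le_sqrt_of_sq_le hx.norm_sq_le
    have h2 := hgl x 0
    rw [sub_zero] at h2
    have h3 : |g x| ≤ |g x - g 0| + |g 0| := by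
      have := abs_add_le (g x - g 0) (g 0)
      simpa using this
    rw [hB]
    linarith
  set g' : EuclideanSpace ℝ ((ι ⊕ κ) × ι) → ℝ := fun x => g x - m0 with hg'
  have hg'c : Continuous g' := hg.sub continuous_const
  have hg'B : ∀ᵐ x ∂μ, |g' x| ≤ B + |m0| := by
    filter_upwards [hgB] with x hx
    exact (abs_sub _ _).trans (by linarith)
  have hgi : Integrable g μ := by
    refine Integrable.mono' (integrable_const B) hg.aestronglyMeasurable ?_
    filter_upwards [hgB] with x hx using by rwa [Real.norm_eq_abs]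
  have hmean : ∫ x, g' x ∂μ = 0 := by
    rw [hg', integral_sub hgi (integrable_const _)]
    simp [hm0]
  have hei : ∀ t : ℝ, Integrable (fun x => Real.exp (t * g' x)) μ := by
    intro t
    refine Integrable.mono' (integrable_const (Real.exp (|t| * (B + |m0|))))
      (Real.continuous_exp.comp (continuous_const.mul hg'c)).aestronglyMeasurable ?_
    filter_upwards [hg'B] with x hx
    rw [Real.norm_eq_abs, Real.abs_exp]
    apply Real.exp_le_exp.mpr
    calc t * g' x ≤ |t * g' x| := le_abs_self _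
      _ = |t| * |g' x| := abs_mul _ _
      _ ≤ _ := by gcongr
  have hsqi : Integrable (fun x => g' x ^ 2) μ := by
    refine Integrable.mono' (integrable_const ((B + |m0|) ^ 2)) (hg'c.pow 2).aestronglyMeasurable ?_
    filter_upwards [hg'B] with x hx
    rw [Real.norm_eq_abs, abs_of_nonneg (sq_nonneg _), ← sq_abs]
    gcongr
  have hg'i : Integrable g' μ := hgi.sub (integrable_const _)
  have hge1 : ∀ t : ℝ, 1 ≤ ∫ x, Real.exp (t * g' x) ∂μ := by
    intro t
    have h1 : ∫ x, (t * g' x + 1) ∂μ = 1 := by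
      rw [integral_add (hg'i.const_mul t) (integrable_const _), integral_const_mul, hmean]
      simp
    rw [← h1]
    refine integral_mono ((hg'i.const_mul t).add (integrable_const _)) (hei t) fun x => ?_
    exact Real.add_one_le_exp _
  have htau : ∀ t : ℝ, (∫ x, Real.exp (t * g' x) ∂μ) * (∫ x, Real.exp (-t * g' x) ∂μ) ≤
      Real.exp (t ^ 2 * K) := by
    intro t
    have h1 := tau_ineq hcard hρm hρ hinv hR hsupp hg'c (fun u hu x => by
      simp only [hg', hginv u hu x]) (fun x y => by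
      simp only [hg', sub_sub_sub_cancel_right]; exact hgl x y) t
    rw [← hμ, ← hd] at h1
    have e2 : ∀ x, Real.exp (-(t * g' x)) = Real.exp (-t * g' x) := fun x => by rw [neg_mul]
    simp only [e2] at h1
    rw [← ofReal_integral_eq_lintegral_ofReal (hei t) (ae_of_all _ fun x => (Real.exp_pos _).le),
      ← ofReal_integral_eq_lintegral_ofReal (hei (-t)) (ae_of_all _ fun x => (Real.exp_pos _).le),
      ← ENNReal.ofReal_mul (by linarith [hge1 t])] at h1
    exact (ENNReal.ofReal_le_ofReal_iff (Real.exp_pos _).le).mp h1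
  have hup : ∀ t : ℝ, ∫ x, Real.exp (t * g' x) ∂μ ≤ Real.exp (t ^ 2 * K) := by
    intro t
    refine le_trans ?_ (htau t)
    have h1 := hge1 (-t)
    have h2 := hge1 t
    nlinarith
  have hsq : ∀ t : ℝ, t ^ 2 * ∫ x, g' x ^ 2 ∂μ ≤ 2 * (Real.exp (t ^ 2 * K) - 1) := by
    intro t
    have h1 : t ^ 2 * ∫ x, g' x ^ 2 ∂μ + 2 ≤
        (∫ x, Real.exp (t * g' x) ∂μ) + ∫ x, Real.exp (-t * g' x) ∂μ := by
      have e1 : t ^ 2 * ∫ x, g' x ^ 2 ∂μ + 2 = ∫ x, (t ^ 2 * g' x ^ 2 + 2) ∂μ := by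
        rw [integral_add (hsqi.const_mul _) (integrable_const _), integral_const_mul]
        simp
      rw [e1, ← integral_add (hei t) (hei (-t))]
      refine integral_mono ((hsqi.const_mul _).add (integrable_const _))
        ((hei t).add (hei (-t))) fun x => ?_
      have h3 := sq_add_two_le (t * g' x)
      rw [mul_pow] at h3
      simp only [neg_mul]
      exact h3
    have h2 := hup t
    have h3 := hup (-t)
    rw [neg_sq] at h3
    linarith
  have hvar : Var[g; μ] = ∫ x, g' x ^ 2 ∂μ := by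
    rw [variance_eq_integral hg.aemeasurable]
  rw [hvar]
  have hfin : ∀ s : ℝ, 0 < s → s * K ≤ 1 → ∫ x, g' x ^ 2 ∂μ ≤ 2 * K + 2 * K ^ 2 * s := by
    intro s hs hsK
    have h1 := hsq (Real.sqrt s)
    rw [Real.sq_sqrt hs.le] at h1
    have h2 : Real.exp (s * K) - 1 ≤ s * K + (s * K) ^ 2 := by
      have h3 := Real.abs_exp_sub_one_sub_id_le (x := s * K) (by
        rw [abs_of_pos (by positivity)]; exact hsK)
      have := (abs_le.mp h3).2
      linarith
    have h4 : s * ∫ x, g' x ^ 2 ∂μ ≤ s * (2 * K + 2 * K ^ 2 * s) := by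
      calc _ ≤ _ := h1
        _ ≤ 2 * (s * K + (s * K) ^ 2) := by linarith
        _ = _ := by ring
    exact le_of_mul_le_mul_left h4 hs
  have hlim : ∫ x, g' x ^ 2 ∂μ ≤ 2 * K := by
    refine le_of_forall_pos_le_add fun ε hε => ?_
    set s : ℝ := min (1 / K) (ε / (2 * K ^ 2)) with hs
    have hs0 : 0 < s := lt_min (by positivity) (by positivity)
    have h1 := hfin s hs0 (by
      have : s ≤ 1 / K := min_le_left _ _
      calc s * K ≤ 1 / K * K := by gcongr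
        _ = 1 := by field_simp)
    have h2 : 2 * K ^ 2 * s ≤ ε := by
      have : s ≤ ε / (2 * K ^ 2) := min_le_right _ _
      calc 2 * K ^ 2 * s ≤ 2 * K ^ 2 * (ε / (2 * K ^ 2)) := by gcongr
        _ = ε := by field_simp
    linarith
  refine hlim.trans (le_of_eq ?_)
  rw [hK]
  ring

end quot

end Pool.Agent.Lib.MP_6d896a_gt.OM
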