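import Mathlib
import Pool.Agent.Lib.MP_6d896a_gt.OM.Quot
import Pool.Agent.Lib.MP_6d896a_gt.OM.Orbit
import Pool.Agent.Lib.MP_6d896a_gt.OM.Tail
import Pool.Agent.Lib.MP_6d896a_gt.FP.EM
import Pool.Agent.Lib.MP_6d896a_gt.OM.Iso
import Pool.Agent.Lib.MP_6d896a_gt.OM.Avg
import Pool.Agent.Lib.MP_6d896a_gt.OM.Cut

/-!
The affine invariant Poincare inequality for rotation invariant log-concave random matrices.
-/

set_option autoImplicit false
set_option linter.unusedSectionVars false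

namespace Pool.Agent.Lib.MP_6d896a_gt.OM

open MeasureTheory ProbabilityTheory Matrix Set Filter
open Pool.Agent.Lib.MP_6d896a_gt.FP
open scoped ENNReal Topology

section prelim

variable {r ι : Type*} [Fintype r] [Fintype ι] [DecidableEq r]

lemma MInv.of_density {ρ : EuclideanSpace ℝ (r × ι) → ℝ≥0∞} (hρ : Measurable ρ) (hinv : RInv ρ) :
    MInv ((volume : Measure (EuclideanSpace ℝ (r × ι))).withDensity ρ) := by
  intro u hu
  have h := LinearIsometryEquiv.measurePreserving (actE (ι := ι) u)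
  have hm : Measurable (act (u : Matrix r r ℝ) : EuclideanSpace ℝ (r × ι) → _) := h.measurable
  ext s hs
  rw [Measure.map_apply hm hs, withDensity_apply _ (hm hs), withDensity_apply _ hs,
    ← h.setLIntegral_comp_preimage hs hρ]
  refine setLIntegral_congr_fun (hm hs) fun x _ => ?_
  rw [actE_apply, hinv u hu x]

omit [DecidableEq r] in
lemma isClosed_OpLe (R : ℝ) : IsClosed {x : EuclideanSpace ℝ (r × ι) | OpLe R x} := by
  have : {x : EuclideanSpace ℝ (r × ι) | OpLe R x} = ⋂ w : ι → ℝ,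
      {x | ∑ i, (∑ j, x (i, j) * w j) ^ 2 ≤ R ^ 2 * ∑ j, w j ^ 2} := by
    ext x
    simp [OpLe]
  rw [this]
  exact isClosed_iInter fun w => isClosed_le (by fun_prop) continuous_const

omit [DecidableEq r] in
lemma OpLe.comb {R : ℝ} {x y : EuclideanSpace ℝ (r × ι)} (hx : OpLe R x) (hy : OpLe R y) {l : ℝ}
    (h0 : 0 ≤ l) (h1 : l ≤ 1) : OpLe R ((1 - l) • x + l • y) := by
  intro w
  have e : ∀ i, ∑ j, ((1 - l) • x + l • y) (i, j) * w j =
      (1 - l) * ∑ j, x (i, j) * w j + l * ∑ j, y (i, j) * w j := by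
    intro i
    rw [Finset.mul_sum, Finset.mul_sum, ← Finset.sum_add_distrib]
    refine Finset.sum_congr rfl fun j _ => ?_
    simp only [PiLp.add_apply, PiLp.smul_apply, smul_eq_mul]
    ring
  calc ∑ i, (∑ j, ((1 - l) • x + l • y) (i, j) * w j) ^ 2
      ≤ ∑ i, ((1 - l) * (∑ j, x (i, j) * w j) ^ 2 + l * (∑ j, y (i, j) * w j) ^ 2) := by
        refine Finset.sum_le_sum fun i _ => ?_
        rw [e]
        nlinarith [mul_nonneg (mul_nonneg h0 (sub_nonneg.mpr h1))
          (sq_nonneg ((∑ j, x (i, j) * w j) - ∑ j, y (i, j) * w j))]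
    _ = (1 - l) * ∑ i, (∑ j, x (i, j) * w j) ^ 2 + l * ∑ i, (∑ j, y (i, j) * w j) ^ 2 := by
        rw [Finset.sum_add_distrib, Finset.mul_sum, Finset.mul_sum]
    _ ≤ (1 - l) * (R ^ 2 * ∑ j, w j ^ 2) + l * (R ^ 2 * ∑ j, w j ^ 2) := by
        have := hx w
        have := hy w
        have : 0 ≤ 1 - l := by linarith
        gcongr
    _ = _ := by ring

lemma OpLe_act {R : ℝ} (u : Matrix.orthogonalGroup r ℝ) (x : EuclideanSpace ℝ (r × ι)) :
    OpLe R (act (u : Matrix r r ℝ) x) ↔ OpLe R x := by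
  have h : ∀ w : ι → ℝ, ∑ i, (∑ j, act (u : Matrix r r ℝ) x (i, j) * w j) ^ 2 =
      ∑ i, (∑ j, x (i, j) * w j) ^ 2 := by
    intro w
    have h1 := Pool.Agent.Lib.MP_6d896a_gt.OM.dot_mulVec_orth u (mt x *ᵥ w)
    rw [Matrix.mulVec_mulVec, ← mt_act] at h1
    exact h1
  unfold OpLe
  simp only [h]

/-- restriction of a density -/
lemma cond_density {E : Type*} [MeasurableSpace E] {μ : Measure E} {ρ : E → ℝ≥0∞}
    (hρ : Measurable ρ) {K : Set E} (hK : MeasurableSet K) :
    ProbabilityTheory.cond (μ.withDensity ρ) K =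
      μ.withDensity (fun x => ((μ.withDensity ρ) K)⁻¹ * K.indicator ρ x) := by
  rw [ProbabilityTheory.cond, restrict_withDensity hK, ← withDensity_indicator hK]
  rw [← withDensity_smul _ (hρ.indicator hK)]
  rfl

end prelim

/-- variance bound for the restricted measure -/
lemma var_restricted {ι κ : Type} [Fintype ι] [Fintype κ] [DecidableEq ι] [DecidableEq κ]
    (hcard : 3 ≤ Fintype.card (ι ⊕ κ))
    {ρ : EuclideanSpace ℝ ((ι ⊕ κ) × ι) → ℝ≥0∞} (hρm : Measurable ρ) (hρ : LCf ρ) (hinv : RInv ρ)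
    [IsProbabilityMeasure ((volume : Measure (EuclideanSpace ℝ ((ι ⊕ κ) × ι))).withDensity ρ)]
    {R : ℝ} (hR : 0 < R) (hsupp : ∀ x, ρ x ≠ 0 → OpLe R x)
    {f : EuclideanSpace ℝ ((ι ⊕ κ) × ι) → ℝ} (hf : ContDiff ℝ 1 f)
    (hf1 : ∀ x, ‖fderiv ℝ f x‖ ≤ 1) :
    Var[f; (volume : Measure (EuclideanSpace ℝ ((ι ⊕ κ) × ι))).withDensity ρ] ≤
      12 * R ^ 2 / ((Fintype.card (ι ⊕ κ) : ℝ) - 2) := by
  set μ := (volume : Measure (EuclideanSpace ℝ ((ι ⊕ κ) × ι))).withDensity ρ with hμ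
  have hMI : MInv μ := MInv.of_density hρm hinv
  have hae : ∀ᵐ x ∂μ, OpLe R x := by
    have : ∀ᵐ x ∂μ, ρ x ≠ 0 := by
      rw [hμ, ae_withDensity_iff hρm]
      exact Filter.Eventually.of_forall fun x hx => hx
    filter_upwards [this] with x hx using hsupp x hx
  have hbd : ∀ᵐ x ∂μ, ‖x‖ ≤ √(R ^ 2 * Fintype.card ι) := by
    filter_upwards [hae] with x hx using norm_of_OpLe hx
  obtain ⟨g, hg, hginv, hgl, hort⟩ := haar_avg hf hf1
  have hfg := hort μ inferInstance hMI ⟨_, hbd⟩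
  have h1 := quotient_bound hcard hρm hρ hinv hR hsupp hg hginv hgl
  have h2 := orbit_bound hcard hMI hR hae hf hf1 hg hginv hfg
  rw [← hμ] at h1
  -- integrability
  have hint : ∀ h : EuclideanSpace ℝ ((ι ⊕ κ) × ι) → ℝ, Continuous h → Integrable h μ :=
    fun h hh => integrable_cont hbd hh
  set c : ℝ := ∫ x, g x ∂μ with hc
  have hvf : Var[f; μ] ≤ ∫ x, (f x - c) ^ 2 ∂μ := by
    have e : Var[f; μ] = Var[fun x => f x - c; μ] := by
      rw [variance_sub_const hf.continuous.aestronglyMeasurable]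
    rw [e]
    exact variance_le_expectation_sq (hf.continuous.sub continuous_const).aestronglyMeasurable
  have hvg : Var[g; μ] = ∫ x, (g x - c) ^ 2 ∂μ := by
    rw [variance_eq_integral hg.aemeasurable]
  have hsplit : ∫ x, (f x - c) ^ 2 ∂μ =
      ∫ x, (f x - g x) ^ 2 ∂μ + ∫ x, (g x - c) ^ 2 ∂μ := by
    have e : ∀ x, (f x - c) ^ 2 = ((f x - g x) ^ 2 + (g x - c) ^ 2) +
        2 * ((f x - g x) * (g x - c)) := fun x => by ring
    simp_rw [e]
    have hfc := hf.continuous
    have i1 : Integrable (fun x => (f x - g x) ^ 2) μ := hint _ ((hfc.sub hg).pow 2)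
    have i2 : Integrable (fun x => (g x - c) ^ 2) μ := hint _ ((hg.sub continuous_const).pow 2)
    have i3 : Integrable (fun x => (f x - g x) * (g x - c)) μ :=
      hint _ ((hfc.sub hg).mul (hg.sub continuous_const))
    have i12 : Integrable (fun x => (f x - g x) ^ 2 + (g x - c) ^ 2) μ := i1.add i2
    rw [integral_add i12 (i3.const_mul 2), integral_add i1 i2,
      integral_const_mul, hfg (fun x => g x - c) (hg.sub continuous_const) (fun u hu x => by
        simp only [hginv u hu x])]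
    ring
  rw [hsplit, ← hvg] at hvf
  refine hvf.trans ?_
  have e : 12 * R ^ 2 / ((Fintype.card (ι ⊕ κ) : ℝ) - 2) =
      4 * R ^ 2 / ((Fintype.card (ι ⊕ κ) : ℝ) - 2) +
      8 * R ^ 2 / ((Fintype.card (ι ⊕ κ) : ℝ) - 2) := by ring
  rw [e]
  exact add_le_add h2 h1

/-- isotropy and rotation invariance give the second moments of the columns -/
lemma second_moment {r ι : Type} [Fintype r] [Fintype ι] [DecidableEq r] [DecidableEq ι]
    (hr : 2 ≤ Fintype.card r) {μ : Measure (EuclideanSpace ℝ (r × ι))} [IsProbabilityMeasure μ]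
    (hPL : PLm μ) (hinv : MInv μ)
    (hiso : ∀ ℓ : EuclideanSpace ℝ (r × ι) →L[ℝ] ℝ, Var[fun x => ℓ x; μ] = ‖ℓ‖ ^ 2)
    (w : ι → ℝ) (hw : ∑ j, w j ^ 2 = 1) :
    ∫⁻ x, ENNReal.ofReal (∑ i, (∑ j, x (i, j) * w j) ^ 2) ∂μ ≤ Fintype.card r := by
  -- the functional
  let v : r → EuclideanSpace ℝ (r × ι) := fun i => WithLp.toLp 2 fun p => if p.1 = i then w p.2 else 0
  have hv : ∀ i x, inner ℝ (v i) x = ∑ j, x (i, j) * w j := by
    intro i x
    rw [inner_eq_sum]
    rw [Finset.sum_eq_single i]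
    · refine Finset.sum_congr rfl fun j _ => ?_
      simp [v, mul_comm]
    · intro k _ hk
      refine Finset.sum_eq_zero fun j _ => ?_
      simp [v, hk]
    · simp
  have hvn : ∀ i, ‖v i‖ ^ 2 = 1 := by
    intro i
    rw [← real_inner_self_eq_norm_sq, hv, ← hw]
    refine Finset.sum_congr rfl fun j _ => ?_
    simp [v, sq]
  have hL2 : ∀ i, MemLp (fun x => inner ℝ (v i) x) 2 μ := by
    intro i
    rw [memLp_two_iff_integrable_sq (by fun_prop)]
    refine Integrable.mono' (hPL.sq_integrable.const_mul (‖v i‖ ^ 2)) (by fun_prop)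
      (ae_of_all _ fun x => ?_)
    rw [Real.norm_eq_abs, abs_of_nonneg (by positivity), ← mul_pow, ← sq_abs]
    exact pow_le_pow_left₀ (abs_nonneg _) (abs_real_inner_le_norm _ _) 2
  have hvar : ∀ i, Var[fun x => inner ℝ (v i) x; μ] = 1 := by
    intro i
    have h1 := hiso (innerSL ℝ (v i))
    rw [innerSL_apply_norm, hvn] at h1
    exact h1
  -- mean zero
  set b : r → ℝ := fun i => ∫ x, inner ℝ (v i) x ∂μ with hb
  have hint : ∀ i, Integrable (fun x => inner ℝ (v i) x) μ := fun i =>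
    (hL2 i).integrable (by norm_num)
  have hb0 : b = 0 := by
    obtain ⟨u, hu, hub⟩ := rot_trans hr b (-b) (by simp)
    have h1 : (u : Matrix r r ℝ) *ᵥ b = b := by
      ext i
      have h2 : b i = ∫ x, inner ℝ (v i) (act (u : Matrix r r ℝ) x) ∂μ := by
        conv_lhs => rw [hb]
        simp only
        conv_lhs => rw [← hinv u hu]
        rw [integral_map]
        · exact (LinearMap.continuous_of_finiteDimensional _).aemeasurable
        · fun_prop
      rw [h2, Matrix.mulVec, dotProduct]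
      have h3 : ∀ x, inner ℝ (v i) (act (u : Matrix r r ℝ) x) =
          ∑ k, (u : Matrix r r ℝ) i k * inner ℝ (v k) x := by
        intro x
        rw [hv]
        simp_rw [hv, act_apply, Finset.sum_mul, Finset.mul_sum]
        rw [Finset.sum_comm]
        refine Finset.sum_congr rfl fun k _ => Finset.sum_congr rfl fun j _ => by ring
      simp_rw [h3]
      rw [integral_finsetSum _ fun k _ => (hint k).const_mul _]
      refine Finset.sum_congr rfl fun k _ => ?_
      rw [integral_const_mul]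
    rw [hub] at h1
    ext i
    have := congrFun h1 i
    simp only [Pi.neg_apply] at this
    simp only [Pi.zero_apply]
    linarith
  have hsq : ∀ i, ∫ x, (inner ℝ (v i) x) ^ 2 ∂μ = 1 := by
    intro i
    have h1 := hvar i
    rw [variance_eq_integral (by fun_prop)] at h1
    have h2 : (∫ x, inner ℝ (v i) x ∂μ) = 0 := congrFun hb0 i
    rw [h2] at h1
    simpa using h1
  have e : ∀ x : EuclideanSpace ℝ (r × ι), ∑ i, (∑ j, x (i, j) * w j) ^ 2 =
      ∑ i, (inner ℝ (v i) x) ^ 2 := by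
    intro x
    simp_rw [hv]
  simp_rw [e]
  rw [← ofReal_integral_eq_lintegral_ofReal
    (integrable_finsetSum _ fun i _ => (hL2 i).integrable_sq)
    (ae_of_all _ fun x => Finset.sum_nonneg fun i _ => sq_nonneg _),
    integral_finsetSum _ fun i _ => (hL2 i).integrable_sq]
  simp [hsq]

/-- universal Lipschitz variance bound in isotropic position -/
theorem lvb_iso : ∃ M : ℝ, 0 < M ∧ ∀ (ι κ : Type) [Fintype ι] [Fintype κ] [DecidableEq ι]
      [DecidableEq κ] (ρ : EuclideanSpace ℝ ((ι ⊕ κ) × ι) → ℝ≥0∞), 3 ≤ Fintype.card (ι ⊕ κ) →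
      Measurable ρ → LCf ρ → RInv ρ → IsProbabilityMeasure (volume.withDensity ρ) →
      (∀ ℓ : EuclideanSpace ℝ ((ι ⊕ κ) × ι) →L[ℝ] ℝ,
        Var[fun x => ℓ x; volume.withDensity ρ] = ‖ℓ‖ ^ 2) →
      LVb (volume.withDensity ρ) M := by
  obtain ⟨C₁, hC₁, htail⟩ := op_tail (fun r _ _ hr x y h => rot_trans hr x y h)
  obtain ⟨C₂, hC₂, hcut⟩ := cutoff_bound
  refine ⟨36 * C₁ ^ 2 + C₂, by positivity, ?_⟩
  intro ι κ _ _ _ _ ρ hcard hρm hρ hinv hprob hiso
  set μ := (volume : Measure (EuclideanSpace ℝ ((ι ⊕ κ) × ι))).withDensity ρ with hμ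
  set m := Fintype.card (ι ⊕ κ) with hm
  have hm3 : (3 : ℝ) ≤ m := by exact_mod_cast hcard
  have hPL : PLm μ := (plm_haar volume).withDensity hρm hρ
  have hMI : MInv μ := MInv.of_density hρm hinv
  have hac : μ ≪ volume := withDensity_absolutelyContinuous _ _
  have hle : Fintype.card ι ≤ Fintype.card (ι ⊕ κ) := by simp
  have ht := htail (ι ⊕ κ) ι μ hprob hac hPL hMI hcard hle
    (fun w hw => second_moment (by omega) hPL hMI hiso w hw)
  set R : ℝ := C₁ * √(m : ℝ) with hR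
  have hR0 : 0 < R := by positivity
  set K : Set (EuclideanSpace ℝ ((ι ⊕ κ) × ι)) := {x | OpLe R x} with hK
  have hKm : MeasurableSet K := (isClosed_OpLe R).measurableSet
  have hKc : μ.real Kᶜ ≤ Real.exp (-(m : ℝ)) := ht
  have hKpos : μ K ≠ 0 := by
    intro h0
    have h1 : μ.real Kᶜ = 1 := by
      rw [measureReal_compl hKm, measureReal_def μ K, h0]
      simp
    rw [h1] at hKc
    have h2 : Real.exp (-(m : ℝ)) < 1 := by
      rw [Real.exp_lt_one_iff]; linarith
    linarith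
  -- the restricted density
  set ρ' : EuclideanSpace ℝ ((ι ⊕ κ) × ι) → ℝ≥0∞ := fun x => (μ K)⁻¹ * K.indicator ρ x with hρ'
  have hcond : ProbabilityTheory.cond μ K = volume.withDensity ρ' := cond_density hρm hKm
  have hρ'm : Measurable ρ' := (hρm.indicator hKm).const_mul _
  have hρ'inv : RInv ρ' := by
    intro u hu x
    simp only [hρ']
    congr 1
    by_cases hx : x ∈ K
    · rw [indicator_of_mem hx, indicator_of_mem (show act (u : Matrix _ _ ℝ) x ∈ K from
        (OpLe_act u x).mpr hx), hinv u hu x]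
    · rw [indicator_of_notMem hx, indicator_of_notMem (fun h => hx ((OpLe_act u x).mp h))]
  have hρ'lc : LCf ρ' := by
    intro x y l h0 h1
    by_cases hx : x ∈ K
    swap
    · simp only [hρ', indicator_of_notMem hx, mul_zero]
      rw [ENNReal.zero_rpow_of_pos (by linarith), zero_mul]
      exact zero_le
    by_cases hy : y ∈ K
    swap
    · simp only [hρ', indicator_of_notMem hy, mul_zero]
      rw [ENNReal.zero_rpow_of_pos h0, mul_zero]
      exact zero_le
    have hz : (1 - l) • x + l • y ∈ K := OpLe.comb hx hy h0.le h1.le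
    simp only [hρ', indicator_of_mem hx, indicator_of_mem hy, indicator_of_mem hz]
    have hk0 : (μ K)⁻¹ ≠ 0 := ENNReal.inv_ne_zero.mpr (measure_ne_top _ _)
    have hk1 : (μ K)⁻¹ ≠ ∞ := ENNReal.inv_ne_top.mpr hKpos
    rw [ENNReal.mul_rpow_of_nonneg _ _ (by linarith), ENNReal.mul_rpow_of_nonneg _ _ h0.le]
    have hcc : (μ K)⁻¹ ^ (1 - l) * (μ K)⁻¹ ^ l = (μ K)⁻¹ := by
      rw [← ENNReal.rpow_add _ _ hk0 hk1]
      simp
    calc (μ K)⁻¹ ^ (1 - l) * ρ x ^ (1 - l) * ((μ K)⁻¹ ^ l * ρ y ^ l)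
        = ((μ K)⁻¹ ^ (1 - l) * (μ K)⁻¹ ^ l) * (ρ x ^ (1 - l) * ρ y ^ l) := by ring
      _ ≤ (μ K)⁻¹ * ρ ((1 - l) • x + l • y) := by
        rw [hcc]
        gcongr
        exact hρ x y l h0 h1
  have hprob' : IsProbabilityMeasure
      ((volume : Measure (EuclideanSpace ℝ ((ι ⊕ κ) × ι))).withDensity ρ') := by
    rw [← hcond]
    exact cond_isProbabilityMeasure hKpos
  have hsupp : ∀ x, ρ' x ≠ 0 → OpLe R x := by
    intro x hx
    by_contra h
    apply hx
    simp only [hρ', indicator_of_notMem (show x ∉ K from h), mul_zero]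
  intro g hg _ _ hg1
  have h1 := var_restricted hcard hρ'm hρ'lc hρ'inv hR0 hsupp hg hg1
  rw [← hcond] at h1
  have hgl : ∀ x y, |g x - g y| ≤ ‖x - y‖ := by
    intro x y
    have := Convex.norm_image_sub_le_of_norm_fderiv_le (𝕜 := ℝ) (f := g) (s := univ)
      (fun z _ => (hg.differentiable (by norm_num)) z) (fun z _ => hg1 z) convex_univ
      (mem_univ y) (mem_univ x)
    rw [Real.norm_eq_abs, one_mul] at this
    exact this
  have h2 : 12 * R ^ 2 / ((m : ℝ) - 2) ≤ 36 * C₁ ^ 2 := by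
    rw [div_le_iff₀ (by linarith), hR, mul_pow, Real.sq_sqrt (by linarith)]
    nlinarith [sq_nonneg C₁, mul_nonneg (sq_nonneg C₁) (sub_nonneg.mpr hm3)]
  exact hcut (ι ⊕ κ) ι μ hprob hPL hiso hcard hle K hKm hKc g hg.continuous hgl _ (h1.trans h2)

/-- the affine invariant Poincare inequality is invariant under linear equivalences -/
lemma AP_comp {E F : Type*} [NormedAddCommGroup E] [NormedSpace ℝ E]
    [NormedAddCommGroup F] [NormedSpace ℝ F] [MeasurableSpace E] [BorelSpace E]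
    [MeasurableSpace F] [BorelSpace F] {μ : Measure E} {K : ℝ} (e : E ≃L[ℝ] F)
    (h : AP (μ.map e) K) : AP μ K := by
  intro f hf hl
  obtain ⟨l, hl⟩ := hl
  have hl0 : 0 ≤ l := (norm_nonneg _).trans (hl 0)
  set me : E ≃ᵐ F := e.toHomeomorph.toMeasurableEquiv with hme
  have hco : (me : E → F) = e := rfl
  have hd : ∀ y, HasFDerivAt (fun y => f (e.symm y))
      ((fderiv ℝ f (e.symm y)).comp (e.symm : F →L[ℝ] E)) y := by
    intro y
    have h1 : HasFDerivAt f (fderiv ℝ f (e.symm y)) (e.symm y) :=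
      (hf.differentiable one_ne_zero _).hasFDerivAt
    exact h1.comp y (e.symm : F →L[ℝ] E).hasFDerivAt
  have h1 := h (fun y => f (e.symm y)) (hf.comp e.symm.contDiff)
    ⟨l * ‖(e.symm : F →L[ℝ] E)‖, fun x => by
      rw [(hd x).fderiv]
      refine (ContinuousLinearMap.opNorm_comp_le _ _).trans ?_
      gcongr
      exact hl _⟩
  simp_rw [(hd _).fderiv] at h1
  have h2 : ∀ g : F → ℝ, Var[g; μ.map e] = Var[g ∘ e; μ] := by
    intro g
    rw [← hco]
    exact variance_map_equiv g me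
  rw [h2] at h1
  simp_rw [h2] at h1
  rw [← hco, integral_map_equiv] at h1
  have e1 : ((fun y => f (e.symm y)) ∘ e) = f := by
    funext x
    simp
  have e2 : ∀ x, ((fun y => ((fderiv ℝ f (e.symm (me x))).comp (e.symm : F →L[ℝ] E)) y) ∘ e) =
      fun z => fderiv ℝ f x z := by
    intro x
    funext z
    have : e.symm (me x) = x := by rw [hco]; simp
    simp [this]
  simp_rw [hco] at h1
  simp_rw [hco] at e2
  rw [e1] at h1
  simp_rw [e2] at h1
  exact h1

section rmul

variable {r ι : Type*} [Fintype r] [Fintype ι] [DecidableEq ι]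

lemma rm_def (T : Matrix ι ι ℝ) (x : EuclideanSpace ℝ (r × ι)) : rm T x = me (mt x * T) := rfl

lemma rm_rm (S T : Matrix ι ι ℝ) (x : EuclideanSpace ℝ (r × ι)) :
    rm T (rm S x) = rm (S * T) x := by
  rw [rm_def, rm_def, rm_def, mt_me, Matrix.mul_assoc]

lemma rm_one (x : EuclideanSpace ℝ (r × ι)) : rm 1 x = x := by
  rw [rm_def, Matrix.mul_one, me_mt]

lemma rm_act (T : Matrix ι ι ℝ) (U : Matrix r r ℝ) (x : EuclideanSpace ℝ (r × ι)) :
    rm T (act U x) = act U (rm T x) := by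
  rw [rm_def, mt_act, act_def, rm_def, mt_me, Matrix.mul_assoc]

/-- right multiplication by an invertible matrix, as an equivalence -/
noncomputable def rmE (T : Matrix ι ι ℝ) (hT : IsUnit T.det) :
    EuclideanSpace ℝ (r × ι) ≃L[ℝ] EuclideanSpace ℝ (r × ι) :=
  ContinuousLinearEquiv.equivOfInverse (rm T) (rm T⁻¹)
    (fun x => by rw [rm_rm, Matrix.mul_nonsing_inv _ hT, rm_one])
    (fun x => by rw [rm_rm, Matrix.nonsing_inv_mul _ hT, rm_one])

lemma rmE_apply (T : Matrix ι ι ℝ) (hT : IsUnit T.det) (x : EuclideanSpace ℝ (r × ι)) :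
    rmE T hT x = rm T x := rfl

lemma rmE_symm_apply (T : Matrix ι ι ℝ) (hT : IsUnit T.det) (x : EuclideanSpace ℝ (r × ι)) :
    (rmE T hT).symm x = rm T⁻¹ x := rfl

end rmul

/-- image of a density under a linear equivalence -/
lemma map_density {E : Type*} [NormedAddCommGroup E] [InnerProductSpace ℝ E]
    [FiniteDimensional ℝ E] [MeasurableSpace E] [BorelSpace E] (e : E ≃L[ℝ] E) :
    ∃ c : ℝ≥0∞, c ≠ 0 ∧ c ≠ ∞ ∧ ∀ ρ : E → ℝ≥0∞, Measurable ρ →
      ((volume : Measure E).withDensity ρ).map e =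
        (volume : Measure E).withDensity (fun y => c * ρ (e.symm y)) := by
  have hdet : LinearMap.det (e : E →ₗ[ℝ] E) ≠ 0 := e.toLinearEquiv.isUnit_det'.ne_zero
  refine ⟨ENNReal.ofReal |(LinearMap.det (e : E →ₗ[ℝ] E))⁻¹|, ?_, ENNReal.ofReal_ne_top, ?_⟩
  · rw [Ne, ENNReal.ofReal_eq_zero, not_le]
    positivity
  intro ρ hρ
  have hvol : (volume : Measure E).map e =
      ENNReal.ofReal |(LinearMap.det (e : E →ₗ[ℝ] E))⁻¹| • (volume : Measure E) :=
    Measure.map_linearMap_addHaar_eq_smul_addHaar _ hdet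
  have hem : Measurable e := e.continuous.measurable
  have hsm : Measurable fun y => ρ (e.symm y) := hρ.comp e.symm.continuous.measurable
  ext s hs
  rw [Measure.map_apply hem hs, withDensity_apply _ (hem hs), withDensity_apply _ hs,
    lintegral_const_mul _ hsm, ← smul_eq_mul, ← lintegral_smul_measure,
    ← Measure.restrict_smul, ← hvol, setLIntegral_map hs hsm hem]
  refine setLIntegral_congr_fun (hem hs) fun x _ => ?_
  rw [ContinuousLinearEquiv.symm_apply_apply]

/-- THE MAIN THEOREM, affine invariant form -/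
theorem hmain : ∃ K : ℝ, 1 ≤ K ∧ ∀ (ι κ : Type) [Fintype ι] [Fintype κ] [DecidableEq ι]
      [DecidableEq κ] (ρ : EuclideanSpace ℝ ((ι ⊕ κ) × ι) → ℝ≥0∞), 3 ≤ Fintype.card (ι ⊕ κ) →
      Measurable ρ → LCf ρ → RInv ρ → IsProbabilityMeasure (volume.withDensity ρ) →
      AP (volume.withDensity ρ) K := by
  obtain ⟨M, hM, hlv⟩ := lvb_iso
  obtain ⟨C, hC, hem⟩ := Pool.Agent.Lib.MP_6d896a_gt.FP.em
  refine ⟨max 1 (C * M), le_max_left _ _, ?_⟩
  intro ι κ _ _ _ _ ρ hcard hρm hρ hinv hprob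
  set μ := (volume : Measure (EuclideanSpace ℝ ((ι ⊕ κ) × ι))).withDensity ρ with hμ
  have hPL : PLm μ := (plm_haar volume).withDensity hρm hρ
  have hMI : MInv μ := MInv.of_density hρm hinv
  have hac : μ ≪ volume := withDensity_absolutelyContinuous _ _
  obtain ⟨T, hT, hiso⟩ := isotropize hcard hPL hac hMI
  have hcoe : μ.map (rm T) = μ.map (rmE T hT) := rfl
  obtain ⟨c, hc0, hc1, hmap⟩ := map_density (rmE (r := ι ⊕ κ) T hT)
  set ρ' : EuclideanSpace ℝ ((ι ⊕ κ) × ι) → ℝ≥0∞ := fun y => c * ρ ((rmE T hT).symm y) with hρ'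
  have hν : μ.map (rmE T hT) = volume.withDensity ρ' := hmap ρ hρm
  have hρ'm : Measurable ρ' :=
    (hρm.comp (rmE (r := ι ⊕ κ) T hT).symm.continuous.measurable).const_mul _
  have hρ'lc : LCf ρ' := by
    intro x y l h0 h1
    simp only [hρ', map_add, map_smul]
    rw [ENNReal.mul_rpow_of_nonneg _ _ (by linarith), ENNReal.mul_rpow_of_nonneg _ _ h0.le]
    have hcc : c ^ (1 - l) * c ^ l = c := by
      rw [← ENNReal.rpow_add _ _ hc0 hc1]
      simp
    calc c ^ (1 - l) * ρ ((rmE T hT).symm x) ^ (1 - l) * (c ^ l * ρ ((rmE T hT).symm y) ^ l)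
        = (c ^ (1 - l) * c ^ l) *
          (ρ ((rmE T hT).symm x) ^ (1 - l) * ρ ((rmE T hT).symm y) ^ l) := by ring
      _ ≤ _ := by
        rw [hcc]
        gcongr
        exact hρ _ _ l h0 h1
  have hρ'inv : RInv ρ' := by
    intro u hu x
    simp only [hρ', rmE_symm_apply, rm_act, hinv u hu]
  have hprob' : IsProbabilityMeasure
      ((volume : Measure (EuclideanSpace ℝ ((ι ⊕ κ) × ι))).withDensity ρ') := by
    rw [← hν]
    exact Measure.isProbabilityMeasure_map (rmE T hT).continuous.aemeasurable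
  have hiso' : ∀ ℓ : EuclideanSpace ℝ ((ι ⊕ κ) × ι) →L[ℝ] ℝ,
        Var[fun x => ℓ x; volume.withDensity ρ'] = ‖ℓ‖ ^ 2 := by
    intro ℓ
    rw [← hν, ← hcoe]
    exact hiso ℓ
  have hlvb := hlv ι κ ρ' hcard hρ'm hρ'lc hρ'inv hprob' hiso'
  have hPL' : PLm ((volume : Measure (EuclideanSpace ℝ ((ι ⊕ κ) × ι))).withDensity ρ') :=
    (plm_haar volume).withDensity hρ'm hρ'lc
  refine AP_comp (rmE T hT) ?_
  rw [hν]
  intro f hf hl
  have h1 := hem _ (volume.withDensity ρ') hPL' M hM hlvb f hf hl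
  simp_rw [hiso']
  refine h1.trans ?_
  exact mul_le_mul_of_nonneg_right (le_max_right _ _) (integral_nonneg fun x => by positivity)

end Pool.Agent.Lib.MP_6d896a_gt.OM
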