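import Pool.Agent.Lib.MP_6d896a_gt.FP.EM
import Pool.Agent.Lib.MP_6d896a_gt.FP.Whiten

/-!
Affine invariant Poincare inequality for log-concave measures in dimension at most four.
-/

set_option autoImplicit false

namespace Pool.Agent.Lib.MP_6d896a_gt.OM

open MeasureTheory ProbabilityTheory Set Filter
open Pool.Agent.Lib.MP_6d896a_gt.FP
open scoped ENNReal Topology

section

variable {E : Type*} [NormedAddCommGroup E] [InnerProductSpace ℝ E] [FiniteDimensional ℝ E]
  [MeasurableSpace E] [BorelSpace E]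

lemma clm_memLp {μ : Measure E} [IsProbabilityMeasure μ] (h : PLm μ) (ℓ : E →L[ℝ] ℝ) :
    MemLp (fun x => ℓ x) 2 μ := by
  rw [memLp_two_iff_integrable_sq ℓ.continuous.aestronglyMeasurable]
  refine Integrable.mono' (h.sq_integrable.const_mul (‖ℓ‖ ^ 2))
    (ℓ.continuous.pow 2).aestronglyMeasurable (ae_of_all _ fun x => ?_)
  rw [Real.norm_eq_abs, abs_of_nonneg (by positivity), ← mul_pow, ← sq_abs]
  exact pow_le_pow_left₀ (abs_nonneg _) (ℓ.le_opNorm x) 2

lemma nondeg_of_ac {μ : Measure E} [IsProbabilityMeasure μ] (h : PLm μ)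
    (hac : μ ≪ (volume : Measure E)) (ℓ : E →L[ℝ] ℝ) (h0 : Var[fun x => ℓ x; μ] = 0) :
    ℓ = 0 := by
  by_contra hne
  have h1 := ae_eq_integral_of_variance_eq_zero (clm_memLp h ℓ) h0
  set c := ∫ x, ℓ x ∂μ with hc
  -- the hyperplane is null
  have hker : (LinearMap.ker (ℓ : E →ₗ[ℝ] ℝ)) ≠ ⊤ := by
    intro h2
    apply hne
    ext x
    have : x ∈ LinearMap.ker (ℓ : E →ₗ[ℝ] ℝ) := h2 ▸ Submodule.mem_top
    simpa using this
  have hnull : (volume : Measure E) {x | ℓ x = c} = 0 := by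
    rcases (({x | ℓ x = c} : Set E)).eq_empty_or_nonempty with he | ⟨a, ha⟩
    · rw [he]; exact measure_empty
    · have h3 := Measure.addHaar_submodule (volume : Measure E) _ hker
      have h4 : ({x | ℓ x = c} : Set E) =
          (fun x => x + (-a)) ⁻¹' (LinearMap.ker (ℓ : E →ₗ[ℝ] ℝ) : Set E) := by
        ext x
        simp only [mem_ofPred_eq, mem_preimage, SetLike.mem_coe, LinearMap.mem_ker]
        have ha' : ℓ a = c := ha
        change ℓ x = c ↔ ℓ (x + -a) = 0
        rw [map_add, map_neg, ha']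
        constructor
        · intro h; rw [h]; ring
        · intro h; linarith
      rw [h4, measure_preimage_add_right]
      exact h3
  have h5 : μ {x | ℓ x = c} = 0 := hac hnull
  have h6 : μ {x | ℓ x = c}ᶜ = 0 := h1
  have h7 : μ (univ : Set E) = 0 := by
    rw [← union_compl_self {x | ℓ x = c}]
    exact measure_union_null h5 h6
  rw [measure_univ] at h7
  exact one_ne_zero h7

end

/-- In isotropic position the variance of a function with Lipschitz constant one is at most the
dimension. -/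
lemma lvb_of_iso {n : ℕ} {ν : Measure (EuclideanSpace ℝ (Fin n))} [IsProbabilityMeasure ν]
    (h : PLm ν) (hv : ∀ i, Var[fun x => x i; ν] = 1) : LVb ν n := by
  intro g hg hb _ hl
  obtain ⟨B, hB⟩ := hb
  have hLip : ∀ x y, |g x - g y| ≤ ‖x - y‖ := by
    intro x y
    have := Convex.norm_image_sub_le_of_norm_fderiv_le (𝕜 := ℝ) (f := g) (s := univ)
      (fun z _ => (hg.differentiable (by norm_num)) z) (fun z _ => hl z) convex_univ
      (mem_univ y) (mem_univ x)
    rw [Real.norm_eq_abs, one_mul] at this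
    exact this
  have hm : ∀ i, MemLp (fun x : EuclideanSpace ℝ (Fin n) => x i) 2 ν := fun i =>
    clm_memLp h (EuclideanSpace.proj i)
  set m : EuclideanSpace ℝ (Fin n) := WithLp.toLp 2 (fun i => ∫ x, x i ∂ν) with hmdef
  have hgi : MemLp g 2 ν := by
    refine MemLp.of_bound hg.continuous.aestronglyMeasurable B (ae_of_all _ fun x => ?_)
    rw [Real.norm_eq_abs]
    exact hB x
  have h1 : Var[g; ν] ≤ ∫ x, (g x - g m) ^ 2 ∂ν := by
    have h2 : Var[g; ν] = Var[fun x => g x - g m; ν] := by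
      rw [variance_sub_const hg.continuous.aestronglyMeasurable]
    rw [h2]
    refine (variance_le_expectation_sq (hg.continuous.sub continuous_const).aestronglyMeasurable).trans
      (le_of_eq ?_)
    rfl
  have h3 : ∀ x, (g x - g m) ^ 2 ≤ ∑ i, (x i - ∫ x, x i ∂ν) ^ 2 := by
    intro x
    have h4 : (g x - g m) ^ 2 ≤ ‖x - m‖ ^ 2 := by
      rw [← sq_abs]
      exact pow_le_pow_left₀ (abs_nonneg _) (hLip x m) 2
    refine h4.trans (le_of_eq ?_)
    rw [EuclideanSpace.norm_sq_eq]
    refine Finset.sum_congr rfl fun i _ => ?_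
    rw [Real.norm_eq_abs, sq_abs]
    rfl
  have hint : ∀ i, Integrable (fun x : EuclideanSpace ℝ (Fin n) => (x i - ∫ x, x i ∂ν) ^ 2) ν :=
    fun i => ((hm i).sub (memLp_const _)).integrable_sq
  have h5 : ∫ x, (g x - g m) ^ 2 ∂ν ≤ ∫ x, ∑ i, (x i - ∫ x, x i ∂ν) ^ 2 ∂ν := by
    refine integral_mono_of_nonneg (ae_of_all _ fun x => by positivity)
      (integrable_finsetSum _ fun i _ => hint i) (ae_of_all _ h3)
  refine h1.trans (h5.trans ?_)
  rw [integral_finsetSum _ fun i _ => hint i]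
  have h6 : ∀ i, ∫ x, (x i - ∫ x, x i ∂ν) ^ 2 ∂ν = 1 := by
    intro i
    rw [← hv i, variance_eq_integral (hm i).aestronglyMeasurable.aemeasurable]
  simp [h6]

/-- S-S: small dimension. -/
theorem ap_small : ∃ K : ℝ, 1 ≤ K ∧ ∀ (E : Type) [NormedAddCommGroup E] [InnerProductSpace ℝ E]
    [FiniteDimensional ℝ E] [MeasurableSpace E] [BorelSpace E] (μ : Measure E),
    IsProbabilityMeasure μ → PLm μ → μ ≪ volume → Module.finrank ℝ E ≤ 4 → AP μ K := by
  obtain ⟨C, hC, hem⟩ := Pool.Agent.Lib.MP_6d896a_gt.FP.em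
  refine ⟨max 1 (C * 4), le_max_left _ _, ?_⟩
  intro E _ _ _ _ _ μ hμ h hac hdim
  obtain ⟨T, hT⟩ := whiten μ (fun ℓ => clm_memLp h ℓ) (fun ℓ h0 => nondeg_of_ac h hac ℓ h0)
  have hTm : Measurable (T.symm : E → EuclideanSpace ℝ (Fin (Module.finrank ℝ E))) :=
    T.symm.continuous.measurable
  have hprob : IsProbabilityMeasure (μ.map T.symm) :=
    Measure.isProbabilityMeasure_map hTm.aemeasurable
  have hPL : PLm (μ.map T.symm) :=
    PLm.map h (T.symm.toLinearEquiv.toLinearMap) hTm
  have hv : ∀ i, Var[fun x : EuclideanSpace ℝ (Fin (Module.finrank ℝ E)) => x i;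
      μ.map T.symm] = 1 := by
    intro i
    have hpm : Measurable fun x : EuclideanSpace ℝ (Fin (Module.finrank ℝ E)) => x i := by
      fun_prop
    have h1 : Var[fun x : EuclideanSpace ℝ (Fin (Module.finrank ℝ E)) => x i; μ.map T.symm] =
        Var[fun x => (T.symm x) i; μ] := variance_map hpm.aemeasurable hTm.aemeasurable
    rw [h1]
    have h2 := hT ((EuclideanSpace.proj i).comp
      (T.symm : E →L[ℝ] EuclideanSpace ℝ (Fin (Module.finrank ℝ E))))
    have h3 : (((EuclideanSpace.proj i : EuclideanSpace ℝ (Fin (Module.finrank ℝ E)) →L[ℝ] ℝ).comp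
      (T.symm : E →L[ℝ] EuclideanSpace ℝ (Fin (Module.finrank ℝ E)))).comp
      (T : EuclideanSpace ℝ (Fin (Module.finrank ℝ E)) →L[ℝ] E)) =
      (EuclideanSpace.proj i : EuclideanSpace ℝ (Fin (Module.finrank ℝ E)) →L[ℝ] ℝ) := by
      ext x
      simp
    rw [h3, norm_sq_functional] at h2
    have h4 : ∑ j, ((EuclideanSpace.proj i : EuclideanSpace ℝ (Fin (Module.finrank ℝ E)) →L[ℝ] ℝ)
        (EuclideanSpace.single j (1 : ℝ))) ^ 2 = 1 := by
      simp
    rw [h4] at h2
    exact h2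
  have hlv : LVb (μ.map T.symm) 4 := by
    intro g hg hb hL hl
    refine (lvb_of_iso hPL hv g hg hb hL hl).trans ?_
    exact_mod_cast hdim
  refine ap_of_poinc T hT fun f hf hl => ?_
  refine (hem _ (μ.map T.symm) hPL 4 (by norm_num) hlv f hf hl).trans ?_
  exact mul_le_mul_of_nonneg_right (le_max_right _ _) (integral_nonneg fun x => by positivity)

end Pool.Agent.Lib.MP_6d896a_gt.OM
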