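import Pool.Agent.Lib.MP_6d896a_gt.OM.Defs
import Pool.Agent.Lib.MP_6d896a_gt.OM.SmallDim

/-!
Final assembly: from matrices with rows indexed by `ι ⊕ κ` to all sizes, and linear images.
-/

set_option autoImplicit false

namespace Pool.Agent.Lib.MP_6d896a_gt.OM

open MeasureTheory ProbabilityTheory Matrix Set Filter
open Pool.Agent.Lib.MP_6d896a_gt.FP
open scoped ENNReal Topology

/-- the affine invariant Poincare inequality passes to linear images -/
lemma ap_map_clm {E F : Type*} [NormedAddCommGroup E] [NormedSpace ℝ E]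
    [NormedAddCommGroup F] [NormedSpace ℝ F] [MeasurableSpace E] [BorelSpace E]
    [MeasurableSpace F] [BorelSpace F] [SecondCountableTopology E] [SecondCountableTopology F]
    {μ : Measure E} [SFinite μ] {K : ℝ} (h : AP μ K) (e : E →L[ℝ] F) :
    AP (μ.map e) K := by
  intro f hf hl
  obtain ⟨l, hl⟩ := hl
  have hem : Measurable e := e.continuous.measurable
  have hl0 : 0 ≤ l := (norm_nonneg _).trans (hl 0)
  have hd : ∀ x, HasFDerivAt (fun x => f (e x)) ((fderiv ℝ f (e x)).comp e) x := by
    intro x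
    have h1 : HasFDerivAt f (fderiv ℝ f (e x)) (e x) :=
      (hf.differentiable one_ne_zero _).hasFDerivAt
    exact h1.comp x e.hasFDerivAt
  have h1 := h (fun x => f (e x)) (hf.comp e.contDiff)
    ⟨l * ‖e‖, fun x => by
      rw [(hd x).fderiv]
      refine (ContinuousLinearMap.opNorm_comp_le _ _).trans ?_
      gcongr
      exact hl _⟩
  simp_rw [(hd _).fderiv] at h1
  have h2 : ∀ g : F → ℝ, Continuous g → Var[g; μ.map e] = Var[fun x => g (e x); μ] := by
    intro g hg
    exact variance_map hg.measurable.aemeasurable hem.aemeasurable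
  have h3 : ∀ y : F, Var[fun z => fderiv ℝ f y z; μ.map e] =
      Var[fun z => fderiv ℝ f y (e z); μ] := fun y => h2 _ (fderiv ℝ f y).continuous
  rw [h2 f hf.continuous]
  simp_rw [h3]
  have hjc : Continuous fun p : F × E => fderiv ℝ f p.1 (e p.2) := by
    have h4 : Continuous (fderiv ℝ f) := hf.continuous_fderiv (by norm_num)
    exact (h4.comp continuous_fst).clm_apply (e.continuous.comp continuous_snd)
  have hmean : StronglyMeasurable fun y : F => ∫ z, fderiv ℝ f y (e z) ∂μ :=
    hjc.stronglyMeasurable.integral_prod_right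
  have hvar : Measurable fun y : F => Var[fun z => fderiv ℝ f y (e z); μ] := by
    unfold variance evariance
    refine Measurable.ennreal_toReal ?_
    refine Measurable.lintegral_prod_right (f := fun y z =>
      ‖fderiv ℝ f y (e z) - ∫ z, fderiv ℝ f y (e z) ∂μ‖ₑ ^ 2) ?_
    exact ((hjc.measurable.sub (hmean.measurable.comp measurable_fst)).enorm).pow_const 2
  refine h1.trans (le_of_eq ?_)
  congr 1
  rw [integral_map hem.aemeasurable hvar.aestronglyMeasurable]
  rfl

section reindex

variable {m n : ℕ} {r : Type} [Fintype r]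

/-- matrices with rows indexed by `r` as matrices with rows indexed by `Fin m` -/
noncomputable def rx (n : ℕ) (σ : r ≃ Fin m) :
    EuclideanSpace ℝ (r × Fin n) ≃L[ℝ] (Fin m → Fin n → ℝ) :=
  LinearEquiv.toContinuousLinearEquiv
    { toFun := fun x i j => x (σ.symm i, j)
      invFun := fun A => WithLp.toLp 2 fun p => A (σ p.1) p.2
      map_add' := fun x y => by funext i j; simp
      map_smul' := fun c x => by funext i j; simp
      left_inv := fun x => by ext p; simp
      right_inv := fun A => by funext i j; simp }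

lemma rx_apply (σ : r ≃ Fin m) (x : EuclideanSpace ℝ (r × Fin n)) (i : Fin m) (j : Fin n) :
    rx n σ x i j = x (σ.symm i, j) := rfl

lemma rx_symm_mp (σ : r ≃ Fin m) :
    MeasurePreserving (rx n σ).symm (volume : Measure (Fin m → Fin n → ℝ))
      (volume : Measure (EuclideanSpace ℝ (r × Fin n))) := by
  have h1 : MeasurePreserving (fun (A : Fin m → Fin n → ℝ) (p : r × Fin n) => A (σ p.1) p.2)
      volume volume := by
    have hm : Measurable fun (A : Fin m → Fin n → ℝ) (p : r × Fin n) => A (σ p.1) p.2 := by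
      refine measurable_pi_lambda _ fun p => ?_
      exact (measurable_pi_apply p.2).comp (measurable_pi_apply (σ p.1))
    refine ⟨hm, ?_⟩
    symm
    refine Measure.pi_eq fun s hs => ?_
    rw [Measure.map_apply hm (MeasurableSet.univ_pi hs)]
    have e : (fun (A : Fin m → Fin n → ℝ) (p : r × Fin n) => A (σ p.1) p.2) ⁻¹' (Set.pi univ s) =
        Set.pi univ fun i => Set.pi univ fun j => s (σ.symm i, j) := by
      ext A
      simp only [mem_preimage, Set.mem_pi, mem_univ, true_implies]
      constructor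
      · intro h i j
        have := h (σ.symm i, j)
        simpa using this
      · intro h p
        have := h (σ p.1) p.2
        simpa using this
    rw [e, volume_pi_pi]
    simp_rw [volume_pi_pi]
    rw [Fintype.prod_prod_type, ← Equiv.prod_comp σ]
    simp
  exact (PiLp.volume_preserving_toLp (r × Fin n)).comp h1

/-- the law of a random matrix in Euclidean coordinates -/
lemma map_rx (σ : r ≃ Fin m) {F : (Fin m → Fin n → ℝ) → ℝ≥0∞} (hF : Measurable F) :
    ((volume : Measure (EuclideanSpace ℝ (r × Fin n))).withDensity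
      (fun x => F (rx n σ x))).map (rx n σ) = volume.withDensity F := by
  have hmp : MeasurePreserving (rx n σ) (volume : Measure (EuclideanSpace ℝ (r × Fin n)))
      (volume : Measure (Fin m → Fin n → ℝ)) := by
    have := MeasurePreserving.symm (rx n σ).symm.toHomeomorph.toMeasurableEquiv (rx_symm_mp σ)
    exact this
  ext s hs
  rw [Measure.map_apply (rx n σ).continuous.measurable hs,
    withDensity_apply _ ((rx n σ).continuous.measurable hs), withDensity_apply _ hs,
    hmp.setLIntegral_comp_preimage hs hF]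

end reindex

/-- S-F: everything for all sizes, from the case `r = ι ⊕ κ`, `3 ≤ card r`, and small dimension;
linear images. -/
theorem kls_of_ap
    (hmain : ∃ K : ℝ, 1 ≤ K ∧ ∀ (ι κ : Type) [Fintype ι] [Fintype κ] [DecidableEq ι]
      [DecidableEq κ] (ρ : EuclideanSpace ℝ ((ι ⊕ κ) × ι) → ℝ≥0∞), 3 ≤ Fintype.card (ι ⊕ κ) →
      Measurable ρ → LCf ρ → RInv ρ → IsProbabilityMeasure (volume.withDensity ρ) →
      AP (volume.withDensity ρ) K)
    (hcheeger : ∃ C : ℝ, 0 < C ∧ ∀ (m : ℕ) (ν : Measure (EuclideanSpace ℝ (Fin m))),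
      IsProbabilityMeasure ν → PLm ν →
      (∀ θ : EuclideanSpace ℝ (Fin m),
        MemLp (fun x => inner ℝ x θ : EuclideanSpace ℝ (Fin m) → ℝ) 2 ν) →
      ∀ K : ℝ, 1 ≤ K → AP ν K → ∀ s : ℝ, 0 < s →
      (∀ θ : EuclideanSpace ℝ (Fin m), ‖θ‖ = 1 → Var[fun x => inner ℝ x θ; ν] ≤ s) →
      ∀ S : Set (EuclideanSpace ℝ (Fin m)), MeasurableSet S →
        ENNReal.ofReal (C / Real.sqrt (K * s)) * min (ν S) (ν Sᶜ) ≤
          Filter.liminf (fun ε : ℝ => (ν (Metric.thickening ε S) - ν S) / ENNReal.ofReal ε)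
            (𝓝[>] 0)) :
    ∃ C : ℝ, 0 < C ∧ ∀ (m n : ℕ), n ≤ m → ∀ ρ : (Fin m → Fin n → ℝ) → ℝ,
      Measurable ρ → (∀ A, 0 ≤ ρ A) →
      (∀ (A B : Fin m → Fin n → ℝ) (a b : ℝ), 0 < a → 0 < b → a + b = 1 →
        ρ A ^ a * ρ B ^ b ≤ ρ (a • A + b • B)) →
      (∀ U : Matrix (Fin m) (Fin m) ℝ, U.transpose * U = 1 → U.det = 1 →
        ∀ A : Fin m → Fin n → ℝ, ρ (fun i j => ∑ k, U i k * A k j) = ρ A) →
      ∫⁻ A, ENNReal.ofReal (ρ A) = 1 →
      ∀ (k : ℕ) (L : (Fin m → Fin n → ℝ) →ₗ[ℝ] EuclideanSpace ℝ (Fin k))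
        (μ : Measure (EuclideanSpace ℝ (Fin k))),
        μ = (volume.withDensity fun A => ENNReal.ofReal (ρ A)).map L →
        ∀ s : ℝ, 0 < s →
          (∀ θ : EuclideanSpace ℝ (Fin k), ‖θ‖ = 1 → Var[fun x => inner ℝ x θ; μ] ≤ s) →
          ∀ S : Set (EuclideanSpace ℝ (Fin k)), MeasurableSet S →
            ENNReal.ofReal (C / Real.sqrt s) * min (μ S) (μ Sᶜ) ≤
              Filter.liminf (fun ε : ℝ => (μ (Metric.thickening ε S) - μ S) / ENNReal.ofReal ε)
                (𝓝[>] 0) := by
  obtain ⟨K1, hK1, hmain⟩ := hmain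
  obtain ⟨K2, hK2, hsmall⟩ := ap_small
  obtain ⟨C0, hC0, hch⟩ := hcheeger
  have hK : 1 ≤ max K1 K2 := hK1.trans (le_max_left _ _)
  have hK0 : 0 < max K1 K2 := lt_of_lt_of_le one_pos hK
  refine ⟨C0 / Real.sqrt (max K1 K2), div_pos hC0 (Real.sqrt_pos.2 hK0), ?_⟩
  intro m n hnm ρ hρm hρ0 hρlc hρinv hρ1 k L μ hμ s hs hvar S hS
  set F : (Fin m → Fin n → ℝ) → ℝ≥0∞ := fun A => ENNReal.ofReal (ρ A) with hF
  have hFm : Measurable F := hρm.ennreal_ofReal
  have hFlc : ∀ (A B : Fin m → Fin n → ℝ) (l : ℝ), 0 < l → l < 1 →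
      F A ^ (1 - l) * F B ^ l ≤ F ((1 - l) • A + l • B) := by
    intro A B l h0 h1
    rw [hF]
    simp only
    rw [ENNReal.ofReal_rpow_of_nonneg (hρ0 A) (by linarith),
      ENNReal.ofReal_rpow_of_nonneg (hρ0 B) h0.le, ← ENNReal.ofReal_mul (by
        exact Real.rpow_nonneg (hρ0 A) _)]
    exact ENNReal.ofReal_le_ofReal (hρlc A B (1 - l) l (by linarith) h0 (by ring))
  have hPX : IsProbabilityMeasure ((volume : Measure (Fin m → Fin n → ℝ)).withDensity F) := by
    refine ⟨?_⟩
    rw [withDensity_apply _ MeasurableSet.univ, Measure.restrict_univ]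
    exact hρ1
  have hPLX : PLm ((volume : Measure (Fin m → Fin n → ℝ)).withDensity F) :=
    (plm_haar _).withDensity hFm fun A B l h0 h1 => hFlc A B l h0 h1
  -- the Euclidean coordinates
  have hprob : ∀ (r : Type) [Fintype r] (σ : r ≃ Fin m), IsProbabilityMeasure
      ((volume : Measure (EuclideanSpace ℝ (r × Fin n))).withDensity
        (fun x => F (rx n σ x))) := by
    intro r _ σ
    refine ⟨?_⟩
    have h1 := map_rx (n := n) σ hFm
    have h2 : (((volume : Measure (EuclideanSpace ℝ (r × Fin n))).withDensity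
      (fun x => F (rx n σ x))).map (rx n σ)) univ = 1 := by
      rw [h1]; exact measure_univ
    rwa [Measure.map_apply (rx n σ).continuous.measurable MeasurableSet.univ, preimage_univ] at h2
  have hlc : ∀ (r : Type) [Fintype r] (σ : r ≃ Fin m),
      LCf (fun x : EuclideanSpace ℝ (r × Fin n) => F (rx n σ x)) := by
    intro r _ σ x y l h0 h1
    have := hFlc (rx n σ x) (rx n σ y) l h0 h1
    rwa [← map_smul, ← map_smul, ← map_add] at this
  have hms : ∀ (r : Type) [Fintype r] (σ : r ≃ Fin m),
      Measurable (fun x : EuclideanSpace ℝ (r × Fin n) => F (rx n σ x)) := fun r _ σ =>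
    hFm.comp (rx n σ).continuous.measurable
  have key : ∃ (r : Type) (_ : Fintype r) (σ : r ≃ Fin m),
      AP ((volume : Measure (EuclideanSpace ℝ (r × Fin n))).withDensity
        (fun x => F (rx n σ x))) (max K1 K2) := by
    rcases Nat.lt_or_ge m 3 with hm | hm
    · refine ⟨Fin m, inferInstance, Equiv.refl _, ?_⟩
      have h1 : AP ((volume : Measure (EuclideanSpace ℝ (Fin m × Fin n))).withDensity
        (fun x => F (rx n (Equiv.refl _) x))) K2 := by
        refine hsmall (EuclideanSpace ℝ (Fin m × Fin n)) _ (hprob _ _)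
          ((plm_haar _).withDensity (hms _ _) (hlc _ _)) (withDensity_absolutelyContinuous _ _) ?_
        rw [finrank_euclideanSpace, Fintype.card_prod, Fintype.card_fin, Fintype.card_fin]
        calc m * n ≤ 2 * 2 := Nat.mul_le_mul (by omega) (by omega)
          _ = 4 := rfl
      intro f hf hl
      exact (h1 f hf hl).trans (mul_le_mul_of_nonneg_right (le_max_right _ _)
        (integral_nonneg fun x => variance_nonneg _ _))
    · let σ : Fin n ⊕ Fin (m - n) ≃ Fin m :=
        finSumFinEquiv.trans (finCongr (by omega))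
      refine ⟨Fin n ⊕ Fin (m - n), inferInstance, σ, ?_⟩
      have h1 : AP ((volume : Measure (EuclideanSpace ℝ ((Fin n ⊕ Fin (m - n)) × Fin n))).withDensity
        (fun x => F (rx n σ x))) K1 := by
        refine hmain (Fin n) (Fin (m - n)) _ ?_ (hms _ σ) (hlc _ σ) ?_ (hprob _ σ)
        · rw [Fintype.card_congr σ, Fintype.card_fin]
          exact hm
        · intro u hu x
          have h2 := hρinv ((u : Matrix (Fin n ⊕ Fin (m - n)) (Fin n ⊕ Fin (m - n)) ℝ).submatrix
            σ.symm σ.symm) (by
              rw [Matrix.transpose_submatrix, Matrix.submatrix_mul_equiv, orth_left,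
                Matrix.submatrix_one_equiv]) (by
              rw [Matrix.det_submatrix_equiv_self]
              exact det_rot hu) (rx n σ x)
          change ENNReal.ofReal (ρ (rx n σ (act _ x))) = ENNReal.ofReal (ρ (rx n σ x))
          congr 1
          rw [← h2]
          congr 1
          funext i j
          rw [rx_apply, act_apply]
          simp only [Matrix.submatrix_apply, rx_apply]
          rw [← Equiv.sum_comp σ.symm]
      intro f hf hl
      exact (h1 f hf hl).trans (mul_le_mul_of_nonneg_right (le_max_left _ _)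
        (integral_nonneg fun x => variance_nonneg _ _))
  obtain ⟨r, _, σ, hAP⟩ := key
  have hLm : Measurable L := L.continuous_of_finiteDimensional.measurable
  have hμP : IsProbabilityMeasure μ := by
    rw [hμ]
    exact Measure.isProbabilityMeasure_map hLm.aemeasurable
  have hμPL : PLm μ := by
    rw [hμ]
    exact hPLX.map L hLm
  have hμAP : AP μ (max K1 K2) := by
    have := hprob r σ
    have h1 := ap_map_clm hAP
      ((LinearMap.toContinuousLinearMap L).comp (rx n σ : EuclideanSpace ℝ (r × Fin n) →L[ℝ] _))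
    have h2 : μ = ((volume : Measure (EuclideanSpace ℝ (r × Fin n))).withDensity
        (fun x => F (rx n σ x))).map ((LinearMap.toContinuousLinearMap L).comp
          (rx n σ : EuclideanSpace ℝ (r × Fin n) →L[ℝ] _)) := by
      rw [hμ, ← map_rx σ hFm, Measure.map_map hLm (rx n σ).continuous.measurable]
      rfl
    rw [h2]
    exact h1
  have hfin := hch k μ hμP hμPL (fun θ => by
    have h1 := clm_memLp hμPL (innerSL ℝ θ)
    have e : (fun x : EuclideanSpace ℝ (Fin k) => inner ℝ x θ) = fun x => innerSL ℝ θ x := by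
      funext x
      rw [innerSL_apply_apply, real_inner_comm]
    rw [e]
    exact h1) (max K1 K2) hK hμAP s hs hvar S hS
  have e : C0 / Real.sqrt (max K1 K2) / Real.sqrt s = C0 / Real.sqrt (max K1 K2 * s) := by
    rw [Real.sqrt_mul hK0.le, div_div]
  rw [e]
  exact hfin

end Pool.Agent.Lib.MP_6d896a_gt.OM
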